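import Pool.Agent.Lib.H29I.Defs

/-!
# Chunk A1: elementary facts on `e`, `dz`, `dot`, `IsG`

`e t = exp (2 π i t)`, `dz t` = distance of `t` to the nearest integer, `dot a b` = real scalar
product, `IsG z` = `z` is a Gaussian integer. All statements are elementary.
`four_dz_le`: `‖1 - e t‖ = 2 |sin (π t)|` and `|sin (π t)| ≥ 2 dz t` (Jordan's inequality, after
reduction of `t` modulo `1`).
-/

open Finset Complex

namespace H29I

theorem norm_e (t : ℝ) : ‖e t‖ = 1 := by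
  unfold e
  have h : (2 * (Real.pi : ℂ) * t * Complex.I) = ((2 * Real.pi * t : ℝ) : ℂ) * Complex.I := by
    push_cast; ring
  rw [h, Complex.norm_exp_ofReal_mul_I]

theorem e_zero : e 0 = 1 := by
  unfold e
  simp

theorem e_add (s t : ℝ) : e (s + t) = e s * e t := by
  unfold e
  rw [← Complex.exp_add]
  congr 1
  push_cast
  ring

theorem e_neg (t : ℝ) : e (-t) = (starRingEnd ℂ) (e t) := by
  unfold e
  rw [← Complex.exp_conj]
  congr 1
  simp only [map_mul, Complex.conj_ofReal, Complex.conj_I, map_ofNat]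
  push_cast
  ring

theorem e_int (n : ℤ) : e (n : ℝ) = 1 := by
  unfold e
  rw [Complex.exp_eq_one_iff]
  refine ⟨n, ?_⟩
  push_cast
  ring

theorem A1_norm_one_sub (t : ℝ) : ‖1 - e t‖ = 2 * |Real.sin (Real.pi * t)| := by
  have h1 : e t = Complex.exp (Complex.I * ((2 * Real.pi * t : ℝ) : ℂ)) := by
    unfold e
    congr 1
    push_cast
    ring
  rw [h1, norm_sub_rev, Complex.norm_exp_I_mul_ofReal_sub_one, Real.norm_eq_abs, abs_mul, abs_two]
  congr 3
  ring

theorem norm_one_sub_e_le (t : ℝ) : ‖1 - e t‖ ≤ 2 * Real.pi * |t| := by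
  rw [A1_norm_one_sub]
  have h1 : |Real.sin (Real.pi * t)| ≤ |Real.pi * t| := Real.abs_sin_le_abs
  rw [abs_mul, abs_of_pos Real.pi_pos] at h1
  linarith

theorem exists_int_dz (t : ℝ) : ∃ n : ℤ, |t - n| = dz t := ⟨round t, rfl⟩

theorem A1_dz_le (t : ℝ) (n : ℤ) : dz t ≤ |t - n| := round_le t n

theorem dz_nonneg (t : ℝ) : 0 ≤ dz t := abs_nonneg _

theorem dz_le_half (t : ℝ) : dz t ≤ 1 / 2 := abs_sub_round t

theorem dz_le_abs (t : ℝ) : dz t ≤ |t| := by
  have := A1_dz_le t 0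
  simpa using this

theorem four_dz_le (t : ℝ) : 4 * dz t ≤ ‖1 - e t‖ := by
  obtain ⟨n, hn⟩ := exists_int_dz t
  have h1 : e t = e (t - n) := by
    have h2 : e t = e ((t - n) + (n : ℝ)) := by congr 1; ring
    rw [h2, e_add, e_int, mul_one]
  rw [h1, A1_norm_one_sub]
  have hhalf := dz_le_half t
  have hpi := Real.pi_pos
  have h3 : |Real.pi * (t - n)| = Real.pi * dz t := by
    rw [abs_mul, abs_of_pos hpi, hn]
  have h4 := Real.mul_abs_le_abs_sin (x := Real.pi * (t - n)) (by rw [h3]; nlinarith)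
  rw [h3] at h4
  have h5 : 2 / Real.pi * (Real.pi * dz t) = 2 * dz t := by
    field_simp
  rw [h5] at h4
  linarith

theorem dz_eq_abs {t : ℝ} (h : |t| ≤ 1 / 2) : dz t = |t| := by
  apply le_antisymm (dz_le_abs t)
  obtain ⟨n, hn⟩ := exists_int_dz t
  rw [← hn]
  by_cases h0 : n = 0
  · subst h0
    simp
  · have h1 : (1 : ℝ) ≤ |(n : ℝ)| := by
      rw [← Int.cast_abs]
      exact_mod_cast Int.one_le_abs h0
    have h2 : |(n : ℝ)| ≤ |t - n| + |t| := by
      have : (n : ℝ) = -(t - n) + t := by ring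
      calc |(n : ℝ)| = |-(t - n) + t| := by rw [← this]
        _ ≤ |-(t - n)| + |t| := abs_add_le _ _
        _ = |t - n| + |t| := by rw [abs_neg]
    linarith

theorem dz_neg (t : ℝ) : dz (-t) = dz t := by
  have key : ∀ s : ℝ, dz (-s) ≤ dz s := by
    intro s
    obtain ⟨n, hn⟩ := exists_int_dz s
    have h := A1_dz_le (-s) (-n)
    have h2 : |-s - ((-n : ℤ) : ℝ)| = |s - n| := by
      have : -s - ((-n : ℤ) : ℝ) = -(s - n) := by push_cast; ring
      rw [this, abs_neg]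
    rw [h2, hn] at h
    exact h
  apply le_antisymm (key t)
  have := key (-t)
  rwa [neg_neg] at this

theorem dz_add_int (t : ℝ) (n : ℤ) : dz (t + n) = dz t := by
  have key : ∀ (s : ℝ) (m : ℤ), dz (s + m) ≤ dz s := by
    intro s m
    obtain ⟨k, hk⟩ := exists_int_dz s
    have h := A1_dz_le (s + m) (k + m)
    have h2 : s + m - ((k + m : ℤ) : ℝ) = s - k := by push_cast; ring
    rw [h2, hk] at h
    exact h
  apply le_antisymm (key t n)
  have := key (t + n) (-n)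
  have h2 : t + (n : ℝ) + ((-n : ℤ) : ℝ) = t := by push_cast; ring
  rwa [h2] at this

theorem dz_add_le (s t : ℝ) : dz (s + t) ≤ dz s + dz t := by
  obtain ⟨m, hm⟩ := exists_int_dz s
  obtain ⟨n, hn⟩ := exists_int_dz t
  have h := A1_dz_le (s + t) (m + n)
  have h2 : s + t - ((m + n : ℤ) : ℝ) = (s - m) + (t - n) := by push_cast; ring
  rw [h2] at h
  calc dz (s + t) ≤ |(s - m) + (t - n)| := h
    _ ≤ |s - m| + |t - n| := abs_add_le _ _
    _ = dz s + dz t := by rw [hm, hn]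

theorem dz_sub_le (s t : ℝ) : dz (s - t) ≤ dz s + dz t := by
  rw [sub_eq_add_neg]
  refine (dz_add_le s (-t)).trans ?_
  rw [dz_neg]

theorem dz_eq_zero_iff {t : ℝ} : dz t = 0 ↔ ∃ n : ℤ, (n : ℝ) = t := by
  constructor
  · intro h
    obtain ⟨n, hn⟩ := exists_int_dz t
    rw [h, abs_eq_zero, sub_eq_zero] at hn
    exact ⟨n, hn.symm⟩
  · rintro ⟨n, rfl⟩
    apply le_antisymm _ (dz_nonneg _)
    have := A1_dz_le (n : ℝ) n
    simpa using this

/-- If `q t` is an integer and `t` is not, then `dz t ≥ 1 / q`. -/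
theorem one_div_le_dz {q : ℕ} (hq : 1 ≤ q) {t : ℝ} (h : ∃ n : ℤ, (n : ℝ) = q * t)
    (ht : ¬ ∃ n : ℤ, (n : ℝ) = t) : 1 / (q : ℝ) ≤ dz t := by
  obtain ⟨n, hn⟩ := h
  obtain ⟨m, hm⟩ := exists_int_dz t
  have hq0 : (0 : ℝ) < q := by exact_mod_cast hq
  have h1 : n - q * m ≠ 0 := by
    intro h0
    apply ht
    refine ⟨m, ?_⟩
    have h2 : (n : ℝ) = q * m := by
      have : n = q * m := by linarith
      rw [this]; push_cast; ring
    rw [hn] at h2
    exact (mul_left_cancel₀ hq0.ne' h2).symm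
  have h3 : (1 : ℝ) ≤ |((n - q * m : ℤ) : ℝ)| := by
    rw [← Int.cast_abs]
    exact_mod_cast Int.one_le_abs h1
  have h4 : ((n - q * m : ℤ) : ℝ) = q * (t - m) := by
    push_cast
    rw [hn]
    ring
  rw [h4, abs_mul, abs_of_pos hq0, hm] at h3
  rw [div_le_iff₀ hq0]
  linarith

theorem dot_add_left (a b c : ℂ) : dot (a + b) c = dot a c + dot b c := by
  simp only [dot, Complex.add_re, Complex.add_im]
  ring

theorem dot_sub_left (a b c : ℂ) : dot (a - b) c = dot a c - dot b c := by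
  simp only [dot, Complex.sub_re, Complex.sub_im]
  ring

theorem dot_neg_left (a c : ℂ) : dot (-a) c = -dot a c := by
  simp only [dot, Complex.neg_re, Complex.neg_im]
  ring

theorem dot_add_right (a b c : ℂ) : dot a (b + c) = dot a b + dot a c := by
  simp only [dot, Complex.add_re, Complex.add_im]
  ring

theorem dot_sub_right (a b c : ℂ) : dot a (b - c) = dot a b - dot a c := by
  simp only [dot, Complex.sub_re, Complex.sub_im]
  ring

theorem dot_neg_right (a c : ℂ) : dot a (-c) = -dot a c := by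
  simp only [dot, Complex.neg_re, Complex.neg_im]
  ring

theorem dot_comm (a b : ℂ) : dot a b = dot b a := by
  simp only [dot]
  ring

theorem dot_zero_left (c : ℂ) : dot 0 c = 0 := by
  simp [dot]

theorem dot_mul_right (α z u : ℂ) : dot α (z * u) = dot (α * (starRingEnd ℂ) u) z := by
  simp only [dot, Complex.mul_re, Complex.mul_im, Complex.conj_re, Complex.conj_im]
  ring

theorem abs_dot_le (a b : ℂ) : |dot a b| ≤ ‖a‖ * (|b.re| + |b.im|) := by
  unfold dot
  have h1 := Complex.abs_re_le_norm a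
  have h2 := Complex.abs_im_le_norm a
  calc |a.re * b.re + a.im * b.im| ≤ |a.re * b.re| + |a.im * b.im| := abs_add_le _ _
    _ = |a.re| * |b.re| + |a.im| * |b.im| := by rw [abs_mul, abs_mul]
    _ ≤ ‖a‖ * |b.re| + ‖a‖ * |b.im| := by
        apply add_le_add
        · exact mul_le_mul_of_nonneg_right h1 (abs_nonneg _)
        · exact mul_le_mul_of_nonneg_right h2 (abs_nonneg _)
    _ = _ := by ring

theorem isG_coe (g : G) : IsG (g : ℂ) := ⟨g, rfl⟩

theorem isG_zero : IsG 0 := ⟨0, map_zero GaussianInt.toComplex⟩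

theorem isG_add {a b : ℂ} (ha : IsG a) (hb : IsG b) : IsG (a + b) := by
  obtain ⟨g, rfl⟩ := ha
  obtain ⟨h, rfl⟩ := hb
  exact ⟨g + h, GaussianInt.toComplex_add g h⟩

theorem isG_sub {a b : ℂ} (ha : IsG a) (hb : IsG b) : IsG (a - b) := by
  obtain ⟨g, rfl⟩ := ha
  obtain ⟨h, rfl⟩ := hb
  exact ⟨g - h, GaussianInt.toComplex_sub g h⟩

theorem isG_neg {a : ℂ} (ha : IsG a) : IsG (-a) := by
  obtain ⟨g, rfl⟩ := ha
  exact ⟨-g, GaussianInt.toComplex_neg g⟩

theorem isG_mul {a b : ℂ} (ha : IsG a) (hb : IsG b) : IsG (a * b) := by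
  obtain ⟨g, rfl⟩ := ha
  obtain ⟨h, rfl⟩ := hb
  exact ⟨g * h, GaussianInt.toComplex_mul g h⟩

theorem coe_star (w : G) : ((star w : G) : ℂ) = (starRingEnd ℂ) (w : ℂ) :=
  GaussianInt.toComplex_star w

theorem isG_conj {a : ℂ} (ha : IsG a) : IsG ((starRingEnd ℂ) a) := by
  obtain ⟨g, rfl⟩ := ha
  exact ⟨star g, coe_star g⟩

theorem coe_re (w : G) : (w : ℂ).re = (w.re : ℝ) := (GaussianInt.intCast_re w).symm

theorem coe_im (w : G) : (w : ℂ).im = (w.im : ℝ) := (GaussianInt.intCast_im w).symm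

theorem isG_iff {a : ℂ} : IsG a ↔ (∃ m : ℤ, (m : ℝ) = a.re) ∧ ∃ n : ℤ, (n : ℝ) = a.im := by
  constructor
  · rintro ⟨g, rfl⟩
    exact ⟨⟨g.re, (coe_re g).symm⟩, ⟨g.im, (coe_im g).symm⟩⟩
  · rintro ⟨⟨m, hm⟩, ⟨n, hn⟩⟩
    refine ⟨⟨m, n⟩, ?_⟩
    apply Complex.ext
    · rw [coe_re]
      exact hm
    · rw [coe_im]
      exact hn

/-- Characters with Gaussian integer frequency are trivial on the lattice. -/
theorem e_dot_eq_one {a : ℂ} (ha : IsG a) (x : G) : e (dot a (x : ℂ)) = 1 := by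
  obtain ⟨g, rfl⟩ := ha
  have h : dot (g : ℂ) (x : ℂ) = ((g.re * x.re + g.im * x.im : ℤ) : ℝ) := by
    unfold dot
    rw [coe_re, coe_im, coe_re, coe_im]
    push_cast
    ring
  rw [h, e_int]

/-- `‖w‖² = nrm w`. -/
theorem norm_sq_coe (w : G) : ‖(w : ℂ)‖ ^ 2 = (nrm w : ℝ) := by
  have h1 : (0 : ℤ) ≤ Zsqrtd.norm w := GaussianInt.norm_nonneg w
  have h2 : ((nrm w : ℕ) : ℤ) = Zsqrtd.norm w := Int.natAbs_of_nonneg h1
  have h3 : ((nrm w : ℕ) : ℝ) = ((Zsqrtd.norm w : ℤ) : ℝ) := by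
    rw [← h2]
    push_cast
    rfl
  rw [h3, GaussianInt.intCast_real_norm, Complex.normSq_eq_norm_sq]

theorem coe_mul_star (w : G) : (w : ℂ) * (starRingEnd ℂ) (w : ℂ) = ((nrm w : ℕ) : ℂ) := by
  rw [Complex.mul_conj, Complex.normSq_eq_norm_sq, norm_sq_coe]
  push_cast
  rfl

end H29I
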