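import Pool.Agent.Lib.H29I.A1

/-!
# Chunk A2: summation by parts

`H` vanishes outside `box R`. Then
`(e (ξ.re) - 1) ∑ H t e (dot ξ t) = ∑ (H (t - 1) - H t) e (dot ξ t)` (sum over the whole lattice, or
over `box (R + 1)` after a shift), `‖e s - 1‖ ≥ 4 dz s`, and `H (t + 1) ≠ H t` implies
`t ∈ box (R + 1)`. The same with `gi` in place of `1`.
-/

open Finset Complex

namespace H29I

/-- Sums over a box of a function supported in a smaller box. -/
theorem sum_box_eq {R R' : ℕ} (h : R ≤ R') {E : Type*} [AddCommMonoid E] {H : G → E}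
    (hH : ∀ x, x ∉ box R → H x = 0) : ∑ x ∈ box R', H x = ∑ x ∈ box R, H x :=
  (Finset.sum_subset (box_mono h) (fun x _ hx => hH x hx)).symm

/-- Shifting a sum: if `H` is supported in `box R` and `R + D ≤ R'`, where `d ∈ box D`. -/
theorem sum_box_shift {R D R' : ℕ} (h : R + D ≤ R') {E : Type*} [AddCommMonoid E] {H : G → E}
    (hH : ∀ x, x ∉ box R → H x = 0) {d : G} (hd : d ∈ box D) :
    ∑ x ∈ box R', H (x + d) = ∑ x ∈ box R, H x := by
  classical
  have h1 : ∑ x ∈ box R', H (x + d) = ∑ y ∈ (box R').image (fun x => x + d), H y := by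
    rw [Finset.sum_image]
    intro x _ y _ hxy
    exact add_right_cancel hxy
  rw [h1]
  symm
  apply Finset.sum_subset
  · intro y hy
    rw [Finset.mem_image]
    refine ⟨y - d, ?_, sub_add_cancel y d⟩
    rw [mem_box] at hy hd ⊢
    have hh : (R : ℤ) + D ≤ R' := by exact_mod_cast h
    rw [Zsqrtd.re_sub, Zsqrtd.im_sub]
    constructor
    · calc |y.re - d.re| ≤ |y.re| + |d.re| := abs_sub _ _
        _ ≤ (R' : ℤ) := by linarith [hy.1, hd.1]
    · calc |y.im - d.im| ≤ |y.im| + |d.im| := abs_sub _ _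
        _ ≤ (R' : ℤ) := by linarith [hy.2, hd.2]
  · intro y _ hy
    exact hH y hy

theorem A2_one_mem : (1 : G) ∈ box 1 := by
  rw [mem_box]
  constructor <;> simp

theorem A2_gi_mem : gi ∈ box 1 := by
  rw [mem_box]
  constructor <;> simp [gi]

theorem A2_sbp {R : ℕ} {H : G → ℂ} (hH : Supp H R) (ξ : ℂ) {d : G} (hd : d ∈ box 1) {s : ℝ}
    (hs : dot ξ (d : ℂ) = s) :
    4 * dz s * ‖∑ t ∈ box R, H t * e (dot ξ (t : ℂ))‖ ≤ ∑ t ∈ box (R + 1), ‖H (t + d) - H t‖ := by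
  set S := ∑ t ∈ box R, H t * e (dot ξ (t : ℂ)) with hS
  have hz : ∀ x, x ∉ box R → H x * e (dot ξ (x : ℂ)) = 0 := by
    intro x hx
    rw [hH x hx, zero_mul]
  have h1 : ∑ t ∈ box (R + 1), H t * e (dot ξ (t : ℂ)) = S :=
    sum_box_eq (Nat.le_succ R) hz
  have h2 : ∑ t ∈ box (R + 1), H (t + d) * e (dot ξ ((t + d : G) : ℂ)) = S :=
    sum_box_shift (H := fun t => H t * e (dot ξ (t : ℂ))) le_rfl hz hd
  have h3 : e (-s) * S = ∑ t ∈ box (R + 1), H (t + d) * e (dot ξ (t : ℂ)) := by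
    rw [← h2, Finset.mul_sum]
    apply Finset.sum_congr rfl
    intro t _
    rw [GaussianInt.toComplex_add, dot_add_right, hs, e_add]
    have h4 : e (-s) * e s = 1 := by
      rw [← e_add, neg_add_cancel, e_zero]
    linear_combination (H (t + d) * e (dot ξ (t : ℂ))) * h4
  have h5 : (e (-s) - 1) * S = ∑ t ∈ box (R + 1), (H (t + d) - H t) * e (dot ξ (t : ℂ)) := by
    rw [sub_mul, one_mul, h3]
    conv_lhs => rw [← h1]
    rw [← Finset.sum_sub_distrib]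
    apply Finset.sum_congr rfl
    intro t _
    ring
  have h6 : 4 * dz s ≤ ‖e (-s) - 1‖ := by
    rw [norm_sub_rev, ← dz_neg s]
    exact four_dz_le (-s)
  calc 4 * dz s * ‖S‖ ≤ ‖e (-s) - 1‖ * ‖S‖ := mul_le_mul_of_nonneg_right h6 (norm_nonneg _)
    _ = ‖(e (-s) - 1) * S‖ := (norm_mul _ _).symm
    _ = ‖∑ t ∈ box (R + 1), (H (t + d) - H t) * e (dot ξ (t : ℂ))‖ := by rw [h5]
    _ ≤ ∑ t ∈ box (R + 1), ‖(H (t + d) - H t) * e (dot ξ (t : ℂ))‖ := norm_sum_le _ _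
    _ = ∑ t ∈ box (R + 1), ‖H (t + d) - H t‖ := by
        apply Finset.sum_congr rfl
        intro t _
        rw [norm_mul, norm_e, mul_one]

theorem sbp_re {R : ℕ} {H : G → ℂ} (hH : Supp H R) (ξ : ℂ) :
    4 * dz ξ.re * ‖∑ t ∈ box R, H t * e (dot ξ (t : ℂ))‖ ≤ ∑ t ∈ box (R + 1), ‖H (t + 1) - H t‖ := by
  apply A2_sbp hH ξ A2_one_mem
  rw [GaussianInt.toComplex_one]
  simp [dot]

theorem sbp_im {R : ℕ} {H : G → ℂ} (hH : Supp H R) (ξ : ℂ) :
    4 * dz ξ.im * ‖∑ t ∈ box R, H t * e (dot ξ (t : ℂ))‖ ≤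
      ∑ t ∈ box (R + 1), ‖H (t + gi) - H t‖ := by
  apply A2_sbp hH ξ A2_gi_mem
  unfold dot
  rw [coe_re, coe_im]
  simp [gi]

end H29I
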