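import Pool.Agent.Lib.H29I.A2

/-!
# Chunk A3: the weight `psi` and its Fourier transform `K`

`phi Z n = min 1 (max 0 (2 - |n| / Z))`, `psi Z z = phi Z z.re * phi Z z.im`,
`K Z ξ = ∑_{z ∈ box (2 Z)} psi Z z e (dot ξ z) = k₁ (ξ.re) k₁ (ξ.im)` with
`k₁ t = ∑_{|n| ≤ 2 Z} phi Z n e (n t)`; `|k₁ t| ≤ 4 Z + 1 ≤ 5 Z` and
`4 dz t |k₁ t| ≤ ∑ |phi (n + 1) - phi n| = 2`. (One can also use `sbp_re` for `H = psi Z`, since
`∑_t |psi (t + 1) - psi t| ≤ 2 (4 Z + 1)`.)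
-/

open Finset Complex

namespace H29I

theorem phi_nonneg (Z : ℕ) (n : ℤ) : 0 ≤ phi Z n :=
  le_min zero_le_one (le_max_left _ _)

theorem phi_le_one (Z : ℕ) (n : ℤ) : phi Z n ≤ 1 := min_le_left _ _

theorem psi_nonneg (Z : ℕ) (z : G) : 0 ≤ psi Z z := mul_nonneg (phi_nonneg _ _) (phi_nonneg _ _)

theorem psi_le_one (Z : ℕ) (z : G) : psi Z z ≤ 1 :=
  mul_le_one₀ (phi_le_one _ _) (phi_nonneg _ _) (phi_le_one _ _)

theorem A3_phi_one {Z : ℕ} {n : ℤ} (h : |n| ≤ Z) : phi Z n = 1 := by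
  have h1 : |(n : ℝ)| ≤ Z := by
    rw [← Int.cast_abs]
    exact_mod_cast h
  have h2 : |(n : ℝ)| / Z ≤ 1 := div_le_one_of_le₀ h1 (Nat.cast_nonneg _)
  unfold phi
  rw [max_eq_right (by linarith), min_eq_left (by linarith)]

theorem A3_phi_zero {Z : ℕ} (hZ : 1 ≤ Z) {n : ℤ} (h : 2 * (Z : ℤ) ≤ |n|) : phi Z n = 0 := by
  have h1 : 2 * (Z : ℝ) ≤ |(n : ℝ)| := by
    rw [← Int.cast_abs]
    exact_mod_cast h
  have hZ' : (0 : ℝ) < Z := by exact_mod_cast hZ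
  have h2 : 2 ≤ |(n : ℝ)| / Z := by
    rw [le_div_iff₀ hZ']
    exact h1
  unfold phi
  rw [max_eq_left (by linarith), min_eq_right (by norm_num)]

theorem A3_phi_neg (Z : ℕ) (n : ℤ) : phi Z (-n) = phi Z n := by
  unfold phi
  push_cast
  rw [abs_neg]

theorem A3_phi_lip {Z : ℕ} (n : ℤ) : |phi Z (n + 1) - phi Z n| ≤ 1 / Z := by
  have h1 : |phi Z (n + 1) - phi Z n| ≤
      |(2 - |((n + 1 : ℤ) : ℝ)| / Z) - (2 - |(n : ℝ)| / Z)| := by
    unfold phi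
    refine (abs_min_sub_min_le_max _ _ _ _).trans ?_
    rw [sub_self, abs_zero]
    refine max_le (abs_nonneg _) ?_
    refine (abs_max_sub_max_le_max _ _ _ _).trans ?_
    rw [sub_self, abs_zero]
    exact max_le (abs_nonneg _) le_rfl
  refine h1.trans ?_
  have h2 : (2 - |((n + 1 : ℤ) : ℝ)| / Z) - (2 - |(n : ℝ)| / Z) =
      (|(n : ℝ)| - |((n + 1 : ℤ) : ℝ)|) / Z := by ring
  have h3 : |(|(n : ℝ)| - |((n + 1 : ℤ) : ℝ)|)| ≤ 1 := by
    refine (abs_abs_sub_abs_le_abs_sub _ _).trans ?_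
    have h4 : (n : ℝ) - ((n + 1 : ℤ) : ℝ) = -1 := by push_cast; ring
    rw [h4]
    norm_num
  rw [h2, abs_div, abs_of_nonneg (Nat.cast_nonneg Z : (0 : ℝ) ≤ Z)]
  exact div_le_div_of_nonneg_right h3 (Nat.cast_nonneg _)

theorem psi_eq_one {Z : ℕ} {z : G} (hz : z ∈ box Z) : psi Z z = 1 := by
  rw [mem_box] at hz
  unfold psi
  rw [A3_phi_one hz.1, A3_phi_one hz.2, mul_one]

theorem psi_eq_zero {Z : ℕ} (hZ : 1 ≤ Z) {z : G} (hz : z ∉ box (2 * Z)) : psi Z z = 0 := by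
  rw [mem_box, not_and_or, not_le, not_le] at hz
  unfold psi
  push_cast at hz
  rcases hz with h | h
  · rw [A3_phi_zero hZ h.le, zero_mul]
  · rw [A3_phi_zero hZ h.le, mul_zero]

theorem A3_card {Z : ℕ} (hZ : 1 ≤ Z) : (((box (2 * Z)).card : ℕ) : ℝ) ≤ 25 * (Z : ℝ) ^ 2 := by
  rw [card_box]
  have hZ' : (1 : ℝ) ≤ Z := by exact_mod_cast hZ
  push_cast
  nlinarith

theorem sum_psi_le {Z : ℕ} (hZ : 1 ≤ Z) : ∑ z ∈ box (2 * Z), psi Z z ≤ 25 * (Z : ℝ) ^ 2 := by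
  calc ∑ z ∈ box (2 * Z), psi Z z ≤ ∑ z ∈ box (2 * Z), (1 : ℝ) :=
        Finset.sum_le_sum (fun z _ => psi_le_one Z z)
    _ = ((box (2 * Z)).card : ℝ) := by rw [Finset.sum_const, nsmul_eq_mul, mul_one]
    _ ≤ _ := A3_card hZ

theorem K_neg (Z : ℕ) (ξ : ℂ) : K Z (-ξ) = K Z ξ := by
  unfold K
  apply Finset.sum_nbij' (fun z => -z) (fun z => -z)
  · intro z hz
    rw [mem_box] at hz ⊢
    rw [Zsqrtd.re_neg, Zsqrtd.im_neg, abs_neg, abs_neg]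
    exact hz
  · intro z hz
    rw [mem_box] at hz ⊢
    rw [Zsqrtd.re_neg, Zsqrtd.im_neg, abs_neg, abs_neg]
    exact hz
  · intro z _
    exact neg_neg z
  · intro z _
    exact neg_neg z
  · intro z _
    have h1 : psi Z (-z) = psi Z z := by
      unfold psi
      rw [Zsqrtd.re_neg, Zsqrtd.im_neg, A3_phi_neg, A3_phi_neg]
    rw [h1, GaussianInt.toComplex_neg, dot_neg_left, dot_neg_right]

theorem norm_K_le {Z : ℕ} (hZ : 1 ≤ Z) (ξ : ℂ) : ‖K Z ξ‖ ≤ 25 * (Z : ℝ) ^ 2 := by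
  unfold K
  refine (norm_sum_le _ _).trans (le_trans (le_of_eq ?_) (sum_psi_le hZ))
  apply Finset.sum_congr rfl
  intro z _
  rw [norm_mul, norm_e, mul_one, Complex.norm_real, Real.norm_eq_abs, abs_of_nonneg (psi_nonneg Z z)]

theorem A3_sum_box (R : ℕ) (f : ℤ → ℤ → ℝ) : ∑ t ∈ box R, f t.re t.im =
    ∑ a ∈ Icc (-(R : ℤ)) R, ∑ b ∈ Icc (-(R : ℤ)) R, f a b := by
  unfold box
  rw [Finset.sum_map, Finset.sum_product]
  rfl

theorem A3_sum_diff {Z : ℕ} (hZ : 1 ≤ Z) :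
    ∑ n ∈ Icc (-((2 * Z + 1 : ℕ) : ℤ)) ((2 * Z + 1 : ℕ) : ℤ), |phi Z (n + 1) - phi Z n| ≤ 2 := by
  classical
  set A : Finset ℤ := Icc (-(2 * (Z : ℤ))) (-(Z : ℤ) - 1) ∪ Icc (Z : ℤ) (2 * (Z : ℤ) - 1) with hA
  have hZ' : (0 : ℝ) < Z := by exact_mod_cast hZ
  have hZi : (1 : ℤ) ≤ Z := by exact_mod_cast hZ
  have hsub : A ⊆ Icc (-((2 * Z + 1 : ℕ) : ℤ)) ((2 * Z + 1 : ℕ) : ℤ) := by
    intro n hn
    rw [hA, Finset.mem_union, Finset.mem_Icc, Finset.mem_Icc] at hn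
    rw [Finset.mem_Icc]
    push_cast
    omega
  rw [← Finset.sum_subset hsub]
  · have hcard : A.card ≤ 2 * Z := by
      refine (Finset.card_union_le _ _).trans ?_
      rw [Int.card_Icc, Int.card_Icc]
      omega
    calc ∑ n ∈ A, |phi Z (n + 1) - phi Z n| ≤ ∑ n ∈ A, (1 / (Z : ℝ)) :=
          Finset.sum_le_sum (fun n _ => A3_phi_lip n)
      _ = (A.card : ℝ) * (1 / Z) := by rw [Finset.sum_const, nsmul_eq_mul]
      _ ≤ ((2 * Z : ℕ) : ℝ) * (1 / Z) := by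
          apply mul_le_mul_of_nonneg_right _ (by positivity)
          exact_mod_cast hcard
      _ = 2 := by
          push_cast
          field_simp
  · intro n _ hn
    rw [hA, Finset.mem_union, Finset.mem_Icc, Finset.mem_Icc, not_or, not_and_or, not_and_or] at hn
    have h3 : n ≤ -(2 * (Z : ℤ)) - 1 ∨ (-(Z : ℤ) ≤ n ∧ n ≤ Z - 1) ∨ 2 * (Z : ℤ) ≤ n := by omega
    rcases h3 with h | h | h
    · rw [A3_phi_zero hZ (n := n), A3_phi_zero hZ (n := n + 1)]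
      · simp
      · rw [abs_of_nonpos (by omega)]; omega
      · rw [abs_of_nonpos (by omega)]; omega
    · rw [A3_phi_one (n := n), A3_phi_one (n := n + 1)]
      · simp
      · rw [abs_le]; omega
      · rw [abs_le]; omega
    · rw [A3_phi_zero hZ (n := n), A3_phi_zero hZ (n := n + 1)]
      · simp
      · rw [abs_of_nonneg (by omega)]; omega
      · rw [abs_of_nonneg (by omega)]; omega

theorem A3_sum_phi {Z : ℕ} (hZ : 1 ≤ Z) :
    ∑ n ∈ Icc (-((2 * Z + 1 : ℕ) : ℤ)) ((2 * Z + 1 : ℕ) : ℤ), phi Z n ≤ 5 * Z := by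
  classical
  have hsub : Icc (-((2 * Z : ℕ) : ℤ)) ((2 * Z : ℕ) : ℤ) ⊆
      Icc (-((2 * Z + 1 : ℕ) : ℤ)) ((2 * Z + 1 : ℕ) : ℤ) := by
    apply Finset.Icc_subset_Icc <;> push_cast <;> omega
  have hZ' : (1 : ℝ) ≤ Z := by exact_mod_cast hZ
  rw [← Finset.sum_subset hsub]
  · calc ∑ n ∈ Icc (-((2 * Z : ℕ) : ℤ)) ((2 * Z : ℕ) : ℤ), phi Z n
        ≤ ∑ n ∈ Icc (-((2 * Z : ℕ) : ℤ)) ((2 * Z : ℕ) : ℤ), (1 : ℝ) :=
          Finset.sum_le_sum (fun n _ => phi_le_one Z n)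
      _ = ((4 * Z + 1 : ℕ) : ℝ) := by
          rw [Finset.sum_const, nsmul_eq_mul, mul_one, Int.card_Icc]
          congr 1
          push_cast
          omega
      _ ≤ 5 * Z := by
          push_cast
          linarith
  · intro n _ hn
    apply A3_phi_zero hZ
    rw [Finset.mem_Icc, not_and_or, not_le, not_le] at hn
    push_cast at hn
    rcases hn with h | h
    · rw [abs_of_nonpos (by omega)]; omega
    · rw [abs_of_nonneg (by omega)]; omega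

theorem A3_supp {Z : ℕ} (hZ : 1 ≤ Z) : Supp (fun z => (psi Z z : ℂ)) (2 * Z) := by
  intro z hz
  show ((psi Z z : ℝ) : ℂ) = 0
  rw [psi_eq_zero hZ hz]
  rfl

theorem dz_re_mul_norm_K_le {Z : ℕ} (hZ : 1 ≤ Z) (ξ : ℂ) : dz ξ.re * ‖K Z ξ‖ ≤ 5 / 2 * Z := by
  have h1 := sbp_re (A3_supp hZ) ξ
  have h2 : ∑ t ∈ box (2 * Z + 1), ‖((psi Z (t + 1) : ℝ) : ℂ) - ((psi Z t : ℝ) : ℂ)‖ ≤ 2 * (5 * Z) := by
    have h3 : ∀ t ∈ box (2 * Z + 1), ‖((psi Z (t + 1) : ℝ) : ℂ) - ((psi Z t : ℝ) : ℂ)‖ =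
        |phi Z (t.re + 1) - phi Z t.re| * phi Z t.im := by
      intro t _
      rw [← Complex.ofReal_sub, Complex.norm_real, Real.norm_eq_abs]
      unfold psi
      have h4 : (t + 1 : G).re = t.re + 1 := by simp
      have h5 : (t + 1 : G).im = t.im := by simp
      rw [h4, h5, ← sub_mul, abs_mul, abs_of_nonneg (phi_nonneg Z t.im)]
    rw [Finset.sum_congr rfl h3,
      A3_sum_box (2 * Z + 1) (fun a b => |phi Z (a + 1) - phi Z a| * phi Z b),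
      ← Finset.sum_mul_sum]
    exact mul_le_mul (A3_sum_diff hZ) (A3_sum_phi hZ)
      (Finset.sum_nonneg (fun n _ => phi_nonneg Z n)) (by norm_num)
  have h6 : 4 * dz ξ.re * ‖K Z ξ‖ ≤ 2 * (5 * Z) := h1.trans h2
  linarith

theorem dz_im_mul_norm_K_le {Z : ℕ} (hZ : 1 ≤ Z) (ξ : ℂ) : dz ξ.im * ‖K Z ξ‖ ≤ 5 / 2 * Z := by
  have h1 := sbp_im (A3_supp hZ) ξ
  have h2 : ∑ t ∈ box (2 * Z + 1), ‖((psi Z (t + gi) : ℝ) : ℂ) - ((psi Z t : ℝ) : ℂ)‖ ≤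
      (5 * Z) * 2 := by
    have h3 : ∀ t ∈ box (2 * Z + 1), ‖((psi Z (t + gi) : ℝ) : ℂ) - ((psi Z t : ℝ) : ℂ)‖ =
        phi Z t.re * |phi Z (t.im + 1) - phi Z t.im| := by
      intro t _
      rw [← Complex.ofReal_sub, Complex.norm_real, Real.norm_eq_abs]
      unfold psi
      have h4 : (t + gi : G).re = t.re := by simp [gi]
      have h5 : (t + gi : G).im = t.im + 1 := by simp [gi]
      rw [h4, h5, ← mul_sub, abs_mul, abs_of_nonneg (phi_nonneg Z t.re)]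
    rw [Finset.sum_congr rfl h3,
      A3_sum_box (2 * Z + 1) (fun a b => phi Z a * |phi Z (b + 1) - phi Z b|),
      ← Finset.sum_mul_sum]
    exact mul_le_mul (A3_sum_phi hZ) (A3_sum_diff hZ)
      (Finset.sum_nonneg (fun n _ => abs_nonneg _)) (by positivity)
  have h6 : 4 * dz ξ.im * ‖K Z ξ‖ ≤ (5 * Z) * 2 := h1.trans h2
  linarith

end H29I
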