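import Pool.Agent.Lib.H29I.A2

/-!
# Chunk A4: Fourier inversion and Parseval on a box

`FT B f ξ = ∑_{x ∈ box B} f x e (-dot ξ x)`; frequencies `(a + b i) / M`, `0 ≤ a, b < M`. Since
`∑_{a < M} e (a n / M) = M` if `M ∣ n` and `0` otherwise, and two points `x, y ∈ box B` which are
congruent modulo `M` in both coordinates are equal if `2 B + 1 ≤ M`.
-/

open Finset Complex

namespace H29I

/-- The grid of frequencies. -/
noncomputable def fr (M : ℕ) (p : ℕ × ℕ) : ℂ := ((p.1 : ℂ) + (p.2 : ℂ) * Complex.I) / (M : ℂ)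

theorem A4_e_pow (t : ℝ) (a : ℕ) : e (a * t) = e t ^ a := by
  induction a with
  | zero =>
    rw [pow_zero, Nat.cast_zero, zero_mul, e_zero]
  | succ a ih =>
    rw [pow_succ, ← ih, ← e_add]
    congr 1
    push_cast
    ring

theorem A4_geom {M : ℕ} (hM : 1 ≤ M) {n : ℤ} (hn : ¬ (M : ℤ) ∣ n) :
    ∑ a ∈ range M, e (a * ((n : ℝ) / M)) = 0 := by
  have hM' : (0 : ℝ) < M := by exact_mod_cast hM
  have h1 : e ((n : ℝ) / M) ≠ 1 := by
    intro h
    have h2 := four_dz_le ((n : ℝ) / M)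
    rw [h, sub_self, norm_zero] at h2
    have h3 : dz ((n : ℝ) / M) = 0 := le_antisymm (by linarith) (dz_nonneg _)
    obtain ⟨m, hm⟩ := dz_eq_zero_iff.1 h3
    apply hn
    refine ⟨m, ?_⟩
    rw [eq_div_iff hM'.ne'] at hm
    have : ((n : ℤ) : ℝ) = ((M * m : ℤ) : ℝ) := by
      rw [← hm]; push_cast; ring
    exact_mod_cast this
  have h2 : ∑ a ∈ range M, e (a * ((n : ℝ) / M)) = ∑ a ∈ range M, e ((n : ℝ) / M) ^ a :=
    Finset.sum_congr rfl (fun a _ => A4_e_pow _ _)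
  rw [h2]
  have h3 := mul_geom_sum (e ((n : ℝ) / M)) M
  have h4 : e ((n : ℝ) / M) ^ M = 1 := by
    rw [← A4_e_pow, mul_div_cancel₀ _ hM'.ne', e_int]
  rw [h4, sub_self] at h3
  rcases mul_eq_zero.1 h3 with h5 | h5
  · exact absurd (sub_eq_zero.1 h5) h1
  · exact h5

theorem A4_dot_fr (M : ℕ) (p : ℕ × ℕ) (z : G) :
    dot (fr M p) (z : ℂ) = p.1 * ((z.re : ℝ) / M) + p.2 * ((z.im : ℝ) / M) := by
  have h1 : (fr M p).re = (p.1 : ℝ) / M := by
    unfold fr
    rw [Complex.div_natCast_re]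
    simp
  have h2 : (fr M p).im = (p.2 : ℝ) / M := by
    unfold fr
    rw [Complex.div_natCast_im]
    simp
  unfold dot
  rw [h1, h2, coe_re, coe_im]
  ring

theorem A4_orth {B M : ℕ} (hM : 2 * B + 1 ≤ M) {x y : G} (hx : x ∈ box B) (hy : y ∈ box B) :
    ∑ p ∈ range M ×ˢ range M, e (dot (fr M p) (y : ℂ) - dot (fr M p) (x : ℂ)) =
      if x = y then (M : ℂ) ^ 2 else 0 := by
  have hM1 : 1 ≤ M := by omega
  have h1 : ∀ p ∈ range M ×ˢ range M, e (dot (fr M p) (y : ℂ) - dot (fr M p) (x : ℂ)) =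
      e (p.1 * (((y.re - x.re : ℤ) : ℝ) / M)) * e (p.2 * (((y.im - x.im : ℤ) : ℝ) / M)) := by
    intro p _
    rw [A4_dot_fr, A4_dot_fr, ← e_add]
    congr 1
    push_cast
    ring
  rw [Finset.sum_congr rfl h1, Finset.sum_product]
  have h2 : ∑ a ∈ range M, ∑ b ∈ range M,
      e ((a : ℕ) * (((y.re - x.re : ℤ) : ℝ) / M)) * e ((b : ℕ) * (((y.im - x.im : ℤ) : ℝ) / M)) =
      (∑ a ∈ range M, e ((a : ℕ) * (((y.re - x.re : ℤ) : ℝ) / M))) *
      ∑ b ∈ range M, e ((b : ℕ) * (((y.im - x.im : ℤ) : ℝ) / M)) := by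
    rw [Finset.sum_mul_sum]
  refine h2.trans ?_
  rw [mem_box] at hx hy
  have hMB : 2 * (B : ℤ) + 1 ≤ M := by exact_mod_cast hM
  have hre : (M : ℤ) ∣ (y.re - x.re) → y.re = x.re := by
    intro h
    have h3 := Int.eq_zero_of_abs_lt_dvd h (by
      have := abs_sub y.re x.re
      omega)
    omega
  have him : (M : ℤ) ∣ (y.im - x.im) → y.im = x.im := by
    intro h
    have h3 := Int.eq_zero_of_abs_lt_dvd h (by
      have := abs_sub y.im x.im
      omega)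
    omega
  by_cases hxy : x = y
  · subst hxy
    rw [if_pos rfl, sub_self, sub_self]
    simp only [Int.cast_zero, zero_div, mul_zero, e_zero, Finset.sum_const, Finset.card_range,
      nsmul_eq_mul, mul_one]
    ring
  · rw [if_neg hxy]
    by_cases h3 : y.re = x.re
    · have h4 : ¬ (M : ℤ) ∣ (y.im - x.im) := by
        intro h
        apply hxy
        rw [Zsqrtd.ext_iff]
        exact ⟨h3.symm, (him h).symm⟩
      rw [A4_geom hM1 h4, mul_zero]
    · rw [A4_geom hM1 (fun h => h3 (hre h)), zero_mul]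

theorem inversion {B M : ℕ} (hM : 2 * B + 1 ≤ M) (f : G → ℂ) {y : G} (hy : y ∈ box B) :
    f y = ((M : ℂ) ^ 2)⁻¹ * ∑ p ∈ range M ×ˢ range M,
      FT B f (fr M p) * e (dot (fr M p) (y : ℂ)) := by
  classical
  have hM0 : (M : ℂ) ≠ 0 := by
    have : M ≠ 0 := by omega
    exact_mod_cast this
  have h1 : ∑ p ∈ range M ×ˢ range M, FT B f (fr M p) * e (dot (fr M p) (y : ℂ)) =
      ∑ x ∈ box B, f x * ∑ p ∈ range M ×ˢ range M,
        e (dot (fr M p) (y : ℂ) - dot (fr M p) (x : ℂ)) := by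
    unfold FT
    simp only [Finset.sum_mul, Finset.mul_sum]
    rw [Finset.sum_comm]
    apply Finset.sum_congr rfl
    intro x _
    apply Finset.sum_congr rfl
    intro p _
    rw [sub_eq_add_neg, e_add]
    ring
  rw [h1, Finset.sum_congr rfl (fun x hx => by rw [A4_orth hM hx hy])]
  rw [Finset.sum_eq_single y]
  · rw [if_pos rfl]
    field_simp
  · intro x _ hxy
    rw [if_neg hxy, mul_zero]
  · intro h
    exact absurd hy h

theorem parseval {B M : ℕ} (hM : 2 * B + 1 ≤ M) (f : G → ℂ) :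
    ∑ x ∈ box B, ‖f x‖ ^ 2 = ((M : ℝ) ^ 2)⁻¹ * ∑ p ∈ range M ×ˢ range M, ‖FT B f (fr M p)‖ ^ 2 := by
  have key : (((∑ x ∈ box B, ‖f x‖ ^ 2 : ℝ)) : ℂ) =
      ((((M : ℝ) ^ 2)⁻¹ * ∑ p ∈ range M ×ˢ range M, ‖FT B f (fr M p)‖ ^ 2 : ℝ) : ℂ) := by
    push_cast
    have h1 : ∀ x ∈ box B, ((‖f x‖ : ℝ) : ℂ) ^ 2 = ((M : ℂ) ^ 2)⁻¹ * ∑ p ∈ range M ×ˢ range M,
        FT B f (fr M p) * ((starRingEnd ℂ) (f x) * e (dot (fr M p) (x : ℂ))) := by
      intro x hx
      have h2 : ((‖f x‖ : ℝ) : ℂ) ^ 2 = (starRingEnd ℂ) (f x) * f x := by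
        rw [Complex.conj_mul']
      refine h2.trans ((congrArg (fun z => (starRingEnd ℂ) (f x) * z) (inversion hM f hx)).trans ?_)
      simp only [Finset.mul_sum]
      apply Finset.sum_congr rfl
      intro p _
      ring
    rw [Finset.sum_congr rfl h1, ← Finset.mul_sum, Finset.sum_comm]
    congr 1
    apply Finset.sum_congr rfl
    intro p _
    rw [← Finset.mul_sum, ← Complex.mul_conj']
    congr 1
    unfold FT
    rw [map_sum]
    apply Finset.sum_congr rfl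
    intro x _
    rw [map_mul, e_neg, Complex.conj_conj]
  exact_mod_cast key

/-- `FT` does not depend on the box, as long as the box contains the support. -/
theorem FT_eq {B B' : ℕ} (h : B ≤ B') {f : G → ℂ} (hf : Supp f B) (ξ : ℂ) :
    FT B' f ξ = FT B f ξ := by
  unfold FT
  apply sum_box_eq h
  intro x hx
  rw [hf x hx, zero_mul]

theorem l2_nonneg (B : ℕ) (f : G → ℂ) : 0 ≤ l2 B f := Real.sqrt_nonneg _

theorem l2_sq (B : ℕ) (f : G → ℂ) : l2 B f ^ 2 = ∑ x ∈ box B, ‖f x‖ ^ 2 :=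
  Real.sq_sqrt (Finset.sum_nonneg (fun _ _ => sq_nonneg _))

theorem l2_eq {B B' : ℕ} (h : B ≤ B') {f : G → ℂ} (hf : Supp f B) : l2 B' f = l2 B f := by
  unfold l2
  rw [sum_box_eq h]
  intro x hx
  rw [hf x hx, norm_zero]
  norm_num

end H29I
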