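import Pool.Agent.Lib.H29I.A4

/-!
# Chunk A5: the bound for a form in two functions

`g` is supported in `box B₂`, its Fourier transform is `FT B₂' g₀ · μ`. Choose
`B' = B₁ + D + B₂` and `M = 2 B' + 2 B₂' + 1`. Inversion for `g` (supported in `box B'`) at the
points `x + d j ∈ box B'` gives
`∑_j c_j ∑_{x ∈ box B₁} f x g (x + d_j)
  = M⁻² ∑_p FT g (ξ_p) (∑_j c_j e (dot ξ_p d_j)) (∑_{x ∈ box B₁} f x e (dot ξ_p x))`,
which is bounded by `κ M⁻² ∑_p ‖FT B₂' g₀ (ξ_p)‖ ‖FT B₁ (conj f) (ξ_p)‖`; use Cauchy-Schwarz and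
`parseval` twice.
-/

open Finset Complex

namespace H29I

theorem A5_l2_conj (B : ℕ) (f : G → ℂ) : l2 B (fun x => (starRingEnd ℂ) (f x)) = l2 B f := by
  unfold l2
  congr 1
  apply Finset.sum_congr rfl
  intro x _
  rw [RCLike.norm_conj]

theorem A5_norm_FT_conj (B : ℕ) (f : G → ℂ) (ξ : ℂ) :
    ‖∑ x ∈ box B, f x * e (dot ξ (x : ℂ))‖ = ‖FT B (fun x => (starRingEnd ℂ) (f x)) ξ‖ := by
  rw [← RCLike.norm_conj (∑ x ∈ box B, f x * e (dot ξ (x : ℂ)))]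
  congr 1
  unfold FT
  rw [map_sum]
  apply Finset.sum_congr rfl
  intro x _
  rw [map_mul, e_neg]

theorem A5_add_mem {B D : ℕ} {x d : G} (hx : x ∈ box B) (hd : d ∈ box D) : x + d ∈ box (B + D) := by
  rw [mem_box] at hx hd ⊢
  rw [Zsqrtd.re_add, Zsqrtd.im_add]
  push_cast
  exact ⟨(abs_add_le _ _).trans (add_le_add hx.1 hd.1), (abs_add_le _ _).trans (add_le_add hx.2 hd.2)⟩

theorem A5_parseval {B M : ℕ} (hM : 2 * B + 1 ≤ M) (f : G → ℂ) :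
    √(∑ p ∈ range M ×ˢ range M, ‖FT B f (fr M p)‖ ^ 2) = M * l2 B f := by
  have hM0 : (0 : ℝ) < M := by
    have : 0 < M := by omega
    exact_mod_cast this
  have h1 := parseval hM f
  have h2 : ∑ p ∈ range M ×ˢ range M, ‖FT B f (fr M p)‖ ^ 2 = (M * l2 B f) ^ 2 := by
    rw [mul_pow, l2_sq, h1]
    field_simp
  rw [h2, Real.sqrt_sq (mul_nonneg hM0.le (l2_nonneg B f))]

theorem two_fun {ι : Type*} (J : Finset ι) (c : ι → ℂ) (d : ι → G) {B₁ B₂ B₂' D : ℕ}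
    {f g g₀ : G → ℂ} {μ : ℂ → ℂ} {κ : ℝ} (hd : ∀ j ∈ J, d j ∈ box D) (hg : Supp g B₂)
    (hFT : ∀ ξ, FT B₂ g ξ = FT B₂' g₀ ξ * μ ξ)
    (hκ : ∀ ξ, ‖∑ j ∈ J, c j * e (dot ξ (d j : ℂ))‖ * ‖μ ξ‖ ≤ κ) :
    ‖∑ j ∈ J, c j * ∑ x ∈ box B₁, f x * g (x + d j)‖ ≤ κ * l2 B₁ f * l2 B₂' g₀ := by
  classical
  have hκ0 : 0 ≤ κ := (mul_nonneg (norm_nonneg _) (norm_nonneg _)).trans (hκ 0)
  set B' : ℕ := B₁ + D + B₂ with hB'
  set M : ℕ := 2 * B' + 2 * B₂' + 1 with hM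
  have hM0 : (0 : ℝ) < M := by
    have : 0 < M := by omega
    exact_mod_cast this
  have hgB' : ∀ ξ, FT B' g ξ = FT B₂' g₀ ξ * μ ξ := by
    intro ξ
    rw [FT_eq (B := B₂) (by omega) hg, hFT]
  have h1 : ∑ j ∈ J, c j * ∑ x ∈ box B₁, f x * g (x + d j) =
      ((M : ℂ) ^ 2)⁻¹ * ∑ p ∈ range M ×ˢ range M, FT B' g (fr M p) *
        (∑ j ∈ J, c j * e (dot (fr M p) (d j : ℂ))) *
        ∑ x ∈ box B₁, f x * e (dot (fr M p) (x : ℂ)) := by
    have h2 : ∀ j ∈ J, c j * ∑ x ∈ box B₁, f x * g (x + d j) =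
        ((M : ℂ) ^ 2)⁻¹ * ∑ p ∈ range M ×ˢ range M, FT B' g (fr M p) *
          (c j * e (dot (fr M p) (d j : ℂ))) *
          ∑ x ∈ box B₁, f x * e (dot (fr M p) (x : ℂ)) := by
      intro j hj
      have h3 : ∀ x ∈ box B₁, f x * g (x + d j) = ((M : ℂ) ^ 2)⁻¹ * ∑ p ∈ range M ×ˢ range M,
          FT B' g (fr M p) * e (dot (fr M p) (d j : ℂ)) * (f x * e (dot (fr M p) (x : ℂ))) := by
        intro x hx
        have hmem : x + d j ∈ box B' := by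
          have := box_mono (Nat.le_add_right (B₁ + D) B₂) (A5_add_mem hx (hd j hj))
          exact this
        rw [inversion (by omega : 2 * B' + 1 ≤ M) g hmem]
        simp only [Finset.mul_sum]
        apply Finset.sum_congr rfl
        intro p _
        rw [GaussianInt.toComplex_add, dot_add_right, e_add]
        ring
      rw [Finset.sum_congr rfl h3, ← Finset.mul_sum, Finset.sum_comm]
      rw [← mul_assoc, mul_comm (c j), mul_assoc]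
      congr 1
      rw [Finset.mul_sum]
      apply Finset.sum_congr rfl
      intro p _
      rw [← Finset.mul_sum]
      ring
    rw [Finset.sum_congr rfl h2, ← Finset.mul_sum, Finset.sum_comm]
    congr 1
    apply Finset.sum_congr rfl
    intro p _
    rw [← Finset.sum_mul, ← Finset.mul_sum]
  rw [h1, norm_mul]
  have h4 : ‖((M : ℂ) ^ 2)⁻¹‖ = ((M : ℝ) ^ 2)⁻¹ := by
    rw [norm_inv, norm_pow, Complex.norm_natCast]
  rw [h4]
  have h5 : ‖∑ p ∈ range M ×ˢ range M, FT B' g (fr M p) *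
        (∑ j ∈ J, c j * e (dot (fr M p) (d j : ℂ))) *
        ∑ x ∈ box B₁, f x * e (dot (fr M p) (x : ℂ))‖ ≤
      κ * ((M * l2 B₂' g₀) * (M * l2 B₁ f)) := by
    calc _ ≤ ∑ p ∈ range M ×ˢ range M, ‖FT B' g (fr M p) *
        (∑ j ∈ J, c j * e (dot (fr M p) (d j : ℂ))) *
        ∑ x ∈ box B₁, f x * e (dot (fr M p) (x : ℂ))‖ := norm_sum_le _ _
      _ ≤ ∑ p ∈ range M ×ˢ range M, κ * (‖FT B₂' g₀ (fr M p)‖ *
          ‖FT B₁ (fun x => (starRingEnd ℂ) (f x)) (fr M p)‖) := by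
          apply Finset.sum_le_sum
          intro p _
          rw [norm_mul, norm_mul, A5_norm_FT_conj, hgB', norm_mul]
          have h6 := hκ (fr M p)
          have h7 := mul_nonneg (norm_nonneg (FT B₂' g₀ (fr M p)))
            (norm_nonneg (FT B₁ (fun x => (starRingEnd ℂ) (f x)) (fr M p)))
          calc _ = (‖∑ j ∈ J, c j * e (dot (fr M p) (d j : ℂ))‖ * ‖μ (fr M p)‖) *
                (‖FT B₂' g₀ (fr M p)‖ *
                ‖FT B₁ (fun x => (starRingEnd ℂ) (f x)) (fr M p)‖) := by ring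
            _ ≤ _ := mul_le_mul_of_nonneg_right h6 h7
      _ = κ * ∑ p ∈ range M ×ˢ range M, ‖FT B₂' g₀ (fr M p)‖ *
          ‖FT B₁ (fun x => (starRingEnd ℂ) (f x)) (fr M p)‖ := by rw [← Finset.mul_sum]
      _ ≤ κ * (√(∑ p ∈ range M ×ˢ range M, ‖FT B₂' g₀ (fr M p)‖ ^ 2) *
          √(∑ p ∈ range M ×ˢ range M, ‖FT B₁ (fun x => (starRingEnd ℂ) (f x)) (fr M p)‖ ^ 2)) := by
          apply mul_le_mul_of_nonneg_left _ hκ0
          exact Real.sum_mul_le_sqrt_mul_sqrt _ _ _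
      _ = _ := by
          rw [A5_parseval (by omega : 2 * B₂' + 1 ≤ M), A5_parseval (by omega : 2 * B₁ + 1 ≤ M),
            A5_l2_conj]
  calc ((M : ℝ) ^ 2)⁻¹ * _ ≤ ((M : ℝ) ^ 2)⁻¹ * (κ * ((M * l2 B₂' g₀) * (M * l2 B₁ f))) :=
        mul_le_mul_of_nonneg_left h5 (by positivity)
    _ = κ * l2 B₁ f * l2 B₂' g₀ := by
        field_simp

/-- The same with a complex conjugate. -/
theorem two_fun_conj {ι : Type*} (J : Finset ι) (c : ι → ℂ) (d : ι → G) {B₁ B₂ B₂' D : ℕ}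
    {f g g₀ : G → ℂ} {μ : ℂ → ℂ} {κ : ℝ} (hd : ∀ j ∈ J, d j ∈ box D) (hg : Supp g B₂)
    (hFT : ∀ ξ, FT B₂ g ξ = FT B₂' g₀ ξ * μ ξ)
    (hκ : ∀ ξ, ‖∑ j ∈ J, c j * e (-dot ξ (d j : ℂ))‖ * ‖μ ξ‖ ≤ κ) :
    ‖∑ j ∈ J, c j * ∑ x ∈ box B₁, f x * (starRingEnd ℂ) (g (x + d j))‖ ≤
      κ * l2 B₁ f * l2 B₂' g₀ := by
  have h1 := two_fun J (fun j => (starRingEnd ℂ) (c j)) d (B₁ := B₁)
    (f := fun x => (starRingEnd ℂ) (f x)) hd hg hFT (κ := κ) (by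
      intro ξ
      have h2 : ‖∑ j ∈ J, (starRingEnd ℂ) (c j) * e (dot ξ (d j : ℂ))‖ =
          ‖∑ j ∈ J, c j * e (-dot ξ (d j : ℂ))‖ := by
        rw [← RCLike.norm_conj (∑ j ∈ J, c j * e (-dot ξ (d j : ℂ)))]
        congr 1
        rw [map_sum]
        apply Finset.sum_congr rfl
        intro j _
        rw [map_mul, e_neg, Complex.conj_conj]
      rw [h2]
      exact hκ ξ)
  rw [A5_l2_conj] at h1
  refine le_trans (le_of_eq ?_) h1
  rw [← RCLike.norm_conj (∑ j ∈ J, c j * ∑ x ∈ box B₁, f x * (starRingEnd ℂ) (g (x + d j)))]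
  congr 1
  rw [map_sum]
  apply Finset.sum_congr rfl
  intro j _
  rw [map_mul, map_sum]
  congr 1
  apply Finset.sum_congr rfl
  intro x _
  rw [map_mul, Complex.conj_conj]

end H29I
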