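import Pool.Agent.Lib.H29I.A1

/-!
# Chunk A6: a function with small Fourier transform is almost orthogonal to Lipschitz functions

Let `Λ n = max 0 (1 - |n| / s)` for integers `n`. (1) `∑_j Λ (n - s j) = 1` for every integer `n`.
(2) For `M ≥ 2 (B + s) + 1` (say) and `|n| ≤ B + s`... write `Λ n = ∑_{j < M} c_j e (j n / M)` for
`|n| ≤ M - s` with `c_j = (M s)⁻¹ |∑_{i < s} e (j i / M)|² ≥ 0` and `∑ c_j = Λ 0 = 1` (Fejér).
Now `g x = ∑_p g (p) Λ_p (x) + ∑_p (g x - g p) Λ_p (x)`, where `p` runs over the points of `s ℤ[i]`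
and `Λ_p x = Λ (x.re - p.re) Λ (x.im - p.im)`; the second sum is at most `2 s L` in absolute value,
the first one has at most `(2 B / s + 3)²` nonzero terms for `x ∈ box B`, and
`|∑_{x ∈ box B} Λ_p x lam x| ≤ κ` by (2), since `Λ_p` is a convex combination of functions
`x ↦ c e (dot θ x)` with `|c| = 1`.
-/

open Finset Complex

namespace H29I

/-- the tent, as a number of pairs -/
noncomputable def A6_L (s : ℕ) (m : ℤ) : ℝ :=
  (s : ℝ)⁻¹ * ∑ i ∈ range s, (if 0 ≤ (i : ℤ) + m ∧ (i : ℤ) + m < s then (1 : ℝ) else 0)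

theorem A6_L_nonneg (s : ℕ) (m : ℤ) : 0 ≤ A6_L s m := by
  unfold A6_L
  apply mul_nonneg (by positivity)
  apply Finset.sum_nonneg
  intro i _
  split_ifs <;> norm_num

theorem A6_L_supp {s : ℕ} {m : ℤ} (h : A6_L s m ≠ 0) : |m| ≤ s := by
  by_contra hm
  apply h
  unfold A6_L
  rw [Finset.sum_eq_zero, mul_zero]
  intro i hi
  rw [Finset.mem_range] at hi
  rw [if_neg]
  rintro ⟨h1, h2⟩
  apply hm
  rw [abs_le]
  omega

theorem A6_L_zero {s : ℕ} (hs : 1 ≤ s) : A6_L s 0 = 1 := by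
  unfold A6_L
  have hs' : (s : ℝ) ≠ 0 := by
    have : s ≠ 0 := by omega
    exact_mod_cast this
  rw [Finset.sum_congr rfl (g := fun _ => (1 : ℝ)), Finset.sum_const, Finset.card_range,
    nsmul_eq_mul, mul_one, inv_mul_cancel₀ hs']
  intro i hi
  rw [Finset.mem_range] at hi
  rw [if_pos]
  omega

theorem A6_pu {s B : ℕ} (hs : 1 ≤ s) {n : ℤ} (hn : |n| ≤ B) :
    ∑ j ∈ Icc (-((B / s + 1 : ℕ) : ℤ)) ((B / s + 1 : ℕ) : ℤ), A6_L s (n - s * j) = 1 := by
  unfold A6_L
  have hs' : (s : ℝ) ≠ 0 := by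
    have : s ≠ 0 := by omega
    exact_mod_cast this
  have hs0 : (0 : ℤ) < s := by exact_mod_cast hs
  rw [← Finset.mul_sum, Finset.sum_comm]
  rw [Finset.sum_congr rfl (g := fun _ => (1 : ℝ)), Finset.sum_const, Finset.card_range,
    nsmul_eq_mul, mul_one, inv_mul_cancel₀ hs']
  intro i hi
  rw [Finset.mem_range] at hi
  have hB : B < s * (B / s + 1) := by
    have h1 := Nat.div_add_mod B s
    have h2 := Nat.mod_lt B (by omega : 0 < s)
    calc B = s * (B / s) + B % s := h1.symm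
      _ < s * (B / s) + s := by omega
      _ = s * (B / s + 1) := by ring
  have hB' : (B : ℤ) < s * ((B / s + 1 : ℕ) : ℤ) := by exact_mod_cast hB
  set N : ℤ := ((B / s + 1 : ℕ) : ℤ) with hN
  set j₀ : ℤ := ((i : ℤ) + n) / s with hj₀
  have hj1 : s * j₀ ≤ (i : ℤ) + n := Int.mul_ediv_self_le hs0.ne'
  have hj2 : (i : ℤ) + n < s * j₀ + s := Int.lt_mul_ediv_self_add hs0
  have hn' := abs_le.1 hn
  have hi' : (i : ℤ) < s := by exact_mod_cast hi
  have hi0 : (0 : ℤ) ≤ i := Int.natCast_nonneg i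
  rw [Finset.sum_eq_single j₀]
  · rw [if_pos]
    constructor <;> linarith
  · intro j _ hj
    rw [if_neg]
    rintro ⟨h1, h2⟩
    apply hj
    have h3 : s * (j - j₀) < s * 1 := by linarith
    have h4 : s * (j₀ - j) < s * 1 := by linarith
    have h5 := lt_of_mul_lt_mul_left h3 hs0.le
    have h6 := lt_of_mul_lt_mul_left h4 hs0.le
    omega
  · intro hj
    exfalso
    apply hj
    rw [Finset.mem_Icc]
    have h3 : s * j₀ < s * (N + 1) := by nlinarith
    have h4 : s * (-(N + 1)) < s * j₀ := by nlinarith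
    have h5 := lt_of_mul_lt_mul_left h3 hs0.le
    have h6 := lt_of_mul_lt_mul_left h4 hs0.le
    omega

/-- the coefficients -/
noncomputable def A6_c (s M a : ℕ) : ℝ :=
  ((M : ℝ) * s)⁻¹ * ‖∑ i ∈ range s, e (a * ((i : ℝ) / M))‖ ^ 2

theorem A6_c_nonneg (s M a : ℕ) : 0 ≤ A6_c s M a := by
  unfold A6_c
  positivity

theorem A6_e_pow (t : ℝ) (a : ℕ) : e (a * t) = e t ^ a := by
  induction a with
  | zero =>
    rw [pow_zero, Nat.cast_zero, zero_mul, e_zero]
  | succ a ih =>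
    rw [pow_succ, ← ih, ← e_add]
    congr 1
    push_cast
    ring

theorem A6_geom {M : ℕ} (hM : 1 ≤ M) {n : ℤ} (hn : |n| < M) :
    ∑ a ∈ range M, e (a * ((n : ℝ) / M)) = if n = 0 then (M : ℂ) else 0 := by
  have hM' : (0 : ℝ) < M := by exact_mod_cast hM
  by_cases hn0 : n = 0
  · subst hn0
    simp [e_zero]
  rw [if_neg hn0]
  have hnd : ¬ (M : ℤ) ∣ n := by
    intro h
    exact hn0 (Int.eq_zero_of_abs_lt_dvd h hn)
  have h1 : e ((n : ℝ) / M) ≠ 1 := by
    intro h
    have h2 := four_dz_le ((n : ℝ) / M)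
    rw [h, sub_self, norm_zero] at h2
    have h3 : dz ((n : ℝ) / M) = 0 := le_antisymm (by linarith) (dz_nonneg _)
    obtain ⟨m, hm⟩ := dz_eq_zero_iff.1 h3
    apply hnd
    refine ⟨m, ?_⟩
    rw [eq_div_iff hM'.ne'] at hm
    have : ((n : ℤ) : ℝ) = ((M * m : ℤ) : ℝ) := by
      rw [← hm]; push_cast; ring
    exact_mod_cast this
  have h2 : ∑ a ∈ range M, e (a * ((n : ℝ) / M)) = ∑ a ∈ range M, e ((n : ℝ) / M) ^ a :=
    Finset.sum_congr rfl (fun a _ => A6_e_pow _ _)
  rw [h2]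
  have h3 := mul_geom_sum (e ((n : ℝ) / M)) M
  have h4 : e ((n : ℝ) / M) ^ M = 1 := by
    rw [← A6_e_pow, mul_div_cancel₀ _ hM'.ne', e_int]
  rw [h4, sub_self] at h3
  rcases mul_eq_zero.1 h3 with h5 | h5
  · exact absurd (sub_eq_zero.1 h5) h1
  · exact h5

/-- the tent is a combination of characters -/
theorem A6_fejer {s M : ℕ} (hs : 1 ≤ s) (hM : 1 ≤ M) {m : ℤ} (hm : |m| + s ≤ M) :
    (A6_L s m : ℂ) = ∑ a ∈ range M, (A6_c s M a : ℂ) * e (a * ((m : ℝ) / M)) := by
  have hs' : (s : ℂ) ≠ 0 := by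
    have : s ≠ 0 := by omega
    exact_mod_cast this
  have hM' : (M : ℂ) ≠ 0 := by
    have : M ≠ 0 := by omega
    exact_mod_cast this
  have h1 : ∀ a ∈ range M, (A6_c s M a : ℂ) * e (a * ((m : ℝ) / M)) =
      ((M : ℂ) * s)⁻¹ * ∑ i ∈ range s, ∑ i' ∈ range s,
        e (a * ((((i : ℤ) + m - (i' : ℤ) : ℤ) : ℝ) / M)) := by
    intro a _
    unfold A6_c
    push_cast
    rw [← Complex.mul_conj', map_sum, Finset.sum_mul_sum, mul_assoc, Finset.sum_mul]
    congr 1
    apply Finset.sum_congr rfl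
    intro i _
    rw [Finset.sum_mul]
    apply Finset.sum_congr rfl
    intro i' _
    rw [← e_neg, ← e_add, ← e_add]
    congr 1
    ring
  rw [Finset.sum_congr rfl h1, ← Finset.mul_sum, Finset.sum_comm]
  have h2 : ∀ i ∈ range s, ∑ a ∈ range M, ∑ i' ∈ range s,
        e (a * ((((i : ℤ) + m - (i' : ℤ) : ℤ) : ℝ) / M)) =
      (M : ℂ) * (if 0 ≤ (i : ℤ) + m ∧ (i : ℤ) + m < s then (1 : ℂ) else 0) := by
    intro i hi
    rw [Finset.mem_range] at hi
    rw [Finset.sum_comm]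
    have h3 : ∀ i' ∈ range s, ∑ a ∈ range M, e (a * ((((i : ℤ) + m - (i' : ℤ) : ℤ) : ℝ) / M)) =
        if (i : ℤ) + m - (i' : ℤ) = 0 then (M : ℂ) else 0 := by
      intro i' hi'
      rw [Finset.mem_range] at hi'
      apply A6_geom hM
      have h4 := abs_le.1 (le_refl |m|)
      rw [abs_lt]
      constructor <;> omega
    rw [Finset.sum_congr rfl h3]
    split_ifs with h5
    · rw [Finset.sum_eq_single ((i : ℤ) + m).toNat]
      · rw [if_pos, mul_one]
        rw [Int.toNat_of_nonneg h5.1, sub_self]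
      · intro i' _ hne
        rw [if_neg]
        intro h6
        apply hne
        omega
      · intro h6
        exfalso
        apply h6
        rw [Finset.mem_range]
        omega
    · rw [mul_zero]
      apply Finset.sum_eq_zero
      intro i' hi'
      rw [Finset.mem_range] at hi'
      rw [if_neg]
      intro h6
      apply h5
      omega
  rw [Finset.sum_congr rfl h2]
  unfold A6_L
  push_cast
  rw [← Finset.mul_sum, mul_inv]
  have h7 : ∀ S : ℂ, (M : ℂ)⁻¹ * (s : ℂ)⁻¹ * ((M : ℂ) * S) = (s : ℂ)⁻¹ * S := by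
    intro S
    field_simp
  rw [h7]
  congr 1
  apply Finset.sum_congr rfl
  intro i _
  split_ifs <;> simp

theorem A6_sum_c {s M : ℕ} (hs : 1 ≤ s) (hM : s ≤ M) : ∑ a ∈ range M, A6_c s M a = 1 := by
  have h1 := A6_fejer (s := s) (M := M) hs (by omega) (m := 0) (by simpa using hM)
  rw [A6_L_zero hs] at h1
  simp only [Int.cast_zero, zero_div, mul_zero, e_zero, mul_one] at h1
  exact_mod_cast h1.symm

theorem A6_pb {B s : ℕ} (hs : 1 ≤ s) {lam : G → ℂ} {κ : ℝ}
    (hκ : ∀ θ : ℂ, ‖∑ x ∈ box B, e (dot θ (x : ℂ)) * lam x‖ ≤ κ) (u v : ℤ) :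
    ‖∑ x ∈ box B, ((A6_L s (x.re - u) * A6_L s (x.im - v) : ℝ) : ℂ) * lam x‖ ≤ κ := by
  set M : ℕ := B + u.natAbs + v.natAbs + s with hM
  have hM1 : 1 ≤ M := by omega
  have h1 : ∑ x ∈ box B, ((A6_L s (x.re - u) * A6_L s (x.im - v) : ℝ) : ℂ) * lam x =
      ∑ a ∈ range M, ∑ b ∈ range M, ((A6_c s M a : ℂ) * (A6_c s M b : ℂ)) *
        (e (-(a * ((u : ℝ) / M) + b * ((v : ℝ) / M))) *
        ∑ x ∈ box B, e (dot (((a / M : ℝ) : ℂ) + ((b / M : ℝ) : ℂ) * Complex.I) (x : ℂ)) * lam x) := by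
    have h2 : ∀ x ∈ box B, ((A6_L s (x.re - u) * A6_L s (x.im - v) : ℝ) : ℂ) * lam x =
        ∑ a ∈ range M, ∑ b ∈ range M, ((A6_c s M a : ℂ) * (A6_c s M b : ℂ)) *
        (e (-(a * ((u : ℝ) / M) + b * ((v : ℝ) / M))) *
        (e (dot (((a / M : ℝ) : ℂ) + ((b / M : ℝ) : ℂ) * Complex.I) (x : ℂ)) * lam x)) := by
      intro x hx
      rw [mem_box] at hx
      have ha1 := abs_le.1 hx.1
      have ha2 := abs_le.1 hx.2
      have hu : |x.re - u| + s ≤ M := by
        have : |x.re - u| ≤ B + u.natAbs := by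
          rw [abs_le]
          omega
        omega
      have hv : |x.im - v| + s ≤ M := by
        have : |x.im - v| ≤ B + v.natAbs := by
          rw [abs_le]
          omega
        omega
      rw [Complex.ofReal_mul, A6_fejer hs hM1 hu, A6_fejer hs hM1 hv, Finset.sum_mul_sum,
        Finset.sum_mul]
      apply Finset.sum_congr rfl
      intro a _
      rw [Finset.sum_mul]
      apply Finset.sum_congr rfl
      intro b _
      have h3 : e (a * (((x.re - u : ℤ) : ℝ) / M)) * e (b * (((x.im - v : ℤ) : ℝ) / M)) =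
          e (-(a * ((u : ℝ) / M) + b * ((v : ℝ) / M))) *
          e (dot (((a / M : ℝ) : ℂ) + ((b / M : ℝ) : ℂ) * Complex.I) (x : ℂ)) := by
        rw [← e_add, ← e_add]
        congr 1
        have h4 : dot (((a / M : ℝ) : ℂ) + ((b / M : ℝ) : ℂ) * Complex.I) (x : ℂ) =
            a / M * x.re + b / M * x.im := by
          unfold dot
          rw [coe_re, coe_im]
          simp
        rw [h4]
        push_cast
        ring
      linear_combination ((A6_c s M a : ℂ) * (A6_c s M b : ℂ) * lam x) * h3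
    rw [Finset.sum_congr rfl h2, Finset.sum_comm]
    apply Finset.sum_congr rfl
    intro a _
    rw [Finset.sum_comm]
    apply Finset.sum_congr rfl
    intro b _
    rw [← Finset.mul_sum, ← Finset.mul_sum]
  rw [h1]
  calc _ ≤ ∑ a ∈ range M, ∑ b ∈ range M, (A6_c s M a * A6_c s M b) * κ := by
        refine (norm_sum_le _ _).trans (Finset.sum_le_sum (fun a _ => ?_))
        refine (norm_sum_le _ _).trans (Finset.sum_le_sum (fun b _ => ?_))
        rw [norm_mul, norm_mul, norm_mul, norm_e, one_mul, Complex.norm_real, Complex.norm_real,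
          Real.norm_eq_abs, Real.norm_eq_abs, abs_of_nonneg (A6_c_nonneg s M a),
          abs_of_nonneg (A6_c_nonneg s M b)]
        exact mul_le_mul_of_nonneg_left (hκ _)
          (mul_nonneg (A6_c_nonneg s M a) (A6_c_nonneg s M b))
    _ = ((∑ a ∈ range M, A6_c s M a) * ∑ b ∈ range M, A6_c s M b) * κ := by
        rw [Finset.sum_mul_sum, Finset.sum_mul]
        apply Finset.sum_congr rfl
        intro a _
        rw [Finset.sum_mul]
    _ = κ := by
        rw [A6_sum_c hs (by omega), mul_one, one_mul]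

theorem lip_sum {B s : ℕ} (hs : 1 ≤ s) {g lam : G → ℂ} {L V κ : ℝ} (hL0 : 0 ≤ L)
    (hg : ∀ x, ‖g x‖ ≤ 1)
    (hL : ∀ x y : G, ‖g x - g y‖ ≤ L * (|((x.re : ℝ) - y.re)| + |((x.im : ℝ) - y.im)|))
    (hV : ∑ x ∈ box B, ‖lam x‖ ≤ V)
    (hκ : ∀ θ : ℂ, ‖∑ x ∈ box B, e (dot θ (x : ℂ)) * lam x‖ ≤ κ) :
    ‖∑ x ∈ box B, g x * lam x‖ ≤ (2 * (B : ℝ) / s + 3) ^ 2 * κ + 2 * s * L * V := by
  have hκ0 : 0 ≤ κ := (norm_nonneg _).trans (hκ 0)
  have hs' : (0 : ℝ) < s := by exact_mod_cast hs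
  set J : Finset ℤ := Icc (-((B / s + 1 : ℕ) : ℤ)) ((B / s + 1 : ℕ) : ℤ) with hJ
  set w : G → ℤ → ℤ → ℝ := fun x j k => A6_L s (x.re - s * j) * A6_L s (x.im - s * k) with hw
  set p : ℤ → ℤ → G := fun j k => ⟨s * j, s * k⟩ with hp
  have hw0 : ∀ x j k, 0 ≤ w x j k := fun x j k => mul_nonneg (A6_L_nonneg _ _) (A6_L_nonneg _ _)
  have hw1 : ∀ x ∈ box B, ∑ j ∈ J, ∑ k ∈ J, w x j k = 1 := by
    intro x hx
    rw [mem_box] at hx
    have h1 : ∑ j ∈ J, ∑ k ∈ J, w x j k =
        (∑ j ∈ J, A6_L s (x.re - s * j)) * ∑ k ∈ J, A6_L s (x.im - s * k) := by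
      rw [Finset.sum_mul_sum]
    rw [h1, A6_pu hs hx.1, A6_pu hs hx.2, mul_one]
  have h1 : ∑ x ∈ box B, g x * lam x =
      ∑ j ∈ J, ∑ k ∈ J, g (p j k) * ∑ x ∈ box B, (w x j k : ℂ) * lam x +
      ∑ x ∈ box B, ∑ j ∈ J, ∑ k ∈ J, (w x j k : ℂ) * (g x - g (p j k)) * lam x := by
    have h2 : ∑ j ∈ J, ∑ k ∈ J, g (p j k) * ∑ x ∈ box B, (w x j k : ℂ) * lam x =
        ∑ x ∈ box B, ∑ j ∈ J, ∑ k ∈ J, (w x j k : ℂ) * g (p j k) * lam x := by
      rw [Finset.sum_comm (s := box B)]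
      apply Finset.sum_congr rfl
      intro j _
      rw [Finset.sum_comm (s := box B)]
      apply Finset.sum_congr rfl
      intro k _
      rw [Finset.mul_sum]
      apply Finset.sum_congr rfl
      intro x _
      ring
    rw [h2, ← Finset.sum_add_distrib]
    apply Finset.sum_congr rfl
    intro x hx
    have h3 : ((∑ j ∈ J, ∑ k ∈ J, w x j k : ℝ) : ℂ) = 1 := by
      rw [hw1 x hx]
      rfl
    push_cast at h3
    calc g x * lam x = (∑ j ∈ J, ∑ k ∈ J, (w x j k : ℂ)) * (g x * lam x) := by rw [h3, one_mul]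
      _ = _ := by
          rw [Finset.sum_mul, ← Finset.sum_add_distrib]
          apply Finset.sum_congr rfl
          intro j _
          rw [Finset.sum_mul, ← Finset.sum_add_distrib]
          apply Finset.sum_congr rfl
          intro k _
          ring
  have hcard : (J.card : ℝ) ≤ 2 * (B : ℝ) / s + 3 := by
    rw [hJ, Int.card_Icc]
    have h2 : (((B / s + 1 : ℕ) : ℤ) + 1 - -((B / s + 1 : ℕ) : ℤ)).toNat = 2 * (B / s) + 3 := by
      omega
    rw [h2]
    have h3 : ((B / s : ℕ) : ℝ) ≤ (B : ℝ) / s := Nat.cast_div_le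
    push_cast
    have h4 : 2 * (B : ℝ) / s = 2 * ((B : ℝ) / s) := by ring
    rw [h4]
    linarith
  have hA : ‖∑ j ∈ J, ∑ k ∈ J, g (p j k) * ∑ x ∈ box B, (w x j k : ℂ) * lam x‖ ≤
      (2 * (B : ℝ) / s + 3) ^ 2 * κ := by
    calc _ ≤ ∑ j ∈ J, ∑ k ∈ J, κ := by
          refine (norm_sum_le _ _).trans (Finset.sum_le_sum (fun j _ => ?_))
          refine (norm_sum_le _ _).trans (Finset.sum_le_sum (fun k _ => ?_))
          rw [norm_mul]
          calc _ ≤ 1 * κ := mul_le_mul (hg _) (A6_pb hs hκ _ _) (norm_nonneg _) zero_le_one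
            _ = κ := one_mul κ
      _ = (J.card : ℝ) ^ 2 * κ := by
          rw [Finset.sum_const, Finset.sum_const, nsmul_eq_mul, nsmul_eq_mul]
          ring
      _ ≤ _ := by
          apply mul_le_mul_of_nonneg_right _ hκ0
          exact pow_le_pow_left₀ (Nat.cast_nonneg _) hcard 2
  have hB : ‖∑ x ∈ box B, ∑ j ∈ J, ∑ k ∈ J, (w x j k : ℂ) * (g x - g (p j k)) * lam x‖ ≤
      2 * s * L * V := by
    have h2 : ∀ x ∈ box B, ‖∑ j ∈ J, ∑ k ∈ J, (w x j k : ℂ) * (g x - g (p j k)) * lam x‖ ≤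
        2 * s * L * ‖lam x‖ := by
      intro x hx
      calc _ ≤ ∑ j ∈ J, ∑ k ∈ J, w x j k * (2 * s * L * ‖lam x‖) := by
            refine (norm_sum_le _ _).trans (Finset.sum_le_sum (fun j _ => ?_))
            refine (norm_sum_le _ _).trans (Finset.sum_le_sum (fun k _ => ?_))
            rw [norm_mul, norm_mul, Complex.norm_real, Real.norm_eq_abs,
              abs_of_nonneg (hw0 x j k), mul_assoc]
            by_cases h0 : w x j k = 0
            · rw [h0, zero_mul, zero_mul]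
            · apply mul_le_mul_of_nonneg_left _ (hw0 x j k)
              apply mul_le_mul_of_nonneg_right _ (norm_nonneg _)
              have h3 : A6_L s (x.re - s * j) ≠ 0 := left_ne_zero_of_mul h0
              have h4 : A6_L s (x.im - s * k) ≠ 0 := right_ne_zero_of_mul h0
              have h5 : |(((x.re - s * j : ℤ)) : ℝ)| ≤ s := by
                rw [← Int.cast_abs]
                exact_mod_cast A6_L_supp h3
              have h6 : |(((x.im - s * k : ℤ)) : ℝ)| ≤ s := by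
                rw [← Int.cast_abs]
                exact_mod_cast A6_L_supp h4
              have h7 := hL x (p j k)
              have h8 : ((p j k).re : ℝ) = ((s * j : ℤ) : ℝ) := rfl
              have h9 : ((p j k).im : ℝ) = ((s * k : ℤ) : ℝ) := rfl
              rw [h8, h9, ← Int.cast_sub, ← Int.cast_sub] at h7
              calc _ ≤ _ := h7
                _ ≤ L * (s + s) := mul_le_mul_of_nonneg_left (add_le_add h5 h6) hL0
                _ = 2 * s * L := by ring
        _ = (∑ j ∈ J, ∑ k ∈ J, w x j k) * (2 * s * L * ‖lam x‖) := by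
            rw [Finset.sum_mul]
            apply Finset.sum_congr rfl
            intro j _
            rw [Finset.sum_mul]
        _ = _ := by rw [hw1 x hx, one_mul]
    calc _ ≤ ∑ x ∈ box B, 2 * s * L * ‖lam x‖ :=
          (norm_sum_le _ _).trans (Finset.sum_le_sum h2)
      _ = 2 * s * L * ∑ x ∈ box B, ‖lam x‖ := by rw [Finset.mul_sum]
      _ ≤ 2 * s * L * V := mul_le_mul_of_nonneg_left hV (by positivity)
  rw [h1]
  exact (norm_add_le _ _).trans (add_le_add hA hB)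

end H29I
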