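import Pool.Agent.Lib.H29I.A3

/-!
# Chunk B1: rational approximation, one variable

Proof. Let `𝒮 = {n : |n| ≤ 2 H, ‖K (n γ)‖ ≥ κ Z² / 10}`. Since `‖K‖ ≤ 25 Z²` and there are
`4 H + 1 ≤ 5 H` numbers `n`, `|𝒮| ≥ κ H / 50`. For `n ∈ 𝒮`, `dz ((n γ).re), dz ((n γ).im) ≤ τ`
with `τ = 25 / (κ Z)` (A3). Two elements of `𝒮` have a difference `1 ≤ q ≤ 400 / κ`
(`|𝒮| - 1 ≥ κ H / 100` gaps of total length `≤ 4 H`). So `q γ = g + q ε` with `g : G` and
`|q ε.re|, |q ε.im| ≤ 2 τ`. Some class modulo `q` contains at least `|𝒮| / q ≥ κ² H / 20000 ≥ 2`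
elements of `𝒮`, hence two of them differ by `v = q t` with `v ≥ κ² H q / 40000`, `v ≤ 4 H`. Now
`v γ = t g + v ε`, `|v ε.re| ≤ 4 H · 2 τ / q ≤ 200 H / (κ Z) ≤ 1 / 4`, so
`|v ε.re| = dz ((v γ).re) ≤ 2 τ`, and `|ε.re| ≤ 2 τ / v ≤ 2 · 10⁶ / (κ³ Z H)`.
-/

open Finset Complex

namespace H29I

theorem B1_gap {H L : ℕ} (hL : 1 ≤ L) {S : Finset ℤ} (hS : S ⊆ Icc (-(2 * (H : ℤ))) (2 * (H : ℤ)))
    (hc : 4 * H / L + 1 < S.card) : ∃ m ∈ S, ∃ n ∈ S, m < n ∧ n - m < L := by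
  have hL' : (0 : ℤ) < L := by exact_mod_cast hL
  have hcard : (Icc (0 : ℤ) ((4 * H / L : ℕ) : ℤ)).card < S.card := by
    rw [Int.card_Icc, show ((4 * H / L : ℕ) : ℤ) + 1 - 0 = ((4 * H / L + 1 : ℕ) : ℤ) by
      push_cast; ring, Int.toNat_natCast]
    exact hc
  obtain ⟨x, hx, y, hy, hxy, hf⟩ := Finset.exists_ne_map_eq_of_card_lt_of_maps_to hcard
    (f := fun n : ℤ => (n + 2 * H) / L) (by
      intro n hn
      have hn' := hS hn
      rw [mem_Icc] at hn'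
      rw [Finset.mem_coe, mem_Icc]
      constructor
      · exact Int.ediv_nonneg (by linarith) hL'.le
      · push_cast
        exact Int.ediv_le_ediv hL' (by linarith))
  have key : ∀ a b : ℤ, a < b → (a + 2 * H) / L = (b + 2 * H) / (L : ℤ) → b - a < L := by
    intro a b _ h
    have h1 := Int.emod_add_mul_ediv (a + 2 * H) (L : ℤ)
    have h2 := Int.emod_add_mul_ediv (b + 2 * H) (L : ℤ)
    have h3 := Int.emod_nonneg (a + 2 * H) hL'.ne'
    have h4 := Int.emod_lt_of_pos (b + 2 * H) hL'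
    rw [h] at h1
    linarith
  rcases lt_or_gt_of_ne hxy with h | h
  · exact ⟨x, hx, y, hy, h, key x y h hf⟩
  · exact ⟨y, hy, x, hx, h, key y x h hf.symm⟩

theorem B1_class {q : ℕ} (hq : 1 ≤ q) {C : Finset ℤ} {c : ℤ} (hC : ∀ n ∈ C, n % q = c)
    (hne : C.Nonempty) : ∃ m ∈ C, ∃ n ∈ C, ∃ t : ℕ, n - m = q * t ∧ C.card ≤ t + 1 := by
  have hq' : (0 : ℤ) < q := by exact_mod_cast hq
  obtain ⟨m, hm, hmin⟩ := C.exists_min_image id hne
  obtain ⟨n, hn, hmax⟩ := C.exists_max_image id hne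
  simp only [id] at hmin hmax
  have hdvd : ∀ a ∈ C, (q : ℤ) ∣ a - m := fun a ha =>
    Int.ModEq.dvd (by unfold Int.ModEq; rw [hC a ha, hC m hm])
  obtain ⟨t, ht⟩ := hdvd n hn
  have ht0 : 0 ≤ t := by
    have h1 : 0 ≤ (q : ℤ) * t := by rw [← ht]; linarith [hmin n hn]
    exact nonneg_of_mul_nonneg_right h1 hq'
  refine ⟨m, hm, n, hn, t.toNat, ?_, ?_⟩
  · rw [ht, Int.toNat_of_nonneg ht0]
  · have h1 : C.card ≤ (Icc (0 : ℤ) t).card := by
      refine Finset.card_le_card_of_injOn (fun a => (a - m) / q) ?_ ?_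
      · intro a ha
        rw [Finset.mem_coe, mem_Icc]
        constructor
        · exact Int.ediv_nonneg (by linarith [hmin a ha]) hq'.le
        · have h2 : (a - m) / (q : ℤ) ≤ (n - m) / q :=
            Int.ediv_le_ediv hq' (by linarith [hmax a ha])
          rw [ht, Int.mul_ediv_cancel_left _ hq'.ne'] at h2
          exact h2
      · intro a ha b hb hab
        obtain ⟨s, hs⟩ := hdvd a ha
        obtain ⟨s', hs'⟩ := hdvd b hb
        simp only [hs, hs', Int.mul_ediv_cancel_left _ hq'.ne'] at hab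
        rw [hab] at hs
        linarith
    rw [Int.card_Icc] at h1
    omega

theorem dio_one {H Z : ℕ} {κ : ℝ} {γ : ℂ} (hκ : 0 < κ) (hκ1 : κ ≤ 1)
    (hH : 40000 ≤ κ ^ 2 * H) (hZ : 800 * (H : ℝ) ≤ κ * Z)
    (h : κ * (Z : ℝ) ^ 2 * H ≤ ∑ n ∈ Icc (-(2 * (H : ℤ))) (2 * (H : ℤ)), ‖K Z ((n : ℂ) * γ)‖) :
    ∃ q : ℕ, ∃ g : G, 1 ≤ q ∧ (q : ℝ) ≤ 400 / κ ∧
      |(γ - (g : ℂ) / q).re| ≤ 2 * 10 ^ 6 / (κ ^ 3 * Z * H) ∧
      |(γ - (g : ℂ) / q).im| ≤ 2 * 10 ^ 6 / (κ ^ 3 * Z * H) := by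
  classical
  have hHκ : 40000 ≤ κ * H := by nlinarith [(Nat.cast_nonneg H : (0 : ℝ) ≤ H)]
  have hH1 : (40000 : ℝ) ≤ H := by nlinarith [(Nat.cast_nonneg H : (0 : ℝ) ≤ H)]
  have hZ0 : (0 : ℝ) < Z := by
    have : 0 < κ * (Z : ℝ) := by linarith
    exact pos_of_mul_pos_right this hκ.le
  have hZ1 : 1 ≤ Z := by exact_mod_cast hZ0
  set I : Finset ℤ := Icc (-(2 * (H : ℤ))) (2 * (H : ℤ)) with hI
  set f : ℤ → ℝ := fun n => ‖K Z ((n : ℂ) * γ)‖ with hf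
  set S : Finset ℤ := I.filter (fun n => κ * (Z : ℝ) ^ 2 / 10 ≤ f n) with hS
  have hIcard : ((I.card : ℕ) : ℝ) ≤ 5 * H := by
    have h1 : I.card = 4 * H + 1 := by
      rw [hI, Int.card_Icc]
      omega
    rw [h1]
    push_cast
    linarith
  -- lower bound of the cardinality of S
  have hScard : κ * H / 50 ≤ (S.card : ℝ) := by
    have h1 : ∑ n ∈ I, f n = ∑ n ∈ S, f n + ∑ n ∈ I.filter (fun n => ¬ κ * (Z : ℝ) ^ 2 / 10 ≤ f n),
        f n := (Finset.sum_filter_add_sum_filter_not I _ f).symm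
    have h2 : ∑ n ∈ S, f n ≤ S.card * (25 * (Z : ℝ) ^ 2) := by
      have := Finset.sum_le_card_nsmul S f (25 * (Z : ℝ) ^ 2) (fun n _ => norm_K_le hZ1 _)
      rwa [nsmul_eq_mul] at this
    have h3 : ∑ n ∈ I.filter (fun n => ¬ κ * (Z : ℝ) ^ 2 / 10 ≤ f n), f n ≤
        5 * H * (κ * (Z : ℝ) ^ 2 / 10) := by
      have h4 := Finset.sum_le_card_nsmul (I.filter (fun n => ¬ κ * (Z : ℝ) ^ 2 / 10 ≤ f n)) f
        (κ * (Z : ℝ) ^ 2 / 10) (fun n hn => (not_le.1 (mem_filter.1 hn).2).le)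
      rw [nsmul_eq_mul] at h4
      refine h4.trans ?_
      refine mul_le_mul_of_nonneg_right ?_ (by positivity)
      refine le_trans ?_ hIcard
      exact_mod_cast Finset.card_filter_le _ _
    have h5 : κ * (Z : ℝ) ^ 2 * H ≤ S.card * (25 * (Z : ℝ) ^ 2) +
        5 * H * (κ * (Z : ℝ) ^ 2 / 10) := by
      calc κ * (Z : ℝ) ^ 2 * H ≤ ∑ n ∈ I, f n := h
        _ ≤ _ := by rw [h1]; exact add_le_add h2 h3
    have hZ2 : (0 : ℝ) < (Z : ℝ) ^ 2 := by positivity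
    have h6 : (Z : ℝ) ^ 2 * (κ * H / 2) ≤ (Z : ℝ) ^ 2 * (25 * S.card) := by linarith
    have h7 := le_of_mul_le_mul_left h6 hZ2
    linarith
  set τ : ℝ := 25 / (κ * Z) with hτ
  have hκZ : 0 < κ * (Z : ℝ) := by positivity
  have hτ0 : 0 < τ := by positivity
  have hSre : ∀ n ∈ S, dz ((n : ℂ) * γ).re ≤ τ ∧ dz ((n : ℂ) * γ).im ≤ τ := by
    intro n hn
    have h1 : κ * (Z : ℝ) ^ 2 / 10 ≤ ‖K Z ((n : ℂ) * γ)‖ := (mem_filter.1 hn).2
    have h2 := dz_re_mul_norm_K_le hZ1 ((n : ℂ) * γ)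
    have h3 := dz_im_mul_norm_K_le hZ1 ((n : ℂ) * γ)
    have key : ∀ d : ℝ, 0 ≤ d → d * ‖K Z ((n : ℂ) * γ)‖ ≤ 5 / 2 * Z → d ≤ τ := by
      intro d hd h4
      rw [hτ, le_div_iff₀ hκZ]
      have h5 : d * (κ * (Z : ℝ) ^ 2 / 10) ≤ 5 / 2 * Z :=
        (mul_le_mul_of_nonneg_left h1 hd).trans h4
      have h6 : (Z : ℝ) * (d * (κ * Z)) ≤ Z * 25 := by linarith
      exact le_of_mul_le_mul_left h6 hZ0
    exact ⟨key _ (dz_nonneg _) h2, key _ (dz_nonneg _) h3⟩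
  -- a small gap
  set L : ℕ := ⌊400 / κ⌋₊ with hL
  have hL1 : (L : ℝ) ≤ 400 / κ := Nat.floor_le (by positivity)
  have hL2 : 399 / κ ≤ (L : ℝ) := by
    have h1 : 400 / κ < L + 1 := Nat.lt_floor_add_one _
    have h2 : 1 ≤ 1 / κ := by rw [le_div_iff₀ hκ]; linarith
    have h3 : 400 / κ = 399 / κ + 1 / κ := by ring
    linarith
  have hL3 : (399 : ℝ) ≤ L := by
    refine le_trans ?_ hL2
    rw [le_div_iff₀ hκ]
    nlinarith
  have hL4 : 1 ≤ L := by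
    have : (1 : ℝ) ≤ L := by linarith
    exact_mod_cast this
  have hgapcard : 4 * H / L + 1 < S.card := by
    have h1 : (((4 * H / L : ℕ)) : ℝ) ≤ ((4 * H : ℕ) : ℝ) / (L : ℝ) := Nat.cast_div_le
    have h2 : ((4 * H : ℕ) : ℝ) / (L : ℝ) ≤ 4 * H * κ / 399 := by
      push_cast
      rw [div_le_div_iff₀ (by linarith) (by norm_num)]
      have h3 : 399 ≤ κ * L := by
        rw [div_le_iff₀ hκ] at hL2
        linarith
      have h4 := mul_le_mul_of_nonneg_left h3 (by positivity : (0 : ℝ) ≤ 4 * (H : ℝ))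
      linarith
    have h3 : (((4 * H / L + 1 : ℕ)) : ℝ) < (S.card : ℝ) := by
      push_cast
      push_cast at h1 h2
      linarith
    exact_mod_cast h3
  obtain ⟨m₀, hm₀, n₀, hn₀, hlt, hgap⟩ := B1_gap hL4 (Finset.filter_subset _ _) hgapcard
  obtain ⟨q, hq⟩ : ∃ q : ℕ, (q : ℤ) = n₀ - m₀ := ⟨(n₀ - m₀).toNat, Int.toNat_of_nonneg (by linarith)⟩
  have hq1 : 1 ≤ q := by omega
  have hqL : (q : ℝ) ≤ 400 / κ := by
    refine le_trans ?_ hL1
    have : q ≤ L := by omega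
    exact_mod_cast this
  have hq0 : (0 : ℝ) < q := by exact_mod_cast hq1
  have hqC : (q : ℂ) ≠ 0 := by exact_mod_cast hq0.ne'
  have hdiff : ∀ a ∈ S, ∀ b ∈ S, dz (((b - a : ℤ) : ℂ) * γ).re ≤ 2 * τ ∧
      dz (((b - a : ℤ) : ℂ) * γ).im ≤ 2 * τ := by
    intro a ha b hb
    have h1 : ((b - a : ℤ) : ℂ) * γ = (b : ℂ) * γ - (a : ℂ) * γ := by push_cast; ring
    rw [h1, Complex.sub_re, Complex.sub_im]
    have h2 := hSre a ha
    have h3 := hSre b hb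
    constructor
    · linarith [dz_sub_le ((b : ℂ) * γ).re ((a : ℂ) * γ).re]
    · linarith [dz_sub_le ((b : ℂ) * γ).im ((a : ℂ) * γ).im]
  have hqγ := hdiff m₀ hm₀ n₀ hn₀
  rw [← hq] at hqγ
  obtain ⟨a, ha⟩ := exists_int_dz (((q : ℤ) : ℂ) * γ).re
  obtain ⟨b, hb⟩ := exists_int_dz (((q : ℤ) : ℂ) * γ).im
  have hare : |(((q : ℤ) : ℂ) * γ).re - a| ≤ 2 * τ := by rw [ha]; exact hqγ.1
  have hbim : |(((q : ℤ) : ℂ) * γ).im - b| ≤ 2 * τ := by rw [hb]; exact hqγ.2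
  -- a large difference divisible by q
  obtain ⟨c, -, hc⟩ := Finset.exists_le_card_fiber_of_nsmul_le_card_of_maps_to
    (s := S) (t := Ico (0 : ℤ) q) (f := fun n => n % q) (b := κ ^ 2 * H / 20000)
    (by
      intro n _
      rw [mem_Ico]
      have : (0 : ℤ) < q := by exact_mod_cast hq1
      exact ⟨Int.emod_nonneg _ this.ne', Int.emod_lt_of_pos _ this⟩)
    ⟨0, by rw [mem_Ico]; exact ⟨le_rfl, by exact_mod_cast hq1⟩⟩
    (by
      rw [Int.card_Ico, sub_zero, Int.toNat_natCast, nsmul_eq_mul]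
      refine le_trans ?_ hScard
      have h1 : (q : ℝ) * κ ≤ 400 := by rwa [le_div_iff₀ hκ] at hqL
      have h2 : (q : ℝ) * (κ ^ 2 * H / 20000) = (q * κ) * (κ * H / 20000) := by ring
      rw [h2]
      have h3 : 0 ≤ κ * H / 20000 := by positivity
      have h4 := mul_le_mul_of_nonneg_right h1 h3
      linarith)
  set C : Finset ℤ := S.filter (fun n => n % q = c) with hC
  have hC2 : (2 : ℝ) ≤ C.card := by linarith
  have hCne : C.Nonempty := by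
    rw [← Finset.card_pos]
    have : (0 : ℝ) < C.card := by linarith
    exact_mod_cast this
  obtain ⟨m, hm, n, hn, t, hnm, htc⟩ := B1_class hq1 (fun n hn => (mem_filter.1 hn).2) hCne
  have hmS : m ∈ S := (mem_filter.1 hm).1
  have hnS : n ∈ S := (mem_filter.1 hn).1
  have hmI := Finset.mem_Icc.1 (Finset.mem_filter.1 hmS).1
  have hnI := Finset.mem_Icc.1 (Finset.mem_filter.1 hnS).1
  have htR : (C.card : ℝ) ≤ t + 1 := by exact_mod_cast htc
  have ht1 : (1 : ℝ) ≤ t := by linarith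
  have htbig : κ ^ 2 * H / 40000 ≤ (t : ℝ) := by linarith
  have hqt : (q : ℝ) * t ≤ 4 * H := by
    have h1 : (q : ℤ) * t ≤ 4 * H := by rw [← hnm]; linarith
    exact_mod_cast h1
  have hv := hdiff m hmS n hnS
  rw [hnm] at hv
  have hfin : ∀ (x : ℝ) (a : ℤ), |(q : ℝ) * x - a| ≤ 2 * τ → dz ((q : ℝ) * t * x) ≤ 2 * τ →
      |x - a / q| ≤ 2 * 10 ^ 6 / (κ ^ 3 * Z * H) := by
    intro x a h1 h2
    have e1 : (q : ℝ) * t * x = t * (q * x - a) + ((t * a : ℤ) : ℝ) := by push_cast; ring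
    rw [e1, dz_add_int] at h2
    have h3 : |(t : ℝ) * (q * x - a)| ≤ 1 / 2 := by
      rw [abs_mul, abs_of_nonneg (by linarith : (0 : ℝ) ≤ t)]
      have h4 : (t : ℝ) ≤ 4 * H := by
        have hq1' : (1 : ℝ) ≤ q := by exact_mod_cast hq1
        have h5 := mul_le_mul_of_nonneg_right hq1' (by linarith : (0 : ℝ) ≤ t)
        linarith
      have h5 : 4 * H * (2 * τ) ≤ 1 / 2 := by
        rw [hτ]
        have h6 : 4 * (H : ℝ) * (2 * (25 / (κ * Z))) = 200 * H / (κ * Z) := by ring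
        rw [h6, div_le_iff₀ hκZ]
        linarith
      exact (mul_le_mul h4 h1 (abs_nonneg _) (by positivity)).trans h5
    rw [dz_eq_abs h3, abs_mul, abs_of_nonneg (by linarith : (0 : ℝ) ≤ t)] at h2
    have e2 : x - a / q = (q * x - a) / q := by field_simp
    rw [e2, abs_div, abs_of_pos hq0, div_le_iff₀ hq0]
    have h7 : |(q : ℝ) * x - a| ≤ 2 * τ / t := by
      rw [le_div_iff₀ (by linarith)]
      linarith
    refine h7.trans ?_
    have h8 : 2 * τ / t ≤ 2 * 10 ^ 6 / (κ ^ 3 * Z * H) := by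
      have h9 : 0 < κ ^ 3 * Z * (H : ℝ) := by positivity
      rw [div_le_div_iff₀ (by linarith) h9]
      rw [hτ]
      have h10 : 2 * (25 / (κ * (Z : ℝ))) * (κ ^ 3 * Z * H) = 50 * (κ ^ 2 * H) := by
        field_simp
        ring
      rw [h10]
      linarith
    refine h8.trans ?_
    have h11 : 0 ≤ 2 * 10 ^ 6 / (κ ^ 3 * Z * (H : ℝ)) := by positivity
    have hq1' : (1 : ℝ) ≤ q := by exact_mod_cast hq1
    exact le_mul_of_one_le_right h11 hq1'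
  refine ⟨q, ⟨a, b⟩, hq1, hqL, ?_, ?_⟩
  · have e3 : (γ - ((⟨a, b⟩ : G) : ℂ) / q).re = γ.re - a / q := by
      rw [Complex.sub_re, Complex.div_natCast_re, coe_re]
    rw [e3]
    refine hfin γ.re a ?_ ?_
    · have e4 : (((q : ℤ) : ℂ) * γ).re = q * γ.re := by
        rw [Complex.mul_re]
        simp
      rw [e4] at hare
      exact hare
    · have e5 : ((((q : ℤ) * (t : ℤ) : ℤ) : ℂ) * γ).re = q * t * γ.re := by
        rw [Complex.mul_re]
        simp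
      rw [e5] at hv
      exact hv.1
  · have e3 : (γ - ((⟨a, b⟩ : G) : ℂ) / q).im = γ.im - b / q := by
      rw [Complex.sub_im, Complex.div_natCast_im, coe_im]
    rw [e3]
    refine hfin γ.im b ?_ ?_
    · have e4 : (((q : ℤ) : ℂ) * γ).im = q * γ.im := by
        rw [Complex.mul_im]
        simp
      rw [e4] at hbim
      exact hbim
    · have e5 : ((((q : ℤ) * (t : ℤ) : ℤ) : ℂ) * γ).im = q * t * γ.im := by
        rw [Complex.mul_im]
        simp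
      rw [e5] at hv
      exact hv.2

end H29I
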