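import Pool.Agent.Lib.H29I.B2a

/-!
# Chunk B2b: strip count

Proof. Fix `u₀ ∈ A`. The number of `x = u - u₀` with `|x.re| < ρ` and `|x.im| < ρ` is at most
`(4 H + 1) (2 ρ + 1)` (`|x.re| ≤ 2 H`; the number of integers in an open interval of length `2 ρ`
is at most `2 ρ + 1`). So there is `u₁ ∈ A` with `v = u₁ - u₀`, `max (|v.re|, |v.im|) ≥ ρ`. Say
`|v.re| ≥ |v.im|`. For given `x.re` the condition `|v.re x.im - v.im x.re| < ρ |v.re|` puts `x.im`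
in an open interval of length `2 ρ`; so at most `(4 H + 1) (2 ρ + 1)` of the `x` satisfy it, and
there is `u₂ ∈ A` with `|det v (u₂ - u₀)| ≥ ρ |v.re| ≥ ρ²`. The other case is symmetric.
-/

open Finset Complex

namespace H29I

theorem B2b_int {c ρ : ℝ} (hρ : 0 < ρ) (S : Finset ℤ) (h : ∀ t ∈ S, |(t : ℝ) - c| < ρ) :
    (S.card : ℝ) ≤ 2 * ρ + 1 := by
  rcases S.eq_empty_or_nonempty with rfl | ⟨t, ht⟩
  · simp
    linarith
  have hsub : S ⊆ Icc ⌈c - ρ⌉ ⌊c + ρ⌋ := by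
    intro s hs
    have h1 := abs_lt.1 (h s hs)
    rw [mem_Icc]
    exact ⟨Int.ceil_le.2 (by linarith [h1.1]), Int.le_floor.2 (by linarith [h1.2])⟩
  have h2 := card_le_card hsub
  rw [Int.card_Icc] at h2
  have h3 := mem_Icc.1 (hsub ht)
  have h4 : (((⌊c + ρ⌋ + 1 - ⌈c - ρ⌉).toNat : ℕ) : ℤ) = ⌊c + ρ⌋ + 1 - ⌈c - ρ⌉ :=
    Int.toNat_of_nonneg (by linarith [h3.1, h3.2])
  have h5 : (((⌊c + ρ⌋ + 1 - ⌈c - ρ⌉).toNat : ℕ) : ℝ) = (⌊c + ρ⌋ : ℝ) + 1 - ⌈c - ρ⌉ := by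
    have := congrArg (fun z : ℤ => (z : ℝ)) h4
    push_cast at this
    exact this
  have h6 : (S.card : ℝ) ≤ (((⌊c + ρ⌋ + 1 - ⌈c - ρ⌉).toNat : ℕ) : ℝ) := by exact_mod_cast h2
  rw [h5] at h6
  have h7 := Int.floor_le (c + ρ)
  have h8 := Int.le_ceil (c - ρ)
  linarith

theorem B2b_count {H : ℕ} {ρ : ℝ} (hρ : 0 < ρ) (B : Finset (ℤ × ℤ)) (c : ℤ → ℝ)
    (h1 : ∀ x ∈ B, |x.1| ≤ 2 * (H : ℤ)) (h2 : ∀ x ∈ B, |(x.2 : ℝ) - c x.1| < ρ) :
    (B.card : ℝ) ≤ (4 * (H : ℝ) + 1) * (2 * ρ + 1) := by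
  have hmaps : ∀ x ∈ B, x.1 ∈ Icc (-(2 * (H : ℤ))) (2 * (H : ℤ)) := by
    intro x hx
    rw [mem_Icc]
    exact abs_le.1 (h1 x hx)
  rw [card_eq_sum_card_fiberwise hmaps]
  push_cast
  calc ∑ p ∈ Icc (-(2 * (H : ℤ))) (2 * (H : ℤ)), ((B.filter fun x => x.1 = p).card : ℝ)
      ≤ ∑ p ∈ Icc (-(2 * (H : ℤ))) (2 * (H : ℤ)), (2 * ρ + 1) := by
        apply sum_le_sum
        intro p _
        have h3 : (B.filter fun x => x.1 = p).card =
            ((B.filter fun x => x.1 = p).image Prod.snd).card := by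
          rw [card_image_of_injOn]
          intro x hx y hy hxy
          have hx' := (mem_filter.1 (mem_coe.1 hx)).2
          have hy' := (mem_filter.1 (mem_coe.1 hy)).2
          exact Prod.ext (hx'.trans hy'.symm) hxy
        rw [h3]
        apply B2b_int (c := c p) hρ
        intro t ht
        obtain ⟨x, hx, rfl⟩ := mem_image.1 ht
        obtain ⟨hxB, rfl⟩ := mem_filter.1 hx
        exact h2 x hxB
    _ = (4 * (H : ℝ) + 1) * (2 * ρ + 1) := by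
        rw [sum_const, Int.card_Icc, nsmul_eq_mul]
        congr 1
        have h4 : (2 * (H : ℤ) + 1 - -(2 * (H : ℤ))).toNat = 4 * H + 1 := by omega
        rw [h4]
        push_cast
        ring

theorem B2b_exists {H : ℕ} {ρ : ℝ} (hρ : 0 < ρ) {A : Finset G} (φ : G → ℤ × ℤ)
    (hφ : Function.Injective φ) (h1 : ∀ u ∈ A, |(φ u).1| ≤ 2 * (H : ℤ))
    (hcard : (4 * (H : ℝ) + 1) * (2 * ρ + 1) < A.card) (c : ℤ → ℝ) :
    ∃ u ∈ A, ρ ≤ |((φ u).2 : ℝ) - c (φ u).1| := by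
  by_contra hcon
  push Not at hcon
  have h2 := B2b_count hρ (A.image φ) c (H := H) (by
    intro x hx
    obtain ⟨u, hu, rfl⟩ := mem_image.1 hx
    exact h1 u hu) (by
    intro x hx
    obtain ⟨u, hu, rfl⟩ := mem_image.1 hx
    exact hcon u hu)
  rw [card_image_of_injective _ hφ] at h2
  linarith

theorem exists_large_det {H : ℕ} {ρ : ℝ} (hρ : 0 < ρ) {A : Finset G} (hA : A ⊆ box H)
    (hcard : (4 * (H : ℝ) + 1) * (2 * ρ + 1) < A.card) :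
    ∃ u₀ ∈ A, ∃ u₁ ∈ A, ∃ u₂ ∈ A, ρ ^ 2 ≤ |(det (u₁ - u₀) (u₂ - u₀) : ℝ)| := by
  have hne : A.Nonempty := by
    rw [← card_pos]
    have h0 : (0 : ℝ) < A.card := lt_of_le_of_lt (by positivity) hcard
    exact_mod_cast h0
  obtain ⟨u₀, hu₀⟩ := hne
  have hre : ∀ u ∈ A, |(u - u₀).re| ≤ 2 * (H : ℤ) ∧ |(u - u₀).im| ≤ 2 * (H : ℤ) := by
    intro u hu
    have h1 := mem_box.1 (hA hu)
    have h2 := mem_box.1 (hA hu₀)
    rw [Zsqrtd.re_sub, Zsqrtd.im_sub]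
    exact ⟨(abs_sub _ _).trans (by linarith [h1.1, h2.1]),
      (abs_sub _ _).trans (by linarith [h1.2, h2.2])⟩
  have hinj1 : Function.Injective fun u : G => ((u - u₀).re, (u - u₀).im) := by
    intro u v huv
    simp only [Prod.mk.injEq, Zsqrtd.re_sub, Zsqrtd.im_sub] at huv
    exact Zsqrtd.ext (by linarith [huv.1]) (by linarith [huv.2])
  have hinj2 : Function.Injective fun u : G => ((u - u₀).im, (u - u₀).re) := by
    intro u v huv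
    simp only [Prod.mk.injEq, Zsqrtd.re_sub, Zsqrtd.im_sub] at huv
    exact Zsqrtd.ext (by linarith [huv.2]) (by linarith [huv.1])
  obtain ⟨u₁, hu₁, h1⟩ := B2b_exists hρ _ hinj1 (fun u hu => (hre u hu).1) hcard (fun _ => 0)
  simp only [sub_zero] at h1
  obtain ⟨u₂, hu₂, h2⟩ := B2b_exists hρ _ hinj2 (fun u hu => (hre u hu).2) hcard
    (fun p => ((u₁ - u₀).re : ℝ) / ((u₁ - u₀).im : ℝ) * p)
  simp only at h2
  refine ⟨u₀, hu₀, u₁, hu₁, u₂, hu₂, ?_⟩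
  have h3 : ((u₁ - u₀).im : ℝ) ≠ 0 := by
    intro h0
    rw [h0, abs_zero] at h1
    linarith
  have h4 : ((det (u₁ - u₀) (u₂ - u₀) : ℤ) : ℝ) = -(((u₁ - u₀).im : ℝ) * (((u₂ - u₀).re : ℝ) -
      ((u₁ - u₀).re : ℝ) / ((u₁ - u₀).im : ℝ) * ((u₂ - u₀).im : ℝ))) := by
    unfold det
    push_cast
    field_simp
    ring
  rw [h4, abs_neg, abs_mul, sq]
  exact mul_le_mul h1 h2 hρ.le (abs_nonneg _)

end H29I
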