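import Pool.Agent.Lib.H29I.B2a
import Pool.Agent.Lib.H29I.A1

/-!
# Chunk B2c: first approximation

Proof. Let `L v = α conj v - β v`. Write `L v = g₁ + θ₁`, `L w = g₂ + θ₂` with Gaussian integers
`g₁, g₂` and `|θ.re|, |θ.im| ≤ η`, so `‖θ‖ ≤ √2 η`. Since
`w L v - v L w = α (conj v w - v conj w) = 2 i det(v, w) α` and
`conj w L v - conj v L w = -β (v conj w - conj v w) = 2 i det(v, w) β`, with `Δ = 2 det(v, w)`:
`i Δ α = (w g₁ - v g₂) + (w θ₁ - v θ₂)` and the same for `β` with `conj w`, `conj v`. Take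
`q = |Δ|`, `g = ± (w g₁ - v g₂) / i`; the error is at most
`(‖v‖ + ‖w‖) √2 η / |Δ| ≤ 2 √2 s √2 η / 2 = 2 s η`. And `|Δ| ≤ 2 · 2 s²`.
-/

open Finset Complex

namespace H29I

theorem B2c_div {d : ℤ} (hd : d ≠ 0) {α θ : ℂ} {g : G}
    (h : 2 * Complex.I * (d : ℂ) * α = (g : ℂ) + θ) :
    ∃ g' : G, ‖α - (g' : ℂ) / ((2 * d.natAbs : ℕ) : ℂ)‖ = ‖θ‖ / (2 * |(d : ℝ)|) := by
  have hdC : (d : ℂ) ≠ 0 := by exact_mod_cast hd
  have hI : (gi : ℂ) = Complex.I := by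
    apply Complex.ext
    · rw [coe_re]; simp [gi]
    · rw [coe_im]; simp [gi]
  have hα : α - (g : ℂ) / (2 * Complex.I * (d : ℂ)) = θ / (2 * Complex.I * (d : ℂ)) := by
    have h2 : (2 * Complex.I * (d : ℂ)) ≠ 0 :=
      mul_ne_zero (mul_ne_zero two_ne_zero Complex.I_ne_zero) hdC
    field_simp
    linear_combination h
  have hnorm : ‖θ / (2 * Complex.I * (d : ℂ))‖ = ‖θ‖ / (2 * |(d : ℝ)|) := by
    rw [norm_div, norm_mul, norm_mul, Complex.norm_I]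
    simp
  have hgd : (g : ℂ) / (2 * Complex.I * (d : ℂ)) = (-Complex.I * g) / (2 * (d : ℂ)) := by
    rw [div_eq_div_iff (mul_ne_zero (mul_ne_zero two_ne_zero Complex.I_ne_zero) hdC)
      (mul_ne_zero two_ne_zero hdC)]
    linear_combination (2 * (g : ℂ) * d) * Complex.I_mul_I
  rcases lt_or_gt_of_ne hd with h0 | h0
  · refine ⟨gi * g, ?_⟩
    rw [← hnorm, ← hα, hgd]
    congr 2
    have h3 : ((2 * d.natAbs : ℕ) : ℂ) = -(2 * (d : ℂ)) := by
      have h4 : ((d.natAbs : ℕ) : ℤ) = -d := by omega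
      have h5 : ((d.natAbs : ℕ) : ℂ) = -(d : ℂ) := by
        have := congrArg (fun t : ℤ => (t : ℂ)) h4
        push_cast at this
        simpa using this
      push_cast
      rw [h5]
      ring
    rw [h3, map_mul, hI, div_neg, neg_mul, neg_div]
  · refine ⟨-gi * g, ?_⟩
    rw [← hnorm, ← hα, hgd]
    congr 2
    have h3 : ((2 * d.natAbs : ℕ) : ℂ) = 2 * (d : ℂ) := by
      have h4 : ((d.natAbs : ℕ) : ℤ) = d := by omega
      have h5 : ((d.natAbs : ℕ) : ℂ) = (d : ℂ) := by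
        have := congrArg (fun t : ℤ => (t : ℂ)) h4
        push_cast at this
        simpa using this
      push_cast
      rw [h5]
    rw [h3, map_mul, map_neg, hI]

theorem B2c_norm_le {θ : ℂ} {η : ℝ} (h1 : |θ.re| ≤ η) (h2 : |θ.im| ≤ η) :
    ‖θ‖ ≤ Real.sqrt 2 * η := by
  have hη : 0 ≤ η := (abs_nonneg _).trans h1
  rw [Complex.norm_def, ← Real.sqrt_sq hη, ← Real.sqrt_mul (by norm_num)]
  apply Real.sqrt_le_sqrt
  rw [Complex.normSq_apply]
  have h3 := abs_le.1 h1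
  have h4 := abs_le.1 h2
  nlinarith

theorem B2c_round (L : ℂ) {η : ℝ} (h1 : dz L.re ≤ η) (h2 : dz L.im ≤ η) :
    ∃ (g : G) (θ : ℂ), L = (g : ℂ) + θ ∧ |θ.re| ≤ η ∧ |θ.im| ≤ η := by
  obtain ⟨m, hm⟩ := exists_int_dz L.re
  obtain ⟨n, hn⟩ := exists_int_dz L.im
  refine ⟨⟨m, n⟩, L - ((⟨m, n⟩ : G) : ℂ), by ring, ?_, ?_⟩
  · rw [Complex.sub_re, coe_re, hm]
    exact h1
  · rw [Complex.sub_im, coe_im, hn]
    exact h2

theorem B2c_det (v w : G) : (w : ℂ) * (starRingEnd ℂ) (v : ℂ) - (v : ℂ) * (starRingEnd ℂ) (w : ℂ) =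
    2 * Complex.I * ((det v w : ℤ) : ℂ) := by
  apply Complex.ext
  · simp only [Complex.sub_re, Complex.mul_re, Complex.conj_re, Complex.conj_im, coe_re, coe_im,
      Complex.I_re, Complex.I_im, Complex.mul_im, Complex.intCast_re, Complex.intCast_im,
      Complex.re_ofNat, Complex.im_ofNat]
    ring
  · simp only [Complex.sub_im, Complex.mul_re, Complex.conj_re, Complex.conj_im, coe_re, coe_im,
      Complex.I_re, Complex.I_im, Complex.mul_im, Complex.intCast_re, Complex.intCast_im,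
      Complex.re_ofNat, Complex.im_ofNat, det]
    push_cast
    ring

theorem B2c_norm_G {s : ℕ} {v : G} (hv : |v.re| < s ∧ |v.im| < s) :
    ‖(v : ℂ)‖ ≤ Real.sqrt 2 * s := by
  apply B2c_norm_le
  · rw [coe_re, ← Int.cast_abs]
    exact_mod_cast hv.1.le
  · rw [coe_im, ← Int.cast_abs]
    exact_mod_cast hv.2.le

theorem approx_of_det {s : ℕ} {η : ℝ} {α β : ℂ} {v w : G} (hv : |v.re| < s ∧ |v.im| < s)
    (hw : |w.re| < s ∧ |w.im| < s) (hdet : det v w ≠ 0)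
    (h1 : dz (α * (starRingEnd ℂ) (v : ℂ) - β * (v : ℂ)).re ≤ η)
    (h2 : dz (α * (starRingEnd ℂ) (v : ℂ) - β * (v : ℂ)).im ≤ η)
    (h3 : dz (α * (starRingEnd ℂ) (w : ℂ) - β * (w : ℂ)).re ≤ η)
    (h4 : dz (α * (starRingEnd ℂ) (w : ℂ) - β * (w : ℂ)).im ≤ η) :
    ∃ q : ℕ, ∃ g h : G, 1 ≤ q ∧ (q : ℝ) ≤ 4 * (s : ℝ) ^ 2 ∧
      ‖α - (g : ℂ) / q‖ ≤ 2 * s * η ∧ ‖β - (h : ℂ) / q‖ ≤ 2 * s * η := by
  have hη : 0 ≤ η := (dz_nonneg _).trans h1
  obtain ⟨g₁, θ₁, e1, a1, b1⟩ := B2c_round _ h1 h2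
  obtain ⟨g₂, θ₂, e2, a2, b2⟩ := B2c_round _ h3 h4
  have n1 := B2c_norm_le a1 b1
  have n2 := B2c_norm_le a2 b2
  have nv := B2c_norm_G hv
  have nw := B2c_norm_G hw
  have hsq : Real.sqrt 2 * Real.sqrt 2 = 2 := Real.mul_self_sqrt (by norm_num)
  have hs0 : (0 : ℝ) ≤ s := Nat.cast_nonneg s
  have hdet1 : (1 : ℝ) ≤ |((det v w : ℤ) : ℝ)| := by
    rw [← Int.cast_abs]
    exact_mod_cast Int.one_le_abs hdet
  have hdd := B2c_det v w
  have hA : 2 * Complex.I * ((det v w : ℤ) : ℂ) * α = ((w * g₁ - v * g₂ : G) : ℂ) +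
      ((w : ℂ) * θ₁ - (v : ℂ) * θ₂) := by
    rw [← hdd, map_sub, map_mul, map_mul]
    linear_combination (w : ℂ) * e1 - (v : ℂ) * e2
  have hB : 2 * Complex.I * ((det v w : ℤ) : ℂ) * β = ((star w * g₁ - star v * g₂ : G) : ℂ) +
      ((starRingEnd ℂ) (w : ℂ) * θ₁ - (starRingEnd ℂ) (v : ℂ) * θ₂) := by
    rw [← hdd, map_sub, map_mul, map_mul, coe_star, coe_star]
    linear_combination (starRingEnd ℂ) (w : ℂ) * e1 - (starRingEnd ℂ) (v : ℂ) * e2
  have herr : ∀ (a b : ℂ), ‖a‖ ≤ Real.sqrt 2 * s → ‖b‖ ≤ Real.sqrt 2 * s →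
      ‖a * θ₁ - b * θ₂‖ / (2 * |((det v w : ℤ) : ℝ)|) ≤ 2 * s * η := by
    intro a b ha hb
    rw [div_le_iff₀ (by linarith)]
    have h5 : ‖a * θ₁ - b * θ₂‖ ≤ Real.sqrt 2 * s * (Real.sqrt 2 * η) +
        Real.sqrt 2 * s * (Real.sqrt 2 * η) := by
      refine (norm_sub_le _ _).trans ?_
      rw [norm_mul, norm_mul]
      exact add_le_add (mul_le_mul ha n1 (norm_nonneg _) (by positivity))
        (mul_le_mul hb n2 (norm_nonneg _) (by positivity))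
    have h6 : Real.sqrt 2 * s * (Real.sqrt 2 * η) + Real.sqrt 2 * s * (Real.sqrt 2 * η) =
        4 * s * η := by
      linear_combination (2 * (s : ℝ) * η) * hsq
    rw [h6] at h5
    have h7 : 0 ≤ (s : ℝ) * η := mul_nonneg hs0 hη
    nlinarith
  obtain ⟨g, hg⟩ := B2c_div hdet hA
  obtain ⟨h, hh⟩ := B2c_div hdet hB
  refine ⟨2 * (det v w).natAbs, g, h, ?_, ?_, ?_, ?_⟩
  · have := Int.natAbs_pos.2 hdet
    omega
  · have h5 : (((det v w).natAbs : ℕ) : ℝ) = |((det v w : ℤ) : ℝ)| := by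
      rw [← Int.cast_abs, Int.abs_eq_natAbs]
      simp
    push_cast
    rw [h5]
    have h6 : |((det v w : ℤ) : ℝ)| ≤ 2 * (s : ℝ) ^ 2 := by
      unfold det
      push_cast
      have r1 : |(v.re : ℝ)| ≤ s := by rw [← Int.cast_abs]; exact_mod_cast hv.1.le
      have r2 : |(v.im : ℝ)| ≤ s := by rw [← Int.cast_abs]; exact_mod_cast hv.2.le
      have r3 : |(w.re : ℝ)| ≤ s := by rw [← Int.cast_abs]; exact_mod_cast hw.1.le
      have r4 : |(w.im : ℝ)| ≤ s := by rw [← Int.cast_abs]; exact_mod_cast hw.2.le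
      refine (abs_sub _ _).trans ?_
      rw [abs_mul, abs_mul]
      have := mul_le_mul r1 r4 (abs_nonneg _) hs0
      have := mul_le_mul r2 r3 (abs_nonneg _) hs0
      nlinarith
    linarith
  · rw [hg]
    exact herr _ _ nw nv
  · rw [hh]
    refine herr _ _ ?_ ?_
    · rw [Complex.norm_conj]
      exact nw
    · rw [Complex.norm_conj]
      exact nv

end H29I
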