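import Pool.Agent.Lib.H29I.B2a
import Pool.Agent.Lib.H29I.A1

/-!
# Chunk B2d: second approximation

Proof. Let `v, w` be divisible by `q` and `ε = α - g / q`, `ε' = β - h / q`, `L v = α conj v - β v =
(g conj v - h v) / q + (ε conj v - ε' v)`, where the first term is a Gaussian integer and the second
one has real and imaginary part at most `1 / 2` in absolute value, hence equal in absolute value to
`dz (L v).re`, `dz (L v).im ≤ η`. So `‖ε conj v - ε' v‖ ≤ √2 η`, the same for `w`. Now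
`w (ε conj v - ε' v) - v (ε conj w - ε' w) = 2 i det(v, w) ε`, so
`‖ε‖ ≤ (‖v‖ + ‖w‖) √2 η / (2 |det|) ≤ 2 · 4 H · √2 · η / (2 ρ²) ≤ 6 H η / ρ²`
(`‖v‖ ≤ √2 · 2 H ≤ 4 H`... any constant `≤ 8` will do). The same for `ε'` (multiply by
`conj w`, `conj v`).
-/

open Finset Complex

namespace H29I

theorem B2d_norm_le {θ : ℂ} {η : ℝ} (h1 : |θ.re| ≤ η) (h2 : |θ.im| ≤ η) :
    ‖θ‖ ≤ 2 * η := by
  have hη : 0 ≤ η := (abs_nonneg _).trans h1
  refine (Complex.norm_le_abs_re_add_abs_im θ).trans ?_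
  linarith

theorem B2d_norm_G {H : ℕ} {v : G} (hv : v ∈ box (2 * H)) : ‖(v : ℂ)‖ ≤ 4 * H := by
  rw [mem_box] at hv
  have h1 : |(v : ℂ).re| ≤ 2 * (H : ℝ) := by
    rw [coe_re, ← Int.cast_abs]
    exact_mod_cast hv.1
  have h2 : |(v : ℂ).im| ≤ 2 * (H : ℝ) := by
    rw [coe_im, ← Int.cast_abs]
    exact_mod_cast hv.2
  have := B2d_norm_le h1 h2
  linarith

theorem B2d_det (v w : G) : (w : ℂ) * (starRingEnd ℂ) (v : ℂ) - (v : ℂ) * (starRingEnd ℂ) (w : ℂ) =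
    2 * Complex.I * ((det v w : ℤ) : ℂ) := by
  apply Complex.ext
  · simp only [Complex.sub_re, Complex.mul_re, Complex.conj_re, Complex.conj_im, coe_re, coe_im,
      Complex.I_re, Complex.I_im, Complex.mul_im, Complex.intCast_re, Complex.intCast_im,
      Complex.re_ofNat, Complex.im_ofNat]
    ring
  · simp only [Complex.sub_im, Complex.mul_re, Complex.conj_re, Complex.conj_im, coe_re, coe_im,
      Complex.I_re, Complex.I_im, Complex.mul_im, Complex.intCast_re, Complex.intCast_im,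
      Complex.re_ofNat, Complex.im_ofNat, det]
    push_cast
    ring

/-- The second term has size at most `η` in both coordinates. -/
theorem B2d_small {H q : ℕ} {η : ℝ} {α β : ℂ} {g h v : G} (hq : 1 ≤ q)
    (hv : v ∈ box (2 * H)) (hqv : ∃ t : G, v = (q : G) * t)
    (hα : ‖α - (g : ℂ) / q‖ * (4 * H) ≤ 1 / 4) (hβ : ‖β - (h : ℂ) / q‖ * (4 * H) ≤ 1 / 4)
    (h1 : dz (α * (starRingEnd ℂ) (v : ℂ) - β * (v : ℂ)).re ≤ η)
    (h2 : dz (α * (starRingEnd ℂ) (v : ℂ) - β * (v : ℂ)).im ≤ η) :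
    ‖(α - (g : ℂ) / q) * (starRingEnd ℂ) (v : ℂ) - (β - (h : ℂ) / q) * (v : ℂ)‖ ≤
      Real.sqrt 2 * η := by
  have hη : 0 ≤ η := (dz_nonneg _).trans h1
  obtain ⟨t, ht⟩ := hqv
  have hq0 : (q : ℂ) ≠ 0 := by exact_mod_cast (by omega : q ≠ 0)
  have hvt : (v : ℂ) = (q : ℂ) * (t : ℂ) := by
    rw [ht, map_mul, map_natCast]
  set r : ℂ := (α - (g : ℂ) / q) * (starRingEnd ℂ) (v : ℂ) - (β - (h : ℂ) / q) * (v : ℂ) with hr
  have hL : α * (starRingEnd ℂ) (v : ℂ) - β * (v : ℂ) = r + ((g * star t - h * t : G) : ℂ) := by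
    rw [hr, hvt, map_sub, map_mul, map_mul, coe_star, map_mul, Complex.conj_natCast]
    field_simp
    ring
  have hnv := B2d_norm_G hv
  have hr1 : ‖r‖ ≤ 1 / 2 := by
    refine (norm_sub_le _ _).trans ?_
    rw [norm_mul, norm_mul, Complex.norm_conj]
    have e1 := mul_le_mul_of_nonneg_left hnv (norm_nonneg (α - (g : ℂ) / q))
    have e2 := mul_le_mul_of_nonneg_left hnv (norm_nonneg (β - (h : ℂ) / q))
    linarith
  have hre : |r.re| ≤ η := by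
    have e1 : |r.re| ≤ 1 / 2 := (Complex.abs_re_le_norm r).trans hr1
    rw [← dz_eq_abs e1]
    rw [hL, Complex.add_re, coe_re, dz_add_int] at h1
    exact h1
  have him : |r.im| ≤ η := by
    have e1 : |r.im| ≤ 1 / 2 := (Complex.abs_im_le_norm r).trans hr1
    rw [← dz_eq_abs e1]
    rw [hL, Complex.add_im, coe_im, dz_add_int] at h2
    exact h2
  rw [Complex.norm_def, ← Real.sqrt_sq hη, ← Real.sqrt_mul (by norm_num)]
  apply Real.sqrt_le_sqrt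
  rw [Complex.normSq_apply]
  have h3 := abs_le.1 hre
  have h4 := abs_le.1 him
  nlinarith

theorem refine_approx {H q : ℕ} {η ρ : ℝ} {α β : ℂ} {g h v w : G} (hq : 1 ≤ q) (hρ : 0 < ρ)
    (hη : 0 ≤ η)
    (hv : v ∈ box (2 * H)) (hw : w ∈ box (2 * H)) (hqv : ∃ t : G, v = (q : G) * t)
    (hqw : ∃ t : G, w = (q : G) * t) (hdet : ρ ^ 2 ≤ |(det v w : ℝ)|)
    (hα : ‖α - (g : ℂ) / q‖ * (4 * H) ≤ 1 / 4) (hβ : ‖β - (h : ℂ) / q‖ * (4 * H) ≤ 1 / 4)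
    (h1 : dz (α * (starRingEnd ℂ) (v : ℂ) - β * (v : ℂ)).re ≤ η)
    (h2 : dz (α * (starRingEnd ℂ) (v : ℂ) - β * (v : ℂ)).im ≤ η)
    (h3 : dz (α * (starRingEnd ℂ) (w : ℂ) - β * (w : ℂ)).re ≤ η)
    (h4 : dz (α * (starRingEnd ℂ) (w : ℂ) - β * (w : ℂ)).im ≤ η) :
    ‖α - (g : ℂ) / q‖ ≤ 8 * H * η / ρ ^ 2 ∧ ‖β - (h : ℂ) / q‖ ≤ 8 * H * η / ρ ^ 2 := by
  have sv := B2d_small hq hv hqv hα hβ h1 h2
  have sw := B2d_small hq hw hqw hα hβ h3 h4
  have nv := B2d_norm_G hv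
  have nw := B2d_norm_G hw
  have hdd := B2d_det v w
  have hH0 : (0 : ℝ) ≤ H := Nat.cast_nonneg H
  have hs2 : Real.sqrt 2 ≤ 2 := by
    rw [Real.sqrt_le_left (by norm_num)]
    norm_num
  have hs0 : 0 ≤ Real.sqrt 2 := Real.sqrt_nonneg 2
  set ε : ℂ := α - (g : ℂ) / q with hε
  set ε' : ℂ := β - (h : ℂ) / q with hε'
  have hA : 2 * Complex.I * ((det v w : ℤ) : ℂ) * ε =
      (w : ℂ) * (ε * (starRingEnd ℂ) (v : ℂ) - ε' * (v : ℂ)) -
        (v : ℂ) * (ε * (starRingEnd ℂ) (w : ℂ) - ε' * (w : ℂ)) := by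
    rw [← hdd]
    ring
  have hB : 2 * Complex.I * ((det v w : ℤ) : ℂ) * ε' =
      (starRingEnd ℂ) (w : ℂ) * (ε * (starRingEnd ℂ) (v : ℂ) - ε' * (v : ℂ)) -
        (starRingEnd ℂ) (v : ℂ) * (ε * (starRingEnd ℂ) (w : ℂ) - ε' * (w : ℂ)) := by
    rw [← hdd]
    ring
  have hmain : ∀ (a b c : ℂ), ‖a‖ ≤ 4 * H → ‖b‖ ≤ 4 * H →
      2 * Complex.I * ((det v w : ℤ) : ℂ) * c =
        a * (ε * (starRingEnd ℂ) (v : ℂ) - ε' * (v : ℂ)) -
          b * (ε * (starRingEnd ℂ) (w : ℂ) - ε' * (w : ℂ)) →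
      ‖c‖ ≤ 8 * H * η / ρ ^ 2 := by
    intro a b c ha hb hc
    have e1 : ‖2 * Complex.I * ((det v w : ℤ) : ℂ) * c‖ ≤ 4 * H * (Real.sqrt 2 * η) +
        4 * H * (Real.sqrt 2 * η) := by
      rw [hc]
      refine (norm_sub_le _ _).trans ?_
      rw [norm_mul, norm_mul]
      exact add_le_add (mul_le_mul ha sv (norm_nonneg _) (by positivity))
        (mul_le_mul hb sw (norm_nonneg _) (by positivity))
    have e2 : ‖2 * Complex.I * ((det v w : ℤ) : ℂ) * c‖ = 2 * |((det v w : ℤ) : ℝ)| * ‖c‖ := by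
      rw [norm_mul, norm_mul, norm_mul, Complex.norm_I]
      simp
    rw [e2] at e1
    rw [le_div_iff₀ (by positivity)]
    have e3 : ‖c‖ * ρ ^ 2 ≤ ‖c‖ * |((det v w : ℤ) : ℝ)| :=
      mul_le_mul_of_nonneg_left hdet (norm_nonneg _)
    have e4 : 0 ≤ (H : ℝ) * η := mul_nonneg hH0 hη
    have e5 : (H : ℝ) * η * Real.sqrt 2 ≤ (H : ℝ) * η * 2 := mul_le_mul_of_nonneg_left hs2 e4
    nlinarith
  exact ⟨hmain _ _ _ nw nv hA, hmain _ _ _ (by rw [Complex.norm_conj]; exact nw)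
    (by rw [Complex.norm_conj]; exact nv) hB⟩

end H29I
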