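import Pool.Agent.Lib.H29I.A3
import Pool.Agent.Lib.H29I.B2b
import Pool.Agent.Lib.H29I.B2c
import Pool.Agent.Lib.H29I.B2d

/-!
# Chunk B2: rational approximation, two variables

Proof. Put `L u = α conj u - β u`, `𝒮 = {u ∈ box H : ‖K (L u)‖ ≥ κ Z² / 18}`. Since
`|box H| ≤ 9 H²` and `‖K‖ ≤ 25 Z²`: `|𝒮| ≥ κ H² / 50`. For `u ∈ 𝒮`, `dz (L u).re, dz (L u).im ≤ τ`
with `τ = 45 / (κ Z)` (A3). (i) Take `s = ⌈801 / κ⌉`, `s ≤ 802 / κ`; `|𝒮| s > 16 H²`;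
`exists_noncollinear` and `approx_of_det` with `v = u₁ - u₀`, `w = u₂ - u₀`, `η = 2 τ` (subadditivity
of `dz`) give `q ≤ 4 s² ≤ 2.6 · 10⁶ / κ²` and `g, h` with errors `≤ 2 s η ≤ 1.5 · 10⁵ / (κ² Z)`.
(ii) Some residue class modulo `q` (there are `q²` classes) contains at least
`|𝒮| / q² ≥ κ⁵ H² / (3.4 · 10¹⁴)` elements of `𝒮`. Apply `exists_large_det` to this class with
`ρ = κ⁵ H / 10¹⁶` (`ρ ≥ 1`, `(4 H + 1) (2 ρ + 1) ≤ 15 H ρ < κ⁵ H² / (3.4 · 10¹⁴)`). (iii)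
`refine_approx` (`η = 2 τ`): errors `≤ 8 H · 90 / (κ Z) · 10³² / (κ¹⁰ H²) ≤ 10³⁵ / (κ¹¹ Z H)`.
-/

open Finset Complex

namespace H29I

theorem B2_class {q : ℕ} (hq : 1 ≤ q) (S : Finset G) {b : ℝ}
    (hb : (q : ℝ) ^ 2 * b ≤ S.card) :
    ∃ A ⊆ S, b ≤ (A.card : ℝ) ∧ ∀ u ∈ A, ∀ v ∈ A, ∃ t : G, v - u = (q : G) * t := by
  classical
  have hq' : (0 : ℤ) < q := by exact_mod_cast hq
  obtain ⟨c, -, hc⟩ := Finset.exists_le_card_fiber_of_nsmul_le_card_of_maps_to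
    (s := S) (t := (Ico (0 : ℤ) q) ×ˢ (Ico (0 : ℤ) q)) (f := fun u : G => (u.re % q, u.im % q))
    (b := b)
    (by
      intro u _
      rw [mem_product, mem_Ico, mem_Ico]
      exact ⟨⟨Int.emod_nonneg _ hq'.ne', Int.emod_lt_of_pos _ hq'⟩,
        ⟨Int.emod_nonneg _ hq'.ne', Int.emod_lt_of_pos _ hq'⟩⟩)
    ⟨(0, 0), by
      rw [mem_product, mem_Ico]
      exact ⟨⟨le_rfl, hq'⟩, ⟨le_rfl, hq'⟩⟩⟩
    (by
      rw [card_product, Int.card_Ico, sub_zero, Int.toNat_natCast, nsmul_eq_mul]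
      push_cast
      rw [← sq]
      exact hb)
  refine ⟨S.filter (fun u : G => (u.re % q, u.im % q) = c), filter_subset _ _, hc, ?_⟩
  intro u hu v hv
  have h1 := (mem_filter.1 hu).2
  have h2 := (mem_filter.1 hv).2
  rw [← h2, Prod.mk.injEq] at h1
  obtain ⟨a, ha⟩ : (q : ℤ) ∣ v.re - u.re := Int.ModEq.dvd h1.1
  obtain ⟨b, hb⟩ : (q : ℤ) ∣ v.im - u.im := Int.ModEq.dvd h1.2
  refine ⟨⟨a, b⟩, ?_⟩
  rw [Zsqrtd.ext_iff]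
  simp only [Zsqrtd.re_sub, Zsqrtd.im_sub, Zsqrtd.re_mul, Zsqrtd.im_mul, Zsqrtd.re_natCast,
    Zsqrtd.im_natCast]
  constructor
  · rw [ha]; ring
  · rw [hb]; ring

theorem B2_sub_mem {H : ℕ} {u v : G} (hu : u ∈ box H) (hv : v ∈ box H) : v - u ∈ box (2 * H) := by
  rw [mem_box] at hu hv ⊢
  rw [Zsqrtd.re_sub, Zsqrtd.im_sub]
  push_cast
  constructor
  · linarith [abs_sub v.re u.re, hu.1, hv.1]
  · linarith [abs_sub v.im u.im, hu.2, hv.2]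

theorem B2_big {H Z : ℕ} {κ : ℝ} {F : G → ℝ} (hH1 : (1 : ℝ) ≤ H) (hκ : 0 < κ)
    (hZ0 : (0 : ℝ) < Z) (hF : ∀ u, F u ≤ 25 * (Z : ℝ) ^ 2)
    (h : κ * (Z : ℝ) ^ 2 * (H : ℝ) ^ 2 ≤ ∑ u ∈ box H, F u) :
    κ * (H : ℝ) ^ 2 / 50 ≤ (((box H).filter (fun u => κ * (Z : ℝ) ^ 2 / 18 ≤ F u)).card : ℝ) := by
  classical
  set I := box H with hI
  set S := I.filter (fun u => κ * (Z : ℝ) ^ 2 / 18 ≤ F u) with hS
  have hIcard : ((I.card : ℕ) : ℝ) ≤ 9 * (H : ℝ) ^ 2 := by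
    rw [hI, card_box]
    push_cast
    nlinarith
  have h1 : ∑ n ∈ I, F n = ∑ n ∈ S, F n + ∑ n ∈ I.filter (fun n => ¬ κ * (Z : ℝ) ^ 2 / 18 ≤ F n),
      F n := (Finset.sum_filter_add_sum_filter_not I _ F).symm
  have h2 : ∑ n ∈ S, F n ≤ S.card * (25 * (Z : ℝ) ^ 2) := by
    have := Finset.sum_le_card_nsmul S F (25 * (Z : ℝ) ^ 2) (fun n _ => hF n)
    rwa [nsmul_eq_mul] at this
  have h3 : ∑ n ∈ I.filter (fun n => ¬ κ * (Z : ℝ) ^ 2 / 18 ≤ F n), F n ≤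
      9 * (H : ℝ) ^ 2 * (κ * (Z : ℝ) ^ 2 / 18) := by
    have h4 := Finset.sum_le_card_nsmul (I.filter (fun n => ¬ κ * (Z : ℝ) ^ 2 / 18 ≤ F n)) F
      (κ * (Z : ℝ) ^ 2 / 18) (fun n hn => (not_le.1 (mem_filter.1 hn).2).le)
    rw [nsmul_eq_mul] at h4
    refine h4.trans ?_
    refine mul_le_mul_of_nonneg_right ?_ (by positivity)
    refine le_trans ?_ hIcard
    exact_mod_cast Finset.card_filter_le _ _
  have h5 : κ * (Z : ℝ) ^ 2 * (H : ℝ) ^ 2 ≤ S.card * (25 * (Z : ℝ) ^ 2) +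
      9 * (H : ℝ) ^ 2 * (κ * (Z : ℝ) ^ 2 / 18) := by
    calc κ * (Z : ℝ) ^ 2 * (H : ℝ) ^ 2 ≤ ∑ n ∈ I, F n := h
      _ ≤ _ := by rw [h1]; exact add_le_add h2 h3
  have hZ2 : (0 : ℝ) < (Z : ℝ) ^ 2 := by positivity
  have h6 : (Z : ℝ) ^ 2 * (κ * (H : ℝ) ^ 2 / 2) ≤ (Z : ℝ) ^ 2 * (25 * S.card) := by linarith
  have h7 := le_of_mul_le_mul_left h6 hZ2
  linarith

/-- arithmetic of (i) -/
theorem B2_ar1 {κ s : ℝ} (hκ : 0 < κ) (hs0 : 0 ≤ s) (hs : s ≤ 802 / κ) :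
    4 * s ^ 2 ≤ 2572816 / κ ^ 2 := by
  have h1 : s ^ 2 ≤ (802 / κ) ^ 2 := pow_le_pow_left₀ hs0 hs 2
  have h2 : (802 / κ) ^ 2 = 643204 / κ ^ 2 := by
    rw [div_pow]; norm_num
  rw [h2] at h1
  have h3 : 2572816 / κ ^ 2 = 4 * (643204 / κ ^ 2) := by ring
  rw [h3]
  linarith

/-- arithmetic of (ii) -/
theorem B2_ar2 {κ H q : ℝ} (hκ : 0 < κ) (hH : 0 < H) (hq0 : 0 ≤ q)
    (hq : q ≤ 2572816 / κ ^ 2) :
    q ^ 2 * (κ ^ 5 * H ^ 2 / (34 * 10 ^ 13)) ≤ κ * H ^ 2 / 50 := by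
  have h1 : q * κ ^ 2 ≤ 2572816 := by
    rwa [le_div_iff₀ (by positivity)] at hq
  have h2 : (q * κ ^ 2) ^ 2 ≤ 2572816 ^ 2 := pow_le_pow_left₀ (by positivity) h1 2
  have h3 : q ^ 2 * (κ ^ 5 * H ^ 2 / (34 * 10 ^ 13)) =
      (q * κ ^ 2) ^ 2 * (κ * H ^ 2 / (34 * 10 ^ 13)) := by ring
  rw [h3]
  have h4 : 0 ≤ κ * H ^ 2 / (34 * 10 ^ 13) := by positivity
  have h5 := mul_le_mul_of_nonneg_right h2 h4
  refine h5.trans ?_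
  have h6 : (2572816 : ℝ) ^ 2 * (κ * H ^ 2 / (34 * 10 ^ 13)) =
      (2572816 ^ 2 / (34 * 10 ^ 13)) * (κ * H ^ 2) := by ring
  rw [h6]
  have h7 : κ * H ^ 2 / 50 = (1 / 50) * (κ * H ^ 2) := by ring
  rw [h7]
  refine mul_le_mul_of_nonneg_right ?_ (by positivity)
  norm_num

theorem B2_ar3 {κ H ρ c : ℝ} (hH1 : 1 ≤ H) (hρ : ρ = κ ^ 5 * H / 10 ^ 16) (hρ1 : 1 ≤ ρ)
    (hc : κ ^ 5 * H ^ 2 / (34 * 10 ^ 13) ≤ c) : (4 * H + 1) * (2 * ρ + 1) < c := by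
  have h1 : (4 * H + 1) * (2 * ρ + 1) ≤ (5 * H) * (3 * ρ) :=
    mul_le_mul (by linarith) (by linarith) (by linarith) (by linarith)
  have h2 : κ ^ 5 * H = 10 ^ 16 * ρ := by
    rw [hρ]; ring
  have h3 : κ ^ 5 * H ^ 2 / (34 * 10 ^ 13) = (10 ^ 16 / (34 * 10 ^ 13)) * (H * ρ) := by
    have : κ ^ 5 * H ^ 2 = (κ ^ 5 * H) * H := by ring
    rw [this, h2]; ring
  rw [h3] at hc
  have h4 : 0 < H * ρ := by positivity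
  refine lt_of_lt_of_le (lt_of_le_of_lt h1 ?_) hc
  have h5 : (5 * H) * (3 * ρ) = 15 * (H * ρ) := by ring
  rw [h5]
  refine mul_lt_mul_of_pos_right ?_ h4
  norm_num

theorem B2_ar4 {κ H Z ρ : ℝ} (hκ : 0 < κ) (hH : 0 < H) (hZ : 0 < Z)
    (hρ : ρ = κ ^ 5 * H / 10 ^ 16) :
    8 * H * (2 * (45 / (κ * Z))) / ρ ^ 2 ≤ 10 ^ 35 / (κ ^ 11 * Z * H) := by
  rw [hρ]
  have h1 : 8 * H * (2 * (45 / (κ * Z))) / (κ ^ 5 * H / 10 ^ 16) ^ 2 =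
      720 * 10 ^ 32 / (κ ^ 11 * Z * H) := by
    field_simp
    ring
  rw [h1]
  refine div_le_div_of_nonneg_right ?_ (by positivity)
  norm_num

theorem B2_ar5 {κ H Z s x : ℝ} (hκ : 0 < κ) (hH : 0 < H) (hZ0 : 0 < Z) (hs : s ≤ 802 / κ)
    (hZ : 10 ^ 7 * H ≤ κ ^ 2 * Z) (hx : x ≤ 2 * s * (2 * (45 / (κ * Z)))) :
    x * (4 * H) ≤ 1 / 4 := by
  have h1 : 2 * s * (2 * (45 / (κ * Z))) ≤ 2 * (802 / κ) * (2 * (45 / (κ * Z))) := by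
    refine mul_le_mul_of_nonneg_right (by linarith) (by positivity)
  have h2 : 2 * (802 / κ) * (2 * (45 / (κ * Z))) = 144360 / (κ ^ 2 * Z) := by
    field_simp
    ring
  rw [h2] at h1
  have h3 : x ≤ 144360 / (κ ^ 2 * Z) := hx.trans h1
  have h4 : x * (4 * H) ≤ 144360 / (κ ^ 2 * Z) * (4 * H) :=
    mul_le_mul_of_nonneg_right h3 (by positivity)
  refine h4.trans ?_
  have h5 : 144360 / (κ ^ 2 * Z) * (4 * H) = 577440 * H / (κ ^ 2 * Z) := by ring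
  rw [h5, div_le_iff₀ (by positivity)]
  linarith

theorem dio_two {H Z : ℕ} {κ : ℝ} {α β : ℂ} (hκ : 0 < κ) (hκ1 : κ ≤ 1)
    (hH : 10 ^ 16 ≤ κ ^ 5 * H) (hZ : 10 ^ 7 * (H : ℝ) ≤ κ ^ 2 * Z)
    (h : κ * (Z : ℝ) ^ 2 * (H : ℝ) ^ 2 ≤
      ∑ u ∈ box H, ‖K Z (α * (starRingEnd ℂ) (u : ℂ) - β * (u : ℂ))‖) :
    ∃ q : ℕ, ∃ g h : G, 1 ≤ q ∧ (q : ℝ) ≤ 10 ^ 7 / κ ^ 2 ∧
      ‖α - (g : ℂ) / q‖ ≤ 10 ^ 35 / (κ ^ 11 * Z * H) ∧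
      ‖β - (h : ℂ) / q‖ ≤ 10 ^ 35 / (κ ^ 11 * Z * H) := by
  classical
  have hH0 : (0 : ℝ) ≤ H := Nat.cast_nonneg H
  have hκ5 : κ ^ 5 ≤ κ := by
    calc κ ^ 5 ≤ κ ^ 1 := pow_le_pow_of_le_one hκ.le hκ1 (by norm_num)
      _ = κ := pow_one κ
  have hκH : 10 ^ 16 ≤ κ * H := hH.trans (mul_le_mul_of_nonneg_right hκ5 hH0)
  have hH16 : (10 : ℝ) ^ 16 ≤ H := by
    calc (10 : ℝ) ^ 16 ≤ κ * H := hκH
      _ ≤ 1 * H := mul_le_mul_of_nonneg_right hκ1 hH0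
      _ = H := one_mul _
  have hH1 : (1 : ℝ) ≤ H := by
    refine le_trans ?_ hH16
    norm_num
  have hHpos : (0 : ℝ) < H := by linarith
  have hZ0 : (0 : ℝ) < Z := by
    have h1 : 0 < κ ^ 2 * (Z : ℝ) := lt_of_lt_of_le (by positivity) hZ
    exact pos_of_mul_pos_right h1 (by positivity)
  have hZ1 : 1 ≤ Z := by exact_mod_cast hZ0
  set Lf : G → ℂ := fun u => α * (starRingEnd ℂ) (u : ℂ) - β * (u : ℂ) with hLf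
  set S : Finset G := (box H).filter (fun u => κ * (Z : ℝ) ^ 2 / 18 ≤ ‖K Z (Lf u)‖) with hS
  have hScard : κ * (H : ℝ) ^ 2 / 50 ≤ (S.card : ℝ) :=
    B2_big hH1 hκ hZ0 (F := fun u => ‖K Z (Lf u)‖) (fun u => norm_K_le hZ1 _) h
  set τ : ℝ := 45 / (κ * Z) with hτ
  have hκZ : 0 < κ * (Z : ℝ) := by positivity
  have hτ0 : 0 < τ := by positivity
  have hSre : ∀ u ∈ S, dz (Lf u).re ≤ τ ∧ dz (Lf u).im ≤ τ := by
    intro n hn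
    have h1 : κ * (Z : ℝ) ^ 2 / 18 ≤ ‖K Z (Lf n)‖ := (mem_filter.1 hn).2
    have h2 := dz_re_mul_norm_K_le hZ1 (Lf n)
    have h3 := dz_im_mul_norm_K_le hZ1 (Lf n)
    have key : ∀ d : ℝ, 0 ≤ d → d * ‖K Z (Lf n)‖ ≤ 5 / 2 * Z → d ≤ τ := by
      intro d hd h4
      rw [hτ, le_div_iff₀ hκZ]
      have h5 : d * (κ * (Z : ℝ) ^ 2 / 18) ≤ 5 / 2 * Z :=
        (mul_le_mul_of_nonneg_left h1 hd).trans h4
      have h6 : (Z : ℝ) * (d * (κ * Z)) ≤ Z * 45 := by linarith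
      exact le_of_mul_le_mul_left h6 hZ0
    exact ⟨key _ (dz_nonneg _) h2, key _ (dz_nonneg _) h3⟩
  have hLsub : ∀ u v : G, Lf (v - u) = Lf v - Lf u := by
    intro u v
    simp only [hLf]
    rw [GaussianInt.toComplex_sub, map_sub]
    ring
  have hdiff : ∀ u ∈ S, ∀ v ∈ S, dz (Lf (v - u)).re ≤ 2 * τ ∧ dz (Lf (v - u)).im ≤ 2 * τ := by
    intro u hu v hv
    rw [hLsub, Complex.sub_re, Complex.sub_im]
    have h2 := hSre u hu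
    have h3 := hSre v hv
    constructor
    · linarith [dz_sub_le (Lf v).re (Lf u).re]
    · linarith [dz_sub_le (Lf v).im (Lf u).im]
  -- (i)
  set s : ℕ := ⌈801 / κ⌉₊ with hs
  have hs1 : 801 / κ ≤ (s : ℝ) := Nat.le_ceil _
  have hone : 1 ≤ 1 / κ := by rw [le_div_iff₀ hκ]; linarith
  have hs2 : (s : ℝ) ≤ 802 / κ := by
    have h1 : (s : ℝ) < 801 / κ + 1 := Nat.ceil_lt_add_one (by positivity)
    have h2 : 802 / κ = 801 / κ + 1 / κ := by ring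
    linarith
  have hs3 : 1 ≤ s := by
    have h1 : (1 : ℝ) ≤ s := by
      refine le_trans ?_ hs1
      rw [le_div_iff₀ hκ]
      linarith
    exact_mod_cast h1
  have hs4 : s ≤ H := by
    have h1 : (s : ℝ) ≤ H := by
      refine hs2.trans ?_
      rw [div_le_iff₀ hκ]
      have : (802 : ℝ) ≤ 10 ^ 16 := by norm_num
      linarith
    exact_mod_cast h1
  have hcard : 16 * H ^ 2 < S.card * s := by
    have h1 : (16 : ℝ) * (H : ℝ) ^ 2 < S.card * s := by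
      have h2 : κ * (H : ℝ) ^ 2 / 50 * (801 / κ) ≤ S.card * s :=
        mul_le_mul hScard hs1 (by positivity) (by positivity)
      have h3 : κ * (H : ℝ) ^ 2 / 50 * (801 / κ) = 801 / 50 * (H : ℝ) ^ 2 := by
        field_simp
      rw [h3] at h2
      have h4 : (0 : ℝ) < (H : ℝ) ^ 2 := by positivity
      linarith
    exact_mod_cast h1
  obtain ⟨u₀, hu₀, u₁, hu₁, u₂, hu₂, a1, a2, a3, a4, hdet⟩ :=
    exists_noncollinear hs3 hs4 (Finset.filter_subset _ _) hcard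
  obtain ⟨q, g, h', hq1, hq4, hα, hβ⟩ := approx_of_det (η := 2 * τ) (α := α) (β := β)
    ⟨a1, a2⟩ ⟨a3, a4⟩ hdet (hdiff u₀ hu₀ u₁ hu₁).1 (hdiff u₀ hu₀ u₁ hu₁).2
    (hdiff u₀ hu₀ u₂ hu₂).1 (hdiff u₀ hu₀ u₂ hu₂).2
  have hq5 : (q : ℝ) ≤ 2572816 / κ ^ 2 := hq4.trans (B2_ar1 hκ (Nat.cast_nonneg _) hs2)
  -- (ii)
  obtain ⟨A, hAS, hAc, hAq⟩ := B2_class hq1 S
    ((B2_ar2 hκ hHpos (Nat.cast_nonneg q) hq5).trans hScard)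
  set ρ : ℝ := κ ^ 5 * H / 10 ^ 16 with hρ
  have hρ1 : 1 ≤ ρ := by
    rw [hρ, le_div_iff₀ (by norm_num), one_mul]
    exact hH
  have hAbox : A ⊆ box H := hAS.trans (Finset.filter_subset _ _)
  obtain ⟨v₀, hv₀, v₁, hv₁, v₂, hv₂, hdet2⟩ := exists_large_det (ρ := ρ) (by linarith) hAbox
    (B2_ar3 hH1 hρ hρ1 hAc)
  have hαx := B2_ar5 hκ hHpos hZ0 hs2 hZ hα
  have hβx := B2_ar5 hκ hHpos hZ0 hs2 hZ hβ
  obtain ⟨r1, r2⟩ := refine_approx (H := H) (η := 2 * τ) hq1 (by linarith : 0 < ρ) (by positivity)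
    (B2_sub_mem (hAbox hv₀) (hAbox hv₁)) (B2_sub_mem (hAbox hv₀) (hAbox hv₂))
    (hAq v₀ hv₀ v₁ hv₁) (hAq v₀ hv₀ v₂ hv₂) hdet2 hαx hβx
    (hdiff v₀ (hAS hv₀) v₁ (hAS hv₁)).1 (hdiff v₀ (hAS hv₀) v₁ (hAS hv₁)).2
    (hdiff v₀ (hAS hv₀) v₂ (hAS hv₂)).1 (hdiff v₀ (hAS hv₀) v₂ (hAS hv₂)).2
  have hfin := B2_ar4 hκ hHpos hZ0 hρ
  refine ⟨q, g, h', hq1, ?_, r1.trans hfin, r2.trans hfin⟩
  refine hq5.trans ?_
  refine div_le_div_of_nonneg_right ?_ (by positivity)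
  norm_num

end H29I
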