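import Pool.Agent.Lib.H29I.Defs

/-!
# Chunk B2a: pigeonhole, three non-collinear points in a small cell

Proof. Cut `[-H, H]` into intervals of `s` consecutive integers; at most `4 H / s` are needed
(`(2 H + 1) / s + 1 ≤ 4 H / s`), hence at most `16 H² / s²` cells, and one of them contains more
than `s` points of `A`. If these were all on one line (determinants `0` with two fixed different
points `u₀, u₁`), the cell (an `s × s` square of lattice points) would contain at most `s` of them: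
either all of them have different first coordinates or all of them have different second
coordinates.
-/

open Finset Complex

namespace H29I

/-- The determinant of two lattice vectors. -/
def det (v w : G) : ℤ := v.re * w.im - v.im * w.re

theorem B2a_cell {s : ℕ} (hs : 1 ≤ s) {a b : ℤ} (h : a / s = b / s) : |a - b| < s := by
  have hs' : (0 : ℤ) < s := by exact_mod_cast hs
  have h1 := Int.emod_add_mul_ediv a s
  have h2 := Int.emod_add_mul_ediv b s
  have h3 := Int.emod_nonneg a hs'.ne'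
  have h4 := Int.emod_lt_of_pos a hs'
  have h5 := Int.emod_nonneg b hs'.ne'
  have h6 := Int.emod_lt_of_pos b hs'
  rw [abs_lt]
  rw [h] at h1
  constructor <;> linarith

/-- A set on which an integer coordinate is injective, inside a cell. -/
theorem B2a_inj {s : ℕ} (hs : 1 ≤ s) {B : Finset G} (f : G → ℤ) (c : ℤ)
    (hc : ∀ x ∈ B, f x / s = c) (hinj : Set.InjOn f (B : Set G)) : B.card ≤ s := by
  have hs' : (0 : ℤ) < s := by exact_mod_cast hs
  have h1 : B.image f ⊆ Ico (c * s) (c * s + s) := by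
    intro y hy
    obtain ⟨x, hx, rfl⟩ := Finset.mem_image.1 hy
    have h2 := Int.emod_add_mul_ediv (f x) s
    have h3 := Int.emod_nonneg (f x) hs'.ne'
    have h4 := Int.emod_lt_of_pos (f x) hs'
    rw [hc x hx] at h2
    rw [mem_Ico]
    constructor <;> linarith [mul_comm c (s : ℤ)]
  have h2 := Finset.card_le_card h1
  rw [Finset.card_image_of_injOn hinj, Int.card_Ico] at h2
  simpa using h2

theorem exists_noncollinear {H s : ℕ} (hs : 1 ≤ s) (hsH : s ≤ H) {A : Finset G} (hA : A ⊆ box H)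
    (hcard : 16 * H ^ 2 < A.card * s) :
    ∃ u₀ ∈ A, ∃ u₁ ∈ A, ∃ u₂ ∈ A, |(u₁ - u₀).re| < s ∧ |(u₁ - u₀).im| < s ∧
      |(u₂ - u₀).re| < s ∧ |(u₂ - u₀).im| < s ∧ det (u₁ - u₀) (u₂ - u₀) ≠ 0 := by
  classical
  have hs' : (0 : ℤ) < s := by exact_mod_cast hs
  have hsH' : (s : ℤ) ≤ H := by exact_mod_cast hsH
  set lo : ℤ := (-(H : ℤ)) / s with hlo
  set hi : ℤ := (H : ℤ) / s with hhi
  set C : Finset (ℤ × ℤ) := Icc lo hi ×ˢ Icc lo hi with hC
  have hmaps : ∀ x ∈ A, ((x.re / s, x.im / s) : ℤ × ℤ) ∈ C := by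
    intro x hx
    have := mem_box.1 (hA hx)
    obtain ⟨h1, h2⟩ := this
    rw [abs_le] at h1 h2
    rw [hC, mem_product, mem_Icc, mem_Icc]
    exact ⟨⟨Int.ediv_le_ediv hs' h1.1, Int.ediv_le_ediv hs' h1.2⟩,
      ⟨Int.ediv_le_ediv hs' h2.1, Int.ediv_le_ediv hs' h2.2⟩⟩
  have hlohi : lo ≤ hi := Int.ediv_le_ediv hs' (by linarith)
  have hcnt : ((Icc lo hi).card : ℤ) * s ≤ 4 * H := by
    rw [Int.card_Icc, Int.toNat_of_nonneg (by linarith)]
    have h1 := Int.emod_add_mul_ediv (-(H : ℤ)) s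
    have h2 := Int.emod_add_mul_ediv (H : ℤ) s
    have h3 := Int.emod_nonneg (-(H : ℤ)) hs'.ne'
    have h4 := Int.emod_lt_of_pos (-(H : ℤ)) hs'
    have h5 := Int.emod_nonneg (H : ℤ) hs'.ne'
    rw [← hlo] at h1
    rw [← hhi] at h2
    nlinarith
  have hcnt' : (Icc lo hi).card * s ≤ 4 * H := by exact_mod_cast hcnt
  have hlt : C.card * s < A.card := by
    rw [hC, card_product]
    by_contra hge
    push Not at hge
    have h1 : A.card * s ≤ ((Icc lo hi).card * s) * ((Icc lo hi).card * s) := by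
      calc A.card * s ≤ ((Icc lo hi).card * (Icc lo hi).card * s) * s := Nat.mul_le_mul_right s hge
        _ = _ := by ring
    have h2 : ((Icc lo hi).card * s) * ((Icc lo hi).card * s) ≤ (4 * H) * (4 * H) :=
      Nat.mul_le_mul hcnt' hcnt'
    have h3 : (4 * H) * (4 * H) = 16 * H ^ 2 := by ring
    omega
  obtain ⟨c, _, hc⟩ := Finset.exists_lt_card_fiber_of_mul_lt_card_of_maps_to hmaps hlt
  set B : Finset G := A.filter (fun x => ((x.re / s, x.im / s) : ℤ × ℤ) = c) with hB
  have hBA : ∀ x ∈ B, x ∈ A := fun x hx => (Finset.mem_filter.1 hx).1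
  have hre : ∀ x ∈ B, x.re / s = c.1 := fun x hx => by
    have := (Finset.mem_filter.1 hx).2
    rw [← this]
  have him : ∀ x ∈ B, x.im / s = c.2 := fun x hx => by
    have := (Finset.mem_filter.1 hx).2
    rw [← this]
  have h1B : 1 < B.card := lt_of_le_of_lt hs hc
  obtain ⟨u₀, hu₀, u₁, hu₁, hne⟩ := Finset.one_lt_card.1 h1B
  have dre : ∀ x ∈ B, |(x - u₀).re| < s := fun x hx => by
    rw [Zsqrtd.re_sub]
    exact B2a_cell hs ((hre x hx).trans (hre u₀ hu₀).symm)
  have dim : ∀ x ∈ B, |(x - u₀).im| < s := fun x hx => by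
    rw [Zsqrtd.im_sub]
    exact B2a_cell hs ((him x hx).trans (him u₀ hu₀).symm)
  by_contra hcon
  push Not at hcon
  have hdet : ∀ u₂ ∈ B, det (u₁ - u₀) (u₂ - u₀) = 0 := fun u₂ hu₂ =>
    hcon u₀ (hBA _ hu₀) u₁ (hBA _ hu₁) u₂ (hBA _ hu₂) (dre _ hu₁) (dim _ hu₁) (dre _ hu₂) (dim _ hu₂)
  unfold det at hdet
  simp only [Zsqrtd.re_sub, Zsqrtd.im_sub] at hdet
  by_cases hd : u₁.re - u₀.re = 0
  · have hd' : u₁.im - u₀.im ≠ 0 := by
      intro h
      apply hne
      rw [Zsqrtd.ext_iff]
      constructor <;> linarith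
    have : B.card ≤ s := by
      apply B2a_inj hs (fun x => x.im) c.2 him
      intro v hv w hw hvw
      have hvw' : v.im = w.im := hvw
      have h1 := hdet v hv
      have h2 := hdet w hw
      rw [Zsqrtd.ext_iff]
      refine ⟨?_, hvw'⟩
      apply mul_left_cancel₀ hd'
      linear_combination h2 - h1 + (u₁.re - u₀.re) * hvw'
    omega
  · have : B.card ≤ s := by
      apply B2a_inj hs (fun x => x.re) c.1 hre
      intro v hv w hw hvw
      have hvw' : v.re = w.re := hvw
      have h1 := hdet v hv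
      have h2 := hdet w hw
      rw [Zsqrtd.ext_iff]
      refine ⟨hvw', ?_⟩
      apply mul_left_cancel₀ hd
      linear_combination h1 - h2 + (u₁.im - u₀.im) * hvw'
    omega

end H29I
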