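import Pool.Agent.Lib.H29I.A1

/-!
# Chunk C1: the set `W` and the number of representations `u = w₁ w₂*`

`W X` is the set of the Gaussian integers whose norm is a prime number in `(X, 2 X]`.

`mem_W`: `|re w|, |im w| ≤ nrm w ≤ 2 X`.

`card_rep`: if `w₁ w₂* = u` is one representation and `w w'* = u` another one, then `w` divides
`w₁ w₂*`; `w` is prime in `ℤ[i]` (its norm is a prime number), so it divides `w₁` or `w₂*`, which
are irreducible (norm a prime number), so `w` is one of the `4` associates of `w₁` or one of the `4`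
associates of `w₂*`; and `w'` is determined by `w` and `u` (`w ≠ 0`).

`card_im_zero`: if `w₁ w₂* = n` is a real integer, then `nrm w₁ nrm w₂ = n²`, so the two prime
numbers are equal, `|n| = nrm w₂`, and `w₁ w₂* = ± w₂ w₂*`, `w₁ = ± w₂`. `card_re_zero`: in the same
way `w₁ = ± i w₂`.
-/

open Finset Complex

namespace H29I

theorem nrm_eq (w : G) : (nrm w : ℤ) = w.re ^ 2 + w.im ^ 2 := by
  unfold nrm
  rw [GaussianInt.abs_natCast_norm, Zsqrtd.norm_def]
  ring

theorem nrm_mul (v w : G) : nrm (v * w) = nrm v * nrm w := by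
  unfold nrm
  rw [Zsqrtd.norm_mul, Int.natAbs_mul]

theorem nrm_star (w : G) : nrm (star w) = nrm w := by
  unfold nrm
  rw [Zsqrtd.norm_conj]

theorem mem_W {X : ℕ} {w : G} : w ∈ W X ↔ (nrm w).Prime ∧ X < nrm w ∧ nrm w ≤ 2 * X := by
  unfold W
  rw [mem_filter]
  constructor
  · exact fun h => h.2
  · intro h
    refine ⟨?_, h⟩
    rw [mem_box]
    have h1 := nrm_eq w
    have h2 : (nrm w : ℤ) ≤ 2 * X := by exact_mod_cast h.2.2
    push_cast
    constructor
    · have h3 : |w.re| ≤ w.re ^ 2 := by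
        rw [← sq_abs]
        rcases eq_or_lt_of_le (abs_nonneg w.re) with h0 | h0
        · rw [← h0]; norm_num
        · nlinarith
      nlinarith [sq_nonneg w.im]
    · have h3 : |w.im| ≤ w.im ^ 2 := by
        rw [← sq_abs]
        rcases eq_or_lt_of_le (abs_nonneg w.im) with h0 | h0
        · rw [← h0]; norm_num
        · nlinarith
      nlinarith [sq_nonneg w.re]

theorem ne_zero_of_mem_W {X : ℕ} {w : G} (hw : w ∈ W X) : w ≠ 0 := by
  rintro rfl
  have h := (mem_W.1 hw).1
  have h0 : nrm (0 : G) = 0 := by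
    unfold nrm
    simp
  rw [h0] at h
  exact Nat.not_prime_zero h

theorem C1_isUnit {w : G} : nrm w = 1 ↔ IsUnit w := Zsqrtd.norm_eq_one_iff

theorem C1_irr {w : G} (h : (nrm w).Prime) : Irreducible w := by
  constructor
  · intro hu
    rw [C1_isUnit.2 hu] at h
    exact Nat.not_prime_one h
  · intro a b hab
    rw [hab, nrm_mul] at h
    rcases Nat.prime_mul_iff.1 h with h1 | h1
    · exact Or.inr (C1_isUnit.1 h1.2)
    · exact Or.inl (C1_isUnit.1 h1.2)

theorem C1_prime {w : G} (h : (nrm w).Prime) : Prime w := (C1_irr h).prime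

/-- The four units. -/
def C1_units : Finset G := {1, -1, gi, -gi}

theorem C1_mem_units {ε : G} (h : IsUnit ε) : ε ∈ C1_units := by
  have h1 := C1_isUnit.2 h
  have h2 := nrm_eq ε
  rw [h1] at h2
  have h3 : ε.re ^ 2 + ε.im ^ 2 = 1 := by rw [← h2]; norm_num
  have hr : -1 ≤ ε.re ∧ ε.re ≤ 1 := by constructor <;> nlinarith [sq_nonneg ε.im]
  have hi : -1 ≤ ε.im ∧ ε.im ≤ 1 := by constructor <;> nlinarith [sq_nonneg ε.re]
  obtain ⟨a, b⟩ := ε
  simp only at h3 hr hi
  obtain ⟨hr1, hr2⟩ := hr
  obtain ⟨hi1, hi2⟩ := hi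
  unfold C1_units gi
  simp only [mem_insert, mem_singleton, Zsqrtd.ext_iff]
  simp only [Zsqrtd.re_one, Zsqrtd.im_one, Zsqrtd.re_neg, Zsqrtd.im_neg]
  interval_cases a <;> interval_cases b <;> simp_all

theorem C1_card_units : C1_units.card ≤ 4 := Finset.card_le_four

theorem C1_assoc {a w : G} (ha : (nrm a).Prime) (hw : (nrm w).Prime) (h : w ∣ a) :
    w ∈ C1_units.image (fun ε => a * ε) := by
  have h1 : Associated w a := (C1_irr hw).associated_of_dvd (C1_irr ha) h
  obtain ⟨u, hu⟩ := h1.symm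
  rw [mem_image]
  exact ⟨(u : G), C1_mem_units u.isUnit, hu⟩

theorem card_rep (X : ℕ) (u : G) :
    ((W X ×ˢ W X).filter (fun p : G × G => p.1 * star p.2 = u)).card ≤ 8 := by
  classical
  rcases Finset.eq_empty_or_nonempty ((W X ×ˢ W X).filter (fun p : G × G => p.1 * star p.2 = u)) with
    h0 | h0
  · rw [h0]; simp
  · obtain ⟨⟨a, b⟩, hab⟩ := h0
    rw [mem_filter, mem_product] at hab
    obtain ⟨⟨ha, hb⟩, hab⟩ := hab
    simp only at ha hb hab
    have hpa := (mem_W.1 ha).1
    have hpb : (nrm (star b)).Prime := by rw [nrm_star]; exact (mem_W.1 hb).1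
    have hinj : Set.InjOn (fun p : G × G => p.1)
        ((((W X ×ˢ W X).filter (fun p : G × G => p.1 * star p.2 = u)) : Finset (G × G)) : Set (G × G)) := by
      intro p hp q hq hpq
      simp only at hpq
      rw [mem_coe, mem_filter, mem_product] at hp hq
      have h1 : p.1 * star p.2 = p.1 * star q.2 := by rw [hp.2, hpq, hq.2]
      have h2 := mul_left_cancel₀ (ne_zero_of_mem_W hp.1.1) h1
      have h3 : p.2 = q.2 := star_injective h2
      exact Prod.ext hpq h3
    rw [← Finset.card_image_of_injOn hinj]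
    calc _ ≤ (C1_units.image (fun ε => a * ε) ∪ C1_units.image (fun ε => star b * ε)).card := by
          apply Finset.card_le_card
          intro w hw
          rw [mem_image] at hw
          obtain ⟨p, hp, rfl⟩ := hw
          rw [mem_filter, mem_product] at hp
          have hpw := (mem_W.1 hp.1.1).1
          have hd : p.1 ∣ a * star b := by rw [hab, ← hp.2]; exact dvd_mul_right _ _
          rw [mem_union]
          rcases (C1_prime hpw).dvd_or_dvd hd with h | h
          · exact Or.inl (C1_assoc hpa hpw h)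
          · exact Or.inr (C1_assoc hpb hpw h)
      _ ≤ 4 + 4 := (Finset.card_union_le _ _).trans
          (add_le_add (Finset.card_image_le.trans C1_card_units)
            (Finset.card_image_le.trans C1_card_units))
      _ = 8 := rfl

theorem C1_mul_star (w : G) : w * star w = ((nrm w : ℤ) : G) := by
  have h := Zsqrtd.norm_eq_mul_conj w
  rw [← h]
  congr 1
  unfold nrm
  rw [GaussianInt.abs_natCast_norm]

theorem C1_real {X : ℕ} {v w : G} (hv : v ∈ W X) (hw : w ∈ W X) (n : ℤ) (c : G) (hc : nrm c = 1)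
    (h : v * star w = (n : G) * c) : v = c * w ∨ v = -c * w := by
  have hpv := (mem_W.1 hv).1
  have hpw := (mem_W.1 hw).1
  have hn : nrm v * nrm w = n.natAbs ^ 2 := by
    have h1 := congrArg nrm h
    rw [nrm_mul, nrm_star, nrm_mul, hc, mul_one] at h1
    rw [h1]
    unfold nrm
    rw [Zsqrtd.norm_intCast, Int.natAbs_mul, sq]
  have hdv : nrm v ∣ n.natAbs := by
    apply hpv.dvd_of_dvd_pow (n := 2)
    rw [← hn]; exact dvd_mul_right _ _
  obtain ⟨k, hk⟩ := hdv
  have hvw : nrm w = nrm v * k ^ 2 := by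
    rw [hk, mul_pow] at hn
    have : nrm v * nrm w = nrm v * (nrm v * k ^ 2) := by rw [hn]; ring
    exact Nat.eq_of_mul_eq_mul_left hpv.pos this
  have heq : nrm v = nrm w := by
    have hd : nrm v ∣ nrm w := ⟨_, hvw⟩
    exact (Nat.prime_dvd_prime_iff_eq hpv hpw).1 hd
  have hnn : n.natAbs = nrm w := by
    rw [heq, ← sq] at hn
    exact ((Nat.pow_left_injective (n := 2) (by norm_num)) hn).symm
  have hw0 : ((nrm w : ℤ) : G) ≠ 0 := by
    have h1 : (nrm w : ℤ) ≠ 0 := by exact_mod_cast hpw.ne_zero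
    exact_mod_cast h1
  have h2 : ((nrm w : ℤ) : G) * v = (n : G) * c * w := by
    rw [← C1_mul_star, ← h]; ring
  rcases Int.natAbs_eq n with h3 | h3
  · left
    apply mul_left_cancel₀ hw0
    rw [h2, h3, hnn]; ring
  · right
    apply mul_left_cancel₀ hw0
    rw [h2, h3, hnn]; push_cast; ring

theorem C1_card {X : ℕ} (c : G) (S : Finset (G × G))
    (hS : ∀ p ∈ S, p.2 ∈ W X ∧ (p.1 = c * p.2 ∨ p.1 = -c * p.2)) : S.card ≤ 2 * (W X).card := by
  classical
  have h1 : S ⊆ (W X).image (fun w => ((c * w, w) : G × G)) ∪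
      (W X).image (fun w => ((-c * w, w) : G × G)) := by
    intro p hp
    obtain ⟨h2, h3⟩ := hS p hp
    rw [mem_union, mem_image, mem_image]
    rcases h3 with h3 | h3
    · left
      exact ⟨p.2, h2, Prod.ext h3.symm rfl⟩
    · right
      exact ⟨p.2, h2, Prod.ext h3.symm rfl⟩
  refine (Finset.card_le_card h1).trans ((Finset.card_union_le _ _).trans ?_)
  have h2 := Finset.card_image_le (s := W X) (f := fun w => ((c * w, w) : G × G))
  have h3 := Finset.card_image_le (s := W X) (f := fun w => ((-c * w, w) : G × G))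
  omega

theorem card_im_zero (X : ℕ) :
    ((W X ×ˢ W X).filter (fun p : G × G => (p.1 * star p.2).im = 0)).card ≤ 2 * (W X).card := by
  apply C1_card 1
  intro p hp
  rw [mem_filter, mem_product] at hp
  refine ⟨hp.1.2, ?_⟩
  apply C1_real hp.1.1 hp.1.2 (p.1 * star p.2).re 1
  · exact C1_isUnit.2 isUnit_one
  · rw [mul_one]
    have h := hp.2
    generalize p.1 * star p.2 = z at h ⊢
    rw [Zsqrtd.ext_iff]
    exact ⟨by simp, by rw [h]; simp⟩

theorem card_re_zero (X : ℕ) :
    ((W X ×ˢ W X).filter (fun p : G × G => (p.1 * star p.2).re = 0)).card ≤ 2 * (W X).card := by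
  apply C1_card gi
  intro p hp
  rw [mem_filter, mem_product] at hp
  refine ⟨hp.1.2, ?_⟩
  apply C1_real hp.1.1 hp.1.2 (p.1 * star p.2).im gi
  · unfold nrm gi
    rw [Zsqrtd.norm_def]
    rfl
  · have h := hp.2
    generalize p.1 * star p.2 = z at h ⊢
    unfold gi
    rw [Zsqrtd.ext_iff]
    refine ⟨by rw [h]; simp, by simp⟩

end H29I
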