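import Pool.Agent.Lib.H29I.C1
import Pool.Agent.Lib.PNT.PNT

/-!
# Chunk C3: the set `W` is large

Every prime number `p ≡ 1 mod 4` is `a² + b²` (`Nat.Prime.sq_add_sq`), hence the norm of a Gaussian
integer `a + b i`; different primes give different Gaussian integers. So `|W X|` is at least the
number of the primes `p ≡ 1 mod 4` in `(X, 2 X]`, which is asymptotically `X / (2 log X)` by the
prime number theorem in arithmetic progressions (`Pool/Agent/Lib/PNT/PNT.lean`).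
-/

open Finset Complex

namespace H29I

theorem C3_exists {p : ℕ} (hp : p.Prime) (h : (p : ZMod 4) = 1) : ∃ w : G, nrm w = p := by
  haveI : Fact p.Prime := ⟨hp⟩
  have h4 : p % 4 ≠ 3 := by
    have h1 : ((p : ℕ) : ZMod 4) = ((1 : ℕ) : ZMod 4) := by rw [h]; simp
    rw [ZMod.natCast_eq_natCast_iff] at h1
    have h2 : p % 4 = 1 % 4 := h1
    omega
  obtain ⟨a, b, hab⟩ := Nat.Prime.sq_add_sq (p := p) h4
  refine ⟨⟨a, b⟩, ?_⟩
  have h5 := nrm_eq (⟨a, b⟩ : G)
  have h6 : ((nrm (⟨a, b⟩ : G) : ℕ) : ℤ) = (p : ℤ) := by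
    rw [h5, ← hab]; push_cast; ring
  exact_mod_cast h6

theorem C3_card (X : ℕ) :
    (Pool.Agent.Lib.PNT.piP (fun p => (p : ZMod 4) = 1) (2 * (X : ℝ)) : ℝ) -
      Pool.Agent.Lib.PNT.piP (fun p => (p : ZMod 4) = 1) (1 * (X : ℝ)) ≤ ((W X).card : ℝ) := by
  classical
  have hf2 : ⌊2 * (X : ℝ)⌋₊ = 2 * X := by
    have : (2 * (X : ℝ)) = ((2 * X : ℕ) : ℝ) := by push_cast; ring
    rw [this, Nat.floor_natCast]
  have hf1 : ⌊1 * (X : ℝ)⌋₊ = X := by rw [one_mul, Nat.floor_natCast]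
  unfold Pool.Agent.Lib.PNT.piP
  rw [hf1, hf2]
  set P : ℕ → Prop := fun p => p.Prime ∧ (p : ZMod 4) = 1 with hP
  have hsplit : (Finset.filter P (Finset.Ioc 0 (2 * X))) ⊆
      (Finset.filter P (Finset.Ioc 0 X)) ∪ (Finset.filter P (Finset.Ioc X (2 * X))) := by
    intro p hp
    rw [mem_filter, mem_Ioc] at hp
    rw [mem_union, mem_filter, mem_filter, mem_Ioc, mem_Ioc]
    by_cases h : p ≤ X
    · exact Or.inl ⟨⟨hp.1.1, h⟩, hp.2⟩
    · exact Or.inr ⟨⟨by omega, hp.1.2⟩, hp.2⟩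
  have h1 := (Finset.card_le_card hsplit).trans (Finset.card_union_le _ _)
  have h2 : (Finset.filter P (Finset.Ioc X (2 * X))).card ≤ (W X).card := by
    have hex : ∀ p : ℕ, ∃ w : G, P p → nrm w = p := by
      intro p
      by_cases h : P p
      · obtain ⟨w, hw⟩ := C3_exists h.1 h.2
        exact ⟨w, fun _ => hw⟩
      · exact ⟨0, fun h' => absurd h' h⟩
    choose g hg using hex
    apply Finset.card_le_card_of_injOn g
    · intro p hp
      rw [Finset.mem_coe, mem_filter, mem_Ioc] at hp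
      rw [Finset.mem_coe, mem_W, hg p hp.2]
      exact ⟨hp.2.1, hp.1.1, hp.1.2⟩
    · intro p hp q hq hpq
      rw [Finset.mem_coe, mem_filter] at hp hq
      rw [← hg p hp.2, ← hg q hq.2, hpq]
  have h3 : ((Finset.filter P (Finset.Ioc 0 (2 * X))).card : ℝ) ≤
      (Finset.filter P (Finset.Ioc 0 X)).card + (W X).card := by
    exact_mod_cast h1.trans (Nat.add_le_add_left h2 _)
  have h4 : (Finset.filter (fun p => Nat.Prime p ∧ (p : ZMod 4) = 1) (Finset.Ioc 0 (2 * X))) =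
      Finset.filter P (Finset.Ioc 0 (2 * X)) := by
    apply Finset.filter_congr; intro p _; rfl
  have h5 : (Finset.filter (fun p => Nat.Prime p ∧ (p : ZMod 4) = 1) (Finset.Ioc 0 X)) =
      Finset.filter P (Finset.Ioc 0 X) := by
    apply Finset.filter_congr; intro p _; rfl
  linarith

theorem exists_card_W_ge : ∃ X₀ : ℕ, ∀ X : ℕ, X₀ ≤ X →
    (X : ℝ) / (8 * Real.log X) ≤ ((W X).card : ℝ) := by
  have h := Pool.Agent.Lib.PNT.tendsto_piP_Ioc (s := 1) (t := 2) one_pos (by norm_num)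
    (Pool.Agent.Lib.PNT.thetaAP_tendsto (q := 4) (a := 1) isUnit_one)
  have htot : ((Nat.totient 4 : ℕ) : ℝ)⁻¹ * (2 - 1) = 1 / 2 := by
    have : Nat.totient 4 = 2 := by decide
    rw [this]; norm_num
  rw [htot] at h
  have h2 := (h.comp tendsto_natCast_atTop_atTop).eventually
    (lt_mem_nhds (show (1 / 8 : ℝ) < 1 / 2 by norm_num))
  rw [Filter.eventually_atTop] at h2
  obtain ⟨X₀, hX₀⟩ := h2
  refine ⟨max X₀ 2, ?_⟩
  intro X hX
  have hX1 := hX₀ X (le_of_max_le_left hX)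
  have hX2 : 2 ≤ X := le_of_max_le_right hX
  have hXr : (1 : ℝ) < X := by exact_mod_cast hX2
  have hlog : 0 < Real.log X := Real.log_pos hXr
  have hX0 : (0 : ℝ) < X := by linarith
  simp only [Function.comp] at hX1
  rw [lt_div_iff₀ hX0] at hX1
  have hc := C3_card X
  rw [div_le_iff₀ (by positivity)]
  nlinarith [mul_le_mul_of_nonneg_right hc hlog.le]

end H29I
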