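import Pool.Agent.Lib.H29I.C1

/-!
# Chunk C4: sums over pairs of elements of `W`

`‖w₁ w₂*‖² = nrm w₁ · nrm w₂ ∈ (X², 4 X²]`, so the coordinates of `u = w₁ w₂*` are at most `2 X`.
`sum_W_le`: every `u` occurs at most `8` times (`card_rep`). `card_W_sq_le`: `φ = 1`,
`|box (2 X)| = (4 X + 1)² ≤ 25 X²`.
-/

open Finset Complex

namespace H29I

theorem C4_nrm_mul_star_le {X : ℕ} {w₁ w₂ : G} (h₁ : w₁ ∈ W X) (h₂ : w₂ ∈ W X) :
    nrm (w₁ * star w₂) ≤ (2 * X) ^ 2 := by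
  rw [nrm_mul, nrm_star, sq]
  exact Nat.mul_le_mul (mem_W.1 h₁).2.2 (mem_W.1 h₂).2.2

theorem C4_mem_box_of_nrm {u : G} {n : ℕ} (h : nrm u ≤ n ^ 2) : u ∈ box n := by
  have h1 : (nrm u : ℤ) = u.re ^ 2 + u.im ^ 2 := nrm_eq u
  have h2 : (nrm u : ℤ) ≤ (n : ℤ) ^ 2 := by exact_mod_cast h
  rw [mem_box]
  constructor
  · apply abs_le_of_sq_le_sq _ (by positivity)
    nlinarith [sq_nonneg u.im]
  · apply abs_le_of_sq_le_sq _ (by positivity)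
    nlinarith [sq_nonneg u.re]

theorem C4_norm_sq (u : G) : ‖(u : ℂ)‖ ^ 2 = (nrm u : ℝ) := by
  have h1 : (nrm u : ℤ) = u.re ^ 2 + u.im ^ 2 := nrm_eq u
  have h2 : (nrm u : ℝ) = (u.re : ℝ) ^ 2 + (u.im : ℝ) ^ 2 := by exact_mod_cast h1
  rw [h2, ← Complex.normSq_eq_norm_sq, Complex.normSq_apply, ← GaussianInt.intCast_re,
    ← GaussianInt.intCast_im]
  ring

theorem star_mul_eq (w₁ w₂ : G) : star w₁ * w₂ = star (w₁ * star w₂) := by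
  rw [star_mul, star_star, mul_comm]

theorem mul_star_mem_box {X : ℕ} {w₁ w₂ : G} (h₁ : w₁ ∈ W X) (h₂ : w₂ ∈ W X) :
    w₁ * star w₂ ∈ box (2 * X) :=
  C4_mem_box_of_nrm (C4_nrm_mul_star_le h₁ h₂)

theorem star_mul_mem_box {X : ℕ} {w₁ w₂ : G} (h₁ : w₁ ∈ W X) (h₂ : w₂ ∈ W X) :
    star w₁ * w₂ ∈ box (2 * X) := by
  apply C4_mem_box_of_nrm
  rw [star_mul_eq, nrm_star]
  exact C4_nrm_mul_star_le h₁ h₂

theorem norm_mul_star_le {X : ℕ} {w₁ w₂ : G} (h₁ : w₁ ∈ W X) (h₂ : w₂ ∈ W X) :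
    ‖((w₁ * star w₂ : G) : ℂ)‖ ≤ 2 * X := by
  have h := C4_norm_sq (w₁ * star w₂)
  have h3 : (nrm (w₁ * star w₂) : ℝ) ≤ (2 * X) ^ 2 := by
    exact_mod_cast C4_nrm_mul_star_le h₁ h₂
  rw [← h] at h3
  exact le_of_sq_le_sq h3 (by positivity)

theorem lt_norm_mul_star {X : ℕ} {w₁ w₂ : G} (h₁ : w₁ ∈ W X) (h₂ : w₂ ∈ W X) :
    (X : ℝ) < ‖((w₁ * star w₂ : G) : ℂ)‖ := by
  have h := C4_norm_sq (w₁ * star w₂)
  have h4 : X ^ 2 < nrm (w₁ * star w₂) := by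
    rw [nrm_mul, nrm_star, sq]
    exact Nat.mul_lt_mul'' (mem_W.1 h₁).2.1 (mem_W.1 h₂).2.1
  have h3 : ((X : ℝ)) ^ 2 < (nrm (w₁ * star w₂) : ℝ) := by exact_mod_cast h4
  rw [← h] at h3
  exact lt_of_pow_lt_pow_left₀ 2 (norm_nonneg _) h3

theorem sum_W_le {X : ℕ} {φ : G → ℝ} (hφ : ∀ u, 0 ≤ φ u) :
    ∑ w₁ ∈ W X, ∑ w₂ ∈ W X, φ (w₁ * star w₂) ≤ 8 * ∑ u ∈ box (2 * X), φ u := by
  classical
  rw [← Finset.sum_product (s := W X) (t := W X) (f := fun p : G × G => φ (p.1 * star p.2))]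
  rw [← Finset.sum_fiberwise_of_maps_to (s := W X ×ˢ W X) (t := box (2 * X))
    (g := fun p : G × G => p.1 * star p.2)]
  · rw [Finset.mul_sum]
    apply Finset.sum_le_sum
    intro u _
    rw [Finset.sum_congr rfl (g := fun _ => φ u)]
    · rw [Finset.sum_const, nsmul_eq_mul]
      apply mul_le_mul_of_nonneg_right _ (hφ u)
      exact_mod_cast card_rep X u
    · intro p hp
      rw [(Finset.mem_filter.1 hp).2]
  · intro p hp
    rw [Finset.mem_product] at hp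
    exact mul_star_mem_box hp.1 hp.2

theorem card_W_sq_le {X : ℕ} (hX : 1 ≤ X) : ((W X).card : ℝ) ^ 2 ≤ 200 * (X : ℝ) ^ 2 := by
  have h := sum_W_le (X := X) (φ := fun _ => 1) (fun _ => zero_le_one)
  simp only [Finset.sum_const, nsmul_eq_mul, mul_one, card_box] at h
  push_cast at h
  have hX' : (1 : ℝ) ≤ X := by exact_mod_cast hX
  nlinarith

theorem card_W_le {X : ℕ} (hX : 1 ≤ X) : ((W X).card : ℝ) ≤ 15 * (X : ℝ) := by
  have h := card_W_sq_le hX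
  apply le_of_sq_le_sq _ (by positivity)
  nlinarith [sq_nonneg (X : ℝ)]

end H29I
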