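import Pool.Agent.Lib.H29I.A1

/-!
# Chunk D4: the set `Rat Q` of rational frequencies

`Rat Q` is the set of the `(a + b i) / q` with `1 ≤ q ≤ Q`, `0 ≤ a, b < q`. `card_Rat_le`:
`∑_{q ≤ Q} q² ≤ Q³`. `exists_rep`: reduce the coordinates of `g` modulo `q`. `spacing`: if
`q α` and `q' β` are Gaussian integers, so is `q q' (α - β)`; if `α - β` is not a Gaussian integer,
one of its coordinates is not an integer, and `one_div_le_dz` applies to it.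
`eq_of_isG_sub`: `α, β` have coordinates in `[0, 1)`.
-/

open Finset Complex

namespace H29I

theorem D4_coe (g : G) : (g : ℂ) = (g.re : ℂ) + (g.im : ℂ) * Complex.I := by
  apply Complex.ext
  · rw [coe_re]
    simp
  · rw [coe_im]
    simp

theorem D4_isG (a b : ℤ) : IsG ((a : ℂ) + (b : ℂ) * Complex.I) :=
  ⟨⟨a, b⟩, by rw [D4_coe]⟩

theorem D4_natMul (n : ℕ) {z : ℂ} (h : IsG z) : IsG ((n : ℂ) * z) := by
  refine isG_mul ?_ h
  have := D4_isG n 0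
  simpa using this

theorem mem_Rat {Q : ℕ} {α : ℂ} : α ∈ Rat Q ↔ (0 ≤ α.re ∧ α.re < 1 ∧ 0 ≤ α.im ∧ α.im < 1) ∧
    ∃ q : ℕ, 1 ≤ q ∧ q ≤ Q ∧ IsG ((q : ℂ) * α) := by
  simp only [Rat, mem_biUnion, mem_Icc, mem_image, mem_product, mem_range, Prod.exists]
  constructor
  · rintro ⟨q, ⟨hq1, hqQ⟩, a, b, ⟨ha, hb⟩, rfl⟩
    have hq0 : (0 : ℝ) < q := by exact_mod_cast hq1
    have hqc : (q : ℂ) ≠ 0 := by exact_mod_cast hq0.ne'
    have h1 : (((a : ℂ) + (b : ℂ) * Complex.I) / (q : ℂ)).re = (a : ℝ) / q := by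
      rw [Complex.div_natCast_re]
      simp
    have h2 : (((a : ℂ) + (b : ℂ) * Complex.I) / (q : ℂ)).im = (b : ℝ) / q := by
      rw [Complex.div_natCast_im]
      simp
    have ha' : (a : ℝ) < q := by exact_mod_cast ha
    have hb' : (b : ℝ) < q := by exact_mod_cast hb
    refine ⟨⟨?_, ?_, ?_, ?_⟩, q, hq1, hqQ, ?_⟩
    · rw [h1]; positivity
    · rw [h1, div_lt_one hq0]; exact ha'
    · rw [h2]; positivity
    · rw [h2, div_lt_one hq0]; exact hb'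
    · rw [mul_div_cancel₀ _ hqc]
      exact_mod_cast D4_isG a b
  · rintro ⟨⟨h1, h2, h3, h4⟩, q, hq1, hqQ, g, hg⟩
    have hq0 : (0 : ℝ) < q := by exact_mod_cast hq1
    have hqc : (q : ℂ) ≠ 0 := by exact_mod_cast hq0.ne'
    have hre : (g.re : ℝ) = q * α.re := by
      rw [← coe_re, hg]
      simp
    have him : (g.im : ℝ) = q * α.im := by
      rw [← coe_im, hg]
      simp
    have ha0 : 0 ≤ g.re := by
      have : (0 : ℝ) ≤ g.re := by rw [hre]; positivity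
      exact_mod_cast this
    have hb0 : 0 ≤ g.im := by
      have : (0 : ℝ) ≤ g.im := by rw [him]; positivity
      exact_mod_cast this
    have ha1 : g.re < q := by
      have : (g.re : ℝ) < q := by rw [hre]; nlinarith
      exact_mod_cast this
    have hb1 : g.im < q := by
      have : (g.im : ℝ) < q := by rw [him]; nlinarith
      exact_mod_cast this
    refine ⟨q, ⟨hq1, hqQ⟩, g.re.toNat, g.im.toNat, ⟨by omega, by omega⟩, ?_⟩
    rw [div_eq_iff hqc, mul_comm α, ← hg, D4_coe g]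
    have h5 : ((g.re.toNat : ℕ) : ℂ) = (g.re : ℂ) := by
      have : ((g.re.toNat : ℕ) : ℤ) = g.re := Int.toNat_of_nonneg ha0
      exact_mod_cast congrArg (Int.cast : ℤ → ℂ) this
    have h6 : ((g.im.toNat : ℕ) : ℂ) = (g.im : ℂ) := by
      have : ((g.im.toNat : ℕ) : ℤ) = g.im := Int.toNat_of_nonneg hb0
      exact_mod_cast congrArg (Int.cast : ℤ → ℂ) this
    rw [h5, h6]

theorem card_Rat_le (Q : ℕ) : ((Rat Q).card : ℝ) ≤ (Q : ℝ) ^ 3 := by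
  have h1 : (Rat Q).card ≤ Q ^ 3 := by
    unfold Rat
    refine (Finset.card_biUnion_le).trans ?_
    calc ∑ q ∈ Icc 1 Q, ((((range q) ×ˢ (range q)).image
          (fun p : ℕ × ℕ => ((p.1 : ℂ) + (p.2 : ℂ) * Complex.I) / (q : ℂ))).card)
        ≤ ∑ q ∈ Icc 1 Q, Q * Q := by
          refine Finset.sum_le_sum fun q hq => ?_
          refine (Finset.card_image_le).trans ?_
          rw [Finset.card_product, Finset.card_range]
          exact Nat.mul_le_mul (Finset.mem_Icc.1 hq).2 (Finset.mem_Icc.1 hq).2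
      _ = Q ^ 3 := by
          rw [Finset.sum_const, Nat.card_Icc, smul_eq_mul]
          simp only [Nat.add_sub_cancel]
          ring
  exact_mod_cast h1

theorem Rat_mono {Q Q' : ℕ} (h : Q ≤ Q') : Rat Q ⊆ Rat Q' := by
  intro α hα
  rw [mem_Rat] at hα ⊢
  obtain ⟨h1, q, h2, h3, h4⟩ := hα
  exact ⟨h1, q, h2, h3.trans h, h4⟩

theorem zero_mem_Rat {Q : ℕ} (h : 1 ≤ Q) : (0 : ℂ) ∈ Rat Q := by
  rw [mem_Rat]
  exact ⟨by simp, 1, le_rfl, h, by simpa using isG_zero⟩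

theorem D4_int {x y : ℝ} (hx : 0 ≤ x) (hx' : x < 1) (hy : 0 ≤ y) (hy' : y < 1)
    (h : ∃ n : ℤ, (n : ℝ) = x - y) : x = y := by
  obtain ⟨n, hn⟩ := h
  have h1 : (n : ℝ) < 1 := by linarith
  have h2 : (-1 : ℝ) < n := by linarith
  have h3 : n < 1 := by exact_mod_cast h1
  have h4 : -1 < n := by exact_mod_cast h2
  have h5 : n = 0 := by omega
  rw [h5] at hn
  push_cast at hn
  linarith

theorem eq_of_isG_sub {Q Q' : ℕ} {α β : ℂ} (hα : α ∈ Rat Q) (hβ : β ∈ Rat Q') (h : IsG (α - β)) :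
    α = β := by
  obtain ⟨⟨a1, a2, a3, a4⟩, -⟩ := mem_Rat.1 hα
  obtain ⟨⟨b1, b2, b3, b4⟩, -⟩ := mem_Rat.1 hβ
  obtain ⟨h1, h2⟩ := isG_iff.1 h
  exact Complex.ext (D4_int a1 a2 b1 b2 h1) (D4_int a3 a4 b3 b4 h2)

/-- Every rational point with denominator `q ≤ Q` has a representative in `Rat Q`. -/
theorem exists_rep {Q q : ℕ} (hq : 1 ≤ q) (hqQ : q ≤ Q) {β : ℂ} (hβ : IsG ((q : ℂ) * β)) :
    ∃ α ∈ Rat Q, IsG (β - α) ∧ IsG ((q : ℂ) * α) := by
  have h0 : IsG ((⌊β.re⌋ : ℂ) + (⌊β.im⌋ : ℂ) * Complex.I) := D4_isG _ _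
  have h1 : IsG ((q : ℂ) * (β - ((⌊β.re⌋ : ℂ) + (⌊β.im⌋ : ℂ) * Complex.I))) := by
    rw [mul_sub]
    exact isG_sub hβ (D4_natMul q h0)
  refine ⟨β - ((⌊β.re⌋ : ℂ) + (⌊β.im⌋ : ℂ) * Complex.I), ?_, ?_, h1⟩
  · rw [mem_Rat]
    refine ⟨?_, q, hq, hqQ, h1⟩
    simp only [Complex.sub_re, Complex.add_re, Complex.intCast_re, Complex.mul_re, Complex.I_re,
      mul_zero, Complex.intCast_im, Complex.I_im, mul_one, sub_self, add_zero, Complex.sub_im,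
      Complex.add_im, Complex.mul_im, zero_add]
    refine ⟨?_, ?_, ?_, ?_⟩
    · have := Int.floor_le β.re; linarith
    · have := Int.lt_floor_add_one β.re; linarith
    · have := Int.floor_le β.im; linarith
    · have := Int.lt_floor_add_one β.im; linarith
  · rw [sub_sub_cancel]
    exact h0

theorem one_div_le_max_dz {q : ℕ} (hq : 1 ≤ q) {ξ : ℂ} (h : IsG ((q : ℂ) * ξ)) (hξ : ¬ IsG ξ) :
    1 / (q : ℝ) ≤ max (dz ξ.re) (dz ξ.im) := by
  obtain ⟨⟨m, hm⟩, ⟨n, hn⟩⟩ := isG_iff.1 h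
  have hm' : (m : ℝ) = q * ξ.re := by rw [hm]; simp
  have hn' : (n : ℝ) = q * ξ.im := by rw [hn]; simp
  by_cases h1 : ∃ k : ℤ, (k : ℝ) = ξ.re
  · have h2 : ¬ ∃ k : ℤ, (k : ℝ) = ξ.im := fun h2 => hξ (isG_iff.2 ⟨h1, h2⟩)
    exact (one_div_le_dz hq ⟨n, hn'⟩ h2).trans (le_max_right _ _)
  · exact (one_div_le_dz hq ⟨m, hm'⟩ h1).trans (le_max_left _ _)

theorem spacing {Q : ℕ} {α β : ℂ} (hα : α ∈ Rat Q) (hβ : β ∈ Rat Q) (h : α ≠ β) :
    1 / (Q : ℝ) ^ 2 ≤ max (dz (α - β).re) (dz (α - β).im) := by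
  obtain ⟨-, q, hq1, hqQ, hq⟩ := mem_Rat.1 hα
  obtain ⟨-, q', hq1', hqQ', hq'⟩ := mem_Rat.1 hβ
  have h1 : ¬ IsG (α - β) := fun h2 => h (eq_of_isG_sub hα hβ h2)
  have h2 : IsG (((q * q' : ℕ) : ℂ) * (α - β)) := by
    have h3 : ((q * q' : ℕ) : ℂ) * (α - β) = (q' : ℂ) * ((q : ℂ) * α) - (q : ℂ) * ((q' : ℂ) * β) := by
      push_cast
      ring
    rw [h3]
    exact isG_sub (D4_natMul q' hq) (D4_natMul q hq')
  refine le_trans ?_ (one_div_le_max_dz (Nat.mul_pos hq1 hq1') h2 h1)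
  have h4 : (0 : ℝ) < ((q * q' : ℕ) : ℝ) := by exact_mod_cast Nat.mul_pos hq1 hq1'
  refine one_div_le_one_div_of_le h4 ?_
  have h5 : q * q' ≤ Q ^ 2 := by
    rw [sq]
    exact Nat.mul_le_mul hqQ hqQ'
  exact_mod_cast h5

/-- The frequencies `α u* - β u`, which are not Gaussian integers, are not close to Gaussian
integers. -/
theorem nonres {Q Q' : ℕ} {α β : ℂ} (hα : α ∈ Rat Q) (hβ : β ∈ Rat Q') (u : G)
    (h : ¬ IsG (α * (starRingEnd ℂ) (u : ℂ) - β * (u : ℂ))) :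
    1 / ((Q : ℝ) * Q') ≤ max (dz (α * (starRingEnd ℂ) (u : ℂ) - β * (u : ℂ)).re)
      (dz (α * (starRingEnd ℂ) (u : ℂ) - β * (u : ℂ)).im) := by
  obtain ⟨-, q, hq1, hqQ, hq⟩ := mem_Rat.1 hα
  obtain ⟨-, q', hq1', hqQ', hq'⟩ := mem_Rat.1 hβ
  have h2 : IsG (((q * q' : ℕ) : ℂ) * (α * (starRingEnd ℂ) (u : ℂ) - β * (u : ℂ))) := by
    have h3 : ((q * q' : ℕ) : ℂ) * (α * (starRingEnd ℂ) (u : ℂ) - β * (u : ℂ)) =
        (q' : ℂ) * (((q : ℂ) * α) * (starRingEnd ℂ) (u : ℂ)) -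
          (q : ℂ) * (((q' : ℂ) * β) * (u : ℂ)) := by
      push_cast
      ring
    rw [h3]
    exact isG_sub (D4_natMul q' (isG_mul hq (isG_conj (isG_coe u))))
      (D4_natMul q (isG_mul hq' (isG_coe u)))
  refine le_trans ?_ (one_div_le_max_dz (Nat.mul_pos hq1 hq1') h2 h)
  have h4 : (0 : ℝ) < ((q * q' : ℕ) : ℝ) := by exact_mod_cast Nat.mul_pos hq1 hq1'
  refine one_div_le_one_div_of_le h4 ?_
  have h5 : q * q' ≤ Q * Q' := Nat.mul_le_mul hqQ hqQ'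
  exact_mod_cast h5

end H29I
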