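import Pool.Agent.Lib.H29I.C1
import Pool.Agent.Lib.H29I.D4

/-!
# Chunk C6: resonances

`isG_of_mul`: `nrm w · a = a w w*` and `q a` are Gaussian integers, and `nrm w` and `q` are coprime
(Bézout). If `w ∈ W X`, then `nrm w` is a prime number larger than `X`, hence coprime to all the
`q` with `1 ≤ q ≤ X`, and to their products.

`exists_res`: let `q β` be a Gaussian integer, `1 ≤ q ≤ Q ≤ X`; choose an integer `m` with
`m nrm w ≡ 1 mod q` and let `η` be the representative (`exists_rep`) of `m β w* w*`. Then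
`β w* - η w ≡ β w* - m β w* w* w = β w* (1 - m nrm w) ≡ 0`.

`res_unique`: `(η - η') w` is a Gaussian integer, `isG_of_mul`, `eq_of_isG_sub`.

`ind_split`: write `u = w₁ w₂*`, `u* = w₁* w₂`. If `β w₂* - η w₂` is a Gaussian integer (this holds
for exactly one `η ∈ Rat Q'`, by `exists_res` and `res_unique`), then
`α u* - β u = (α w₁* - η w₁) w₂ - (β w₂* - η w₂) w₁`, so `α u* - β u` is a Gaussian integer if and
only if `(α w₁* - η w₁) w₂` is one, i.e. (`isG_of_mul`, denominator `q q'`) if and only if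
`α w₁* - η w₁` is one.

`mem_Rat_of_res`: let `q' η` be a Gaussian integer, `q' ≤ Q'`. Then `q' α w*` is a Gaussian integer
and so is `q'' q' α`; by `isG_of_mul` (for `w*`) `q' α` is a Gaussian integer.
-/

open Finset Complex

namespace H29I

theorem ind_of_isG {a : ℂ} (h : IsG a) : ind a = 1 := by
  unfold ind
  rw [if_pos h]

theorem ind_of_not_isG {a : ℂ} (h : ¬ IsG a) : ind a = 0 := by
  unfold ind
  rw [if_neg h]

theorem C6_intMul (n : ℤ) {z : ℂ} (h : IsG z) : IsG ((n : ℂ) * z) := by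
  refine isG_mul ?_ h
  have := D4_isG n 0
  simpa using this

theorem isG_of_mul {w : G} {q : ℕ} (hq : Nat.Coprime (nrm w) q) {a : ℂ} (h1 : IsG ((q : ℂ) * a))
    (h2 : IsG (a * (w : ℂ))) : IsG a := by
  have h3 : IsG (((nrm w : ℕ) : ℂ) * a) := by
    rw [← coe_mul_star w, show (w : ℂ) * (starRingEnd ℂ) (w : ℂ) * a =
      (a * (w : ℂ)) * (starRingEnd ℂ) (w : ℂ) by ring]
    exact isG_mul h2 (isG_conj (isG_coe w))
  have h4 : IsCoprime ((nrm w : ℕ) : ℤ) (q : ℤ) := Nat.isCoprime_iff_coprime.2 hq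
  obtain ⟨x, y, hxy⟩ := h4
  have h5 : a = (x : ℂ) * (((nrm w : ℕ) : ℂ) * a) + (y : ℂ) * ((q : ℂ) * a) := by
    have h6 : (x : ℂ) * ((nrm w : ℕ) : ℂ) + (y : ℂ) * (q : ℂ) = 1 := by
      have := congrArg (Int.cast : ℤ → ℂ) hxy
      push_cast at this
      exact this
    linear_combination -a * h6
  rw [h5]
  exact isG_add (C6_intMul x h3) (C6_intMul y h1)

theorem isG_of_mul_conj {w : G} {q : ℕ} (hq : Nat.Coprime (nrm w) q) {a : ℂ}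
    (h1 : IsG ((q : ℂ) * a)) (h2 : IsG (a * (starRingEnd ℂ) (w : ℂ))) : IsG a := by
  rw [← coe_star] at h2
  exact isG_of_mul (by rw [nrm_star]; exact hq) h1 h2

theorem C6_coprime {X : ℕ} {w : G} (hw : w ∈ W X) {q : ℕ} (hq : 1 ≤ q) (hqX : q ≤ X) :
    Nat.Coprime (nrm w) q := by
  obtain ⟨h1, h2, -⟩ := mem_W.1 hw
  rw [Nat.Prime.coprime_iff_not_dvd h1]
  intro h3
  have := Nat.le_of_dvd (by omega) h3
  omega

theorem exists_res {X Q : ℕ} (hQ : Q ≤ X) {w : G} (hw : w ∈ W X) {β : ℂ} (hβ : β ∈ Rat Q) :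
    ∃ η ∈ Rat Q, IsG (β * (starRingEnd ℂ) (w : ℂ) - η * (w : ℂ)) := by
  obtain ⟨-, q, hq1, hqQ, hq⟩ := mem_Rat.1 hβ
  have hcop := C6_coprime hw hq1 (hqQ.trans hQ)
  have h4 : IsCoprime ((nrm w : ℕ) : ℤ) (q : ℤ) := Nat.isCoprime_iff_coprime.2 hcop
  obtain ⟨x, y, hxy⟩ := h4
  have hwc : IsG ((starRingEnd ℂ) (w : ℂ)) := isG_conj (isG_coe w)
  -- candidate
  have h5 : IsG ((q : ℂ) * ((x : ℂ) * (β * (starRingEnd ℂ) (w : ℂ) * (starRingEnd ℂ) (w : ℂ)))) := by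
    rw [show (q : ℂ) * ((x : ℂ) * (β * (starRingEnd ℂ) (w : ℂ) * (starRingEnd ℂ) (w : ℂ))) =
      (x : ℂ) * (((q : ℂ) * β) * (starRingEnd ℂ) (w : ℂ) * (starRingEnd ℂ) (w : ℂ)) by ring]
    exact C6_intMul x (isG_mul (isG_mul hq hwc) hwc)
  obtain ⟨η, hη, hG, -⟩ := exists_rep hq1 hqQ h5
  refine ⟨η, hη, ?_⟩
  have h6 : (x : ℂ) * ((nrm w : ℕ) : ℂ) + (y : ℂ) * (q : ℂ) = 1 := by
    have := congrArg (Int.cast : ℤ → ℂ) hxy
    push_cast at this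
    exact this
  have h7 : β * (starRingEnd ℂ) (w : ℂ) - η * (w : ℂ) =
      ((x : ℂ) * (β * (starRingEnd ℂ) (w : ℂ) * (starRingEnd ℂ) (w : ℂ)) - η) * (w : ℂ) +
        (y : ℂ) * (((q : ℂ) * β) * (starRingEnd ℂ) (w : ℂ)) := by
    have h8 := coe_mul_star w
    linear_combination (x : ℂ) * β * (starRingEnd ℂ) (w : ℂ) * (-1) * h8 -
      β * (starRingEnd ℂ) (w : ℂ) * h6
  rw [h7]
  exact isG_add (isG_mul hG (isG_coe w)) (C6_intMul y (isG_mul hq hwc))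

theorem res_unique {X Q : ℕ} (hQ : Q ≤ X) {w : G} (hw : w ∈ W X) {β η η' : ℂ} (hη : η ∈ Rat Q)
    (hη' : η' ∈ Rat Q) (h : IsG (β * (starRingEnd ℂ) (w : ℂ) - η * (w : ℂ)))
    (h' : IsG (β * (starRingEnd ℂ) (w : ℂ) - η' * (w : ℂ))) : η = η' := by
  obtain ⟨-, q, hq1, hqQ, hq⟩ := mem_Rat.1 hη
  obtain ⟨-, q', hq1', hqQ', hq'⟩ := mem_Rat.1 hη'
  have hcop := (C6_coprime hw hq1 (hqQ.trans hQ)).mul_right (C6_coprime hw hq1' (hqQ'.trans hQ))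
  have h1 : IsG (((q * q' : ℕ) : ℂ) * (η - η')) := by
    rw [show ((q * q' : ℕ) : ℂ) * (η - η') =
      (q' : ℂ) * ((q : ℂ) * η) - (q : ℂ) * ((q' : ℂ) * η') by push_cast; ring]
    exact isG_sub (D4_natMul q' hq) (D4_natMul q hq')
  have h2 : IsG ((η - η') * (w : ℂ)) := by
    rw [show (η - η') * (w : ℂ) = (β * (starRingEnd ℂ) (w : ℂ) - η' * (w : ℂ)) -
      (β * (starRingEnd ℂ) (w : ℂ) - η * (w : ℂ)) by ring]
    exact isG_sub h' h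
  exact eq_of_isG_sub hη hη' (isG_of_mul hcop h1 h2)

theorem mem_Rat_of_res {X Q Q' : ℕ} (hQ' : Q' ≤ X) (hQ : Q ≤ X) {w : G} (hw : w ∈ W X) {α η : ℂ}
    (hα : α ∈ Rat Q) (hη : η ∈ Rat Q') (h : IsG (α * (starRingEnd ℂ) (w : ℂ) - η * (w : ℂ))) :
    α ∈ Rat Q' := by
  obtain ⟨hα1, q, hq1, hqQ, hq⟩ := mem_Rat.1 hα
  obtain ⟨-, q', hq1', hqQ', hq'⟩ := mem_Rat.1 hη
  rw [mem_Rat]
  refine ⟨hα1, q', hq1', hqQ', ?_⟩
  refine isG_of_mul_conj (C6_coprime hw hq1 (hqQ.trans hQ)) (q := q) ?_ ?_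
  · rw [show (q : ℂ) * ((q' : ℂ) * α) = (q' : ℂ) * ((q : ℂ) * α) by ring]
    exact D4_natMul q' hq
  · rw [show (q' : ℂ) * α * (starRingEnd ℂ) (w : ℂ) =
      (q' : ℂ) * (α * (starRingEnd ℂ) (w : ℂ) - η * (w : ℂ)) + ((q' : ℂ) * η) * (w : ℂ) by ring]
    exact isG_add (D4_natMul q' h) (isG_mul hq' (isG_coe w))

theorem eq_zero_of_res {X Q : ℕ} (hQ : Q ≤ X) {w : G} (hw : w ∈ W X) {α : ℂ} (hα : α ∈ Rat Q)
    (h : IsG (α * (starRingEnd ℂ) (w : ℂ) - 0 * (w : ℂ))) : α = 0 := by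
  obtain ⟨-, q, hq1, hqQ, hq⟩ := mem_Rat.1 hα
  have hQ1 : 1 ≤ Q := hq1.trans hqQ
  have h1 : IsG α := by
    refine isG_of_mul_conj (C6_coprime hw hq1 (hqQ.trans hQ)) hq ?_
    rwa [zero_mul, sub_zero] at h
  exact eq_of_isG_sub hα (zero_mem_Rat hQ1) (by rwa [sub_zero])

theorem ind_split {X Q Q' : ℕ} (hQ' : Q' ≤ X) (hQ : Q ≤ X) {w₁ w₂ : G} (h₁ : w₁ ∈ W X)
    (h₂ : w₂ ∈ W X) {α β : ℂ} (hα : α ∈ Rat Q) (hβ : β ∈ Rat Q') :
    ind (α * (starRingEnd ℂ) ((w₁ * star w₂ : G) : ℂ) - β * ((w₁ * star w₂ : G) : ℂ)) =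
      ∑ η ∈ Rat Q', ind (α * (starRingEnd ℂ) (w₁ : ℂ) - η * (w₁ : ℂ)) *
        ind (β * (starRingEnd ℂ) (w₂ : ℂ) - η * (w₂ : ℂ)) := by
  obtain ⟨η, hη, hres⟩ := exists_res hQ' h₂ hβ
  have hother : ∀ η' ∈ Rat Q', η' ≠ η →
      ind (α * (starRingEnd ℂ) (w₁ : ℂ) - η' * (w₁ : ℂ)) *
        ind (β * (starRingEnd ℂ) (w₂ : ℂ) - η' * (w₂ : ℂ)) = 0 := by
    intro η' hη' hne
    rw [ind_of_not_isG (a := β * (starRingEnd ℂ) (w₂ : ℂ) - η' * (w₂ : ℂ))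
      (fun h => hne (res_unique hQ' h₂ hη' hη h hres)), mul_zero]
  rw [Finset.sum_eq_single_of_mem η hη hother, ind_of_isG hres, mul_one]
  have hid : α * (starRingEnd ℂ) ((w₁ * star w₂ : G) : ℂ) - β * ((w₁ * star w₂ : G) : ℂ) =
      (α * (starRingEnd ℂ) (w₁ : ℂ) - η * (w₁ : ℂ)) * (w₂ : ℂ) -
        (β * (starRingEnd ℂ) (w₂ : ℂ) - η * (w₂ : ℂ)) * (w₁ : ℂ) := by
    rw [GaussianInt.toComplex_mul, coe_star, map_mul, Complex.conj_conj]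
    ring
  obtain ⟨-, q, hq1, hqQ, hq⟩ := mem_Rat.1 hα
  obtain ⟨-, q', hq1', hqQ', hq'⟩ := mem_Rat.1 hη
  have hcop := (C6_coprime h₂ hq1 (hqQ.trans hQ)).mul_right (C6_coprime h₂ hq1' (hqQ'.trans hQ'))
  have hden : IsG (((q * q' : ℕ) : ℂ) * (α * (starRingEnd ℂ) (w₁ : ℂ) - η * (w₁ : ℂ))) := by
    rw [show ((q * q' : ℕ) : ℂ) * (α * (starRingEnd ℂ) (w₁ : ℂ) - η * (w₁ : ℂ)) =
      (q' : ℂ) * (((q : ℂ) * α) * (starRingEnd ℂ) (w₁ : ℂ)) -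
        (q : ℂ) * (((q' : ℂ) * η) * (w₁ : ℂ)) by push_cast; ring]
    exact isG_sub (D4_natMul q' (isG_mul hq (isG_conj (isG_coe w₁))))
      (D4_natMul q (isG_mul hq' (isG_coe w₁)))
  by_cases hG : IsG (α * (starRingEnd ℂ) (w₁ : ℂ) - η * (w₁ : ℂ))
  · rw [ind_of_isG hG, ind_of_isG]
    rw [hid]
    exact isG_sub (isG_mul hG (isG_coe w₂)) (isG_mul hres (isG_coe w₁))
  · rw [ind_of_not_isG hG, ind_of_not_isG]
    intro h3
    apply hG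
    refine isG_of_mul hcop hden ?_
    rw [hid] at h3
    have h4 := isG_add h3 (isG_mul hres (isG_coe w₁))
    rwa [sub_add_cancel] at h4

end H29I
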