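import Pool.Agent.Lib.H29I.A1

/-!
# Chunk D0: averages over discs

`avg r g y = (π r²)⁻¹ ∫_{|τ| < r} g (y - τ)`; the area of the disc is `π r²`
(`Complex.volume_ball`). Everything is routine.
-/

open Finset Complex MeasureTheory

namespace H29I

theorem D0_vol {r : ℝ} (hr : 0 < r) (c : ℂ) :
    volume.real (Metric.ball c r) = Real.pi * r ^ 2 := by
  rw [Measure.real, Complex.volume_ball, ENNReal.toReal_mul, ENNReal.toReal_pow,
    ENNReal.toReal_ofReal hr.le, mul_comm]
  rfl

theorem D0_pos {r : ℝ} (hr : 0 < r) : 0 < Real.pi * r ^ 2 := by positivity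

theorem D0_ball {E : Type*} [NormedAddCommGroup E] [NormedSpace ℝ E] (r : ℝ) (f : ℂ → E) :
    ∫ τ in Metric.ball (0 : ℂ) r, f τ = ∫ τ in Metric.closedBall (0 : ℂ) r, f τ := by
  refine setIntegral_congr_set ?_
  rcases eq_or_ne r 0 with rfl | hr
  · rw [Metric.ball_zero, Metric.closedBall_zero]
    exact (ae_eq_empty.2 (by simp)).symm
  · exact ae_eq_of_subset_of_measure_ge Metric.ball_subset_closedBall
      (Measure.addHaar_closedBall_eq_addHaar_ball volume 0 r).le
      measurableSet_ball.nullMeasurableSet measure_closedBall_lt_top.ne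

theorem D0_int {E : Type*} [NormedAddCommGroup E] [NormedSpace ℝ E] {r : ℝ} {g : ℂ → E}
    (hg : Continuous g) (y : ℂ) : IntegrableOn (fun τ => g (y - τ)) (Metric.ball (0 : ℂ) r) := by
  have h : Continuous fun τ => g (y - τ) := hg.comp (continuous_const.sub continuous_id)
  exact (h.continuousOn.integrableOn_compact (isCompact_closedBall (0 : ℂ) r)).mono_set
    Metric.ball_subset_closedBall

theorem continuous_avg {E : Type*} [NormedAddCommGroup E] [NormedSpace ℝ E] {r : ℝ} (hr : 0 < r)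
    {g : ℂ → E} (hg : Continuous g) : Continuous (avg r g) := by
  unfold avg
  have h : (fun y : ℂ => ∫ τ in Metric.ball (0 : ℂ) r, g (y - τ)) =
      fun y : ℂ => ∫ τ in Metric.closedBall (0 : ℂ) r, g (y - τ) := by
    funext y
    exact D0_ball r _
  have h2 : Continuous (fun y : ℂ => ∫ τ in Metric.closedBall (0 : ℂ) r, g (y - τ)) :=
    continuous_parametric_integral_of_continuous (f := fun y τ => g (y - τ))
      (hg.comp (continuous_fst.sub continuous_snd)) (isCompact_closedBall _ _)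
  rw [← h] at h2
  exact h2.const_smul _

theorem avg_const_mul {r : ℝ} (c : ℂ) (g : ℂ → ℂ) :
    avg r (fun y => c * g y) = fun y => c * avg r g y := by
  funext y
  unfold avg
  rw [integral_const_mul, mul_smul_comm]

theorem avg_sum {ι : Type*} {E : Type*} [NormedAddCommGroup E] [NormedSpace ℝ E] {r : ℝ}
    (s : Finset ι) {g : ι → ℂ → E} (hg : ∀ i ∈ s, Continuous (g i)) :
    avg r (fun y => ∑ i ∈ s, g i y) = fun y => ∑ i ∈ s, avg r (g i) y := by
  funext y
  unfold avg
  rw [integral_finsetSum _ fun i hi => D0_int (hg i hi) y, Finset.smul_sum]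

theorem avg_translate {E : Type*} [NormedAddCommGroup E] [NormedSpace ℝ E] {r : ℝ} (c : ℂ)
    (g : ℂ → E) : avg r (fun y => g (y - c)) = fun y => avg r g (y - c) := by
  funext y
  unfold avg
  simp only [sub_right_comm]

theorem avg_ofReal {r : ℝ} (g : ℂ → ℝ) :
    avg r (fun y => ((g y : ℝ) : ℂ)) = fun y => ((avg r g y : ℝ) : ℂ) := by
  funext y
  unfold avg
  have h := integral_ofReal (𝕜 := ℂ) (μ := volume.restrict (Metric.ball (0 : ℂ) r))
    (f := fun τ => g (y - τ))
  rw [smul_eq_mul, Complex.real_smul, Complex.ofReal_mul]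
  congr 1

theorem avg_const {E : Type*} [NormedAddCommGroup E] [NormedSpace ℝ E] [CompleteSpace E] {r : ℝ}
    (hr : 0 < r) (c : E) (y : ℂ) : avg r (fun _ => c) y = c := by
  unfold avg
  rw [setIntegral_const, D0_vol hr, smul_smul, inv_mul_cancel₀ (D0_pos hr).ne', one_smul]

theorem avg_norm_le {E : Type*} [NormedAddCommGroup E] [NormedSpace ℝ E] {r : ℝ} (hr : 0 < r)
    {g : ℂ → E} {M : ℝ} (hM : ∀ y, ‖g y‖ ≤ M) (y : ℂ) : ‖avg r g y‖ ≤ M := by
  unfold avg
  rw [norm_smul, norm_inv, Real.norm_of_nonneg (D0_pos hr).le]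
  have h := norm_setIntegral_le_of_norm_le_const (μ := volume) (s := Metric.ball (0 : ℂ) r)
    (f := fun τ => g (y - τ)) (C := M) measure_ball_lt_top (fun x _ => hM _)
  rw [D0_vol hr] at h
  rw [inv_mul_le_iff₀ (D0_pos hr)]
  linarith [h]

theorem avg_mono {r : ℝ} (hr : 0 < r) {g h : ℂ → ℝ} (hg : Continuous g) (hh : Continuous h)
    (hgh : ∀ y, g y ≤ h y) (y : ℂ) : avg r g y ≤ avg r h y := by
  unfold avg
  exact smul_le_smul_of_nonneg_left (setIntegral_mono (D0_int hg y) (D0_int hh y)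
    fun τ => hgh _) (inv_nonneg.2 (D0_pos hr).le)

theorem avg_eq_zero {E : Type*} [NormedAddCommGroup E] [NormedSpace ℝ E] {r ρ : ℝ} {g : ℂ → E}
    (h : ∀ y, ρ ≤ ‖y‖ → g y = 0) {y : ℂ} (hy : ρ + r ≤ ‖y‖) : avg r g y = 0 := by
  unfold avg
  rw [setIntegral_eq_zero_of_forall_eq_zero, smul_zero]
  intro τ hτ
  apply h
  rw [mem_ball_zero_iff] at hτ
  have := norm_sub_norm_le y τ
  linarith

end H29I
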