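import Pool.Agent.Lib.H29I.D0

/-!
# Chunk D0b: averages over discs, Lipschitz constant and rotations

`avg_lip`: for `d = ‖y - y'‖ ≤ r` the difference of the two discs of radius `r` with centres `y`, `y'`
is contained in the annulus `{r ≤ |τ - y'| < r + d}` of area `π (2 r d + d²) ≤ 3 π r d`, the same with
`y` and `y'` interchanged, so the difference of the averages is at most `6 d / r`; for `d > r` it is
at most `2 ≤ 2 d / r`. `avg_rot`: substitute `τ ↦ ω τ` (an isometry, it preserves the measure and the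
disc).
-/

open Finset Complex MeasureTheory

namespace H29I

theorem D0b_shift {E : Type*} [NormedAddCommGroup E] [NormedSpace ℝ E] (r : ℝ) (g : ℂ → E)
    (y : ℂ) : ∫ τ in Metric.ball (0 : ℂ) r, g (y - τ) = ∫ σ in Metric.ball y r, g σ := by
  have h := (Measure.measurePreserving_sub_left (volume : Measure ℂ) y).setIntegral_preimage_emb
    (MeasurableEquiv.subLeft y).measurableEmbedding g (Metric.ball y r)
  rw [← h]
  congr 2
  ext τ
  simp [Metric.mem_ball, dist_eq_norm]

theorem D0b_diff {E : Type*} [NormedAddCommGroup E] [NormedSpace ℝ E] {r d : ℝ} (hr : 0 < r)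
    {g : ℂ → E} (hg1 : ∀ y, ‖g y‖ ≤ 1) {y y' : ℂ} (hd : ‖y - y'‖ ≤ d) (hd0 : 0 ≤ d) (hdr : d ≤ r) :
    ‖∫ σ in Metric.ball y r \ Metric.ball y' r, g σ‖ ≤ 3 * Real.pi * r * d := by
  have hsub : Metric.ball y r \ Metric.ball y' r ⊆ Metric.ball y' (r + d) \ Metric.ball y' r := by
    intro σ hσ
    refine ⟨?_, hσ.2⟩
    have h1 := hσ.1
    rw [Metric.mem_ball] at h1 ⊢
    have h2 := dist_triangle σ y y'
    rw [dist_eq_norm y y'] at h2
    linarith
  have hfin : volume (Metric.ball y r \ Metric.ball y' r) < ⊤ :=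
    lt_of_le_of_lt (measure_mono Set.sdiff_subset) measure_ball_lt_top
  have h := norm_setIntegral_le_of_norm_le_const (μ := volume) (f := g) (C := 1) hfin
    (fun x _ => hg1 _)
  have h3 : volume.real (Metric.ball y r \ Metric.ball y' r) ≤
      volume.real (Metric.ball y' (r + d) \ Metric.ball y' r) := by
    refine measureReal_mono hsub ?_
    exact (lt_of_le_of_lt (measure_mono Set.sdiff_subset) measure_ball_lt_top).ne
  have h4 : volume.real (Metric.ball y' (r + d) \ Metric.ball y' r) =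
      volume.real (Metric.ball y' (r + d)) - volume.real (Metric.ball y' r) :=
    measureReal_sdiff (Metric.ball_subset_ball (by linarith)) measurableSet_ball
      measure_ball_lt_top.ne
  rw [h4, D0_vol (by linarith), D0_vol hr] at h3
  refine h.trans ?_
  rw [one_mul]
  refine h3.trans ?_
  have hpi := Real.pi_pos
  nlinarith [mul_nonneg hpi.le (mul_nonneg hd0 (sub_nonneg.2 hdr))]

theorem avg_lip {E : Type*} [NormedAddCommGroup E] [NormedSpace ℝ E] {r : ℝ} (hr : 0 < r)
    {g : ℂ → E} (hg : Continuous g) (hg1 : ∀ y, ‖g y‖ ≤ 1) (y y' : ℂ) :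
    ‖avg r g y - avg r g y'‖ ≤ 8 / r * ‖y - y'‖ := by
  rcases lt_or_ge r ‖y - y'‖ with hd | hd
  · have h1 := avg_norm_le hr hg1 y
    have h2 := avg_norm_le hr hg1 y'
    have h3 := norm_sub_le (avg r g y) (avg r g y')
    have h4 : 8 / r * r ≤ 8 / r * ‖y - y'‖ := by gcongr
    rw [div_mul_cancel₀ _ hr.ne'] at h4
    linarith
  · have hint : ∀ z : ℂ, IntegrableOn g (Metric.ball z r) := fun z =>
      (hg.continuousOn.integrableOn_compact (isCompact_closedBall z r)).mono_set
        Metric.ball_subset_closedBall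
    unfold avg
    rw [← smul_sub, norm_smul, norm_inv, Real.norm_of_nonneg (D0_pos hr).le, D0b_shift, D0b_shift,
      inv_mul_le_iff₀ (D0_pos hr)]
    have h1 := integral_inter_add_sdiff (μ := volume) (f := g) (s := Metric.ball y r)
      (t := Metric.ball y' r) measurableSet_ball (hint y)
    have h2 := integral_inter_add_sdiff (μ := volume) (f := g) (s := Metric.ball y' r)
      (t := Metric.ball y r) measurableSet_ball (hint y')
    rw [Set.inter_comm] at h2
    have h3 : (∫ σ in Metric.ball y r, g σ) - ∫ σ in Metric.ball y' r, g σ =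
        (∫ σ in Metric.ball y r \ Metric.ball y' r, g σ) -
          ∫ σ in Metric.ball y' r \ Metric.ball y r, g σ := by
      rw [← h1, ← h2]
      abel
    rw [h3]
    have h4 := D0b_diff hr hg1 (y := y) (y' := y') (d := ‖y - y'‖) le_rfl (norm_nonneg _) hd
    have h5 := D0b_diff hr hg1 (y := y') (y' := y) (d := ‖y - y'‖) (by rw [norm_sub_rev])
      (norm_nonneg _) hd
    have h6 := norm_sub_le (∫ σ in Metric.ball y r \ Metric.ball y' r, g σ)
      (∫ σ in Metric.ball y' r \ Metric.ball y r, g σ)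
    have h7 : Real.pi * r ^ 2 * (8 / r * ‖y - y'‖) = 8 * Real.pi * r * ‖y - y'‖ := by
      field_simp
    rw [h7]
    have h8 : 0 ≤ Real.pi * r * ‖y - y'‖ :=
      mul_nonneg (mul_nonneg Real.pi_pos.le hr.le) (norm_nonneg _)
    nlinarith

theorem avg_rot {r : ℝ} {ω : ℂ} (hω : ‖ω‖ = 1) (x : ℂ) (g : ℂ → ℂ) (ζ : ℂ) :
    avg r (fun ζ => g (x + ζ * ω)) ζ = avg r g (x + ζ * ω) := by
  unfold avg
  congr 1
  let R : ℂ ≃ₗᵢ[ℝ] ℂ := rotation ⟨ω, mem_sphere_zero_iff_norm.2 hω⟩
  have hR : ∀ τ, R τ = ω * τ := fun τ => rfl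
  have h := R.measurePreserving.setIntegral_preimage_emb
    R.toHomeomorph.measurableEmbedding (fun σ => g (x + ζ * ω - σ)) (Metric.ball 0 r)
  rw [← h]
  have h1 : (⇑R) ⁻¹' Metric.ball 0 r = Metric.ball 0 r := by
    ext τ
    simp [hR, hω]
  rw [h1]
  refine setIntegral_congr_fun measurableSet_ball fun τ _ => ?_
  simp only [hR]
  congr 1
  ring

end H29I
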