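import Pool.Agent.Lib.H29I.D0

/-!
# Chunk D0c: averages over discs and integrals

Fubini, translation invariance and `τ ↦ -τ` (all the functions are continuous with compact support;
`avg r h` is continuous).
-/

open Finset Complex MeasureTheory

namespace H29I

theorem D0c_swap {r : ℝ} {f : ℂ → ℂ → ℂ} (hf : Continuous (Function.uncurry f))
    (hf' : HasCompactSupport (Function.uncurry f)) :
    ∫ ζ : ℂ, (∫ τ in Metric.ball (0 : ℂ) r, f ζ τ) = ∫ τ in Metric.ball (0 : ℂ) r, ∫ ζ : ℂ, f ζ τ :=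
  integral_integral_swap_of_hasCompactSupport hf hf'

theorem D0c_supp {g h : ℂ → ℂ} (hg' : HasCompactSupport g) (hh' : HasCompactSupport h) :
    HasCompactSupport (Function.uncurry fun ζ τ : ℂ => g ζ * (starRingEnd ℂ) (h (ζ - τ))) := by
  refine HasCompactSupport.intro
    (K := (fun p : ℂ × ℂ => (p.1, p.1 - p.2)) '' (tsupport g ×ˢ tsupport h)) ?_ ?_
  · exact (IsCompact.prod hg' hh').image
      (continuous_fst.prodMk (continuous_fst.sub continuous_snd))
  · rintro ⟨ζ, τ⟩ hx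
    by_contra hne
    apply hx
    have hne' : g ζ * (starRingEnd ℂ) (h (ζ - τ)) ≠ 0 := hne
    refine ⟨(ζ, ζ - τ), ⟨subset_tsupport g ?_, subset_tsupport h ?_⟩, by simp⟩
    · exact left_ne_zero_of_mul hne'
    · have := right_ne_zero_of_mul hne'
      intro h0
      apply this
      have h0' : h (ζ - τ) = 0 := h0
      rw [h0', map_zero]

theorem D0c_supp2 {g h : ℂ → ℂ} (hg' : HasCompactSupport g) (hh' : HasCompactSupport h) :
    HasCompactSupport (Function.uncurry fun ζ τ : ℂ => g (ζ - τ) * (starRingEnd ℂ) (h ζ)) := by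
  refine HasCompactSupport.intro
    (K := (fun p : ℂ × ℂ => (p.2, p.2 - p.1)) '' (tsupport g ×ˢ tsupport h)) ?_ ?_
  · exact (IsCompact.prod hg' hh').image
      (continuous_snd.prodMk (continuous_snd.sub continuous_fst))
  · rintro ⟨ζ, τ⟩ hx
    by_contra hne
    apply hx
    have hne' : g (ζ - τ) * (starRingEnd ℂ) (h ζ) ≠ 0 := hne
    refine ⟨(ζ - τ, ζ), ⟨subset_tsupport g ?_, subset_tsupport h ?_⟩, by simp⟩
    · exact left_ne_zero_of_mul hne'
    · have := right_ne_zero_of_mul hne'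
      intro h0
      apply this
      have h0' : h ζ = 0 := h0
      rw [h0', map_zero]

/-- The averaging operator is self-adjoint. -/
theorem integral_mul_avg {r : ℝ} (hr : 0 < r) {g h : ℂ → ℂ} (hg : Continuous g)
    (hg' : HasCompactSupport g) (hh : Continuous h) (hh' : HasCompactSupport h) :
    ∫ ζ : ℂ, g ζ * (starRingEnd ℂ) (avg r h ζ) = ∫ ζ : ℂ, avg r g ζ * (starRingEnd ℂ) (h ζ) := by
  have e1 : ∀ ζ : ℂ, g ζ * (starRingEnd ℂ) (avg r h ζ) = (Real.pi * r ^ 2)⁻¹ •
      ∫ τ in Metric.ball (0 : ℂ) r, g ζ * (starRingEnd ℂ) (h (ζ - τ)) := by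
    intro ζ
    unfold avg
    rw [integral_const_mul, integral_conj, ← mul_smul_comm]
    congr 1
    rw [Complex.real_smul, Complex.real_smul, map_mul, Complex.conj_ofReal]
  have e2 : ∀ ζ : ℂ, avg r g ζ * (starRingEnd ℂ) (h ζ) = (Real.pi * r ^ 2)⁻¹ •
      ∫ τ in Metric.ball (0 : ℂ) r, g (ζ - τ) * (starRingEnd ℂ) (h ζ) := by
    intro ζ
    unfold avg
    rw [integral_mul_const, smul_mul_assoc]
  simp_rw [e1, e2]
  rw [integral_smul, integral_smul]
  congr 1
  rw [D0c_swap (f := fun ζ τ => g ζ * (starRingEnd ℂ) (h (ζ - τ))) ?_ (D0c_supp hg' hh'),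
    D0c_swap (f := fun ζ τ => g (ζ - τ) * (starRingEnd ℂ) (h ζ)) ?_ (D0c_supp2 hg' hh')]
  · have h1 : ∀ τ : ℂ, ∫ ζ : ℂ, g ζ * (starRingEnd ℂ) (h (ζ - τ)) =
        ∫ ζ : ℂ, g (ζ - -τ) * (starRingEnd ℂ) (h ζ) := by
      intro τ
      rw [← integral_add_right_eq_self (fun ζ : ℂ => g ζ * (starRingEnd ℂ) (h (ζ - τ))) τ]
      simp only [add_sub_cancel_right, sub_neg_eq_add]
    simp_rw [h1]
    have h2 := (Measure.measurePreserving_neg (volume : Measure ℂ)).setIntegral_preimage_emb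
      (MeasurableEquiv.neg ℂ).measurableEmbedding
      (fun τ : ℂ => ∫ ζ : ℂ, g (ζ - τ) * (starRingEnd ℂ) (h ζ)) (Metric.ball 0 r)
    rw [← h2]
    have h3 : (Neg.neg : ℂ → ℂ) ⁻¹' Metric.ball 0 r = Metric.ball 0 r := by
      ext τ
      simp
    rw [h3]
  · exact (hg.comp (continuous_fst.sub continuous_snd)).mul
      (Complex.continuous_conj.comp (hh.comp continuous_fst))
  · exact (hg.comp continuous_fst).mul
      (Complex.continuous_conj.comp (hh.comp (continuous_fst.sub continuous_snd)))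

theorem integral_avg {r : ℝ} (hr : 0 < r) {g : ℂ → ℂ} (hg : Continuous g)
    (hg' : HasCompactSupport g) : ∫ ζ : ℂ, avg r g ζ = ∫ ζ : ℂ, g ζ := by
  have h := integral_convolution (L := ContinuousLinearMap.lsmul ℝ ℝ)
    (ν := (volume : Measure ℂ).restrict (Metric.ball 0 r)) (μ := (volume : Measure ℂ))
    (f := fun _ : ℂ => (1 : ℝ)) (g := g)
    (integrableOn_const measure_ball_lt_top.ne) (hg.integrable_of_hasCompactSupport hg')
  unfold avg
  rw [integral_smul]
  have h1 : ∫ ζ : ℂ, ∫ τ in Metric.ball (0 : ℂ) r, g (ζ - τ) =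
      (∫ τ in Metric.ball (0 : ℂ) r, (1 : ℝ)) • ∫ ζ : ℂ, g ζ := by
    have h2 := h
    rw [ContinuousLinearMap.lsmul_apply] at h2
    rw [← h2]
    refine integral_congr_ae (Filter.Eventually.of_forall fun ζ => ?_)
    simp only [MeasureTheory.convolution, ContinuousLinearMap.lsmul_apply, one_smul]
  rw [h1, setIntegral_const, D0_vol hr, smul_smul]
  simp only [smul_eq_mul, mul_one]
  rw [inv_mul_cancel₀ (D0_pos hr).ne', one_smul]

end H29I
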