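import Pool.Agent.Lib.H29I.A1

/-!
# Chunk D1: the tent function in one variable

`lam l t = max 0 (1 - |t| / l)`. `sum_lam`: partition of unity, `∑_j lam l (t - l j) = 1` for every
real `t` (at most two consecutive `j` count: if `t = l j + s`, `0 ≤ s < l`, then the sum is
`(1 - s / l) + s / l`); sum over the residue classes of `n` modulo `l`. `sum_lam_var`: the sequence
`n ↦ lam l (n - x)` increases from `0` to a value `≤ 1` and then decreases to `0`.
`sum_lam_lip`: every term is at most `|x - y| / l`, and nonzero for at most `4 l` integers `n` (an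
open interval of length `2 l` contains at most `2 l` integers).
-/

open Finset Complex

namespace H29I

/-- The tent function in one variable. -/
noncomputable def lam (l : ℕ) (t : ℝ) : ℝ := max 0 (1 - |t| / l)

theorem tent_eq (l : ℕ) (y : ℂ) : tent l y = lam l y.re * lam l y.im / (l : ℝ) ^ 2 := rfl

theorem lam_nonneg (l : ℕ) (t : ℝ) : 0 ≤ lam l t := le_max_left _ _

theorem lam_le_one (l : ℕ) (t : ℝ) : lam l t ≤ 1 := by
  unfold lam
  have : 0 ≤ |t| / l := by positivity
  exact max_le zero_le_one (by linarith)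

theorem lam_neg (l : ℕ) (t : ℝ) : lam l (-t) = lam l t := by
  unfold lam
  rw [abs_neg]

theorem lam_eq_zero {l : ℕ} (hl : 1 ≤ l) {t : ℝ} (h : (l : ℝ) ≤ |t|) : lam l t = 0 := by
  unfold lam
  have hl' : (0 : ℝ) < l := by exact_mod_cast hl
  have : 1 ≤ |t| / l := by rw [le_div_iff₀ hl']; linarith
  exact max_eq_left (by linarith)

theorem D1_lam_eq {l : ℕ} (hl : 1 ≤ l) (t : ℝ) :
    lam l t = (|t + l| + |t - l| - 2 * |t|) / (2 * l) := by
  unfold lam
  have hl' : (0 : ℝ) < l := by exact_mod_cast hl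
  rw [eq_div_iff (by positivity)]
  rcases le_total 0 t with h | h
  · rw [abs_of_nonneg h, abs_of_nonneg (by linarith : 0 ≤ t + l)]
    rcases le_total t l with h2 | h2
    · rw [abs_of_nonpos (by linarith : t - l ≤ 0), max_eq_right]
      · field_simp; ring
      · rw [sub_nonneg, div_le_one hl']; exact h2
    · rw [abs_of_nonneg (by linarith : 0 ≤ t - l), max_eq_left]
      · ring
      · rw [sub_nonpos, le_div_iff₀ hl']; linarith
  · rw [abs_of_nonpos h, abs_of_nonpos (by linarith : t - l ≤ 0)]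
    rcases le_total (-t) l with h2 | h2
    · rw [abs_of_nonneg (by linarith : 0 ≤ t + l), max_eq_right]
      · field_simp; ring
      · rw [sub_nonneg, div_le_one hl']; exact h2
    · rw [abs_of_nonpos (by linarith : t + l ≤ 0), max_eq_left]
      · ring
      · rw [sub_nonpos, le_div_iff₀ hl']; linarith

theorem lam_lip {l : ℕ} (hl : 1 ≤ l) (s t : ℝ) : |lam l s - lam l t| ≤ |s - t| / l := by
  unfold lam
  have hl' : (0 : ℝ) < l := by exact_mod_cast hl
  rw [max_comm (0 : ℝ), max_comm (0 : ℝ)]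
  refine (abs_max_sub_max_le_abs (1 - |s| / (l : ℝ)) (1 - |t| / (l : ℝ)) (0 : ℝ)).trans ?_
  have h1 : (1 - |s| / (l : ℝ)) - (1 - |t| / l) = (|t| - |s|) / l := by ring
  rw [h1, abs_div, abs_of_pos hl']
  refine div_le_div_of_nonneg_right ?_ hl'.le
  rw [abs_sub_comm s t]
  exact abs_abs_sub_abs_le _ _

theorem continuous_lam (l : ℕ) : Continuous (lam l) := by
  unfold lam
  fun_prop

theorem D1_sum_Icc (R : ℕ) (f : ℤ → ℝ) :
    ∑ n ∈ Icc (-(R : ℤ)) R, f n = ∑ k ∈ range (2 * R + 1), f ((k : ℤ) - R) := by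
  refine Finset.sum_nbij' (fun n => (n + R).toNat) (fun k => (k : ℤ) - R) ?_ ?_ ?_ ?_ ?_
  · intro n hn
    rw [mem_Icc] at hn
    rw [mem_range]; omega
  · intro k hk
    rw [mem_range] at hk
    rw [mem_Icc]; omega
  · intro n hn
    rw [mem_Icc] at hn
    show ((n + R).toNat : ℤ) - R = n
    omega
  · intro k hk
    show ((k : ℤ) - R + R).toNat = k
    omega
  · intro n hn
    rw [mem_Icc] at hn
    congr 1
    omega

theorem D1_tele (R : ℕ) (V : ℤ → ℝ) :
    ∑ n ∈ Icc (-(R : ℤ)) R, (V (n + 1) - V n) = V (R + 1) - V (-R) := by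
  rw [D1_sum_Icc]
  have h := Finset.sum_range_sub (fun k : ℕ => V ((k : ℤ) - R)) (2 * R + 1)
  have h2 : ∀ k ∈ range (2 * R + 1), V ((k : ℤ) - R + 1) - V ((k : ℤ) - R) =
      V (((k + 1 : ℕ) : ℤ) - R) - V ((k : ℤ) - R) := by
    intro k _
    congr 2
    push_cast; ring
  rw [Finset.sum_congr rfl h2, h]
  congr 2
  · push_cast; ring
  · push_cast; ring

theorem D1_tele' (R l : ℕ) (G : ℤ → ℝ) :
    ∑ n ∈ Icc (-(R : ℤ)) R, (G (n + l) - G n) =
      ∑ i ∈ range l, (G (R + 1 + i) - G (-R + i)) := by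
  have h1 : ∀ n : ℤ, G (n + l) - G n = ∑ i ∈ range l, (G (n + 1 + i) - G (n + i)) := by
    intro n
    have h := Finset.sum_range_sub (fun k : ℕ => G (n + k)) l
    simp only [Nat.cast_zero, add_zero] at h
    rw [← h]
    apply Finset.sum_congr rfl
    intro i _
    congr 2
    push_cast; ring
  simp_rw [h1]
  rw [Finset.sum_comm]
  apply Finset.sum_congr rfl
  intro i _
  exact D1_tele R (fun n => G (n + i))

theorem sum_lam {l R : ℕ} (hl : 1 ≤ l) {x : ℝ} (h : |x| + l ≤ R) :
    ∑ n ∈ Icc (-(R : ℤ)) R, lam l ((n : ℝ) - x) = l := by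
  have hl' : (0 : ℝ) < l := by exact_mod_cast hl
  have hx := abs_le.1 (show |x| ≤ R - l by linarith)
  set G : ℤ → ℝ := fun n => |(n : ℝ) - x| - |(n : ℝ) - x - l| with hG
  have h1 : ∀ n : ℤ, lam l ((n : ℝ) - x) = (G (n + l) - G n) / (2 * l) := by
    intro n
    rw [D1_lam_eq hl, hG]
    congr 1
    simp only [Int.cast_add, Int.cast_natCast]
    have e1 : (n : ℝ) + l - x - l = n - x := by ring
    have e2 : (n : ℝ) + l - x = n - x + l := by ring
    rw [e1, e2]; ring
  simp_rw [h1]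
  rw [← Finset.sum_div, D1_tele']
  have h2 : ∀ i ∈ range l, G ((R : ℤ) + 1 + i) - G (-(R : ℤ) + i) = 2 * l := by
    intro i hi
    rw [mem_range] at hi
    have hi' : (i : ℝ) + 1 ≤ l := by exact_mod_cast hi
    have hi0 : (0 : ℝ) ≤ i := Nat.cast_nonneg i
    simp only [hG, Int.cast_add, Int.cast_natCast, Int.cast_one, Int.cast_neg]
    rw [abs_of_nonneg (by linarith [hx.2] : (0 : ℝ) ≤ (R : ℝ) + 1 + i - x),
      abs_of_nonneg (by linarith [hx.2] : (0 : ℝ) ≤ (R : ℝ) + 1 + i - x - l),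
      abs_of_nonpos (by linarith [hx.1] : -(R : ℝ) + i - x ≤ 0),
      abs_of_nonpos (by linarith [hx.1] : -(R : ℝ) + i - x - l ≤ 0)]
    ring
  rw [Finset.sum_congr rfl h2, Finset.sum_const, card_range, nsmul_eq_mul]
  field_simp

/-- Every finite set of integers is contained in a large interval. -/
theorem D1_exists_R (s : Finset ℤ) (c : ℝ) : ∃ R : ℕ, c ≤ R ∧ s ⊆ Icc (-(R : ℤ)) R := by
  obtain ⟨R₁, hR₁⟩ := exists_nat_ge c
  have : ∃ R₂ : ℕ, ∀ n ∈ s, |n| ≤ (R₂ : ℤ) := by
    refine ⟨∑ n ∈ s, n.natAbs, ?_⟩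
    intro n hn
    have h := Finset.single_le_sum (f := fun n : ℤ => n.natAbs) (fun _ _ => Nat.zero_le _) hn
    rw [Int.abs_eq_natAbs]
    exact_mod_cast h
  obtain ⟨R₂, hR₂⟩ := this
  refine ⟨R₁ + R₂, ?_, ?_⟩
  · push_cast
    have : (0 : ℝ) ≤ R₂ := Nat.cast_nonneg _
    linarith
  · intro n hn
    have h := abs_le.1 (hR₂ n hn)
    rw [mem_Icc]
    push_cast
    omega

theorem sum_lam_le {l : ℕ} (hl : 1 ≤ l) (x : ℝ) (s : Finset ℤ) :
    ∑ n ∈ s, lam l ((n : ℝ) - x) ≤ l := by
  obtain ⟨R, h1, h2⟩ := D1_exists_R s (|x| + l)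
  rw [← sum_lam hl h1]
  exact Finset.sum_le_sum_of_subset_of_nonneg h2 fun _ _ _ => lam_nonneg _ _

theorem D1_lam_mono {l : ℕ} {s t : ℝ} (h : |t| ≤ |s|) : lam l s ≤ lam l t := by
  unfold lam
  gcongr

theorem sum_lam_var {l : ℕ} (hl : 1 ≤ l) (x : ℝ) (s : Finset ℤ) :
    ∑ n ∈ s, |lam l ((n : ℝ) + 1 - x) - lam l ((n : ℝ) - x)| ≤ 2 := by
  obtain ⟨R, -, h2⟩ := D1_exists_R s 0
  refine (Finset.sum_le_sum_of_subset_of_nonneg h2 fun _ _ _ => abs_nonneg _).trans ?_
  set m : ℤ := ⌊x⌋ with hm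
  set a : ℤ → ℝ := fun n => lam l ((n : ℝ) - x) with ha
  set M : ℝ := max (a m) (a (m + 1)) with hM
  set V : ℤ → ℝ := fun n => if n ≤ m then a n else 2 * M - a n with hV
  have hfl : (m : ℝ) ≤ x := Int.floor_le x
  have hfl2 : x < (m : ℝ) + 1 := Int.lt_floor_add_one x
  have hstep : ∀ n : ℤ, |lam l ((n : ℝ) + 1 - x) - lam l ((n : ℝ) - x)| = V (n + 1) - V n := by
    intro n
    have e1 : lam l ((n : ℝ) + 1 - x) = a (n + 1) := by
      simp only [ha]; push_cast; rfl
    have e2 : lam l ((n : ℝ) - x) = a n := rfl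
    rw [e1, e2]
    rcases lt_trichotomy n m with h | h | h
    · have hn : (n : ℝ) + 1 ≤ m := by exact_mod_cast h
      have h3 : a n ≤ a (n + 1) := by
        apply D1_lam_mono
        push_cast
        rw [abs_of_nonpos (by linarith), abs_of_nonpos (by linarith)]
        linarith
      simp only [hV]
      rw [if_pos (by omega), if_pos (by omega), abs_of_nonneg (by linarith)]
    · subst h
      simp only [hV]
      rw [if_neg (by omega), if_pos le_rfl, hM]
      rcases le_total (a m) (a (m + 1)) with h | h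
      · rw [max_eq_right h, abs_of_nonneg (by linarith)]; ring
      · rw [max_eq_left h, abs_of_nonpos (by linarith)]; ring
    · have hn : (m : ℝ) + 1 ≤ n := by exact_mod_cast h
      have h3 : a (n + 1) ≤ a n := by
        apply D1_lam_mono
        push_cast
        rw [abs_of_nonneg (by linarith), abs_of_nonneg (by linarith)]
        linarith
      simp only [hV]
      rw [if_neg (by omega), if_neg (by omega), abs_of_nonpos (by linarith)]
      ring
  simp_rw [hstep]
  rw [D1_tele]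
  have hM1 : M ≤ 1 := max_le (lam_le_one _ _) (lam_le_one _ _)
  have hM0 : 0 ≤ M := le_max_of_le_left (lam_nonneg _ _)
  have hup : ∀ n, V n ≤ 2 := by
    intro n
    simp only [hV]
    split_ifs
    · linarith [lam_le_one l ((n : ℝ) - x)]
    · have := lam_nonneg l ((n : ℝ) - x)
      simp only [ha]; linarith
  have hlo : ∀ n, 0 ≤ V n := by
    intro n
    simp only [hV]
    split_ifs with h
    · exact lam_nonneg _ _
    · have h4 : a n ≤ a (m + 1) := by
        apply D1_lam_mono
        have hn : (m : ℝ) + 1 ≤ n := by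
          have : m + 1 ≤ n := by omega
          exact_mod_cast this
        push_cast
        rw [abs_of_nonneg (by linarith), abs_of_nonneg (by linarith)]
        linarith
      have h5 : a (m + 1) ≤ M := le_max_right _ _
      linarith
  linarith [hup ((R : ℤ) + 1), hlo (-(R : ℤ))]

theorem D1_card_le (l : ℕ) (x : ℝ) (s : Finset ℤ) :
    ((s.filter fun n : ℤ => |(n : ℝ) - x| < l).card : ℝ) ≤ 2 * l := by
  have hsub : (s.filter fun n : ℤ => |(n : ℝ) - x| < l) ⊆ Icc (⌊x⌋ - l + 1) (⌈x⌉ + l - 1) := by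
    intro n hn
    rw [mem_filter] at hn
    have h := abs_lt.1 hn.2
    rw [mem_Icc]
    constructor
    · have h1 : (⌊x⌋ : ℝ) ≤ x := Int.floor_le x
      have h2 : ((⌊x⌋ - l : ℤ) : ℝ) < (n : ℝ) := by push_cast; linarith [h.1]
      have h3 : ⌊x⌋ - (l : ℤ) < n := by exact_mod_cast h2
      omega
    · have h1 : x ≤ (⌈x⌉ : ℝ) := Int.le_ceil x
      have h2 : (n : ℝ) < ((⌈x⌉ + l : ℤ) : ℝ) := by push_cast; linarith [h.2]
      have h3 : n < ⌈x⌉ + (l : ℤ) := by exact_mod_cast h2
      omega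
  have hc := Finset.card_le_card hsub
  rw [Int.card_Icc] at hc
  have hcf : ⌈x⌉ ≤ ⌊x⌋ + 1 := Int.ceil_le_floor_add_one x
  have : (s.filter fun n : ℤ => |(n : ℝ) - x| < l).card ≤ 2 * l := by omega
  exact_mod_cast this

theorem sum_lam_lip {l : ℕ} (hl : 1 ≤ l) (x y : ℝ) (s : Finset ℤ) :
    ∑ n ∈ s, |lam l ((n : ℝ) - x) - lam l ((n : ℝ) - y)| ≤ 4 * |x - y| := by
  have hl' : (0 : ℝ) < l := by exact_mod_cast hl
  set P : ℤ → Prop := fun n => |(n : ℝ) - x| < l ∨ |(n : ℝ) - y| < l with hP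
  classical
  have h1 : ∑ n ∈ s, |lam l ((n : ℝ) - x) - lam l ((n : ℝ) - y)| =
      ∑ n ∈ s.filter P, |lam l ((n : ℝ) - x) - lam l ((n : ℝ) - y)| := by
    symm
    apply Finset.sum_filter_of_ne
    intro n _ hn
    by_contra hc
    simp only [hP, not_or, not_lt] at hc
    apply hn
    rw [lam_eq_zero hl hc.1, lam_eq_zero hl hc.2]
    simp
  rw [h1]
  have h2 : ∀ n ∈ s.filter P, |lam l ((n : ℝ) - x) - lam l ((n : ℝ) - y)| ≤ |x - y| / l := by
    intro n _
    refine (lam_lip hl _ _).trans ?_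
    have : (n : ℝ) - x - (n - y) = y - x := by ring
    rw [this, abs_sub_comm]
  refine (Finset.sum_le_sum h2).trans ?_
  rw [Finset.sum_const, nsmul_eq_mul]
  have h3 : ((s.filter P).card : ℝ) ≤ 4 * l := by
    have h4 : s.filter P ⊆ (s.filter fun n : ℤ => |(n : ℝ) - x| < l) ∪
        (s.filter fun n : ℤ => |(n : ℝ) - y| < l) := by
      intro n hn
      rw [mem_filter] at hn
      rw [mem_union, mem_filter, mem_filter]
      rcases hn.2 with h | h
      · exact Or.inl ⟨hn.1, h⟩
      · exact Or.inr ⟨hn.1, h⟩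
    have h5 := (Finset.card_le_card h4).trans (Finset.card_union_le _ _)
    have h6 : ((s.filter P).card : ℝ) ≤ ((s.filter fun n : ℤ => |(n : ℝ) - x| < l).card : ℝ) +
        ((s.filter fun n : ℤ => |(n : ℝ) - y| < l).card : ℝ) := by exact_mod_cast h5
    linarith [D1_card_le l x s, D1_card_le l y s]
  calc ((s.filter P).card : ℝ) * (|x - y| / l) ≤ (4 * l) * (|x - y| / l) := by
        gcongr
    _ = 4 * |x - y| := by field_simp

theorem integral_lam {l : ℕ} (hl : 1 ≤ l) : ∫ t : ℝ, lam l t = l := by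
  have hl' : (0 : ℝ) < l := by exact_mod_cast hl
  have h1 : ∫ t : ℝ, lam l t = ∫ t in (-(l : ℝ))..l, lam l t := by
    rw [intervalIntegral.integral_of_le (by linarith)]
    symm
    apply MeasureTheory.setIntegral_eq_integral_of_forall_compl_eq_zero
    intro t ht
    apply lam_eq_zero hl
    by_contra hc
    rw [not_le, abs_lt] at hc
    exact ht ⟨hc.1, hc.2.le⟩
  rw [h1, ← intervalIntegral.integral_add_adjacent_intervals (b := 0)
    ((continuous_lam l).intervalIntegrable _ _) ((continuous_lam l).intervalIntegrable _ _)]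
  have h2 : ∫ t in (-(l : ℝ))..0, lam l t = ∫ t in (-(l : ℝ))..0, (1 + t / l) := by
    apply intervalIntegral.integral_congr
    intro t ht
    rw [Set.uIcc_of_le (by linarith)] at ht
    unfold lam
    simp only
    rw [abs_of_nonpos ht.2, max_eq_right]
    · ring
    · rw [sub_nonneg, div_le_one hl']; linarith [ht.1]
  have h3 : ∫ t in (0 : ℝ)..l, lam l t = ∫ t in (0 : ℝ)..l, (1 - t / l) := by
    apply intervalIntegral.integral_congr
    intro t ht
    rw [Set.uIcc_of_le (by linarith)] at ht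
    unfold lam
    simp only
    rw [abs_of_nonneg ht.1, max_eq_right]
    rw [sub_nonneg, div_le_one hl']; linarith [ht.2]
  rw [h2, h3, intervalIntegral.integral_add (by simp) (by
      apply Continuous.intervalIntegrable; fun_prop),
    intervalIntegral.integral_sub (by simp) (by
      apply Continuous.intervalIntegrable; fun_prop)]
  simp only [intervalIntegral.integral_const, intervalIntegral.integral_div, integral_id]
  simp only [smul_eq_mul]
  field_simp
  ring

end H29I
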