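import Pool.Agent.Lib.H29I.D1b

/-!
# Chunk D9: the local Fourier coefficients for the tent kernel, as functions on the plane

`F (tent l) N f α Y = ∑_{c ∈ box N} f c e (-dot α c) tent l (Y - c)`; `tent l (Y - c) =
tent l (c - Y)` (`tent_neg`). `sum_tent_le` gives the bound `1`, `sum_tent_lip` the Lipschitz
constant (for `y = Y`, `y' = Y'`), `tent_eq_zero` the support. The integral: `integral_tent` and
translation invariance.
-/

open Finset Complex MeasureTheory

namespace H29I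

theorem D9_flip (l : ℕ) (a b : ℂ) : tent l (a - b) = tent l (b - a) := by
  rw [← tent_neg, neg_sub]

theorem continuous_Ftent (l N : ℕ) (f : G → ℂ) (α : ℂ) : Continuous (F (tent l) N f α) := by
  unfold F
  refine continuous_finsetSum _ fun c _ => ?_
  exact continuous_const.mul (Complex.continuous_ofReal.comp
    ((continuous_tent l).comp (continuous_id.sub continuous_const)))

theorem norm_Ftent_le {l N : ℕ} (hl : 1 ≤ l) {f : G → ℂ} (hf : ∀ x, ‖f x‖ ≤ 1) (α Y : ℂ) :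
    ‖F (tent l) N f α Y‖ ≤ 1 := by
  unfold F
  calc ‖∑ c ∈ box N, f c * e (-dot α (c : ℂ)) * (tent l (Y - (c : ℂ)) : ℂ)‖
      ≤ ∑ c ∈ box N, ‖f c * e (-dot α (c : ℂ)) * (tent l (Y - (c : ℂ)) : ℂ)‖ := norm_sum_le _ _
    _ ≤ ∑ c ∈ box N, tent l ((c : ℂ) - Y) := by
        refine Finset.sum_le_sum fun c _ => ?_
        rw [norm_mul, norm_mul, norm_e, mul_one, Complex.norm_real, Real.norm_eq_abs,
          D9_flip, abs_of_nonneg (tent_nonneg _ _)]
        exact mul_le_of_le_one_left (tent_nonneg _ _) (hf c)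
    _ ≤ 1 := sum_tent_le hl Y _

theorem lip_Ftent {l N : ℕ} (hl : 1 ≤ l) {f : G → ℂ} (hf : ∀ x, ‖f x‖ ≤ 1) (α Y Y' : ℂ) :
    ‖F (tent l) N f α Y - F (tent l) N f α Y'‖ ≤ 8 / l * ‖Y - Y'‖ := by
  unfold F
  rw [← Finset.sum_sub_distrib]
  calc ‖∑ c ∈ box N, (f c * e (-dot α (c : ℂ)) * (tent l (Y - (c : ℂ)) : ℂ) -
        f c * e (-dot α (c : ℂ)) * (tent l (Y' - (c : ℂ)) : ℂ))‖
      ≤ ∑ c ∈ box N, ‖f c * e (-dot α (c : ℂ)) * (tent l (Y - (c : ℂ)) : ℂ) -
        f c * e (-dot α (c : ℂ)) * (tent l (Y' - (c : ℂ)) : ℂ)‖ := norm_sum_le _ _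
    _ ≤ ∑ c ∈ box N, |tent l ((c : ℂ) - Y) - tent l ((c : ℂ) - Y')| := by
        refine Finset.sum_le_sum fun c _ => ?_
        rw [D9_flip l Y, D9_flip l Y']
        rw [show f c * e (-dot α (c : ℂ)) * (tent l ((c : ℂ) - Y) : ℂ) -
            f c * e (-dot α (c : ℂ)) * (tent l ((c : ℂ) - Y') : ℂ) =
            f c * e (-dot α (c : ℂ)) * ((tent l ((c : ℂ) - Y) - tent l ((c : ℂ) - Y') : ℝ) : ℂ) by
          push_cast; ring]
        rw [norm_mul, norm_mul, norm_e, mul_one, Complex.norm_real, Real.norm_eq_abs]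
        exact mul_le_of_le_one_left (abs_nonneg _) (hf c)
    _ ≤ 8 / l * ‖Y - Y'‖ := sum_tent_lip hl Y Y' _

theorem Ftent_eq_zero {l N : ℕ} (hl : 1 ≤ l) (f : G → ℂ) (α : ℂ) {Y : ℂ}
    (hY : (N : ℝ) + l ≤ |Y.re| ∨ (N : ℝ) + l ≤ |Y.im|) : F (tent l) N f α Y = 0 := by
  unfold F
  refine Finset.sum_eq_zero fun c hc => ?_
  rw [mem_box] at hc
  have h1 : |(c.re : ℝ)| ≤ N := by exact_mod_cast hc.1
  have h2 : |(c.im : ℝ)| ≤ N := by exact_mod_cast hc.2
  have h3 : tent l (Y - (c : ℂ)) = 0 := by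
    apply tent_eq_zero hl
    rw [Complex.sub_re, Complex.sub_im, coe_re, coe_im]
    rcases hY with h | h
    · left
      have := abs_sub_abs_le_abs_sub Y.re (c.re : ℝ)
      linarith
    · right
      have := abs_sub_abs_le_abs_sub Y.im (c.im : ℝ)
      linarith
  rw [h3, Complex.ofReal_zero, mul_zero]

theorem D9_int_rot {l : ℕ} (hl : 1 ≤ l) (x ω : ℂ) (hω : ‖ω‖ = 1) :
    ∫ ζ : ℂ, tent l (x + ζ * ω) = 1 := by
  have hm : ω ∈ Submonoid.unitSphere ℂ := mem_sphere_zero_iff_norm.mpr hω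
  set a : Circle := ⟨ω, hm⟩ with ha
  have h1 : MeasurePreserving (rotation a) := (rotation a).measurePreserving
  have h2 := h1.integral_comp (rotation a).toHomeomorph.measurableEmbedding
    (fun z : ℂ => tent l (x + z))
  have h3 : ∫ ζ : ℂ, tent l (x + ζ * ω) = ∫ ζ : ℂ, tent l (x + rotation a ζ) := by
    refine MeasureTheory.integral_congr_ae (Filter.Eventually.of_forall fun ζ => ?_)
    show tent l (x + ζ * ω) = tent l (x + rotation a ζ)
    rw [rotation_apply, mul_comm]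
  rw [h3]
  rw [h2, MeasureTheory.integral_add_left_eq_self (fun z => tent l z) x, integral_tent hl]

theorem D9_integrable {l : ℕ} (hl : 1 ≤ l) (x ω : ℂ) (hω : ‖ω‖ = 1) :
    Integrable (fun ζ : ℂ => tent l (x + ζ * ω)) := by
  by_contra h
  have h1 := D9_int_rot hl x ω hω
  rw [MeasureTheory.integral_undef h] at h1
  norm_num at h1

theorem integral_Ftent {l N : ℕ} (hl : 1 ≤ l) (f : G → ℂ) (x ω : ℂ) (hω : ‖ω‖ = 1) :
    ∫ ζ : ℂ, F (tent l) N f 0 (x + ζ * ω) = ∑ c ∈ box N, f c := by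
  unfold F
  rw [MeasureTheory.integral_finsetSum]
  · refine Finset.sum_congr rfl fun c _ => ?_
    rw [MeasureTheory.integral_const_mul, integral_complex_ofReal]
    have h1 : ∫ ζ : ℂ, tent l (x + ζ * ω - (c : ℂ)) = 1 := by
      rw [← D9_int_rot hl (x - (c : ℂ)) ω hω]
      refine MeasureTheory.integral_congr_ae (Filter.Eventually.of_forall fun ζ => ?_)
      simp only
      congr 1
      ring
    rw [h1, dot_zero_left, neg_zero, e_zero]
    simp
  · intro c _
    have h1 : Integrable (fun ζ : ℂ => tent l (x + ζ * ω - (c : ℂ))) := by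
      have := D9_integrable hl (x - (c : ℂ)) ω hω
      refine this.congr (Filter.Eventually.of_forall fun ζ => ?_)
      simp only
      congr 1
      ring
    exact h1.ofReal.const_mul _

end H29I
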