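import Pool.Agent.Lib.H29I.D0b
import Pool.Agent.Lib.H29I.D9

/-!
# Chunk D10: the local Fourier coefficients for the smoothed tent kernel

`F (sm l r) N f α = avg r (avg r (F (tent l) N f α))`: by linearity (`avg_sum`, `avg_const_mul`,
`avg_translate`, `avg_ofReal`). Then `avg_lip` for the function `avg r (F (tent l) N f α)`, which is
continuous and bounded by `1`, and `avg_norm_le`, and `‖y - y'‖ ≤ |re| + |im|`.
-/

open Finset Complex MeasureTheory

namespace H29I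

theorem D10_F_avg {k : ℂ → ℝ} (hk : Continuous k) (r : ℝ) (N : ℕ) (f : G → ℂ) (α : ℂ) :
    F (avg r k) N f α = avg r (F k N f α) := by
  have h1 : F k N f α = fun Y => ∑ c ∈ box N, (f c * e (-dot α (c : ℂ))) *
      ((fun y : ℂ => ((k y : ℝ) : ℂ)) (Y - (c : ℂ))) := rfl
  rw [h1, avg_sum (box N) (g := fun c Y => (f c * e (-dot α (c : ℂ))) *
      ((fun y : ℂ => ((k y : ℝ) : ℂ)) (Y - (c : ℂ))))]
  · funext Y
    unfold F
    refine Finset.sum_congr rfl fun c _ => ?_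
    rw [avg_const_mul (f c * e (-dot α (c : ℂ)))
      (fun Y => (fun y : ℂ => ((k y : ℝ) : ℂ)) (Y - (c : ℂ))),
      avg_translate (c : ℂ) (fun y : ℂ => ((k y : ℝ) : ℂ)), avg_ofReal k]
  · intro c _
    exact continuous_const.mul (Complex.continuous_ofReal.comp
      (hk.comp (continuous_id.sub continuous_const)))

theorem F_sm {l N : ℕ} {r : ℝ} (hr : 0 < r) (f : G → ℂ) (α : ℂ) :
    F (sm l r) N f α = avg r (avg r (F (tent l) N f α)) := by
  unfold sm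
  rw [D10_F_avg (continuous_avg hr (continuous_tent l)), D10_F_avg (continuous_tent l)]

theorem norm_Fsm_le {l N : ℕ} (hl : 1 ≤ l) {r : ℝ} (hr : 0 < r) {f : G → ℂ}
    (hf : ∀ x, ‖f x‖ ≤ 1) (α Y : ℂ) : ‖F (sm l r) N f α Y‖ ≤ 1 := by
  rw [F_sm hr]
  exact avg_norm_le hr (fun y => avg_norm_le hr (fun z => norm_Ftent_le hl hf α z) y) Y

theorem lip_Fsm {l N : ℕ} (hl : 1 ≤ l) {r : ℝ} (hr : 0 < r) {f : G → ℂ}
    (hf : ∀ x, ‖f x‖ ≤ 1) (α Y Y' : ℂ) :
    ‖F (sm l r) N f α Y - F (sm l r) N f α Y'‖ ≤ 8 / r * ‖Y - Y'‖ := by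
  rw [F_sm hr]
  exact avg_lip hr (continuous_avg hr (continuous_Ftent l N f α))
    (fun y => avg_norm_le hr (fun z => norm_Ftent_le hl hf α z) y) Y Y'

theorem continuous_Fsm (l N : ℕ) {r : ℝ} (hr : 0 < r) (f : G → ℂ) (α : ℂ) :
    Continuous (F (sm l r) N f α) := by
  rw [F_sm hr]
  exact continuous_avg hr (continuous_avg hr (continuous_Ftent l N f α))

theorem lip_Fsm_lattice {l N : ℕ} (hl : 1 ≤ l) {r : ℝ} (hr : 0 < r) {f : G → ℂ}
    (hf : ∀ x, ‖f x‖ ≤ 1) (α : ℂ) (x y : G) :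
    ‖F (sm l r) N f α (x : ℂ) - F (sm l r) N f α (y : ℂ)‖ ≤
      8 / r * (|((x.re : ℝ) - y.re)| + |((x.im : ℝ) - y.im)|) := by
  refine (lip_Fsm hl hr hf α (x : ℂ) (y : ℂ)).trans ?_
  refine mul_le_mul_of_nonneg_left ?_ (by positivity)
  have := Complex.norm_le_abs_re_add_abs_im ((x : ℂ) - (y : ℂ))
  rwa [Complex.sub_re, Complex.sub_im, coe_re, coe_re, coe_im, coe_im] at this

end H29I
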