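import Pool.Agent.Lib.H29I.D1

/-!
# Chunk D1b: the tent kernel on the lattice

`tent l y = lam l y.re * lam l y.im / l²`; products of the facts of D1. For `sum_tent_lip`:
`|lam a lam b - lam a' lam b'| ≤ lam b |lam a - lam a'| + lam a' |lam b - lam b'|`, which gives
`(4 |re (y - y')| + 4 |im (y - y')|) / l ≤ 8 ‖y - y'‖ / l`. (A finite set of lattice points is
contained in a product of two finite sets of integers.) `integral_tent`: Fubini
(`Complex.measurableEquivRealProd`, `MeasureTheory.integral_prod_mul`).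
-/

open Finset Complex

namespace H29I

theorem tent_nonneg (l : ℕ) (y : ℂ) : 0 ≤ tent l y := by
  rw [tent_eq]
  exact div_nonneg (mul_nonneg (lam_nonneg _ _) (lam_nonneg _ _)) (by positivity)

theorem tent_neg (l : ℕ) (y : ℂ) : tent l (-y) = tent l y := by
  rw [tent_eq, tent_eq, Complex.neg_re, Complex.neg_im, lam_neg, lam_neg]

theorem tent_eq_zero {l : ℕ} (hl : 1 ≤ l) {y : ℂ} (h : (l : ℝ) ≤ |y.re| ∨ (l : ℝ) ≤ |y.im|) :
    tent l y = 0 := by
  rw [tent_eq]
  rcases h with h | h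
  · rw [lam_eq_zero hl h, zero_mul, zero_div]
  · rw [lam_eq_zero hl h, mul_zero, zero_div]

theorem continuous_tent (l : ℕ) : Continuous (tent l) := by
  have h : tent l = fun y => lam l y.re * lam l y.im / (l : ℝ) ^ 2 := funext (tent_eq l)
  rw [h]
  exact (((continuous_lam l).comp Complex.continuous_re).mul
    ((continuous_lam l).comp Complex.continuous_im)).div_const _

theorem D1b_sum_box (R : ℕ) (a b : ℤ → ℝ) : ∑ t ∈ box R, a t.re * b t.im =
    (∑ n ∈ Icc (-(R : ℤ)) R, a n) * ∑ n ∈ Icc (-(R : ℤ)) R, b n := by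
  rw [box, Finset.sum_map, Finset.sum_product, Finset.sum_mul_sum]
  rfl

theorem D1b_sum_le (s : Finset G) {a b : ℤ → ℝ} (ha : ∀ n, 0 ≤ a n) (hb : ∀ n, 0 ≤ b n) {A B : ℝ}
    (hA : ∀ s : Finset ℤ, ∑ n ∈ s, a n ≤ A) (hB : ∀ s : Finset ℤ, ∑ n ∈ s, b n ≤ B) :
    ∑ t ∈ s, a t.re * b t.im ≤ A * B := by
  classical
  have hA0 : 0 ≤ A := by simpa using hA ∅
  have h1 : ∑ t ∈ s, a t.re * b t.im =
      ∑ p ∈ s.image (fun t => (t.re, t.im)), a p.1 * b p.2 := by
    rw [Finset.sum_image]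
    intro x _ y _ hxy
    rw [Zsqrtd.ext_iff]
    simpa using hxy
  rw [h1]
  have h2 : s.image (fun t : G => (t.re, t.im)) ⊆ (s.image (fun t => t.re)) ×ˢ
      (s.image (fun t => t.im)) := by
    intro p hp
    rw [Finset.mem_image] at hp
    obtain ⟨t, ht, rfl⟩ := hp
    exact Finset.mem_product.mpr ⟨Finset.mem_image_of_mem _ ht, Finset.mem_image_of_mem _ ht⟩
  calc ∑ p ∈ s.image (fun t => (t.re, t.im)), a p.1 * b p.2
      ≤ ∑ p ∈ (s.image (fun t => t.re)) ×ˢ (s.image (fun t => t.im)), a p.1 * b p.2 :=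
        Finset.sum_le_sum_of_subset_of_nonneg h2 (fun p _ _ => mul_nonneg (ha _) (hb _))
    _ = (∑ n ∈ s.image (fun t => t.re), a n) * ∑ n ∈ s.image (fun t => t.im), b n := by
        rw [Finset.sum_product, Finset.sum_mul_sum]
    _ ≤ A * B := mul_le_mul (hA _) (hB _) (Finset.sum_nonneg fun n _ => hb n) hA0

theorem sum_tent {l R : ℕ} (hl : 1 ≤ l) {y : ℂ} (h1 : |y.re| + l ≤ R) (h2 : |y.im| + l ≤ R) :
    ∑ t ∈ box R, tent l ((t : ℂ) - y) = 1 := by
  have hl0 : (0 : ℝ) < l := by exact_mod_cast hl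
  have e1 : ∑ t ∈ box R, tent l ((t : ℂ) - y) =
      (∑ t ∈ box R, lam l ((t.re : ℝ) - y.re) * lam l ((t.im : ℝ) - y.im)) / (l : ℝ) ^ 2 := by
    rw [Finset.sum_div]
    refine Finset.sum_congr rfl fun t _ => ?_
    rw [tent_eq, Complex.sub_re, Complex.sub_im, coe_re, coe_im]
  rw [e1, D1b_sum_box R (fun n => lam l ((n : ℝ) - y.re)) (fun n => lam l ((n : ℝ) - y.im)),
    sum_lam hl h1, sum_lam hl h2]
  field_simp

theorem sum_tent_le {l : ℕ} (hl : 1 ≤ l) (y : ℂ) (s : Finset G) :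
    ∑ t ∈ s, tent l ((t : ℂ) - y) ≤ 1 := by
  have hl0 : (0 : ℝ) < l := by exact_mod_cast hl
  have e1 : ∑ t ∈ s, tent l ((t : ℂ) - y) =
      (∑ t ∈ s, lam l ((t.re : ℝ) - y.re) * lam l ((t.im : ℝ) - y.im)) / (l : ℝ) ^ 2 := by
    rw [Finset.sum_div]
    refine Finset.sum_congr rfl fun t _ => ?_
    rw [tent_eq, Complex.sub_re, Complex.sub_im, coe_re, coe_im]
  rw [e1, div_le_one (by positivity)]
  have := D1b_sum_le s (a := fun n => lam l ((n : ℝ) - y.re)) (b := fun n => lam l ((n : ℝ) - y.im))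
    (fun n => lam_nonneg _ _) (fun n => lam_nonneg _ _) (sum_lam_le hl y.re) (sum_lam_le hl y.im)
  calc _ ≤ (l : ℝ) * l := this
    _ = (l : ℝ) ^ 2 := by ring

theorem sum_tent_var_re {l : ℕ} (hl : 1 ≤ l) (y : ℂ) (s : Finset G) :
    ∑ t ∈ s, |tent l ((t : ℂ) + 1 - y) - tent l ((t : ℂ) - y)| ≤ 2 / l := by
  have hl0 : (0 : ℝ) < l := by exact_mod_cast hl
  have e1 : ∑ t ∈ s, |tent l ((t : ℂ) + 1 - y) - tent l ((t : ℂ) - y)| =
      (∑ t ∈ s, |lam l ((t.re : ℝ) + 1 - y.re) - lam l ((t.re : ℝ) - y.re)| *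
        lam l ((t.im : ℝ) - y.im)) / (l : ℝ) ^ 2 := by
    rw [Finset.sum_div]
    refine Finset.sum_congr rfl fun t _ => ?_
    rw [tent_eq, tent_eq]
    simp only [Complex.sub_re, Complex.sub_im, Complex.add_re, Complex.add_im, Complex.one_re,
      Complex.one_im, coe_re, coe_im, add_zero]
    rw [← sub_div, ← sub_mul, abs_div, abs_mul, abs_of_nonneg (lam_nonneg l ((t.im : ℝ) - y.im)),
      abs_of_nonneg (by positivity : (0 : ℝ) ≤ (l : ℝ) ^ 2)]
  rw [e1, div_le_iff₀ (by positivity)]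
  have := D1b_sum_le s (a := fun n => |lam l ((n : ℝ) + 1 - y.re) - lam l ((n : ℝ) - y.re)|)
    (b := fun n => lam l ((n : ℝ) - y.im))
    (fun n => abs_nonneg _) (fun n => lam_nonneg _ _) (sum_lam_var hl y.re) (sum_lam_le hl y.im)
  calc _ ≤ (2 : ℝ) * l := this
    _ = 2 / l * (l : ℝ) ^ 2 := by field_simp

theorem sum_tent_var_im {l : ℕ} (hl : 1 ≤ l) (y : ℂ) (s : Finset G) :
    ∑ t ∈ s, |tent l ((t : ℂ) + Complex.I - y) - tent l ((t : ℂ) - y)| ≤ 2 / l := by
  have hl0 : (0 : ℝ) < l := by exact_mod_cast hl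
  have e1 : ∑ t ∈ s, |tent l ((t : ℂ) + Complex.I - y) - tent l ((t : ℂ) - y)| =
      (∑ t ∈ s, lam l ((t.re : ℝ) - y.re) *
        |lam l ((t.im : ℝ) + 1 - y.im) - lam l ((t.im : ℝ) - y.im)|) / (l : ℝ) ^ 2 := by
    rw [Finset.sum_div]
    refine Finset.sum_congr rfl fun t _ => ?_
    rw [tent_eq, tent_eq]
    simp only [Complex.sub_re, Complex.sub_im, Complex.add_re, Complex.add_im, Complex.I_re,
      Complex.I_im, coe_re, coe_im, add_zero]
    rw [← sub_div, ← mul_sub, abs_div, abs_mul, abs_of_nonneg (lam_nonneg l ((t.re : ℝ) - y.re)),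
      abs_of_nonneg (by positivity : (0 : ℝ) ≤ (l : ℝ) ^ 2)]
  rw [e1, div_le_iff₀ (by positivity)]
  have := D1b_sum_le s (a := fun n => lam l ((n : ℝ) - y.re))
    (b := fun n => |lam l ((n : ℝ) + 1 - y.im) - lam l ((n : ℝ) - y.im)|)
    (fun n => lam_nonneg _ _) (fun n => abs_nonneg _) (sum_lam_le hl y.re) (sum_lam_var hl y.im)
  calc _ ≤ (l : ℝ) * 2 := this
    _ = 2 / l * (l : ℝ) ^ 2 := by field_simp

theorem sum_tent_lip {l : ℕ} (hl : 1 ≤ l) (y y' : ℂ) (s : Finset G) :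
    ∑ t ∈ s, |tent l ((t : ℂ) - y) - tent l ((t : ℂ) - y')| ≤ 8 / l * ‖y - y'‖ := by
  have hl0 : (0 : ℝ) < l := by exact_mod_cast hl
  have e1 : ∑ t ∈ s, |tent l ((t : ℂ) - y) - tent l ((t : ℂ) - y')| ≤
      (∑ t ∈ s, |lam l ((t.re : ℝ) - y.re) - lam l ((t.re : ℝ) - y'.re)| *
        lam l ((t.im : ℝ) - y.im) +
      ∑ t ∈ s, lam l ((t.re : ℝ) - y'.re) *
        |lam l ((t.im : ℝ) - y.im) - lam l ((t.im : ℝ) - y'.im)|) / (l : ℝ) ^ 2 := by
    rw [← Finset.sum_add_distrib, Finset.sum_div]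
    refine Finset.sum_le_sum fun t _ => ?_
    rw [tent_eq, tent_eq]
    simp only [Complex.sub_re, Complex.sub_im, coe_re, coe_im]
    rw [← sub_div, abs_div, abs_of_nonneg (by positivity : (0 : ℝ) ≤ (l : ℝ) ^ 2)]
    refine div_le_div_of_nonneg_right ?_ (by positivity)
    have h1 := lam_nonneg l ((t.im : ℝ) - y.im)
    have h2 := lam_nonneg l ((t.re : ℝ) - y'.re)
    calc |lam l ((t.re : ℝ) - y.re) * lam l ((t.im : ℝ) - y.im) -
          lam l ((t.re : ℝ) - y'.re) * lam l ((t.im : ℝ) - y'.im)|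
        = |(lam l ((t.re : ℝ) - y.re) - lam l ((t.re : ℝ) - y'.re)) * lam l ((t.im : ℝ) - y.im) +
          lam l ((t.re : ℝ) - y'.re) *
            (lam l ((t.im : ℝ) - y.im) - lam l ((t.im : ℝ) - y'.im))| := by
          congr 1; ring
      _ ≤ _ := by
          refine (abs_add_le _ _).trans (le_of_eq ?_)
          rw [abs_mul, abs_mul, abs_of_nonneg h1, abs_of_nonneg h2]
  refine e1.trans ?_
  have g1 := D1b_sum_le s (a := fun n => |lam l ((n : ℝ) - y.re) - lam l ((n : ℝ) - y'.re)|)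
    (b := fun n => lam l ((n : ℝ) - y.im))
    (fun n => abs_nonneg _) (fun n => lam_nonneg _ _) (sum_lam_lip hl y.re y'.re)
    (sum_lam_le hl y.im)
  have g2 := D1b_sum_le s (a := fun n => lam l ((n : ℝ) - y'.re))
    (b := fun n => |lam l ((n : ℝ) - y.im) - lam l ((n : ℝ) - y'.im)|)
    (fun n => lam_nonneg _ _) (fun n => abs_nonneg _) (sum_lam_le hl y'.re)
    (sum_lam_lip hl y.im y'.im)
  have h1 : |y.re - y'.re| ≤ ‖y - y'‖ := by
    have := Complex.abs_re_le_norm (y - y')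
    rwa [Complex.sub_re] at this
  have h2 : |y.im - y'.im| ≤ ‖y - y'‖ := by
    have := Complex.abs_im_le_norm (y - y')
    rwa [Complex.sub_im] at this
  rw [div_le_iff₀ (by positivity)]
  refine (add_le_add g1 g2).trans ?_
  have e2 : 8 / (l : ℝ) * ‖y - y'‖ * (l : ℝ) ^ 2 = 8 * ‖y - y'‖ * l := by field_simp
  rw [e2]
  nlinarith

theorem integral_tent {l : ℕ} (hl : 1 ≤ l) : ∫ y : ℂ, tent l y = 1 := by
  have hl0 : (0 : ℝ) < l := by exact_mod_cast hl
  have h1 := Complex.volume_preserving_equiv_real_prod.integral_comp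
    Complex.measurableEquivRealProd.measurableEmbedding
    (fun p : ℝ × ℝ => lam l p.1 * lam l p.2 / (l : ℝ) ^ 2)
  have h2 : ∫ y : ℂ, tent l y = ∫ p : ℝ × ℝ, lam l p.1 * lam l p.2 / (l : ℝ) ^ 2 := by
    rw [← h1]
    refine MeasureTheory.integral_congr_ae (Filter.Eventually.of_forall fun y => ?_)
    simp only [tent_eq]
    rfl
  rw [h2, MeasureTheory.integral_div]
  have h3 : ∫ p : ℝ × ℝ, lam l p.1 * lam l p.2 = (∫ x, lam l x) * ∫ y, lam l y :=
    MeasureTheory.integral_prod_mul (lam l) (lam l)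
  rw [h3, integral_lam hl]
  field_simp

/-- The tent kernel satisfies `LK`. The first moment is at most `2 l`, since `|re t|, |im t| ≤ l` on
the support. -/
theorem lk_tent {l : ℕ} (hl : 1 ≤ l) : LK (tent l) l (2 / l) (2 * l) := by
  have hs : ∑ t ∈ box l, tent l (t : ℂ) = 1 := by
    have := sum_tent (R := l) hl (y := 0) (by simp) (by simp)
    simpa using this
  refine ⟨tent_nonneg l, ?_, hs, ?_, ?_, ?_⟩
  · intro t ht
    apply tent_eq_zero hl
    rw [coe_re, coe_im]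
    rw [mem_box, not_and_or] at ht
    rcases ht with h | h
    · left
      have : (l : ℤ) ≤ |t.re| := (not_le.mp h).le
      exact_mod_cast this
    · right
      have : (l : ℤ) ≤ |t.im| := (not_le.mp h).le
      exact_mod_cast this
  · have := sum_tent_var_re hl 0 (box (l + 1))
    simp only [sub_zero] at this
    refine le_trans (le_of_eq ?_) this
    refine Finset.sum_congr rfl fun t _ => ?_
    rw [GaussianInt.toComplex_add, GaussianInt.toComplex_one]
  · have := sum_tent_var_im hl 0 (box (l + 1))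
    simp only [sub_zero] at this
    refine le_trans (le_of_eq ?_) this
    refine Finset.sum_congr rfl fun t _ => ?_
    have hgi : ((gi : G) : ℂ) = Complex.I := by
      apply Complex.ext
      · rw [coe_re]; simp [gi]
      · rw [coe_im]; simp [gi]
    rw [GaussianInt.toComplex_add, hgi]
  · calc ∑ t ∈ box l, (|(t.re : ℝ)| + |(t.im : ℝ)|) * tent l (t : ℂ)
        ≤ ∑ t ∈ box l, (2 * (l : ℝ)) * tent l (t : ℂ) := by
          refine Finset.sum_le_sum fun t ht => ?_
          refine mul_le_mul_of_nonneg_right ?_ (tent_nonneg _ _)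
          rw [mem_box] at ht
          have h1 : |(t.re : ℝ)| ≤ l := by exact_mod_cast ht.1
          have h2 : |(t.im : ℝ)| ≤ l := by exact_mod_cast ht.2
          linarith
      _ = 2 * (l : ℝ) := by rw [← Finset.mul_sum, hs, mul_one]

end H29I
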