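import Pool.Agent.Lib.H29I.D0
import Pool.Agent.Lib.H29I.D1b

/-!
# Chunk D2: the smoothed tent kernel satisfies `LK`

`sm l r y` is the average of `tent l (y - τ - τ')` over `|τ|, |τ'| < r`. All the sums over `t` in
`LK` may be interchanged with the averages (`avg_sum`, with `g t = fun y => tent l ((t : ℂ) - y)`
after a reflection, or directly), and are bounded by the corresponding facts of D1b for
`y = τ + τ'`, `‖y‖ < 2 r`. Support: `tent l (t - τ - τ') ≠ 0` implies
`|re t| < l + 2 r ≤ R`. The moment: on the support of `tent l (t - τ - τ')` one has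
`|re t| + |im t| ≤ 2 l + 2 ‖τ + τ'‖ ≤ 2 l + 4 r`.
-/

open Finset Complex MeasureTheory

namespace H29I

/-- The properties which are preserved by averages. -/
structure D2P (k : ℂ → ℝ) (v L : ℝ) : Prop where
  cont : Continuous k
  nonneg : ∀ y, 0 ≤ k y
  supp : ∀ y : ℂ, L ≤ |y.re| ∨ L ≤ |y.im| → k y = 0
  sum_eq : ∀ (R : ℕ) (y : ℂ), |y.re| + L ≤ R → |y.im| + L ≤ R → ∑ t ∈ box R, k ((t : ℂ) - y) = 1
  var : ∀ d : ℂ, (d = 1 ∨ d = Complex.I) → ∀ (y : ℂ) (s : Finset G),
    ∑ t ∈ s, |k ((t : ℂ) + d - y) - k ((t : ℂ) - y)| ≤ v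

theorem D2_tent {l : ℕ} (hl : 1 ≤ l) : D2P (tent l) (2 / l) l where
  cont := continuous_tent l
  nonneg := tent_nonneg l
  supp := fun _ h => tent_eq_zero hl h
  sum_eq := fun _ _ h1 h2 => sum_tent hl h1 h2
  var := by
    rintro d (rfl | rfl) y s
    · exact sum_tent_var_re hl y s
    · exact sum_tent_var_im hl y s

theorem D2_int {g : ℂ → ℝ} (hg : Continuous g) (r : ℝ) : IntegrableOn g (Metric.ball (0 : ℂ) r) :=
  (hg.continuousOn.integrableOn_compact (isCompact_closedBall 0 r)).mono_set
    Metric.ball_subset_closedBall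

theorem D2_const {r : ℝ} (hr : 0 < r) (v : ℝ) :
    (Real.pi * r ^ 2)⁻¹ * ∫ _τ in Metric.ball (0 : ℂ) r, v = v := by
  have := avg_const (E := ℝ) hr v 0
  simpa only [avg, smul_eq_mul] using this

theorem D2_avg_le {r : ℝ} (hr : 0 < r) {g : ℂ → ℝ} (hg : Continuous g) {v : ℝ}
    (h : ∀ τ ∈ Metric.ball (0 : ℂ) r, g τ ≤ v) :
    (Real.pi * r ^ 2)⁻¹ * ∫ τ in Metric.ball (0 : ℂ) r, g τ ≤ v := by
  have h1 : ∫ τ in Metric.ball (0 : ℂ) r, g τ ≤ ∫ _τ in Metric.ball (0 : ℂ) r, v :=
    setIntegral_mono_on (D2_int hg r) (D2_int continuous_const r) measurableSet_ball h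
  calc _ ≤ (Real.pi * r ^ 2)⁻¹ * ∫ _τ in Metric.ball (0 : ℂ) r, v :=
        mul_le_mul_of_nonneg_left h1 (by positivity)
    _ = v := D2_const hr v

theorem D2_avg {k : ℂ → ℝ} {v L r : ℝ} (hr : 0 < r) (h : D2P k v L) :
    D2P (avg r k) v (L + r) where
  cont := continuous_avg hr h.cont
  nonneg := by
    intro y
    unfold avg
    rw [smul_eq_mul]
    exact mul_nonneg (by positivity) (integral_nonneg fun τ => h.nonneg _)
  supp := by
    intro y hy
    unfold avg
    rw [setIntegral_eq_zero_of_forall_eq_zero, smul_zero]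
    intro τ hτ
    rw [mem_ball_zero_iff] at hτ
    have h1 := Complex.abs_re_le_norm τ
    have h2 := Complex.abs_im_le_norm τ
    apply h.supp
    rw [Complex.sub_re, Complex.sub_im]
    rcases hy with hy | hy
    · left
      have := abs_sub_abs_le_abs_sub y.re τ.re
      linarith
    · right
      have := abs_sub_abs_le_abs_sub y.im τ.im
      linarith
  sum_eq := by
    intro R y h1 h2
    unfold avg
    simp only [smul_eq_mul]
    rw [← Finset.mul_sum, ← integral_finsetSum]
    · have e1 : ∫ τ in Metric.ball (0 : ℂ) r, ∑ t ∈ box R, k ((t : ℂ) - y - τ) =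
          ∫ _τ in Metric.ball (0 : ℂ) r, (1 : ℝ) := by
        refine setIntegral_congr_fun measurableSet_ball fun τ hτ => ?_
        rw [mem_ball_zero_iff] at hτ
        have h3 := Complex.abs_re_le_norm τ
        have h4 := Complex.abs_im_le_norm τ
        have h5 := h.sum_eq R (y + τ) (by
          rw [Complex.add_re]
          have := abs_add_le y.re τ.re
          linarith) (by
          rw [Complex.add_im]
          have := abs_add_le y.im τ.im
          linarith)
        simp only [sub_sub]
        exact h5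
      rw [e1, D2_const hr]
    · intro t _
      exact D2_int (h.cont.comp (continuous_const.sub continuous_id)) r
  var := by
    intro d hd y s
    have h1 : ∀ t ∈ s, |avg r k ((t : ℂ) + d - y) - avg r k ((t : ℂ) - y)| ≤
        (Real.pi * r ^ 2)⁻¹ * ∫ τ in Metric.ball (0 : ℂ) r,
          |k ((t : ℂ) + d - y - τ) - k ((t : ℂ) - y - τ)| := by
      intro t _
      unfold avg
      rw [smul_eq_mul, smul_eq_mul, ← mul_sub, ← integral_sub, abs_mul,
        abs_of_nonneg (by positivity : 0 ≤ (Real.pi * r ^ 2)⁻¹)]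
      · refine mul_le_mul_of_nonneg_left ?_ (by positivity)
        exact abs_integral_le_integral_abs
      · exact D2_int (h.cont.comp (continuous_const.sub continuous_id)) r
      · exact D2_int (h.cont.comp (continuous_const.sub continuous_id)) r
    refine (Finset.sum_le_sum h1).trans ?_
    rw [← Finset.mul_sum, ← integral_finsetSum]
    · refine D2_avg_le hr ?_ fun τ _ => ?_
      · refine continuous_finsetSum _ fun t _ => ?_
        exact ((h.cont.comp (continuous_const.sub continuous_id)).sub
          (h.cont.comp (continuous_const.sub continuous_id))).abs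
      · have := h.var d hd (y + τ) s
        simp only [sub_sub]
        exact this
    · intro t _
      exact D2_int ((h.cont.comp (continuous_const.sub continuous_id)).sub
          (h.cont.comp (continuous_const.sub continuous_id))).abs r

theorem lk_sm {l R : ℕ} {r : ℝ} (hl : 1 ≤ l) (hr : 0 < r) (hR : (l : ℝ) + 2 * r ≤ R) :
    LK (sm l r) R (2 / l) (2 * l + 4 * r) := by
  have h := D2_avg hr (D2_avg hr (D2_tent hl))
  have hs : ∑ t ∈ box R, sm l r (t : ℂ) = 1 := by
    have := h.sum_eq R 0 (by simp; linarith) (by simp; linarith)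
    simp only [sub_zero] at this
    exact this
  refine ⟨h.nonneg, ?_, hs, ?_, ?_, ?_⟩
  · intro t ht
    apply h.supp
    rw [coe_re, coe_im]
    rw [mem_box, not_and_or] at ht
    rcases ht with h1 | h1
    · left
      have : (R : ℤ) ≤ |t.re| := (not_le.mp h1).le
      have h2 : (R : ℝ) ≤ |(t.re : ℝ)| := by exact_mod_cast this
      linarith
    · right
      have : (R : ℤ) ≤ |t.im| := (not_le.mp h1).le
      have h2 : (R : ℝ) ≤ |(t.im : ℝ)| := by exact_mod_cast this
      linarith
  · have := h.var 1 (Or.inl rfl) 0 (box (R + 1))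
    simp only [sub_zero] at this
    refine le_trans (le_of_eq ?_) this
    refine Finset.sum_congr rfl fun t _ => ?_
    rw [GaussianInt.toComplex_add, GaussianInt.toComplex_one]
    rfl
  · have := h.var Complex.I (Or.inr rfl) 0 (box (R + 1))
    simp only [sub_zero] at this
    refine le_trans (le_of_eq ?_) this
    refine Finset.sum_congr rfl fun t _ => ?_
    have hgi : ((gi : G) : ℂ) = Complex.I := by
      apply Complex.ext
      · rw [coe_re]; simp [gi]
      · rw [coe_im]; simp [gi]
    rw [GaussianInt.toComplex_add, hgi]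
    rfl
  · calc ∑ t ∈ box R, (|(t.re : ℝ)| + |(t.im : ℝ)|) * sm l r (t : ℂ)
        ≤ ∑ t ∈ box R, (2 * (l : ℝ) + 4 * r) * sm l r (t : ℂ) := by
          refine Finset.sum_le_sum fun t _ => ?_
          by_cases h1 : sm l r (t : ℂ) = 0
          · rw [h1, mul_zero, mul_zero]
          refine mul_le_mul_of_nonneg_right ?_ (h.nonneg _)
          have h2 : ¬ ((l : ℝ) + r + r ≤ |(t : ℂ).re| ∨ (l : ℝ) + r + r ≤ |(t : ℂ).im|) :=
            fun h3 => h1 (h.supp _ h3)
          rw [not_or, not_le, not_le, coe_re, coe_im] at h2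
          linarith [h2.1, h2.2]
      _ = 2 * (l : ℝ) + 4 * r := by rw [← Finset.mul_sum, hs, mul_one]

end H29I
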