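import Pool.Agent.Lib.H29I.A2

/-!
# Chunk D3: the Fourier transform of a kernel

`khat k R ε = ∑_t k t e (-dot ε t)`. `khat_norm_le`: `k ≥ 0`, `∑ k t = 1`. `khat_near`:
`|1 - e (-s)| ≤ 2 π |s|`, `|dot ε t| ≤ ‖ε‖ (|re t| + |im t|)` and the first moment. `khat_far_re`:
summation by parts (`sbp_re`, for `ξ = -ε`; `dz (-s) = dz s`).
-/

open Finset Complex

namespace H29I

theorem LK.v_nonneg {k : ℂ → ℝ} {R : ℕ} {v μ : ℝ} (h : LK k R v μ) : 0 ≤ v :=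
  (Finset.sum_nonneg fun _ _ => abs_nonneg _).trans h.var_re

theorem LK.mu_nonneg {k : ℂ → ℝ} {R : ℕ} {v μ : ℝ} (h : LK k R v μ) : 0 ≤ μ :=
  (Finset.sum_nonneg fun _ _ => mul_nonneg (add_nonneg (abs_nonneg _) (abs_nonneg _))
    (h.nonneg _)).trans h.mom

theorem khat_norm_le {k : ℂ → ℝ} {R : ℕ} {v μ : ℝ} (h : LK k R v μ) (ε : ℂ) :
    ‖khat k R ε‖ ≤ 1 := by
  unfold khat
  refine (norm_sum_le _ _).trans ?_
  rw [← h.sum_eq]
  refine le_of_eq (Finset.sum_congr rfl fun t _ => ?_)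
  rw [norm_mul, norm_e, mul_one, Complex.norm_real, Real.norm_eq_abs, abs_of_nonneg (h.nonneg _)]

theorem khat_near {k : ℂ → ℝ} {R : ℕ} {v μ : ℝ} (h : LK k R v μ) (ε : ℂ) :
    ‖1 - khat k R ε‖ ≤ 2 * Real.pi * ‖ε‖ * μ := by
  have h1 : (1 : ℂ) - khat k R ε =
      ∑ t ∈ box R, (k (t : ℂ) : ℂ) * (1 - e (-dot ε (t : ℂ))) := by
    unfold khat
    have h2 : (1 : ℂ) = ∑ t ∈ box R, (k (t : ℂ) : ℂ) := by
      rw [← Complex.ofReal_sum, h.sum_eq, Complex.ofReal_one]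
    conv_lhs => rw [h2]
    rw [← Finset.sum_sub_distrib]
    refine Finset.sum_congr rfl fun t _ => ?_
    ring
  rw [h1]
  have hπ := Real.pi_pos
  calc ‖∑ t ∈ box R, (k (t : ℂ) : ℂ) * (1 - e (-dot ε (t : ℂ)))‖
      ≤ ∑ t ∈ box R, ‖(k (t : ℂ) : ℂ) * (1 - e (-dot ε (t : ℂ)))‖ := norm_sum_le _ _
    _ ≤ ∑ t ∈ box R, 2 * Real.pi * ‖ε‖ * ((|(t.re : ℝ)| + |(t.im : ℝ)|) * k (t : ℂ)) := by
        refine Finset.sum_le_sum fun t _ => ?_
        rw [norm_mul, Complex.norm_real, Real.norm_eq_abs, abs_of_nonneg (h.nonneg _)]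
        have h2 := norm_one_sub_e_le (-dot ε (t : ℂ))
        have h3 := abs_dot_le ε (t : ℂ)
        rw [coe_re, coe_im] at h3
        rw [abs_neg] at h2
        have h4 : ‖1 - e (-dot ε (t : ℂ))‖ ≤
            2 * Real.pi * (‖ε‖ * (|(t.re : ℝ)| + |(t.im : ℝ)|)) :=
          h2.trans (mul_le_mul_of_nonneg_left h3 (by positivity))
        calc k (t : ℂ) * ‖1 - e (-dot ε (t : ℂ))‖
            ≤ k (t : ℂ) * (2 * Real.pi * (‖ε‖ * (|(t.re : ℝ)| + |(t.im : ℝ)|))) :=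
              mul_le_mul_of_nonneg_left h4 (h.nonneg _)
          _ = _ := by ring
    _ = 2 * Real.pi * ‖ε‖ * ∑ t ∈ box R, (|(t.re : ℝ)| + |(t.im : ℝ)|) * k (t : ℂ) := by
        rw [Finset.mul_sum]
    _ ≤ 2 * Real.pi * ‖ε‖ * μ := mul_le_mul_of_nonneg_left h.mom (by positivity)

theorem khat_far {k : ℂ → ℝ} {R : ℕ} {v μ : ℝ} (h : LK k R v μ) (ε : ℂ) :
    4 * max (dz ε.re) (dz ε.im) * ‖khat k R ε‖ ≤ v := by
  have hS : Supp (fun t : G => (k (t : ℂ) : ℂ)) R := fun x hx => by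
    show (k (x : ℂ) : ℂ) = 0
    rw [h.supp x hx, Complex.ofReal_zero]
  have h1 := sbp_re hS (-ε)
  have h2 := sbp_im hS (-ε)
  have h3 : ∑ t ∈ box R, (k (t : ℂ) : ℂ) * e (dot (-ε) (t : ℂ)) = khat k R ε := by
    unfold khat
    refine Finset.sum_congr rfl fun t _ => ?_
    rw [dot_neg_left]
  have h4 : ∀ a b : G, ‖(k (a : ℂ) : ℂ) - (k (b : ℂ) : ℂ)‖ = |k (a : ℂ) - k (b : ℂ)| := by
    intro a b
    rw [← Complex.ofReal_sub, Complex.norm_real, Real.norm_eq_abs]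
  rw [h3, Complex.neg_re, dz_neg] at h1
  rw [h3, Complex.neg_im, dz_neg] at h2
  simp only [h4] at h1 h2
  have h5 := h1.trans h.var_re
  have h6 := h2.trans h.var_im
  rcases max_choice (dz ε.re) (dz ε.im) with h7 | h7 <;> rw [h7]
  · exact h5
  · exact h6

/-- Periodicity. -/
theorem khat_sub_isG (k : ℂ → ℝ) (R : ℕ) (ε : ℂ) {g : ℂ} (hg : IsG g) :
    khat k R (ε - g) = khat k R ε := by
  unfold khat
  refine Finset.sum_congr rfl fun t _ => ?_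
  rw [dot_sub_left, show -(dot ε (t : ℂ) - dot g (t : ℂ)) = -dot ε (t : ℂ) + dot g (t : ℂ) by ring,
    e_add, e_dot_eq_one hg, mul_one]

end H29I
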