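import Pool.Agent.Lib.H29I.D3
import Pool.Agent.Lib.H29I.D4

/-!
# Chunk D5: the multiplier of the structured part

`mult k R Q β = ∑_{α ∈ Rat Q} khat k R (β - α)`. Put `m α = max (dz (β - α).re) (dz (β - α).im)`.
By `spacing` and the subadditivity of `dz` there is at most one `α ∈ Rat Q` with
`m α < 1 / (2 Q²)`; for the other `α` (at most `Q³` of them) `‖khat k R (β - α)‖ ≤ v Q² / 2` by
`khat_far`.

`mult_norm_le`: the exceptional `α` contributes at most `1`.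

`mult_near`: let `α₀` be the representative in `Rat Q` of `g / q` (`exists_rep`). Then
`khat k R (β - α₀) = khat k R (β - g / q)` by periodicity, and this is `1` up to `2 π ε μ`
(`khat_near`). For `α ≠ α₀`, `m α ≥ 1 / Q² - ‖β - g / q‖ ≥ 1 / (2 Q²)`.
-/

open Finset Complex

namespace H29I

/-- distance to the Gaussian integers -/
noncomputable def D5_M (x : ℂ) : ℝ := max (dz x.re) (dz x.im)

theorem D5_M_sub (x y : ℂ) : D5_M (x - y) ≤ D5_M x + D5_M y := by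
  unfold D5_M
  refine max_le ?_ ?_
  · rw [Complex.sub_re]
    exact (dz_sub_le _ _).trans (add_le_add (le_max_left _ _) (le_max_left _ _))
  · rw [Complex.sub_im]
    exact (dz_sub_le _ _).trans (add_le_add (le_max_right _ _) (le_max_right _ _))

theorem D5_M_add_isG (x : ℂ) {g : ℂ} (hg : IsG g) : D5_M (x + g) = D5_M x := by
  obtain ⟨⟨m, hm⟩, ⟨n, hn⟩⟩ := isG_iff.1 hg
  unfold D5_M
  rw [Complex.add_re, Complex.add_im, ← hm, ← hn, dz_add_int, dz_add_int]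

theorem D5_M_le (x : ℂ) : D5_M x ≤ ‖x‖ := by
  unfold D5_M
  exact max_le ((dz_le_abs _).trans (Complex.abs_re_le_norm x))
    ((dz_le_abs _).trans (Complex.abs_im_le_norm x))

theorem D5_far {k : ℂ → ℝ} {R Q : ℕ} {v μ : ℝ} (h : LK k R v μ) (hQ : 1 ≤ Q) {x : ℂ}
    (hx : 1 / (2 * (Q : ℝ) ^ 2) ≤ D5_M x) : ‖khat k R x‖ ≤ v * (Q : ℝ) ^ 2 / 2 := by
  have hQ0 : (0 : ℝ) < Q := by exact_mod_cast hQ
  have h1 : 4 * D5_M x * ‖khat k R x‖ ≤ v := khat_far h x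
  have h2 : 4 * (1 / (2 * (Q : ℝ) ^ 2)) * ‖khat k R x‖ ≤ 4 * D5_M x * ‖khat k R x‖ :=
    mul_le_mul_of_nonneg_right (by linarith) (norm_nonneg _)
  have h3 : 4 * (1 / (2 * (Q : ℝ) ^ 2)) * ‖khat k R x‖ ≤ v := h2.trans h1
  have h4 : 4 * (1 / (2 * (Q : ℝ) ^ 2)) * ‖khat k R x‖ = 2 * ‖khat k R x‖ / (Q : ℝ) ^ 2 := by
    field_simp
    ring
  rw [h4, div_le_iff₀ (by positivity)] at h3
  linarith

open Classical in
theorem D5_sum {k : ℂ → ℝ} {R Q : ℕ} {v μ : ℝ} (h : LK k R v μ) {β : ℂ} (s : Finset ℂ)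
    (hs : s ⊆ Rat Q) (hQ : 1 ≤ Q) (hfar : ∀ α ∈ s, 1 / (2 * (Q : ℝ) ^ 2) ≤ D5_M (β - α)) :
    ‖∑ α ∈ s, khat k R (β - α)‖ ≤ (Q : ℝ) ^ 5 * v := by
  have hv := h.v_nonneg
  calc ‖∑ α ∈ s, khat k R (β - α)‖ ≤ ∑ α ∈ s, ‖khat k R (β - α)‖ := norm_sum_le _ _
    _ ≤ ∑ α ∈ s, v * (Q : ℝ) ^ 2 / 2 := Finset.sum_le_sum fun α hα => D5_far h hQ (hfar α hα)
    _ = (s.card : ℝ) * (v * (Q : ℝ) ^ 2 / 2) := by rw [Finset.sum_const, nsmul_eq_mul]
    _ ≤ (Q : ℝ) ^ 3 * (v * (Q : ℝ) ^ 2 / 2) := by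
        refine mul_le_mul_of_nonneg_right ?_ (by positivity)
        refine le_trans ?_ (card_Rat_le Q)
        exact_mod_cast Finset.card_le_card hs
    _ = (Q : ℝ) ^ 5 * v / 2 := by ring
    _ ≤ (Q : ℝ) ^ 5 * v := by
        have : 0 ≤ (Q : ℝ) ^ 5 * v := by positivity
        linarith

theorem mult_norm_le {k : ℂ → ℝ} {R Q : ℕ} {v μ : ℝ} (h : LK k R v μ) (β : ℂ) :
    ‖mult k R Q β‖ ≤ 1 + (Q : ℝ) ^ 5 * v := by
  classical
  have hv := h.v_nonneg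
  rcases Nat.eq_zero_or_pos Q with hQ | hQ
  · have h1 : Rat Q = ∅ := by
      rw [hQ]
      unfold Rat
      simp
    unfold mult
    rw [h1, Finset.sum_empty, norm_zero]
    positivity
  have hQ0 : (0 : ℝ) < Q := by exact_mod_cast hQ
  unfold mult
  by_cases hex : ∃ α₀ ∈ Rat Q, D5_M (β - α₀) < 1 / (2 * (Q : ℝ) ^ 2)
  · obtain ⟨α₀, hα₀, hlt⟩ := hex
    rw [← Finset.add_sum_erase _ _ hα₀]
    refine (norm_add_le _ _).trans (add_le_add (khat_norm_le h _) ?_)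
    refine D5_sum h _ (Finset.erase_subset _ _) hQ fun α hα => ?_
    obtain ⟨hne, hα⟩ := Finset.mem_erase.1 hα
    have h1 : 1 / (Q : ℝ) ^ 2 ≤ D5_M (α - α₀) := spacing hα hα₀ hne
    have h2 : D5_M (α - α₀) ≤ D5_M (β - α₀) + D5_M (β - α) := by
      have := D5_M_sub (β - α₀) (β - α)
      rwa [show (β - α₀) - (β - α) = α - α₀ by ring] at this
    have h3 : 1 / (Q : ℝ) ^ 2 = 1 / (2 * (Q : ℝ) ^ 2) + 1 / (2 * (Q : ℝ) ^ 2) := by
      field_simp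
      norm_num
    linarith
  · push Not at hex
    refine (D5_sum h _ (Finset.Subset.refl _) hQ hex).trans ?_
    linarith

theorem mult_near {k : ℂ → ℝ} {R Q q : ℕ} {v μ ε : ℝ} (h : LK k R v μ) (hq : 1 ≤ q) (hqQ : q ≤ Q)
    {β : ℂ} {g : G} (hβ : ‖β - (g : ℂ) / q‖ ≤ ε) (hε : 2 * (Q : ℝ) ^ 2 * ε ≤ 1) :
    ‖1 - mult k R Q β‖ ≤ 2 * Real.pi * ε * μ + (Q : ℝ) ^ 5 * v := by
  classical
  have hv := h.v_nonneg
  have hμ := h.mu_nonneg
  have hQ : 1 ≤ Q := hq.trans hqQ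
  have hQ0 : (0 : ℝ) < Q := by exact_mod_cast hQ
  have hqc : (q : ℂ) ≠ 0 := by
    have : q ≠ 0 := by omega
    exact_mod_cast this
  have hg : IsG ((q : ℂ) * ((g : ℂ) / q)) := by
    rw [mul_div_cancel₀ _ hqc]
    exact isG_coe g
  obtain ⟨α₀, hα₀, hG, -⟩ := exists_rep hq hqQ hg
  have h1 : khat k R (β - α₀) = khat k R (β - (g : ℂ) / q) := by
    have h2 : β - α₀ = (β - (g : ℂ) / q) - (-((g : ℂ) / q - α₀)) := by ring
    rw [h2, khat_sub_isG k R _ (isG_neg hG)]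
  have h2 : ‖1 - khat k R (β - α₀)‖ ≤ 2 * Real.pi * ε * μ := by
    rw [h1]
    refine (khat_near h _).trans ?_
    have hπ := Real.pi_pos
    gcongr
  unfold mult
  rw [← Finset.add_sum_erase _ _ hα₀, ← sub_sub]
  refine (norm_sub_le _ _).trans (add_le_add h2 ?_)
  refine D5_sum h _ (Finset.erase_subset _ _) hQ fun α hα => ?_
  obtain ⟨hne, hα⟩ := Finset.mem_erase.1 hα
  have h3 : 1 / (Q : ℝ) ^ 2 ≤ D5_M (α - α₀) := spacing hα hα₀ hne
  have h4 : D5_M (α - α₀) ≤ D5_M (β - α₀) + D5_M (β - α) := by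
    have := D5_M_sub (β - α₀) (β - α)
    rwa [show (β - α₀) - (β - α) = α - α₀ by ring] at this
  have h5 : D5_M (β - α₀) ≤ ε := by
    have h6 : β - α₀ = (β - (g : ℂ) / q) + ((g : ℂ) / q - α₀) := by ring
    rw [h6, D5_M_add_isG _ hG]
    exact (D5_M_le _).trans hβ
  have h6 : ε ≤ 1 / (2 * (Q : ℝ) ^ 2) := by
    rw [le_div_iff₀ (by positivity)]
    linarith
  have h7 : 1 / (Q : ℝ) ^ 2 = 1 / (2 * (Q : ℝ) ^ 2) + 1 / (2 * (Q : ℝ) ^ 2) := by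
    field_simp
    norm_num
  linarith

end H29I
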