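import Pool.Agent.Lib.H29I.A4

/-!
# Chunk D6: the Fourier transform of the structured part

`S k N Q f x = ∑_{α ∈ Rat Q} ∑_{c ∈ box N} f c e (dot α (x - c)) k (x - c)`. If `x ∉ box (N + R)` and
`c ∈ box N`, then `x - c ∉ box R`. For the Fourier transform write `x = c + t`; for `c ∈ box N` the
terms with `t ∉ box R` vanish and `t ∈ box R` implies `x ∈ box (N + R)`.
-/

open Finset Complex

namespace H29I

theorem supp_S {k : ℂ → ℝ} {N R Q : ℕ} (hk : ∀ t : G, t ∉ box R → k (t : ℂ) = 0) (f : G → ℂ) :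
    Supp (S k N Q f) (N + R) := by
  intro x hx
  unfold S
  refine Finset.sum_eq_zero fun α _ => ?_
  have h1 : F k N f α (x : ℂ) = 0 := by
    unfold F
    refine Finset.sum_eq_zero fun c hc => ?_
    have h2 : x - c ∉ box R := by
      intro h3
      apply hx
      rw [mem_box] at hc h3 ⊢
      rw [Zsqrtd.re_sub, Zsqrtd.im_sub] at h3
      obtain ⟨h4, h5⟩ := hc
      obtain ⟨h6, h7⟩ := h3
      rw [abs_le] at h4 h5 h6 h7 ⊢
      rw [abs_le]
      push_cast
      constructor <;> constructor <;> linarith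
    have h3 := hk _ h2
    rw [GaussianInt.toComplex_sub] at h3
    rw [h3, Complex.ofReal_zero, mul_zero]
  rw [h1, mul_zero]

theorem FT_S {k : ℂ → ℝ} {N R Q : ℕ} (hk : ∀ t : G, t ∉ box R → k (t : ℂ) = 0) (f : G → ℂ)
    (ξ : ℂ) : FT (N + R) (S k N Q f) ξ = FT N f ξ * mult k R Q ξ := by
  have hinner : ∀ (α : ℂ) (c : G), c ∈ box N →
      ∑ x ∈ box (N + R), (k ((x : ℂ) - (c : ℂ)) : ℂ) * e (dot (α - ξ) ((x : ℂ) - (c : ℂ))) =
        khat k R (ξ - α) := by
    intro α c hc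
    have h1 : -c ∈ box N := by
      rw [mem_box] at hc ⊢
      rw [Zsqrtd.re_neg, Zsqrtd.im_neg, abs_neg, abs_neg]
      exact hc
    have h2 := sum_box_shift (R := R) (D := N) (R' := N + R) (by omega)
      (H := fun t : G => (k (t : ℂ) : ℂ) * e (dot (α - ξ) (t : ℂ)))
      (fun t ht => by
        show (k (t : ℂ) : ℂ) * e (dot (α - ξ) (t : ℂ)) = 0
        rw [hk t ht, Complex.ofReal_zero, zero_mul]) h1
    unfold khat
    calc ∑ x ∈ box (N + R), (k ((x : ℂ) - (c : ℂ)) : ℂ) * e (dot (α - ξ) ((x : ℂ) - (c : ℂ)))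
        = ∑ x ∈ box (N + R), (k ((x + -c : G) : ℂ) : ℂ) * e (dot (α - ξ) ((x + -c : G) : ℂ)) := by
          refine Finset.sum_congr rfl fun x _ => ?_
          rw [← sub_eq_add_neg, GaussianInt.toComplex_sub]
      _ = ∑ t ∈ box R, (k (t : ℂ) : ℂ) * e (dot (α - ξ) (t : ℂ)) := h2
      _ = _ := by
          refine Finset.sum_congr rfl fun t _ => ?_
          rw [← dot_neg_left, neg_sub]
  have h1 : FT (N + R) (S k N Q f) ξ = ∑ x ∈ box (N + R), ∑ α ∈ Rat Q, ∑ c ∈ box N,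
      f c * e (-dot ξ (c : ℂ)) *
        ((k ((x : ℂ) - (c : ℂ)) : ℂ) * e (dot (α - ξ) ((x : ℂ) - (c : ℂ)))) := by
    unfold FT S F
    refine Finset.sum_congr rfl fun x _ => ?_
    rw [Finset.sum_mul]
    refine Finset.sum_congr rfl fun α _ => ?_
    rw [Finset.mul_sum, Finset.sum_mul]
    refine Finset.sum_congr rfl fun c _ => ?_
    have h2 : e (dot (α - ξ) ((x : ℂ) - (c : ℂ))) * e (-dot ξ (c : ℂ)) =
        e (dot α (x : ℂ)) * e (-dot α (c : ℂ)) * e (-dot ξ (x : ℂ)) := by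
      rw [← e_add, ← e_add, ← e_add]
      congr 1
      rw [dot_sub_left, dot_sub_right, dot_sub_right]
      ring
    linear_combination -(f c * (k ((x : ℂ) - (c : ℂ)) : ℂ)) * h2
  rw [h1, Finset.sum_comm]
  have h2 : ∀ α ∈ Rat Q, ∑ x ∈ box (N + R), ∑ c ∈ box N,
      f c * e (-dot ξ (c : ℂ)) *
        ((k ((x : ℂ) - (c : ℂ)) : ℂ) * e (dot (α - ξ) ((x : ℂ) - (c : ℂ)))) =
      FT N f ξ * khat k R (ξ - α) := by
    intro α _
    rw [Finset.sum_comm]
    unfold FT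
    rw [Finset.sum_mul]
    refine Finset.sum_congr rfl fun c hc => ?_
    rw [← Finset.mul_sum, hinner α c hc]
  rw [Finset.sum_congr rfl h2, ← Finset.mul_sum]
  rfl

theorem supp_sub_S {k : ℂ → ℝ} {N R Q : ℕ} (hk : ∀ t : G, t ∉ box R → k (t : ℂ) = 0) {f : G → ℂ}
    (hf : Supp f N) : Supp (fun x => f x - S k N Q f x) (N + R) := by
  intro x hx
  show f x - S k N Q f x = 0
  rw [supp_S hk f x hx, hf x (fun h => hx (box_mono (Nat.le_add_right N R) h)), sub_zero]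

theorem FT_sub_S {k : ℂ → ℝ} {N R Q : ℕ} (hk : ∀ t : G, t ∉ box R → k (t : ℂ) = 0) {f : G → ℂ}
    (hf : Supp f N) (ξ : ℂ) :
    FT (N + R) (fun x => f x - S k N Q f x) ξ = FT N f ξ * (1 - mult k R Q ξ) := by
  have h1 : FT (N + R) (fun x => f x - S k N Q f x) ξ =
      FT (N + R) f ξ - FT (N + R) (S k N Q f) ξ := by
    unfold FT
    rw [← Finset.sum_sub_distrib]
    refine Finset.sum_congr rfl fun x _ => ?_
    ring
  rw [h1, FT_S hk, FT_eq (Nat.le_add_right N R) hf]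
  ring

end H29I
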