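import Pool.Agent.Lib.H29I.D5
import Pool.Agent.Lib.H29I.D6

/-!
# Chunk D7: the `ℓ²` norm of `f - S f`

`parseval` for both functions with `M = 2 (N + R) + 1`, `FT_sub_S`, and `‖1 - mult‖ ≤ 3` by
`mult_norm_le`.
-/

open Finset Complex

namespace H29I

theorem l2_sub_S_le {k : ℂ → ℝ} {N R Q : ℕ} {v μ : ℝ} (h : LK k R v μ)
    (hv : (Q : ℝ) ^ 5 * v ≤ 1) {f : G → ℂ} (hf : Supp f N) :
    l2 (N + R) (fun x => f x - S k N Q f x) ≤ 3 * l2 N f := by
  have h1 : l2 (N + R) (fun x => f x - S k N Q f x) ^ 2 ≤ (3 * l2 N f) ^ 2 := by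
    rw [← l2_eq (Nat.le_add_right N R) hf, mul_pow, l2_sq, l2_sq,
      parseval (le_refl (2 * (N + R) + 1)), parseval (le_refl (2 * (N + R) + 1)) f]
    have h2 : ∀ p ∈ range (2 * (N + R) + 1) ×ˢ range (2 * (N + R) + 1),
        ‖FT (N + R) (fun x => f x - S k N Q f x) (fr (2 * (N + R) + 1) p)‖ ^ 2 ≤
          3 ^ 2 * ‖FT (N + R) f (fr (2 * (N + R) + 1) p)‖ ^ 2 := by
      intro p _
      rw [FT_sub_S h.supp hf, ← FT_eq (Nat.le_add_right N R) hf, norm_mul, mul_pow, mul_comm]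
      gcongr
      have h3 := mult_norm_le (Q := Q) h (fr (2 * (N + R) + 1) p)
      calc _ ≤ ‖(1 : ℂ)‖ + ‖mult k R Q (fr (2 * (N + R) + 1) p)‖ := norm_sub_le _ _
        _ ≤ 3 := by rw [norm_one]; linarith
    calc _ ≤ (((2 * (N + R) + 1 : ℕ) : ℝ) ^ 2)⁻¹ * ∑ p ∈ range (2 * (N + R) + 1) ×ˢ range (2 * (N + R) + 1),
          3 ^ 2 * ‖FT (N + R) f (fr (2 * (N + R) + 1) p)‖ ^ 2 := by
          apply mul_le_mul_of_nonneg_left (Finset.sum_le_sum h2)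
          positivity
      _ = _ := by rw [← Finset.mul_sum]; ring
  exact (pow_le_pow_iff_left₀ (l2_nonneg _ _) (by have := l2_nonneg N f; positivity) two_ne_zero).1 h1

end H29I
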