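import Pool.Agent.Lib.H29I.D3

/-!
# Chunk D8: the local Fourier coefficients on the lattice

`F k N f α x = ∑_{c ∈ box N} f c e (-dot α c) k (x - c)`, `‖f c‖ ≤ 1`. The sum of `k (x - c)` over
any finite set of `c` is at most `∑_t k t = 1`. `lip_F`: by telescoping it is enough to consider
`y = x + 1` and `y = x + gi`, and then the difference is at most
`∑_c |k (x + 1 - c) - k (x - c)| ≤ ∑_{t ∈ box (R + 1)} |k (t + 1) - k t| ≤ v` (the terms with
`t ∉ box (R + 1)` vanish).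
-/

open Finset Complex

namespace H29I

theorem D8_shift {R : ℕ} {φ : G → ℝ} (h0 : ∀ t, 0 ≤ φ t) (hφ : ∀ t, t ∉ box R → φ t = 0) (x : G)
    (s : Finset G) : ∑ c ∈ s, φ (x - c) ≤ ∑ t ∈ box R, φ t := by
  classical
  have h1 : ∑ c ∈ s, φ (x - c) = ∑ t ∈ s.image (fun c => x - c), φ t := by
    rw [Finset.sum_image]
    intro a _ b _ hab
    exact sub_right_injective hab
  rw [h1]
  calc ∑ t ∈ s.image (fun c => x - c), φ t ≤ ∑ t ∈ s.image (fun c => x - c) ∪ box R, φ t :=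
        Finset.sum_le_sum_of_subset_of_nonneg Finset.subset_union_left (fun t _ _ => h0 t)
    _ = ∑ t ∈ box R, φ t := by
        symm
        exact Finset.sum_subset Finset.subset_union_right (fun t _ ht => hφ t ht)

theorem D8_tel {h : G → ℂ} {d : G} {v : ℝ} (hd : ∀ x, ‖h (x + d) - h x‖ ≤ v) (x : G) (n : ℕ) :
    ‖h (x + n * d) - h x‖ ≤ n * v := by
  induction n with
  | zero => simp
  | succ n ih =>
    have e1 : x + ((n + 1 : ℕ) : G) * d = (x + n * d) + d := by push_cast; ring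
    rw [e1]
    calc ‖h (x + n * d + d) - h x‖ = ‖(h (x + n * d + d) - h (x + n * d)) + (h (x + n * d) - h x)‖ := by
          congr 1; ring
      _ ≤ v + n * v := (norm_add_le _ _).trans (add_le_add (hd _) ih)
      _ = ((n + 1 : ℕ) : ℝ) * v := by push_cast; ring

theorem D8_telZ {h : G → ℂ} {d : G} {v : ℝ} (hd : ∀ x, ‖h (x + d) - h x‖ ≤ v) (x : G) (n : ℤ) :
    ‖h (x + n * d) - h x‖ ≤ |(n : ℝ)| * v := by
  rcases le_total 0 n with hn | hn
  · obtain ⟨m, rfl⟩ := Int.eq_ofNat_of_zero_le hn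
    have := D8_tel hd x m
    simpa using this
  · obtain ⟨m, hm⟩ := Int.eq_ofNat_of_zero_le (neg_nonneg.mpr hn)
    have h1 : n = -(m : ℤ) := by linarith
    subst h1
    have := D8_tel hd (x + ((-(m : ℤ) : ℤ) : G) * d) m
    have e1 : x + ((-(m : ℤ) : ℤ) : G) * d + m * d = x := by push_cast; ring
    rw [e1] at this
    rw [norm_sub_rev]
    simpa using this

theorem D8_lip {h : G → ℂ} {v : ℝ} (h1 : ∀ x, ‖h (x + 1) - h x‖ ≤ v)
    (h2 : ∀ x, ‖h (x + gi) - h x‖ ≤ v) (x y : G) :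
    ‖h x - h y‖ ≤ v * (|((x.re : ℝ) - y.re)| + |((x.im : ℝ) - y.im)|) := by
  have e1 : x = (y + ((x.re - y.re : ℤ) : G) * 1) + ((x.im - y.im : ℤ) : G) * gi := by
    rw [Zsqrtd.ext_iff]
    constructor <;> simp [gi]
  have h3 := D8_telZ h1 y (x.re - y.re)
  have h4 := D8_telZ h2 (y + ((x.re - y.re : ℤ) : G) * 1) (x.im - y.im)
  rw [← e1] at h4
  calc ‖h x - h y‖ = ‖(h x - h (y + ((x.re - y.re : ℤ) : G) * 1)) +
        (h (y + ((x.re - y.re : ℤ) : G) * 1) - h y)‖ := by congr 1; ring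
    _ ≤ |((x.im - y.im : ℤ) : ℝ)| * v + |((x.re - y.re : ℤ) : ℝ)| * v :=
        (norm_add_le _ _).trans (add_le_add h4 h3)
    _ = _ := by push_cast; ring

theorem norm_F_le {k : ℂ → ℝ} {N R : ℕ} {v μ : ℝ} (h : LK k R v μ) {f : G → ℂ}
    (hf : ∀ x, ‖f x‖ ≤ 1) (α : ℂ) (x : G) : ‖F k N f α (x : ℂ)‖ ≤ 1 := by
  unfold F
  calc ‖∑ c ∈ box N, f c * e (-dot α (c : ℂ)) * (k ((x : ℂ) - (c : ℂ)) : ℂ)‖
      ≤ ∑ c ∈ box N, ‖f c * e (-dot α (c : ℂ)) * (k ((x : ℂ) - (c : ℂ)) : ℂ)‖ := norm_sum_le _ _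
    _ ≤ ∑ c ∈ box N, k ((x - c : G) : ℂ) := by
        refine Finset.sum_le_sum fun c _ => ?_
        rw [norm_mul, norm_mul, norm_e, mul_one, Complex.norm_real, Real.norm_eq_abs,
          ← GaussianInt.toComplex_sub, abs_of_nonneg (h.nonneg _)]
        exact mul_le_of_le_one_left (h.nonneg _) (hf c)
    _ ≤ ∑ t ∈ box R, k (t : ℂ) := D8_shift (φ := fun t : G => k (t : ℂ)) (fun t => h.nonneg _)
        h.supp x (box N)
    _ = 1 := h.sum_eq

theorem D8_step {k : ℂ → ℝ} {N R : ℕ} {v : ℝ} {d : G} (hd : d ∈ box 1)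
    (hs : ∀ t : G, t ∉ box R → k (t : ℂ) = 0)
    (hv : ∑ t ∈ box (R + 1), |k (((t + d : G)) : ℂ) - k (t : ℂ)| ≤ v) {f : G → ℂ}
    (hf : ∀ x, ‖f x‖ ≤ 1) (α : ℂ) (x : G) :
    ‖F k N f α ((x + d : G) : ℂ) - F k N f α (x : ℂ)‖ ≤ v := by
  unfold F
  rw [← Finset.sum_sub_distrib]
  have hz : ∀ t : G, t ∉ box (R + 1) → |k (((t + d : G)) : ℂ) - k (t : ℂ)| = 0 := by
    intro t ht
    have h1 : t ∉ box R := fun h => ht (box_mono (Nat.le_succ R) h)
    have h2 : t + d ∉ box R := by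
      intro h
      apply ht
      rw [mem_box] at h hd ⊢
      rw [Zsqrtd.re_add, Zsqrtd.im_add] at h
      have e1 : t.re = (t.re + d.re) - d.re := by ring
      have e2 : t.im = (t.im + d.im) - d.im := by ring
      constructor
      · rw [e1]
        refine (abs_sub _ _).trans ?_
        push_cast at hd ⊢
        linarith [h.1, hd.1]
      · rw [e2]
        refine (abs_sub _ _).trans ?_
        push_cast at hd ⊢
        linarith [h.2, hd.2]
    rw [hs t h1, hs _ h2, sub_zero, abs_zero]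
  calc ‖∑ c ∈ box N, (f c * e (-dot α (c : ℂ)) * (k (((x + d : G) : ℂ) - (c : ℂ)) : ℂ) -
        f c * e (-dot α (c : ℂ)) * (k ((x : ℂ) - (c : ℂ)) : ℂ))‖
      ≤ ∑ c ∈ box N, ‖f c * e (-dot α (c : ℂ)) * (k (((x + d : G) : ℂ) - (c : ℂ)) : ℂ) -
        f c * e (-dot α (c : ℂ)) * (k ((x : ℂ) - (c : ℂ)) : ℂ)‖ := norm_sum_le _ _
    _ ≤ ∑ c ∈ box N, |k (((x - c) + d : G) : ℂ) - k ((x - c : G) : ℂ)| := by
        refine Finset.sum_le_sum fun c _ => ?_
        have e1 : f c * e (-dot α (c : ℂ)) * (k (((x + d : G) : ℂ) - (c : ℂ)) : ℂ) -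
            f c * e (-dot α (c : ℂ)) * (k ((x : ℂ) - (c : ℂ)) : ℂ) =
            f c * e (-dot α (c : ℂ)) * ((k (((x - c) + d : G) : ℂ) - k ((x - c : G) : ℂ) : ℝ) : ℂ) := by
          have e2 : ((x + d : G) : ℂ) - (c : ℂ) = (((x - c) + d : G) : ℂ) := by
            rw [← GaussianInt.toComplex_sub]
            congr 1
            ring
          rw [e2, ← GaussianInt.toComplex_sub]
          push_cast
          ring
        rw [e1, norm_mul, norm_mul, norm_e, mul_one, Complex.norm_real, Real.norm_eq_abs]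
        exact mul_le_of_le_one_left (abs_nonneg _) (hf c)
    _ ≤ ∑ t ∈ box (R + 1), |k (((t + d : G)) : ℂ) - k (t : ℂ)| :=
        D8_shift (φ := fun t : G => |k (((t + d : G)) : ℂ) - k (t : ℂ)|) (fun t => abs_nonneg _)
          hz x (box N)
    _ ≤ v := hv

theorem lip_F {k : ℂ → ℝ} {N R : ℕ} {v μ : ℝ} (h : LK k R v μ) {f : G → ℂ}
    (hf : ∀ x, ‖f x‖ ≤ 1) (α : ℂ) (x y : G) :
    ‖F k N f α (x : ℂ) - F k N f α (y : ℂ)‖ ≤
      v * (|((x.re : ℝ) - y.re)| + |((x.im : ℝ) - y.im)|) := by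
  refine D8_lip (h := fun x : G => F k N f α (x : ℂ)) (fun x => ?_) (fun x => ?_) x y
  · exact D8_step A2_one_mem h.supp h.var_re hf α x
  · exact D8_step A2_gi_mem h.supp h.var_im hf α x

end H29I
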