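import Mathlib

/-!
# H29I: isosceles-free subsets of the grid, definitions

See `PROOF.md` in this directory.
-/

open Finset Complex

namespace H29I

/-- Gaussian integers; they serve as points of the lattice `ℤ²` and as multipliers. -/
abbrev G := GaussianInt

/-- The unit `i`. -/
def gi : G := ⟨0, 1⟩

noncomputable section

/-- The box of all Gaussian integers with `|re| ≤ R` and `|im| ≤ R`. -/
def box (R : ℕ) : Finset G :=
  ((Icc (-(R : ℤ)) R) ×ˢ (Icc (-(R : ℤ)) R)).map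
    ⟨fun p => (⟨p.1, p.2⟩ : G), fun p q h => by
      rw [Zsqrtd.ext_iff] at h; exact Prod.ext h.1 h.2⟩

theorem mem_box {R : ℕ} {x : G} : x ∈ box R ↔ |x.re| ≤ R ∧ |x.im| ≤ R := by
  constructor
  · intro h
    simp only [box, mem_map, mem_product, mem_Icc, Function.Embedding.coeFn_mk] at h
    obtain ⟨p, ⟨⟨h1, h2⟩, h3, h4⟩, rfl⟩ := h
    exact ⟨abs_le.2 ⟨h1, h2⟩, abs_le.2 ⟨h3, h4⟩⟩
  · rintro ⟨h1, h2⟩
    simp only [box, mem_map, mem_product, mem_Icc, Function.Embedding.coeFn_mk]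
    exact ⟨(x.re, x.im), ⟨⟨(abs_le.1 h1).1, (abs_le.1 h1).2⟩, (abs_le.1 h2).1, (abs_le.1 h2).2⟩, rfl⟩

theorem card_box (R : ℕ) : (box R).card = (2 * R + 1) ^ 2 := by
  rw [box, card_map, card_product, Int.card_Icc, sq]
  congr 1 <;> omega

theorem box_mono {R S : ℕ} (h : R ≤ S) : box R ⊆ box S := by
  intro x hx
  rw [mem_box] at hx ⊢
  have : (R : ℤ) ≤ S := by exact_mod_cast h
  exact ⟨hx.1.trans this, hx.2.trans this⟩

/-- `e(t) = exp (2 π i t)`. -/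
noncomputable def e (t : ℝ) : ℂ := Complex.exp (2 * Real.pi * t * Complex.I)

/-- Real scalar product of two complex numbers. -/
def dot (a b : ℂ) : ℝ := a.re * b.re + a.im * b.im

/-- Distance to the nearest integer. -/
noncomputable def dz (t : ℝ) : ℝ := |t - round t|

/-- `z` is a Gaussian integer. -/
def IsG (z : ℂ) : Prop := ∃ g : G, (g : ℂ) = z

open Classical in
/-- The indicator function of the Gaussian integers. -/
noncomputable def ind (z : ℂ) : ℂ := if IsG z then 1 else 0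

/-- The rotation `w / conj w`. -/
noncomputable def rot (w : G) : ℂ := (w : ℂ) / (starRingEnd ℂ) (w : ℂ)

/-- The norm `re² + im²` as a natural number. -/
def nrm (z : G) : ℕ := (Zsqrtd.norm z).natAbs

/-! ### weights and the trilinear form -/

/-- Trapezoid: `1` for `|n| ≤ Z`, `0` for `|n| ≥ 2 Z`. -/
noncomputable def phi (Z : ℕ) (n : ℤ) : ℝ := min 1 (max 0 (2 - |(n : ℝ)| / Z))

noncomputable def psi (Z : ℕ) (z : G) : ℝ := phi Z z.re * phi Z z.im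

/-- Fourier transform of `psi`. -/
noncomputable def K (Z : ℕ) (ξ : ℂ) : ℂ := ∑ z ∈ box (2 * Z), (psi Z z : ℂ) * e (dot ξ (z : ℂ))

/-- Gaussian integers whose norm is a prime number in `(X, 2 X]`. -/
def W (X : ℕ) : Finset G :=
  (box (2 * X)).filter (fun w => (nrm w).Prime ∧ X < nrm w ∧ nrm w ≤ 2 * X)

/-- The trilinear form: the triples are `x`, `x + z w₁ w₂*`, `x + z w₁* w₂`. -/
noncomputable def T (X Z B : ℕ) (f₀ f₁ f₂ : G → ℂ) : ℂ :=
  ∑ w₁ ∈ W X, ∑ w₂ ∈ W X, ∑ z ∈ box (2 * Z), (psi Z z : ℂ) *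
    ∑ x ∈ box B, f₀ x * f₁ (x + z * (w₁ * star w₂)) *
      (starRingEnd ℂ) (f₂ (x + z * (star w₁ * w₂)))

/-- The Fourier multiplier of the form `T`. -/
noncomputable def wt (X Z : ℕ) (α β : ℂ) : ℂ :=
  ∑ w₁ ∈ W X, ∑ w₂ ∈ W X,
    K Z (α * (starRingEnd ℂ) ((w₁ * star w₂ : G) : ℂ) - β * ((w₁ * star w₂ : G) : ℂ))

/-- `f` vanishes outside the box of radius `R`. -/
def Supp (f : G → ℂ) (R : ℕ) : Prop := ∀ x, x ∉ box R → f x = 0

/-- `ℓ²` norm over a box. -/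
noncomputable def l2 (B : ℕ) (f : G → ℂ) : ℝ := Real.sqrt (∑ x ∈ box B, ‖f x‖ ^ 2)

/-- Fourier transform of a function supported in `box B`. -/
noncomputable def FT (B : ℕ) (f : G → ℂ) (ξ : ℂ) : ℂ := ∑ x ∈ box B, f x * e (-dot ξ (x : ℂ))

/-! ### rational frequencies and kernels -/

/-- The points `(a + b i) / q` with `1 ≤ q ≤ Q` and `0 ≤ a, b < q`. -/
noncomputable def Rat (Q : ℕ) : Finset ℂ :=
  (Icc 1 Q).biUnion (fun q => ((range q) ×ˢ (range q)).image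
    (fun p => ((p.1 : ℂ) + (p.2 : ℂ) * Complex.I) / (q : ℂ)))

/-- Properties of the restriction of a kernel `k : ℂ → ℝ` to the lattice: support in `box R`,
variation at most `v`, first moment at most `μ`. -/
structure LK (k : ℂ → ℝ) (R : ℕ) (v μ : ℝ) : Prop where
  nonneg : ∀ y, 0 ≤ k y
  supp : ∀ t : G, t ∉ box R → k (t : ℂ) = 0
  sum_eq : ∑ t ∈ box R, k (t : ℂ) = 1
  var_re : ∑ t ∈ box (R + 1), |k (((t + 1 : G)) : ℂ) - k (t : ℂ)| ≤ v
  var_im : ∑ t ∈ box (R + 1), |k (((t + gi : G)) : ℂ) - k (t : ℂ)| ≤ v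
  mom : ∑ t ∈ box R, (|(t.re : ℝ)| + |(t.im : ℝ)|) * k (t : ℂ) ≤ μ

/-- Fourier transform of the restriction of the kernel to the lattice. -/
noncomputable def khat (k : ℂ → ℝ) (R : ℕ) (ε : ℂ) : ℂ :=
  ∑ t ∈ box R, (k (t : ℂ) : ℂ) * e (-dot ε (t : ℂ))

/-- The multiplier of the structured part. -/
noncomputable def mult (k : ℂ → ℝ) (R Q : ℕ) (β : ℂ) : ℂ := ∑ α ∈ Rat Q, khat k R (β - α)

/-- The local Fourier coefficient of `f` at the frequency `α` near the point `Y`. -/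
noncomputable def F (k : ℂ → ℝ) (N : ℕ) (f : G → ℂ) (α Y : ℂ) : ℂ :=
  ∑ c ∈ box N, f c * e (-dot α (c : ℂ)) * (k (Y - (c : ℂ)) : ℂ)

/-- The structured part of `f` (supported in `box N`). -/
noncomputable def S (k : ℂ → ℝ) (N Q : ℕ) (f : G → ℂ) (x : G) : ℂ :=
  ∑ α ∈ Rat Q, e (dot α (x : ℂ)) * F k N f α (x : ℂ)

/-- The tent kernel with integral `1`. -/
noncomputable def tent (l : ℕ) (y : ℂ) : ℝ :=
  max 0 (1 - |y.re| / l) * max 0 (1 - |y.im| / l) / (l : ℝ) ^ 2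

/-- Average of `g` over the disc of radius `r` around `y`. -/
noncomputable def avg {E : Type*} [NormedAddCommGroup E] [NormedSpace ℝ E] (r : ℝ) (g : ℂ → E)
    (y : ℂ) : E :=
  (Real.pi * r ^ 2)⁻¹ • ∫ τ in Metric.ball (0 : ℂ) r, g (y - τ)

/-- The smoothed tent kernel. -/
noncomputable def sm (l : ℕ) (r : ℝ) : ℂ → ℝ := avg r (avg r (tent l))

/-! ### the main term -/

/-- The main term at the point `x`. -/
noncomputable def MainI (X Q Q' : ℕ) (Φ₁ Φ₂ : ℂ → ℂ → ℂ) (x : ℂ) : ℂ :=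
  ∑ w₁ ∈ W X, ∑ w₂ ∈ W X, ((nrm w₁ : ℂ) * (nrm w₂ : ℂ))⁻¹ * ∑ α ∈ Rat Q, ∑ β ∈ Rat Q',
    ind (α * (starRingEnd ℂ) ((w₁ * star w₂ : G) : ℂ) - β * ((w₁ * star w₂ : G) : ℂ)) *
      e (dot (α - β) x) *
      ∫ ζ : ℂ, Φ₁ α (x + ζ * rot w₁) * (starRingEnd ℂ) (Φ₂ β (x + ζ * rot w₂))

/-- The factors of the main term. -/
noncomputable def PhiE (X Q : ℕ) (Φ : ℂ → ℂ → ℂ) (x η ζ : ℂ) : ℂ :=
  ∑ w ∈ W X, (nrm w : ℂ)⁻¹ * ∑ α ∈ Rat Q,
    ind (α * (starRingEnd ℂ) (w : ℂ) - η * (w : ℂ)) * e (dot α x) * Φ α (x + ζ * rot w)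

end

end H29I
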