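import Pool.Agent.Lib.H29I.B2
import Pool.Agent.Lib.H29I.C4
import Pool.Agent.Lib.H29I.D5

/-!
# Chunk E0: the multiplier of the form is small away from the major arcs

Put `H = 2 X`, `L u = α u* - β u`, `Σ = ∑_{u ∈ box H} ‖K Z (L u)‖`; `‖wt X Z α β‖ ≤ 8 Σ` (`sum_W_le`).

Case 1: `Σ < κ Z² H²`. Then `‖wt‖ ≤ 8 κ Z² H² = 32 κ Z² X²` and `‖1 - mult‖ ≤ 2 + Q⁵ v ≤ 3`.

Case 2: `Σ ≥ κ Z² H²`. By `dio_two` there are `q ≤ 10⁷ / κ² ≤ Q` and `g, h` with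
`‖α - g / q‖, ‖β - h / q‖ ≤ ε := 10³⁵ / (κ¹¹ Z H)`, and `2 Q² ε ≤ 1`. By `mult_near`
`‖1 - mult‖ ≤ 2 π ε μ + κ ≤ (2 π / 100 + 1) κ ≤ 1.07 κ`, for both `α` and `β`; and
`‖wt‖ ≤ 8 · 25 Z² |box H| ≤ 1800 Z² H² = 7200 Z² X²`.
-/

open Finset Complex

namespace H29I

theorem wt_neg (X Z : ℕ) (α β : ℂ) : wt X Z (-α) (-β) = wt X Z α β := by
  unfold wt
  refine Finset.sum_congr rfl fun w₁ _ => Finset.sum_congr rfl fun w₂ _ => ?_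
  rw [← K_neg]
  congr 1
  ring

theorem norm_wt_le {X Z : ℕ} (α β : ℂ) : ‖wt X Z α β‖ ≤
    8 * ∑ u ∈ box (2 * X), ‖K Z (α * (starRingEnd ℂ) (u : ℂ) - β * (u : ℂ))‖ := by
  refine le_trans ?_ (sum_W_le (X := X)
    (φ := fun u => ‖K Z (α * (starRingEnd ℂ) (u : ℂ) - β * (u : ℂ))‖) (fun u => norm_nonneg _))
  unfold wt
  refine (norm_sum_le _ _).trans ?_
  refine Finset.sum_le_sum fun w₁ _ => ?_
  exact norm_sum_le _ _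

theorem E0_near {X Z Q R q : ℕ} {k : ℂ → ℝ} {v μ κ : ℝ} (hX : 1 ≤ X) (hZ : 1 ≤ Z) (hκ : 0 < κ)
    (hk : LK k R v μ) (hd : (Q : ℝ) ^ 5 * v ≤ κ) (he : μ * 10 ^ 37 ≤ κ ^ 12 * Z * (2 * X))
    (hf : 2 * (Q : ℝ) ^ 2 * 10 ^ 35 ≤ κ ^ 11 * Z * (2 * X)) {ξ : ℂ} {g : G} (hq : 1 ≤ q)
    (hqQ : q ≤ Q) (h : ‖ξ - (g : ℂ) / q‖ ≤ 10 ^ 35 / (κ ^ 11 * Z * (2 * X))) :
    ‖1 - mult k R Q ξ‖ ≤ 1.07 * κ := by
  have hX' : (0 : ℝ) < X := by exact_mod_cast hX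
  have hZ' : (0 : ℝ) < Z := by exact_mod_cast hZ
  have hD : 0 < κ ^ 11 * Z * (2 * X) := by positivity
  have hε : 2 * (Q : ℝ) ^ 2 * (10 ^ 35 / (κ ^ 11 * Z * (2 * X))) ≤ 1 := by
    rw [← mul_div_assoc, div_le_one hD]
    exact hf
  have h1 := mult_near hk hq hqQ h hε
  have h2 : 10 ^ 35 / (κ ^ 11 * Z * (2 * X)) * μ ≤ κ / 100 := by
    rw [div_mul_eq_mul_div, div_le_iff₀ hD]
    have : κ ^ 12 * Z * (2 * X) = κ * (κ ^ 11 * Z * (2 * X)) := by ring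
    rw [this] at he
    linarith
  have h3 : 2 * Real.pi * (10 ^ 35 / (κ ^ 11 * Z * (2 * X))) * μ ≤ 6.4 * (κ / 100) := by
    rw [mul_assoc]
    have hpi : 2 * Real.pi ≤ 6.4 := by linarith [Real.pi_lt_d2]
    have hpi0 : 0 ≤ 2 * Real.pi := by positivity
    calc 2 * Real.pi * (10 ^ 35 / (κ ^ 11 * Z * (2 * X)) * μ)
        ≤ 2 * Real.pi * (κ / 100) := mul_le_mul_of_nonneg_left h2 hpi0
      _ ≤ 6.4 * (κ / 100) := mul_le_mul_of_nonneg_right hpi (by positivity)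
  linarith

theorem sup_wt {X Z Q R : ℕ} {k : ℂ → ℝ} {v μ κ : ℝ} (hX : 1 ≤ X) (hZ : 1 ≤ Z) (hκ : 0 < κ)
    (hκ1 : κ ≤ 1) (hk : LK k R v μ) (ha : 10 ^ 16 ≤ κ ^ 5 * (2 * X))
    (hb : 10 ^ 7 * (2 * (X : ℝ)) ≤ κ ^ 2 * Z) (hc : 10 ^ 7 / κ ^ 2 ≤ Q)
    (hd : (Q : ℝ) ^ 5 * v ≤ κ) (he : μ * 10 ^ 37 ≤ κ ^ 12 * Z * (2 * X))
    (hf : 2 * (Q : ℝ) ^ 2 * 10 ^ 35 ≤ κ ^ 11 * Z * (2 * X)) (α β : ℂ) :
    ‖wt X Z α β‖ * ‖1 - mult k R Q α‖ ≤ 16000 * κ * (Z : ℝ) ^ 2 * (X : ℝ) ^ 2 ∧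
    ‖wt X Z α β‖ * ‖1 - mult k R Q β‖ ≤ 16000 * κ * (Z : ℝ) ^ 2 * (X : ℝ) ^ 2 := by
  have hX' : (1 : ℝ) ≤ X := by exact_mod_cast hX
  have hZ' : (1 : ℝ) ≤ Z := by exact_mod_cast hZ
  have hw := norm_wt_le (X := X) (Z := Z) α β
  set S' : ℝ := ∑ u ∈ box (2 * X), ‖K Z (α * (starRingEnd ℂ) (u : ℂ) - β * (u : ℂ))‖ with hS'
  have hY : 0 ≤ κ * (Z : ℝ) ^ 2 * (X : ℝ) ^ 2 := by positivity
  rcases lt_or_ge S' (κ * (Z : ℝ) ^ 2 * ((2 * X : ℕ) : ℝ) ^ 2) with hlt | hge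
  · have hw' : ‖wt X Z α β‖ ≤ 32 * (κ * (Z : ℝ) ^ 2 * (X : ℝ) ^ 2) := by
      push_cast at hlt
      nlinarith
    have key : ∀ ξ : ℂ, ‖wt X Z α β‖ * ‖1 - mult k R Q ξ‖ ≤
        16000 * κ * (Z : ℝ) ^ 2 * (X : ℝ) ^ 2 := by
      intro ξ
      have h3 : ‖1 - mult k R Q ξ‖ ≤ 3 := by
        have h1 := norm_sub_le (1 : ℂ) (mult k R Q ξ)
        have h2 := mult_norm_le hk (Q := Q) ξ
        rw [norm_one] at h1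
        linarith
      calc ‖wt X Z α β‖ * ‖1 - mult k R Q ξ‖
          ≤ 32 * (κ * (Z : ℝ) ^ 2 * (X : ℝ) ^ 2) * 3 :=
            mul_le_mul hw' h3 (norm_nonneg _) (by positivity)
        _ ≤ 16000 * κ * (Z : ℝ) ^ 2 * (X : ℝ) ^ 2 := by nlinarith
    exact ⟨key α, key β⟩
  · obtain ⟨q, g, h, hq, hqQ, h1, h2⟩ := dio_two (H := 2 * X) (Z := Z) (κ := κ) (α := α) (β := β)
      hκ hκ1 (by push_cast; exact ha) (by push_cast; exact hb) hge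
    have hqQ' : q ≤ Q := by
      have : (q : ℝ) ≤ Q := hqQ.trans hc
      exact_mod_cast this
    push_cast at h1 h2
    have hS2 : S' ≤ 25 * (Z : ℝ) ^ 2 * (4 * X + 1) ^ 2 := by
      calc S' ≤ ∑ u ∈ box (2 * X), 25 * (Z : ℝ) ^ 2 :=
            Finset.sum_le_sum fun u _ => norm_K_le hZ _
        _ = 25 * (Z : ℝ) ^ 2 * (4 * X + 1) ^ 2 := by
            rw [Finset.sum_const, nsmul_eq_mul, card_box]
            push_cast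
            ring
    have hw' : ‖wt X Z α β‖ ≤ 5000 * ((Z : ℝ) ^ 2 * (X : ℝ) ^ 2) := by
      have h5 : (4 * (X : ℝ) + 1) ^ 2 ≤ 25 * (X : ℝ) ^ 2 := by nlinarith
      have h6 : 25 * (Z : ℝ) ^ 2 * (4 * X + 1) ^ 2 ≤ 25 * (Z : ℝ) ^ 2 * (25 * (X : ℝ) ^ 2) :=
        mul_le_mul_of_nonneg_left h5 (by positivity)
      nlinarith
    have key : ∀ (ξ : ℂ) (g : G), ‖ξ - (g : ℂ) / q‖ ≤ 10 ^ 35 / (κ ^ 11 * Z * (2 * X)) →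
        ‖wt X Z α β‖ * ‖1 - mult k R Q ξ‖ ≤ 16000 * κ * (Z : ℝ) ^ 2 * (X : ℝ) ^ 2 := by
      intro ξ g hξ
      have h3 := E0_near hX hZ hκ hk hd he hf hq hqQ' hξ
      calc ‖wt X Z α β‖ * ‖1 - mult k R Q ξ‖
          ≤ 5000 * ((Z : ℝ) ^ 2 * (X : ℝ) ^ 2) * (1.07 * κ) :=
            mul_le_mul hw' h3 (norm_nonneg _) (by positivity)
        _ ≤ 16000 * κ * (Z : ℝ) ^ 2 * (X : ℝ) ^ 2 := by nlinarith
    exact ⟨key α g h1, key β h h2⟩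

end H29I
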