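import Pool.Agent.Lib.H29I.E1b

/-!
# Chunk E1c: the sum of the squares

Expand the square: with `p = (w₁, w₂)`, `p' = (w₁', w₂')`, `a = re (w₁ w₂*)`, `a' = re (w₁' w₂'*)`,
`im (w₁ w₂*) = im (w₁' w₂'*) = m`,
`∑_c g (c + i m z - a z) conj (g (c + i m z - a' z)) = ∑_{y ∈ box B} g y conj (g (y + (a - a') z))`
(`y = c + i m z - a z`; `g` is supported in `box B`, and `c ∈ box (B + 8 X Z)` if `y ∈ box B`). So
the left hand side is `∑_j c_j ∑_{y ∈ box B} g y conj (g (y + d_j))` with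
`J = {(p, p', z) : im equal, z ∈ box (2 Z)}`, `c_j = ψ z`, `d_j = (a - a') z`, and `two_fun_conj`
applies: `∑_j c_j e (-dot ξ d_j) = ∑_{(p, p')} K ((a - a') ξ)` (`K` is even), which is at most
`∑_{u, u' ∈ box (2 X), im u = im u'} 64 ‖K ((re u - re u') ξ)‖` (`card_rep`, twice: every `u` occurs
at most `8` times) `≤ 64 (4 X + 1)² ∑_{|n| ≤ 4 X} ‖K (n ξ)‖`, since for given `n` there are at most
`|box (2 X)|` such pairs `(u, u')` with `re u - re u' = n`.
-/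

open Finset Complex

namespace H29I

/-- One pair `(p, p')`. -/
theorem E1c_shift {X Z B : ℕ} {g : G → ℂ} (hg : Supp g B) {p p' : G × G} {z : G}
    (hp : p ∈ W X ×ˢ W X) (hz : z ∈ box (2 * Z)) {m : ℤ} (hm : (p.1 * star p.2).im = m) :
    ∑ c ∈ box (B + 8 * X * Z), g (c + gi * (m : G) * z - ((p.1 * star p.2).re : G) * z) *
      (starRingEnd ℂ) (g (c + gi * (m : G) * z - ((p'.1 * star p'.2).re : G) * z)) =
    ∑ y ∈ box B, g y * (starRingEnd ℂ)
      (g (y + (((p.1 * star p.2).re - (p'.1 * star p'.2).re : ℤ) : G) * z)) := by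
  subst hm
  rw [Finset.mem_product] at hp
  have hd : -(z * (star p.1 * p.2)) ∈ box (8 * X * Z) := by
    have h := E1b_neg_mem (E1b_mul_mem hz (star_mul_mem_box hp.1 hp.2))
    have e : 2 * (2 * Z) * (2 * X) = 8 * X * Z := by ring
    rwa [e] at h
  have h := sum_box_shift (R := B) (D := 8 * X * Z) (R' := B + 8 * X * Z) le_rfl
    (H := fun y => g y * (starRingEnd ℂ)
      (g (y + (((p.1 * star p.2).re - (p'.1 * star p'.2).re : ℤ) : G) * z))) (fun x hx => by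
        rw [hg x hx, zero_mul]) hd
  rw [← h]
  refine Finset.sum_congr rfl fun c _ => ?_
  have hs := E1b_star_eq (p.1 * star p.2)
  rw [← star_mul_eq] at hs
  have a1 : c + -(z * (star p.1 * p.2)) = c + gi * ((p.1 * star p.2).im : G) * z -
      ((p.1 * star p.2).re : G) * z := by
    linear_combination (-z) * hs
  have a2 : c + gi * ((p.1 * star p.2).im : G) * z - ((p.1 * star p.2).re : G) * z +
      (((p.1 * star p.2).re - (p'.1 * star p'.2).re : ℤ) : G) * z =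
      c + gi * ((p.1 * star p.2).im : G) * z - ((p'.1 * star p'.2).re : G) * z := by
    push_cast
    ring
  rw [a1, a2]

/-- The index set. -/
noncomputable def E1cJ (X Z : ℕ) : Finset (((G × G) × (G × G)) × G) :=
  ((W X ×ˢ W X) ×ˢ (W X ×ˢ W X)).filter
    (fun q : (G × G) × (G × G) => (q.2.1 * star q.2.2).im = (q.1.1 * star q.1.2).im) ×ˢ box (2 * Z)

theorem E1c_key {X Z B : ℕ} {g : G → ℂ} (hg : Supp g B) :
    ((∑ m ∈ Icc (-(2 * (X : ℤ))) (2 * (X : ℤ)), ∑ z ∈ box (2 * Z), psi Z z *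
        ∑ c ∈ box (B + 8 * X * Z), ‖Vs X g m z c‖ ^ 2 : ℝ) : ℂ) =
    ∑ j ∈ E1cJ X Z, (psi Z j.2 : ℂ) * ∑ y ∈ box B, g y * (starRingEnd ℂ)
      (g (y + (((j.1.1.1 * star j.1.1.2).re - (j.1.2.1 * star j.1.2.2).re : ℤ) : G) * j.2)) := by
  classical
  have hR : ∑ j ∈ E1cJ X Z, (psi Z j.2 : ℂ) * ∑ y ∈ box B, g y * (starRingEnd ℂ)
      (g (y + (((j.1.1.1 * star j.1.1.2).re - (j.1.2.1 * star j.1.2.2).re : ℤ) : G) * j.2)) =
      ∑ p ∈ W X ×ˢ W X, ∑ p' ∈ (W X ×ˢ W X).filter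
        (fun p' : G × G => (p'.1 * star p'.2).im = (p.1 * star p.2).im), ∑ z ∈ box (2 * Z),
        (psi Z z : ℂ) * ∑ y ∈ box B, g y * (starRingEnd ℂ)
          (g (y + (((p.1 * star p.2).re - (p'.1 * star p'.2).re : ℤ) : G) * z)) := by
    unfold E1cJ
    rw [Finset.sum_product, Finset.sum_filter, Finset.sum_product]
    refine Finset.sum_congr rfl fun p _ => ?_
    rw [Finset.sum_filter]
  rw [hR, ← Finset.sum_fiberwise_of_maps_to (fun p hp => E1b_im_mem hp)]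
  rw [Complex.ofReal_sum]
  refine Finset.sum_congr rfl fun m _ => ?_
  rw [Complex.ofReal_sum]
  have h1 : ∀ z ∈ box (2 * Z), ((psi Z z * ∑ c ∈ box (B + 8 * X * Z), ‖Vs X g m z c‖ ^ 2 : ℝ) : ℂ) =
      ∑ p ∈ (W X ×ˢ W X).filter (fun p : G × G => (p.1 * star p.2).im = m),
        ∑ p' ∈ (W X ×ˢ W X).filter
          (fun p' : G × G => (p'.1 * star p'.2).im = (p.1 * star p.2).im),
        (psi Z z : ℂ) * ∑ y ∈ box B, g y * (starRingEnd ℂ)
          (g (y + (((p.1 * star p.2).re - (p'.1 * star p'.2).re : ℤ) : G) * z)) := by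
    intro z hz
    have h2 : ∀ p ∈ (W X ×ˢ W X).filter (fun p : G × G => (p.1 * star p.2).im = m),
        ∑ p' ∈ (W X ×ˢ W X).filter
          (fun p' : G × G => (p'.1 * star p'.2).im = (p.1 * star p.2).im),
        (psi Z z : ℂ) * ∑ y ∈ box B, g y * (starRingEnd ℂ)
          (g (y + (((p.1 * star p.2).re - (p'.1 * star p'.2).re : ℤ) : G) * z)) =
        ∑ p' ∈ (W X ×ˢ W X).filter (fun p' : G × G => (p'.1 * star p'.2).im = m),
        (psi Z z : ℂ) * ∑ c ∈ box (B + 8 * X * Z),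
          g (c + gi * (m : G) * z - ((p.1 * star p.2).re : G) * z) *
          (starRingEnd ℂ) (g (c + gi * (m : G) * z - ((p'.1 * star p'.2).re : G) * z)) := by
      intro p hp
      rw [Finset.mem_filter] at hp
      rw [hp.2]
      refine Finset.sum_congr rfl fun p' _ => ?_
      rw [E1c_shift hg hp.1 hz hp.2]
    rw [Finset.sum_congr rfl h2]
    have h3 : ∀ c, (((‖Vs X g m z c‖ ^ 2 : ℝ)) : ℂ) =
        ∑ p ∈ (W X ×ˢ W X).filter (fun p : G × G => (p.1 * star p.2).im = m),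
        ∑ p' ∈ (W X ×ˢ W X).filter (fun p' : G × G => (p'.1 * star p'.2).im = m),
          g (c + gi * (m : G) * z - ((p.1 * star p.2).re : G) * z) *
          (starRingEnd ℂ) (g (c + gi * (m : G) * z - ((p'.1 * star p'.2).re : G) * z)) := by
      intro c
      have e1 : (((‖Vs X g m z c‖ ^ 2 : ℝ)) : ℂ) =
          Vs X g m z c * (starRingEnd ℂ) (Vs X g m z c) := by
        rw [Complex.mul_conj, Complex.normSq_eq_norm_sq]
      rw [e1]
      unfold Vs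
      rw [map_sum, Finset.sum_mul_sum]
    push_cast
    simp only [← Complex.ofReal_pow, h3]
    rw [Finset.sum_comm, Finset.mul_sum]
    refine Finset.sum_congr rfl fun p _ => ?_
    rw [Finset.sum_comm, Finset.mul_sum]
  rw [Finset.sum_congr rfl h1, Finset.sum_comm]
  refine Finset.sum_congr rfl fun p _ => ?_
  rw [Finset.sum_comm]

/-- The pairs `(u, u')` with equal imaginary parts. -/
theorem E1c_pairs {X : ℕ} (k : ℤ → ℝ) (hk : ∀ n, 0 ≤ k n) {u : G} (hu : u ∈ box (2 * X)) :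
    ∑ u' ∈ box (2 * X), (if u'.im = u.im then k (u.re - u'.re) else 0) ≤
      ∑ n ∈ Icc (-(2 * ((2 * X : ℕ) : ℤ))) (2 * ((2 * X : ℕ) : ℤ)), k n := by
  classical
  rw [← Finset.sum_filter]
  have h1 : ∑ u' ∈ (box (2 * X)).filter (fun u' => u'.im = u.im), k (u.re - u'.re) =
      ∑ n ∈ ((box (2 * X)).filter (fun u' => u'.im = u.im)).image (fun u' => u.re - u'.re), k n := by
    rw [Finset.sum_image]
    intro a ha b hb hab
    rw [Finset.mem_coe, Finset.mem_filter] at ha hb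
    simp only at hab
    rw [Zsqrtd.ext_iff]
    exact ⟨by linarith, by rw [ha.2, hb.2]⟩
  rw [h1]
  refine Finset.sum_le_sum_of_subset_of_nonneg ?_ fun n _ _ => hk n
  intro n hn
  rw [Finset.mem_image] at hn
  obtain ⟨u', hu', rfl⟩ := hn
  rw [Finset.mem_filter, mem_box] at hu'
  rw [mem_box] at hu
  have e1 := abs_le.1 hu.1
  have e2 := abs_le.1 hu'.1.1
  rw [Finset.mem_Icc]
  constructor <;> linarith

theorem E1c_sum_le {X : ℕ} (k : ℤ → ℝ) (hk : ∀ n, 0 ≤ k n) :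
    ∑ p ∈ W X ×ˢ W X, ∑ p' ∈ (W X ×ˢ W X).filter
      (fun p' : G × G => (p'.1 * star p'.2).im = (p.1 * star p.2).im),
      k ((p.1 * star p.2).re - (p'.1 * star p'.2).re) ≤
    64 * (4 * (X : ℝ) + 1) ^ 2 *
      ∑ n ∈ Icc (-(2 * ((2 * X : ℕ) : ℤ))) (2 * ((2 * X : ℕ) : ℤ)), k n := by
  classical
  have h0 : ∀ (u : G), ∑ p' ∈ (W X ×ˢ W X).filter (fun p' : G × G => (p'.1 * star p'.2).im = u.im),
      k (u.re - (p'.1 * star p'.2).re) ≤
      8 * ∑ u' ∈ box (2 * X), (if u'.im = u.im then k (u.re - u'.re) else 0) := by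
    intro u
    rw [Finset.sum_filter, Finset.sum_product]
    exact sum_W_le (φ := fun u' => if u'.im = u.im then k (u.re - u'.re) else 0) fun u' => by
      split_ifs
      · exact hk _
      · exact le_rfl
  have h1 : ∑ p ∈ W X ×ˢ W X, ∑ p' ∈ (W X ×ˢ W X).filter
      (fun p' : G × G => (p'.1 * star p'.2).im = (p.1 * star p.2).im),
      k ((p.1 * star p.2).re - (p'.1 * star p'.2).re) ≤
      ∑ p ∈ W X ×ˢ W X, 8 * ∑ u' ∈ box (2 * X),
        (if u'.im = (p.1 * star p.2).im then k ((p.1 * star p.2).re - u'.re) else 0) :=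
    Finset.sum_le_sum fun p _ => h0 (p.1 * star p.2)
  refine h1.trans ?_
  rw [Finset.sum_product]
  have h2 := sum_W_le (X := X) (φ := fun u => 8 * ∑ u' ∈ box (2 * X),
    (if u'.im = u.im then k (u.re - u'.re) else 0)) fun u =>
      mul_nonneg (by norm_num) (Finset.sum_nonneg fun u' _ => by
        split_ifs
        · exact hk _
        · exact le_rfl)
  refine h2.trans ?_
  have h3 : ∑ u ∈ box (2 * X), 8 * ∑ u' ∈ box (2 * X),
      (if u'.im = u.im then k (u.re - u'.re) else 0) ≤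
      ∑ u ∈ box (2 * X), 8 * ∑ n ∈ Icc (-(2 * ((2 * X : ℕ) : ℤ))) (2 * ((2 * X : ℕ) : ℤ)), k n :=
    Finset.sum_le_sum fun u hu => mul_le_mul_of_nonneg_left (E1c_pairs k hk hu) (by norm_num)
  rw [Finset.sum_const, card_box, nsmul_eq_mul] at h3
  push_cast at h3
  push_cast
  have e : (2 * (2 * (X : ℝ)) + 1) ^ 2 = (4 * (X : ℝ) + 1) ^ 2 := by ring
  rw [e] at h3
  linarith

theorem E1c_hd {X Z : ℕ} : ∀ j ∈ E1cJ X Z,
    (((j.1.1.1 * star j.1.1.2).re - (j.1.2.1 * star j.1.2.2).re : ℤ) : G) * j.2 ∈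
      box (2 * (4 * X) * (2 * Z)) := by
  intro j hj
  unfold E1cJ at hj
  rw [Finset.mem_product, Finset.mem_filter, Finset.mem_product, Finset.mem_product,
    Finset.mem_product] at hj
  refine E1b_mul_mem ?_ hj.2
  have h1 := mul_star_mem_box hj.1.1.1.1 hj.1.1.1.2
  have h2 := mul_star_mem_box hj.1.1.2.1 hj.1.1.2.2
  rw [mem_box] at h1 h2 ⊢
  have e1 := abs_le.1 h1.1
  have e2 := abs_le.1 h2.1
  push_cast at e1 e2 ⊢
  constructor
  · rw [Zsqrtd.re_sub, Zsqrtd.re_intCast, Zsqrtd.re_intCast, abs_le]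
    constructor <;> linarith
  · rw [Zsqrtd.im_sub, Zsqrtd.im_intCast, Zsqrtd.im_intCast]
    simp

theorem E1c_mult {X Z : ℕ} (ξ : ℂ) :
    ‖∑ j ∈ E1cJ X Z, (psi Z j.2 : ℂ) * e (-dot ξ
      (((((j.1.1.1 * star j.1.1.2).re - (j.1.2.1 * star j.1.2.2).re : ℤ) : G) * j.2 : G) : ℂ))‖ ≤
    64 * (4 * (X : ℝ) + 1) ^ 2 *
      ∑ n ∈ Icc (-(2 * ((2 * X : ℕ) : ℤ))) (2 * ((2 * X : ℕ) : ℤ)), ‖K Z ((n : ℂ) * ξ)‖ := by
  classical
  refine le_trans ?_ (E1c_sum_le (X := X) (fun n => ‖K Z ((n : ℂ) * ξ)‖) fun n => norm_nonneg _)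
  unfold E1cJ
  rw [Finset.sum_product, Finset.sum_filter, Finset.sum_product]
  refine (norm_sum_le _ _).trans (Finset.sum_le_sum fun p _ => ?_)
  rw [Finset.sum_filter]
  refine (norm_sum_le _ _).trans (Finset.sum_le_sum fun p' _ => ?_)
  simp only
  split_ifs
  · apply le_of_eq
    rw [← K_neg]
    unfold K
    congr 1
    refine Finset.sum_congr rfl fun z _ => ?_
    congr 2
    rw [map_mul]
    set n : ℤ := (p.1 * star p.2).re - (p'.1 * star p'.2).re with hn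
    have h1 : ((n : G) : ℂ) = (n : ℂ) := by
      rw [map_intCast]
    rw [h1]
    simp only [dot, Complex.mul_re, Complex.mul_im, Complex.neg_re, Complex.neg_im,
      Complex.intCast_re, Complex.intCast_im]
    ring
  · rw [norm_zero]

theorem sum_Vs_sq_le {X Z B N : ℕ} (hX : 1 ≤ X) (hZ : 1 ≤ Z) {g g₀ : G → ℂ} {μ : ℂ → ℂ} {κ : ℝ}
    (hg : Supp g B) (hFT : ∀ ξ, FT B g ξ = FT N g₀ ξ * μ ξ)
    (hκ : ∀ ξ, ‖μ ξ‖ * ∑ n ∈ Icc (-(2 * ((2 * X : ℕ) : ℤ))) (2 * ((2 * X : ℕ) : ℤ)),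
      ‖K Z ((n : ℂ) * ξ)‖ ≤ κ) :
    ∑ m ∈ Icc (-(2 * (X : ℤ))) (2 * (X : ℤ)), ∑ z ∈ box (2 * Z), psi Z z *
        ∑ c ∈ box (B + 8 * X * Z), ‖Vs X g m z c‖ ^ 2 ≤
      64 * (4 * (X : ℝ) + 1) ^ 2 * κ * l2 B g * l2 N g₀ := by
  have h1 := two_fun_conj (E1cJ X Z) (fun j => (psi Z j.2 : ℂ))
    (fun j => (((j.1.1.1 * star j.1.1.2).re - (j.1.2.1 * star j.1.2.2).re : ℤ) : G) * j.2)
    (B₁ := B) (B₂ := B) (B₂' := N) (f := g) (g := g) (g₀ := g₀) (μ := μ)
    (κ := 64 * (4 * (X : ℝ) + 1) ^ 2 * κ) E1c_hd hg hFT (fun ξ => by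
      have h2 := E1c_mult (X := X) (Z := Z) ξ
      have h3 := mul_le_mul_of_nonneg_right h2 (norm_nonneg (μ ξ))
      refine h3.trans ?_
      have h4 := hκ ξ
      have h5 : (0 : ℝ) ≤ 64 * (4 * (X : ℝ) + 1) ^ 2 := by positivity
      calc _ = 64 * (4 * (X : ℝ) + 1) ^ 2 * (‖μ ξ‖ *
            ∑ n ∈ Icc (-(2 * ((2 * X : ℕ) : ℤ))) (2 * ((2 * X : ℕ) : ℤ)), ‖K Z ((n : ℂ) * ξ)‖) := by
            ring
        _ ≤ _ := mul_le_mul_of_nonneg_left h4 h5)
  rw [← E1c_key hg, Complex.norm_real] at h1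
  exact (le_abs_self _).trans h1

end H29I
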