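import Pool.Agent.Lib.H29I.E1a
import Pool.Agent.Lib.H29I.E1c
import Pool.Agent.Lib.H29I.D7

/-!
# Chunk E1: the first function may be replaced by its structured part

`g = f₀ - S f₀` is supported in `box (N + R)` and hence in `box B`;
`FT B g = FT (N + R) g = FT N f₀ (1 - mult)` (`FT_eq`, `FT_sub_S`),
`l2 B g = l2 (N + R) g ≤ 3 l2 N f₀`. By `sup_one`, `form_cs` and `sum_Vs_sq_le` with
`κ' = 130 κ Z² (2 X)` and `H = 2 X` (`4 X + 1 ≤ 2.5 H`):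
`‖T‖² ≤ 2.5 H · 25 Z² · 64 · 6.25 H² · 130 κ Z² H · 3 · (l2 f₀)² (l2 f₂)²
  = 9.75 · 10⁶ κ Z⁴ H⁴ (l2 f₀)² (l2 f₂)²`, and `9.75 · 10⁶ ≤ 5000²`.
-/

open Finset Complex

namespace H29I

theorem form_E1 {X Z N B B₂ Q R : ℕ} {k : ℂ → ℝ} {v μ κ : ℝ} (hX : 1 ≤ X) (hZ : 1 ≤ Z)
    (hκ : 0 < κ) (hκ1 : κ ≤ 1) (hk : LK k R v μ) (ha : 40000 ≤ κ ^ 2 * (2 * X))
    (hb : 800 * (2 * (X : ℝ)) ≤ κ * Z) (hc : 400 / κ ≤ Q)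
    (hd : (Q : ℝ) ^ 5 * v ≤ κ) (he : μ * 10 ^ 9 ≤ κ ^ 4 * Z * (2 * X))
    (hf : 2 * (Q : ℝ) ^ 2 * (3 * 10 ^ 6) ≤ κ ^ 3 * Z * (2 * X)) (hB : N + R ≤ B)
    {f₀ f₁ f₂ : G → ℂ} (hf₀ : Supp f₀ N) (hf₁ : ∀ x, ‖f₁ x‖ ≤ 1) (hf₂ : Supp f₂ B₂) :
    ‖T X Z B (fun x => f₀ x - S k N Q f₀ x) f₁ f₂‖ ≤
      5000 * Real.sqrt κ * (Z : ℝ) ^ 2 * (2 * (X : ℝ)) ^ 2 * l2 N f₀ * l2 B₂ f₂ := by
  have hX' : (1 : ℝ) ≤ X := by exact_mod_cast hX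
  set g : G → ℂ := fun x => f₀ x - S k N Q f₀ x with hg
  have hs : Supp g (N + R) := supp_sub_S hk.supp hf₀
  have hsB : Supp g B := fun x hx => hs x fun h => hx (box_mono hB h)
  have hFT : ∀ ξ, FT B g ξ = FT N f₀ ξ * (1 - mult k R Q ξ) := by
    intro ξ
    rw [FT_eq hB hs, hg]
    exact FT_sub_S hk.supp hf₀ ξ
  have hl2 : l2 B g ≤ 3 * l2 N f₀ := by
    rw [l2_eq hB hs]
    exact l2_sub_S_le hk (hd.trans hκ1) hf₀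
  have h1 := form_cs hX hZ hsB hf₁ hf₂
  have h2 := sum_Vs_sq_le hX hZ hsB hFT (fun ξ => sup_one hX hZ hκ hκ1 hk ha hb hc hd he hf ξ)
  have hF0 := l2_nonneg N f₀
  have hF2 := l2_nonneg B₂ f₂
  have h3 : 64 * (4 * (X : ℝ) + 1) ^ 2 * (130 * κ * (Z : ℝ) ^ 2 * (2 * X)) * l2 B g * l2 N f₀ ≤
      64 * (4 * (X : ℝ) + 1) ^ 2 * (130 * κ * (Z : ℝ) ^ 2 * (2 * X)) * (3 * l2 N f₀) * l2 N f₀ := by
    gcongr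
  have h4 : ‖T X Z B g f₁ f₂‖ ^ 2 ≤
      (5000 * Real.sqrt κ * (Z : ℝ) ^ 2 * (2 * (X : ℝ)) ^ 2 * l2 N f₀ * l2 B₂ f₂) ^ 2 := by
    refine h1.trans ((mul_le_mul_of_nonneg_left (h2.trans h3) (by positivity)).trans ?_)
    have h5 : (4 * (X : ℝ) + 1) ≤ 5 * X := by linarith
    have h6 : (4 * (X : ℝ) + 1) ^ 3 ≤ (5 * X) ^ 3 := by gcongr
    have hsq : Real.sqrt κ ^ 2 = κ := Real.sq_sqrt hκ.le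
    calc (4 * (X : ℝ) + 1) * (25 * (Z : ℝ) ^ 2) * (l2 B₂ f₂) ^ 2 *
        (64 * (4 * (X : ℝ) + 1) ^ 2 * (130 * κ * (Z : ℝ) ^ 2 * (2 * X)) * (3 * l2 N f₀) * l2 N f₀)
        = (4 * (X : ℝ) + 1) ^ 3 * (25 * 64 * 130 * 3 * 2 * (κ * (Z : ℝ) ^ 4 * X * (l2 N f₀) ^ 2 *
            (l2 B₂ f₂) ^ 2)) := by ring
      _ ≤ (5 * (X : ℝ)) ^ 3 * (25 * 64 * 130 * 3 * 2 * (κ * (Z : ℝ) ^ 4 * X * (l2 N f₀) ^ 2 *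
            (l2 B₂ f₂) ^ 2)) := mul_le_mul_of_nonneg_right h6 (by positivity)
      _ = 156000000 * (κ * (Z : ℝ) ^ 4 * (X : ℝ) ^ 4 * (l2 N f₀) ^ 2 * (l2 B₂ f₂) ^ 2) := by ring
      _ ≤ 400000000 * (κ * (Z : ℝ) ^ 4 * (X : ℝ) ^ 4 * (l2 N f₀) ^ 2 * (l2 B₂ f₂) ^ 2) := by
          apply mul_le_mul_of_nonneg_right (by norm_num) (by positivity)
      _ = (5000 * Real.sqrt κ * (Z : ℝ) ^ 2 * (2 * (X : ℝ)) ^ 2 * l2 N f₀ * l2 B₂ f₂) ^ 2 := by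
          rw [mul_pow, mul_pow, mul_pow, mul_pow, mul_pow, hsq]
          ring
  exact le_of_sq_le_sq h4 (by positivity)

end H29I
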