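import Pool.Agent.Lib.H29I.B1
import Pool.Agent.Lib.H29I.D5

/-!
# Chunk E1a: the one-variable analogue of E0

Put `H = 2 X`, `Σ = ∑_{|n| ≤ 2 H} ‖K Z (n ξ)‖`.

Case 1: `Σ < κ Z² H`. Then `‖1 - mult‖ ≤ 2 + Q⁵ v ≤ 3`, the product is at most `3 κ Z² H`.

Case 2: `Σ ≥ κ Z² H`. By `dio_one` there are `q ≤ 400 / κ ≤ Q` and `g` such that the coordinates of
`ξ - g / q` are at most `2 · 10⁶ / (κ³ Z H)`, so `‖ξ - g / q‖ ≤ ε := 3 · 10⁶ / (κ³ Z H)`, and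
`2 Q² ε ≤ 1`. By `mult_near` `‖1 - mult‖ ≤ 2 π ε μ + κ ≤ 1.02 κ` (`2 π · 3 · 10⁶ · 10⁻⁹ ≤ 0.02`), and
`Σ ≤ 25 Z² (4 H + 1) ≤ 125 Z² H`.
-/

open Finset Complex

namespace H29I

theorem E1a_norm {z : ℂ} {D : ℝ} (hD : 0 ≤ D) (h1 : |z.re| ≤ 2 * D) (h2 : |z.im| ≤ 2 * D) :
    ‖z‖ ≤ 3 * D := by
  have h3 : ‖z‖ ^ 2 ≤ (3 * D) ^ 2 := by
    rw [Complex.sq_norm, Complex.normSq_apply]
    have h4 : z.re * z.re = |z.re| * |z.re| := (abs_mul_abs_self _).symm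
    have h5 : z.im * z.im = |z.im| * |z.im| := (abs_mul_abs_self _).symm
    rw [h4, h5]
    have h6 := mul_le_mul h1 h1 (abs_nonneg _) (by positivity)
    have h7 := mul_le_mul h2 h2 (abs_nonneg _) (by positivity)
    nlinarith [sq_nonneg D]
  exact le_of_sq_le_sq h3 (by positivity)

theorem sup_one {X Z Q R : ℕ} {k : ℂ → ℝ} {v μ κ : ℝ} (hX : 1 ≤ X) (hZ : 1 ≤ Z) (hκ : 0 < κ)
    (hκ1 : κ ≤ 1) (hk : LK k R v μ) (ha : 40000 ≤ κ ^ 2 * (2 * X))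
    (hb : 800 * (2 * (X : ℝ)) ≤ κ * Z) (hc : 400 / κ ≤ Q)
    (hd : (Q : ℝ) ^ 5 * v ≤ κ) (he : μ * 10 ^ 9 ≤ κ ^ 4 * Z * (2 * X))
    (hf : 2 * (Q : ℝ) ^ 2 * (3 * 10 ^ 6) ≤ κ ^ 3 * Z * (2 * X)) (ξ : ℂ) :
    ‖1 - mult k R Q ξ‖ *
      ∑ n ∈ Icc (-(2 * ((2 * X : ℕ) : ℤ))) (2 * ((2 * X : ℕ) : ℤ)), ‖K Z ((n : ℂ) * ξ)‖ ≤
      130 * κ * (Z : ℝ) ^ 2 * (2 * X) := by
  have hX' : (1 : ℝ) ≤ X := by exact_mod_cast hX
  have hZ' : (1 : ℝ) ≤ Z := by exact_mod_cast hZ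
  set Sg : ℝ := ∑ n ∈ Icc (-(2 * ((2 * X : ℕ) : ℤ))) (2 * ((2 * X : ℕ) : ℤ)),
    ‖K Z ((n : ℂ) * ξ)‖ with hSg
  have hSg0 : 0 ≤ Sg := sum_nonneg fun _ _ => norm_nonneg _
  have hH : (((2 * X : ℕ) : ℕ) : ℝ) = 2 * (X : ℝ) := by push_cast; ring
  rcases lt_or_ge Sg (κ * (Z : ℝ) ^ 2 * ((2 * X : ℕ) : ℝ)) with h1 | h1
  · have h2 : ‖1 - mult k R Q ξ‖ ≤ 3 := by
      have h3 := mult_norm_le (Q := Q) hk ξ
      calc ‖1 - mult k R Q ξ‖ ≤ ‖(1 : ℂ)‖ + ‖mult k R Q ξ‖ := norm_sub_le _ _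
        _ ≤ 1 + (1 + (Q : ℝ) ^ 5 * v) := by
            rw [norm_one]
            linarith
        _ ≤ 3 := by linarith
    rw [hH] at h1
    calc ‖1 - mult k R Q ξ‖ * Sg ≤ 3 * (κ * (Z : ℝ) ^ 2 * (2 * X)) :=
          mul_le_mul h2 h1.le hSg0 (by norm_num)
      _ ≤ 130 * κ * (Z : ℝ) ^ 2 * (2 * X) := by
          have : 0 ≤ κ * (Z : ℝ) ^ 2 * (2 * X) := by positivity
          linarith
  · obtain ⟨q, g, hq, hq2, hre, him⟩ := dio_one (H := 2 * X) (Z := Z) (γ := ξ) hκ hκ1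
      (by rw [hH]; exact ha) (by rw [hH]; exact hb) h1
    rw [hH] at hre him
    have hP : 0 < κ ^ 3 * Z * (2 * (X : ℝ)) := by positivity
    have hqQ : q ≤ Q := by
      have : (q : ℝ) ≤ Q := hq2.trans hc
      exact_mod_cast this
    have hn : ‖ξ - (g : ℂ) / q‖ ≤ 3 * (10 ^ 6 / (κ ^ 3 * Z * (2 * X))) := by
      apply E1a_norm (by positivity)
      · refine hre.trans (le_of_eq ?_)
        ring
      · refine him.trans (le_of_eq ?_)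
        ring
    have h2 := mult_near (Q := Q) hk hq hqQ hn (by
      have h3 : 2 * (Q : ℝ) ^ 2 * (3 * (10 ^ 6 / (κ ^ 3 * Z * (2 * X)))) =
          (2 * (Q : ℝ) ^ 2 * (3 * 10 ^ 6)) / (κ ^ 3 * Z * (2 * X)) := by ring
      rw [h3]
      exact div_le_one_of_le₀ hf hP.le)
    have h4 : ‖1 - mult k R Q ξ‖ ≤ 1.02 * κ := by
      have h5 : 3 * (10 ^ 6 / (κ ^ 3 * Z * (2 * X))) * μ ≤ 3 / 1000 * κ := by
        have h6 : 3 * (10 ^ 6 / (κ ^ 3 * Z * (2 * X))) * μ =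
            3 / 1000 * ((μ * 10 ^ 9) / (κ ^ 3 * Z * (2 * X))) := by ring
        rw [h6]
        apply mul_le_mul_of_nonneg_left _ (by norm_num)
        rw [div_le_iff₀ hP]
        calc μ * 10 ^ 9 ≤ κ ^ 4 * Z * (2 * X) := he
          _ = κ * (κ ^ 3 * Z * (2 * X)) := by ring
      have hpi := Real.pi_lt_d2
      have hpi0 := Real.pi_pos
      have h7 : 2 * Real.pi * (3 * (10 ^ 6 / (κ ^ 3 * Z * (2 * X)))) * μ ≤ 0.02 * κ := by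
        calc 2 * Real.pi * (3 * (10 ^ 6 / (κ ^ 3 * Z * (2 * X)))) * μ =
            2 * Real.pi * (3 * (10 ^ 6 / (κ ^ 3 * Z * (2 * X))) * μ) := by ring
          _ ≤ 2 * Real.pi * (3 / 1000 * κ) := mul_le_mul_of_nonneg_left h5 (by positivity)
          _ ≤ 0.02 * κ := by nlinarith
      linarith
    have h8 : Sg ≤ 125 * (Z : ℝ) ^ 2 * (2 * X) := by
      have hc2 : ((Icc (-(2 * ((2 * X : ℕ) : ℤ))) (2 * ((2 * X : ℕ) : ℤ))).card : ℝ) =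
          8 * X + 1 := by
        rw [Int.card_Icc]
        have : (2 * ((2 * X : ℕ) : ℤ) + 1 - -(2 * ((2 * X : ℕ) : ℤ))).toNat = 8 * X + 1 := by
          omega
        rw [this]
        push_cast
        ring
      calc Sg ≤ ∑ n ∈ Icc (-(2 * ((2 * X : ℕ) : ℤ))) (2 * ((2 * X : ℕ) : ℤ)),
            25 * (Z : ℝ) ^ 2 := sum_le_sum fun n _ => norm_K_le hZ _
        _ = (8 * X + 1) * (25 * (Z : ℝ) ^ 2) := by
            rw [sum_const, nsmul_eq_mul, hc2]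
        _ ≤ 125 * (Z : ℝ) ^ 2 * (2 * X) := by
            have : 0 ≤ (Z : ℝ) ^ 2 := by positivity
            nlinarith
    calc ‖1 - mult k R Q ξ‖ * Sg ≤ (1.02 * κ) * (125 * (Z : ℝ) ^ 2 * (2 * X)) :=
          mul_le_mul h4 h8 hSg0 (by positivity)
      _ ≤ 130 * κ * (Z : ℝ) ^ 2 * (2 * X) := by
          have : 0 ≤ κ * (Z : ℝ) ^ 2 * (2 * X) := by positivity
          nlinarith

end H29I
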