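import Pool.Agent.Lib.H29I.A3
import Pool.Agent.Lib.H29I.C4
import Pool.Agent.Lib.H29I.A5

/-!
# Chunk E1b: Cauchy-Schwarz, elimination of `f₁`

Write `u = w₁ w₂*`, `a = re u`, `m = im u`, `|m| ≤ 2 X`. For given `w₁, w₂, z` put `c = x + z u*`;
then `x + z u = c + 2 i m z` and `x = c - z u* = c + i m z - a z`. So, for every large `B'`
(`B' = B + 8 X Z`; `g` is supported in `box B`),
`T X Z B g f₁ f₂ = ∑_{|m| ≤ 2 X} ∑_z ψ z ∑_{c ∈ box B'} f₁ (c + 2 i m z) conj (f₂ c) V m z c`,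
where `V m z c = ∑_{(w₁, w₂) : im u = m} g (c + i m z - (re u) z)`. By Cauchy-Schwarz
`‖T‖² ≤ (∑_{m, z} ψ z ∑_c ‖f₂ c‖²) (∑_{m, z} ψ z ∑_c ‖V m z c‖²)`; the first factor is at most
`(4 X + 1) 25 Z² (l2 B₂ f₂)²`.
-/

open Finset Complex

namespace H29I

/-- The inner sum. -/
noncomputable def Vs (X : ℕ) (g : G → ℂ) (m : ℤ) (z c : G) : ℂ :=
  ∑ p ∈ (W X ×ˢ W X).filter (fun p : G × G => (p.1 * star p.2).im = m),
    g (c + gi * (m : G) * z - ((p.1 * star p.2).re : G) * z)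

theorem E1b_mul_mem {z u : G} {a b : ℕ} (hz : z ∈ box a) (hu : u ∈ box b) :
    z * u ∈ box (2 * a * b) := by
  rw [mem_box] at *
  obtain ⟨h1, h2⟩ := hz
  obtain ⟨h3, h4⟩ := hu
  have ha : (0 : ℤ) ≤ a := by positivity
  have hb : (0 : ℤ) ≤ b := by positivity
  have e1 : |z.re * u.re| ≤ a * b := by
    rw [abs_mul]; exact mul_le_mul h1 h3 (abs_nonneg _) ha
  have e2 : |z.im * u.im| ≤ a * b := by
    rw [abs_mul]; exact mul_le_mul h2 h4 (abs_nonneg _) ha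
  have e3 : |z.re * u.im| ≤ a * b := by
    rw [abs_mul]; exact mul_le_mul h1 h4 (abs_nonneg _) ha
  have e4 : |z.im * u.re| ≤ a * b := by
    rw [abs_mul]; exact mul_le_mul h2 h3 (abs_nonneg _) ha
  have e1' := abs_le.1 e1
  have e2' := abs_le.1 e2
  have e3' := abs_le.1 e3
  have e4' := abs_le.1 e4
  push_cast
  rw [Zsqrtd.re_mul, Zsqrtd.im_mul]
  constructor
  · rw [abs_le]; constructor <;> linarith
  · rw [abs_le]; constructor <;> linarith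

theorem E1b_neg_mem {z : G} {a : ℕ} (hz : z ∈ box a) : -z ∈ box a := by
  rw [mem_box] at *
  rw [Zsqrtd.re_neg, Zsqrtd.im_neg, abs_neg, abs_neg]
  exact hz

theorem E1b_star_eq (u : G) : star u = ((u.re : ℤ) : G) - gi * ((u.im : ℤ) : G) := by
  rw [Zsqrtd.ext_iff]
  constructor
  · simp [gi]
  · simp [gi]

theorem E1b_eq (u : G) : u = ((u.re : ℤ) : G) + gi * ((u.im : ℤ) : G) := by
  rw [Zsqrtd.ext_iff]
  constructor
  · simp [gi]
  · simp [gi]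

theorem E1b_shift {X Z B : ℕ} {g f₁ f₂ : G → ℂ} (hg : Supp g B) {w₁ w₂ z : G} (h₁ : w₁ ∈ W X)
    (h₂ : w₂ ∈ W X) (hz : z ∈ box (2 * Z)) {m : ℤ} (hm : (w₁ * star w₂).im = m) :
    ∑ x ∈ box B, g x * f₁ (x + z * (w₁ * star w₂)) *
      (starRingEnd ℂ) (f₂ (x + z * (star w₁ * w₂))) =
    ∑ c ∈ box (B + 8 * X * Z), f₁ (c + 2 * gi * (m : G) * z) * (starRingEnd ℂ) (f₂ c) *
      g (c + gi * (m : G) * z - ((w₁ * star w₂).re : G) * z) := by
  subst hm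
  have hd : -(z * (star w₁ * w₂)) ∈ box (8 * X * Z) := by
    have h := E1b_neg_mem (E1b_mul_mem hz (star_mul_mem_box h₁ h₂))
    have e : 2 * (2 * Z) * (2 * X) = 8 * X * Z := by ring
    rwa [e] at h
  have h := sum_box_shift (R := B) (D := 8 * X * Z) (R' := B + 8 * X * Z) le_rfl
    (H := fun x => g x * f₁ (x + z * (w₁ * star w₂)) *
      (starRingEnd ℂ) (f₂ (x + z * (star w₁ * w₂)))) (fun x hx => by
        rw [hg x hx, zero_mul, zero_mul]) hd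
  rw [← h]
  refine Finset.sum_congr rfl fun c _ => ?_
  have hs := E1b_star_eq (w₁ * star w₂)
  have he := E1b_eq (w₁ * star w₂)
  rw [← star_mul_eq] at hs
  have a1 : c + -(z * (star w₁ * w₂)) = c + gi * ((w₁ * star w₂).im : G) * z -
      ((w₁ * star w₂).re : G) * z := by
    linear_combination (-z) * hs
  have a2 : c + -(z * (star w₁ * w₂)) + z * (w₁ * star w₂) =
      c + 2 * gi * ((w₁ * star w₂).im : G) * z := by
    linear_combination (-z) * hs + z * he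
  have a3 : c + -(z * (star w₁ * w₂)) + z * (star w₁ * w₂) = c := by ring
  rw [a2, a3, a1]
  ring

theorem E1b_im_mem {X : ℕ} {p : G × G} (hp : p ∈ W X ×ˢ W X) :
    (p.1 * star p.2).im ∈ Icc (-(2 * (X : ℤ))) (2 * (X : ℤ)) := by
  rw [Finset.mem_product] at hp
  have h := mul_star_mem_box hp.1 hp.2
  rw [mem_box] at h
  have h2 := abs_le.1 h.2
  push_cast at h2
  rw [Finset.mem_Icc]
  exact h2

theorem E1b_key {X Z B : ℕ} {g f₁ f₂ : G → ℂ} (hg : Supp g B) :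
    T X Z B g f₁ f₂ = ∑ m ∈ Icc (-(2 * (X : ℤ))) (2 * (X : ℤ)), ∑ z ∈ box (2 * Z),
      ∑ c ∈ box (B + 8 * X * Z), (psi Z z : ℂ) *
        (f₁ (c + 2 * gi * (m : G) * z) * (starRingEnd ℂ) (f₂ c)) * Vs X g m z c := by
  classical
  unfold T
  rw [← Finset.sum_product', ← Finset.sum_fiberwise_of_maps_to (fun p hp => E1b_im_mem hp)]
  refine Finset.sum_congr rfl fun m _ => ?_
  have h1 : ∀ p ∈ (W X ×ˢ W X).filter (fun p : G × G => (p.1 * star p.2).im = m),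
      ∑ z ∈ box (2 * Z), (psi Z z : ℂ) * ∑ x ∈ box B, g x * f₁ (x + z * (p.1 * star p.2)) *
        (starRingEnd ℂ) (f₂ (x + z * (star p.1 * p.2))) =
      ∑ z ∈ box (2 * Z), ∑ c ∈ box (B + 8 * X * Z), (psi Z z : ℂ) *
        (f₁ (c + 2 * gi * (m : G) * z) * (starRingEnd ℂ) (f₂ c)) *
        g (c + gi * (m : G) * z - ((p.1 * star p.2).re : G) * z) := by
    intro p hp
    rw [Finset.mem_filter, Finset.mem_product] at hp
    refine Finset.sum_congr rfl fun z hz => ?_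
    rw [E1b_shift hg hp.1.1 hp.1.2 hz hp.2, Finset.mul_sum]
    refine Finset.sum_congr rfl fun c _ => ?_
    ring
  rw [Finset.sum_congr rfl h1, Finset.sum_comm]
  refine Finset.sum_congr rfl fun z _ => ?_
  rw [Finset.sum_comm]
  refine Finset.sum_congr rfl fun c _ => ?_
  unfold Vs
  rw [Finset.mul_sum]

theorem E1b_sum_sq_le {B₂ B' : ℕ} {f₂ : G → ℂ} (hf₂ : Supp f₂ B₂) :
    ∑ c ∈ box B', ‖f₂ c‖ ^ 2 ≤ (l2 B₂ f₂) ^ 2 := by
  have h0 : (l2 B₂ f₂) ^ 2 = ∑ c ∈ box B₂, ‖f₂ c‖ ^ 2 := by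
    unfold l2
    rw [Real.sq_sqrt]
    positivity
  rw [h0]
  rcases le_total B₂ B' with h | h
  · refine le_of_eq (sum_box_eq h fun x hx => ?_)
    rw [hf₂ x hx]
    simp
  · exact Finset.sum_le_sum_of_subset_of_nonneg (box_mono h) fun _ _ _ => by positivity

theorem form_cs {X Z B B₂ : ℕ} (hX : 1 ≤ X) (hZ : 1 ≤ Z) {g f₁ f₂ : G → ℂ} (hg : Supp g B)
    (hf₁ : ∀ x, ‖f₁ x‖ ≤ 1) (hf₂ : Supp f₂ B₂) :
    ‖T X Z B g f₁ f₂‖ ^ 2 ≤ (4 * (X : ℝ) + 1) * (25 * (Z : ℝ) ^ 2) * (l2 B₂ f₂) ^ 2 *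
      ∑ m ∈ Icc (-(2 * (X : ℤ))) (2 * (X : ℤ)), ∑ z ∈ box (2 * Z), psi Z z *
        ∑ c ∈ box (B + 8 * X * Z), ‖Vs X g m z c‖ ^ 2 := by
  classical
  set J := (Icc (-(2 * (X : ℤ))) (2 * (X : ℤ))) ×ˢ (box (2 * Z) ×ˢ box (B + 8 * X * Z)) with hJ
  have h1 : ‖T X Z B g f₁ f₂‖ ≤ ∑ j ∈ J, (Real.sqrt (psi Z j.2.1) * ‖f₂ j.2.2‖) *
      (Real.sqrt (psi Z j.2.1) * ‖Vs X g j.1 j.2.1 j.2.2‖) := by
    rw [E1b_key hg, hJ, Finset.sum_product]
    refine (norm_sum_le _ _).trans (Finset.sum_le_sum fun m _ => ?_)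
    rw [Finset.sum_product]
    refine (norm_sum_le _ _).trans (Finset.sum_le_sum fun z _ => ?_)
    refine (norm_sum_le _ _).trans (Finset.sum_le_sum fun c _ => ?_)
    simp only
    rw [norm_mul, norm_mul, norm_mul, RCLike.norm_conj, Complex.norm_real, Real.norm_eq_abs,
      abs_of_nonneg (psi_nonneg Z z)]
    have e1 : Real.sqrt (psi Z z) * Real.sqrt (psi Z z) = psi Z z :=
      Real.mul_self_sqrt (psi_nonneg Z z)
    have e2 : Real.sqrt (psi Z z) * ‖f₂ c‖ * (Real.sqrt (psi Z z) * ‖Vs X g m z c‖) =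
        psi Z z * (1 * ‖f₂ c‖) * ‖Vs X g m z c‖ := by
      rw [one_mul]
      linear_combination (‖f₂ c‖ * ‖Vs X g m z c‖) * e1
    rw [e2]
    refine mul_le_mul_of_nonneg_right (mul_le_mul_of_nonneg_left ?_ (psi_nonneg Z z))
      (norm_nonneg _)
    exact mul_le_mul_of_nonneg_right (hf₁ _) (norm_nonneg _)
  have h2 := Finset.sum_mul_sq_le_sq_mul_sq J (fun j => Real.sqrt (psi Z j.2.1) * ‖f₂ j.2.2‖)
    (fun j => Real.sqrt (psi Z j.2.1) * ‖Vs X g j.1 j.2.1 j.2.2‖)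
  have h3 : ‖T X Z B g f₁ f₂‖ ^ 2 ≤ (∑ j ∈ J, (Real.sqrt (psi Z j.2.1) * ‖f₂ j.2.2‖) *
      (Real.sqrt (psi Z j.2.1) * ‖Vs X g j.1 j.2.1 j.2.2‖)) ^ 2 :=
    pow_le_pow_left₀ (norm_nonneg _) h1 2
  refine (h3.trans h2).trans ?_
  have h4 : ∑ j ∈ J, (Real.sqrt (psi Z j.2.1) * ‖f₂ j.2.2‖) ^ 2 ≤
      (4 * (X : ℝ) + 1) * (25 * (Z : ℝ) ^ 2) * (l2 B₂ f₂) ^ 2 := by
    have e1 : ∑ j ∈ J, (Real.sqrt (psi Z j.2.1) * ‖f₂ j.2.2‖) ^ 2 =
        (4 * (X : ℝ) + 1) * ((∑ z ∈ box (2 * Z), psi Z z) *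
          ∑ c ∈ box (B + 8 * X * Z), ‖f₂ c‖ ^ 2) := by
      rw [hJ, Finset.sum_product]
      simp only
      rw [Finset.sum_const, Int.card_Icc, nsmul_eq_mul, Finset.sum_product]
      simp only
      have e2 : (((2 * (X : ℤ) + 1 - -(2 * (X : ℤ))).toNat : ℕ) : ℝ) = 4 * (X : ℝ) + 1 := by
        have : (2 * (X : ℤ) + 1 - -(2 * (X : ℤ))).toNat = 4 * X + 1 := by omega
        rw [this]
        push_cast
        ring
      rw [e2, Finset.sum_mul]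
      congr 1
      refine Finset.sum_congr rfl fun z _ => ?_
      rw [Finset.mul_sum]
      refine Finset.sum_congr rfl fun c _ => ?_
      rw [mul_pow, Real.sq_sqrt (psi_nonneg Z z)]
    rw [e1, mul_assoc (4 * (X : ℝ) + 1)]
    refine mul_le_mul_of_nonneg_left ?_ (by positivity : (0 : ℝ) ≤ 4 * (X : ℝ) + 1)
    exact mul_le_mul (sum_psi_le hZ) (E1b_sum_sq_le hf₂)
      (Finset.sum_nonneg fun c _ => sq_nonneg ‖f₂ c‖) (by positivity)
  have h5 : ∑ j ∈ J, (Real.sqrt (psi Z j.2.1) * ‖Vs X g j.1 j.2.1 j.2.2‖) ^ 2 =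
      ∑ m ∈ Icc (-(2 * (X : ℤ))) (2 * (X : ℤ)), ∑ z ∈ box (2 * Z), psi Z z *
        ∑ c ∈ box (B + 8 * X * Z), ‖Vs X g m z c‖ ^ 2 := by
    rw [hJ, Finset.sum_product]
    refine Finset.sum_congr rfl fun m _ => ?_
    rw [Finset.sum_product]
    refine Finset.sum_congr rfl fun z _ => ?_
    rw [Finset.mul_sum]
    refine Finset.sum_congr rfl fun c _ => ?_
    simp only
    rw [mul_pow, Real.sq_sqrt (psi_nonneg Z z)]
  rw [h5]
  refine mul_le_mul_of_nonneg_right h4 ?_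
  exact Finset.sum_nonneg fun m _ => Finset.sum_nonneg fun z _ => mul_nonneg (psi_nonneg Z z)
    (Finset.sum_nonneg fun c _ => by positivity)

end H29I
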