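import Pool.Agent.Lib.H29I.E2b
import Pool.Agent.Lib.H29I.A6
import Pool.Agent.Lib.H29I.D8

/-!
# Chunk E2: the third function may be replaced by its structured part, if the first one is structured

`S k₀ N Q₀ f₀ x = ∑_{γ ∈ Rat Q₀} e (dot γ x) F k₀ N f₀ γ x`, at most `Q₀³` frequencies `γ`
(`card_Rat_le`), `‖F‖ ≤ 1` (`norm_F_le`), Lipschitz constant `L` (hypothesis). For every `γ` apply
`lip_sum` with `g = F k₀ N f₀ γ` and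
`lam x = e (dot γ x) ∑_{w₁, w₂} ∑_z ψ z f₁ (x + z u) conj (g₂ (x + z u*))`, `g₂ = f₂ - S k N Q f₂`:
`κ = M l2 f₁ l2 f₂` by `char_E2` (for the frequency `θ + γ`), and
`V = 15000 X² Z² l2 f₁ l2 f₂` by `triv_bound` and `l2_sub_S_le`.
-/

open Finset Complex

namespace H29I

theorem E2_T_eq (X Z B : ℕ) (h f g : G → ℂ) : T X Z B h f g = ∑ x ∈ box B, h x *
    ∑ w₁ ∈ W X, ∑ w₂ ∈ W X, ∑ z ∈ box (2 * Z), (psi Z z : ℂ) *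
      (f (x + z * (w₁ * star w₂)) * (starRingEnd ℂ) (g (x + z * (star w₁ * w₂)))) := by
  unfold T
  simp only [Finset.mul_sum]
  symm
  rw [Finset.sum_comm]
  refine Finset.sum_congr rfl fun w₁ _ => ?_
  rw [Finset.sum_comm]
  refine Finset.sum_congr rfl fun w₂ _ => ?_
  rw [Finset.sum_comm]
  refine Finset.sum_congr rfl fun z _ => Finset.sum_congr rfl fun x _ => ?_
  ring

theorem E2_dot_add (θ γ x : ℂ) : dot (θ + γ) x = dot θ x + dot γ x := by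
  unfold dot
  rw [Complex.add_re, Complex.add_im]
  ring

theorem form_E2 {X Z N B Q R Q₀ R₀ s : ℕ} {k k₀ : ℂ → ℝ} {v μ v₀ μ₀ M L : ℝ} (hX : 1 ≤ X)
    (hZ : 1 ≤ Z) (hs : 1 ≤ s) (hk : LK k R v μ) (hv : (Q : ℝ) ^ 5 * v ≤ 1)
    (hk₀ : LK k₀ R₀ v₀ μ₀) (hB : N + 8 * X * Z ≤ B)
    (hsup : ∀ α β, ‖wt X Z α β‖ * ‖1 - mult k R Q β‖ ≤ M) {f₀ f₁ f₂ : G → ℂ}
    (hf₀ : ∀ x, ‖f₀ x‖ ≤ 1) (hf₁ : Supp f₁ N) (hf₂ : Supp f₂ N) (hL0 : 0 ≤ L)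
    (hL : ∀ (γ : ℂ) (x y : G), ‖F k₀ N f₀ γ (x : ℂ) - F k₀ N f₀ γ (y : ℂ)‖ ≤
      L * (|((x.re : ℝ) - y.re)| + |((x.im : ℝ) - y.im)|)) :
    ‖T X Z B (S k₀ N Q₀ f₀) f₁ (fun x => f₂ x - S k N Q f₂ x)‖ ≤
      (Q₀ : ℝ) ^ 3 * ((2 * (B : ℝ) / s + 3) ^ 2 * M + 2 * s * L * (15000 * (X : ℝ) ^ 2 *
        (Z : ℝ) ^ 2)) * l2 N f₁ * l2 N f₂ := by
  have hM : 0 ≤ M := (mul_nonneg (norm_nonneg _) (norm_nonneg _)).trans (hsup 0 0)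
  have hl1 := l2_nonneg N f₁
  have hl2 := l2_nonneg N f₂
  set g₂ : G → ℂ := fun x => f₂ x - S k N Q f₂ x with hg₂
  have hsg : Supp g₂ (N + R) := supp_sub_S hk.supp hf₂
  have hlg : l2 (N + R) g₂ ≤ 3 * l2 N f₂ := l2_sub_S_le hk hv hf₂
  set A : G → ℂ := fun x => ∑ w₁ ∈ W X, ∑ w₂ ∈ W X, ∑ z ∈ box (2 * Z), (psi Z z : ℂ) *
      (f₁ (x + z * (w₁ * star w₂)) * (starRingEnd ℂ) (g₂ (x + z * (star w₁ * w₂)))) with hA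
  have hT : T X Z B (S k₀ N Q₀ f₀) f₁ g₂ = ∑ γ ∈ Rat Q₀, ∑ x ∈ box B,
      F k₀ N f₀ γ (x : ℂ) * (e (dot γ (x : ℂ)) * A x) := by
    rw [E2_T_eq, Finset.sum_comm]
    refine Finset.sum_congr rfl fun x _ => ?_
    unfold S
    rw [Finset.sum_mul]
    refine Finset.sum_congr rfl fun γ _ => ?_
    ring
  have hV : ∀ γ : ℂ, ∑ x ∈ box B, ‖e (dot γ (x : ℂ)) * A x‖ ≤
      15000 * (X : ℝ) ^ 2 * (Z : ℝ) ^ 2 * l2 N f₁ * l2 N f₂ := by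
    intro γ
    have h1 := triv_bound hX hZ hf₁ hsg (box B) (fun w₁ w₂ z => z * (w₁ * star w₂))
      (fun w₁ w₂ z => z * (star w₁ * w₂))
    have h2 : ∑ x ∈ box B, ‖e (dot γ (x : ℂ)) * A x‖ = ∑ x ∈ box B, ‖A x‖ := by
      refine Finset.sum_congr rfl fun x _ => ?_
      rw [norm_mul, norm_e, one_mul]
    rw [h2]
    refine h1.trans ?_
    calc 5000 * (X : ℝ) ^ 2 * (Z : ℝ) ^ 2 * l2 N f₁ * l2 (N + R) g₂
        ≤ 5000 * (X : ℝ) ^ 2 * (Z : ℝ) ^ 2 * l2 N f₁ * (3 * l2 N f₂) := by gcongr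
      _ = 15000 * (X : ℝ) ^ 2 * (Z : ℝ) ^ 2 * l2 N f₁ * l2 N f₂ := by ring
  have hκ : ∀ γ θ : ℂ, ‖∑ x ∈ box B, e (dot θ (x : ℂ)) * (e (dot γ (x : ℂ)) * A x)‖ ≤
      M * l2 N f₁ * l2 N f₂ := by
    intro γ θ
    have h1 := char_E2 hX hZ hk hB hsup hf₁ hf₂ (θ + γ)
    have h2 : ∑ x ∈ box B, e (dot θ (x : ℂ)) * (e (dot γ (x : ℂ)) * A x) =
        ∑ x ∈ box B, e (dot (θ + γ) (x : ℂ)) * A x := by
      refine Finset.sum_congr rfl fun x _ => ?_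
      rw [E2_dot_add, e_add]
      ring
    rw [h2]
    exact h1
  rw [hT]
  refine (norm_sum_le _ _).trans ?_
  calc ∑ γ ∈ Rat Q₀, ‖∑ x ∈ box B, F k₀ N f₀ γ (x : ℂ) * (e (dot γ (x : ℂ)) * A x)‖
      ≤ ∑ γ ∈ Rat Q₀, ((2 * (B : ℝ) / s + 3) ^ 2 * (M * l2 N f₁ * l2 N f₂) +
          2 * s * L * (15000 * (X : ℝ) ^ 2 * (Z : ℝ) ^ 2 * l2 N f₁ * l2 N f₂)) := by
        refine Finset.sum_le_sum fun γ _ => ?_
        exact lip_sum hs hL0 (fun x => norm_F_le hk₀ hf₀ γ x) (fun x y => hL γ x y) (hV γ) (hκ γ)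
    _ = ((Rat Q₀).card : ℝ) * (((2 * (B : ℝ) / s + 3) ^ 2 * M + 2 * s * L * (15000 * (X : ℝ) ^ 2 *
        (Z : ℝ) ^ 2)) * l2 N f₁ * l2 N f₂) := by
        rw [Finset.sum_const, nsmul_eq_mul]
        ring
    _ ≤ (Q₀ : ℝ) ^ 3 * (((2 * (B : ℝ) / s + 3) ^ 2 * M + 2 * s * L * (15000 * (X : ℝ) ^ 2 *
        (Z : ℝ) ^ 2)) * l2 N f₁ * l2 N f₂) := by
        apply mul_le_mul_of_nonneg_right (card_Rat_le Q₀) (by positivity)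
    _ = _ := by ring

end H29I
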