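import Pool.Agent.Lib.H29I.C4
import Pool.Agent.Lib.H29I.A3
import Pool.Agent.Lib.H29I.A4

/-!
# Chunk E2a: trivial bounds for the form

By Cauchy-Schwarz in `x` (`∑_x ‖f (x + a)‖² ≤ (l2 B' f)²` if `f` is supported in `box B'`),
`∑_z ψ z ≤ 25 Z²` and `|W|² ≤ 200 X²`.
-/

open Finset Complex

namespace H29I

theorem E2a_shift {B : ℕ} {f : G → ℂ} (hf : Supp f B) (s : Finset G) (a : G) :
    ∑ x ∈ s, ‖f (x + a)‖ ^ 2 ≤ ∑ x ∈ box B, ‖f x‖ ^ 2 := by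
  classical
  have h1 : ∑ x ∈ s, ‖f (x + a)‖ ^ 2 = ∑ y ∈ s.image (fun x => x + a), ‖f y‖ ^ 2 := by
    rw [Finset.sum_image]
    intro x _ y _ hxy
    exact add_right_cancel hxy
  rw [h1, ← Finset.sum_filter_of_ne (s := s.image (fun x => x + a)) (p := fun y => y ∈ box B)]
  · refine Finset.sum_le_sum_of_subset_of_nonneg ?_ (fun _ _ _ => by positivity)
    intro y hy
    exact (Finset.mem_filter.1 hy).2
  · intro y _ hy
    by_contra hc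
    apply hy
    rw [hf y hc]
    simp

theorem E2a_mul_mem {X Z : ℕ} {z u : G} (hz : z ∈ box (2 * Z)) (hu : u ∈ box (2 * X)) :
    z * u ∈ box (8 * X * Z) := by
  rw [mem_box] at hz hu ⊢
  push_cast at hz hu ⊢
  have key : ∀ a b c d : ℤ, |a| ≤ 2 * (Z : ℤ) → |b| ≤ 2 * (X : ℤ) → |c| ≤ 2 * (Z : ℤ) →
      |d| ≤ 2 * (X : ℤ) → |a * b + c * d| ≤ 8 * (X : ℤ) * Z := by
    intro a b c d ha hb hc hd
    have h1 : |a * b| ≤ 2 * (Z : ℤ) * (2 * X) := by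
      rw [abs_mul]
      exact mul_le_mul ha hb (abs_nonneg _) (by positivity)
    have h2 : |c * d| ≤ 2 * (Z : ℤ) * (2 * X) := by
      rw [abs_mul]
      exact mul_le_mul hc hd (abs_nonneg _) (by positivity)
    have h3 := abs_add_le (a * b) (c * d)
    have h4 : 2 * (Z : ℤ) * (2 * X) + 2 * (Z : ℤ) * (2 * X) = 8 * (X : ℤ) * Z := by ring
    omega
  constructor
  · rw [Zsqrtd.re_mul]
    have h := key z.re u.re (-z.im) u.im hz.1 hu.1 (by rw [abs_neg]; exact hz.2) hu.2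
    have e : z.re * u.re + -1 * z.im * u.im = z.re * u.re + -z.im * u.im := by ring
    rw [e]
    exact h
  · rw [Zsqrtd.im_mul]
    exact key z.re u.im z.im u.re hz.1 hu.2 hz.2 hu.1

theorem E2a_sub_mem {R S : ℕ} {z u : G} (hz : z ∈ box R) (hu : u ∈ box S) :
    z - u ∈ box (R + S) := by
  rw [mem_box] at hz hu ⊢
  push_cast
  rw [Zsqrtd.re_sub, Zsqrtd.im_sub]
  exact ⟨(abs_sub _ _).trans (add_le_add hz.1 hu.1), (abs_sub _ _).trans (add_le_add hz.2 hu.2)⟩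

/-- The sum over any finite set is bounded by the `ℓ²` norms. -/
theorem cs_shift {B₁ B₂ : ℕ} {f₁ f₂ : G → ℂ} (hf₁ : Supp f₁ B₁) (hf₂ : Supp f₂ B₂) (s : Finset G)
    (a b : G) : ∑ x ∈ s, ‖f₁ (x + a)‖ * ‖f₂ (x + b)‖ ≤ l2 B₁ f₁ * l2 B₂ f₂ := by
  refine (Real.sum_mul_le_sqrt_mul_sqrt s _ _).trans ?_
  unfold l2
  exact mul_le_mul (Real.sqrt_le_sqrt (E2a_shift hf₁ s a)) (Real.sqrt_le_sqrt (E2a_shift hf₂ s b))
    (Real.sqrt_nonneg _) (Real.sqrt_nonneg _)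

theorem triv_bound {X Z B₁ B₂ : ℕ} (hX : 1 ≤ X) (hZ : 1 ≤ Z) {f₁ f₂ : G → ℂ} (hf₁ : Supp f₁ B₁)
    (hf₂ : Supp f₂ B₂) (s : Finset G) (a b : G → G → G → G) :
    ∑ x ∈ s, ‖∑ w₁ ∈ W X, ∑ w₂ ∈ W X, ∑ z ∈ box (2 * Z), (psi Z z : ℂ) *
      (f₁ (x + a w₁ w₂ z) * (starRingEnd ℂ) (f₂ (x + b w₁ w₂ z)))‖ ≤
      5000 * (X : ℝ) ^ 2 * (Z : ℝ) ^ 2 * l2 B₁ f₁ * l2 B₂ f₂ := by
  have hl : 0 ≤ l2 B₁ f₁ * l2 B₂ f₂ := mul_nonneg (Real.sqrt_nonneg _) (Real.sqrt_nonneg _)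
  calc _ ≤ ∑ x ∈ s, ∑ w₁ ∈ W X, ∑ w₂ ∈ W X, ∑ z ∈ box (2 * Z), psi Z z *
        (‖f₁ (x + a w₁ w₂ z)‖ * ‖f₂ (x + b w₁ w₂ z)‖) := by
        refine Finset.sum_le_sum fun x _ => (norm_sum_le _ _).trans (Finset.sum_le_sum fun w₁ _ =>
          (norm_sum_le _ _).trans (Finset.sum_le_sum fun w₂ _ => (norm_sum_le _ _).trans
          (Finset.sum_le_sum fun z _ => ?_)))
        rw [norm_mul, norm_mul, RCLike.norm_conj, Complex.norm_real, Real.norm_eq_abs,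
          abs_of_nonneg (psi_nonneg Z z)]
    _ = ∑ w₁ ∈ W X, ∑ w₂ ∈ W X, ∑ z ∈ box (2 * Z), psi Z z *
        ∑ x ∈ s, (‖f₁ (x + a w₁ w₂ z)‖ * ‖f₂ (x + b w₁ w₂ z)‖) := by
        rw [Finset.sum_comm]
        refine Finset.sum_congr rfl fun w₁ _ => ?_
        rw [Finset.sum_comm]
        refine Finset.sum_congr rfl fun w₂ _ => ?_
        rw [Finset.sum_comm]
        refine Finset.sum_congr rfl fun z _ => ?_
        rw [Finset.mul_sum]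
    _ ≤ ∑ w₁ ∈ W X, ∑ w₂ ∈ W X, ∑ z ∈ box (2 * Z), psi Z z * (l2 B₁ f₁ * l2 B₂ f₂) :=
        Finset.sum_le_sum fun w₁ _ => Finset.sum_le_sum fun w₂ _ => Finset.sum_le_sum fun z _ =>
          mul_le_mul_of_nonneg_left (cs_shift hf₁ hf₂ s _ _) (psi_nonneg Z z)
    _ = ((W X).card : ℝ) ^ 2 * ((∑ z ∈ box (2 * Z), psi Z z) * (l2 B₁ f₁ * l2 B₂ f₂)) := by
        rw [← Finset.sum_mul]
        simp only [Finset.sum_const, nsmul_eq_mul]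
        ring
    _ ≤ (200 * (X : ℝ) ^ 2) * ((25 * (Z : ℝ) ^ 2) * (l2 B₁ f₁ * l2 B₂ f₂)) := by
        refine mul_le_mul (card_W_sq_le hX) (mul_le_mul_of_nonneg_right (sum_psi_le hZ) hl) ?_
          (by positivity)
        exact mul_nonneg (Finset.sum_nonneg fun z _ => psi_nonneg Z z) hl
    _ = _ := by ring

end H29I
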