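import Pool.Agent.Lib.H29I.A5
import Pool.Agent.Lib.H29I.E0
import Pool.Agent.Lib.H29I.E2a
import Pool.Agent.Lib.H29I.D7

/-!
# Chunk E2b: the form with a character in place of `f₀`

`g₂ = f₂ - S f₂`, `FT (N + R) g₂ = FT N f₂ (1 - mult)` (`FT_sub_S`). In
`∑_{w₁, w₂} ∑_z ψ z ∑_{x ∈ box B} e (dot θ x) f₁ (x + z u) conj (g₂ (x + z u*))`, `u = w₁ w₂*`, put
`b = x + z u`; `f₁` is supported in `box N` and `N + 8 X Z ≤ B`, so the inner sum is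
`e (-dot θ (z u)) ∑_{b ∈ box N} e (dot θ b) f₁ b conj (g₂ (b + z (u* - u)))` (`sum_box_shift`). Now
`two_fun_conj` with `J = W × W × box (2 Z)`, `c_j = ψ z e (-dot θ (z u))`, `d_j = z (u* - u)`
(coordinates at most `16 X Z`): for every `ξ`
`∑_j c_j e (-dot ξ d_j) = ∑_{w₁, w₂} ∑_z ψ z e (-dot (θ - ξ) (z u) - dot ξ (z u*))
 = ∑_{w₁, w₂} K Z (-((θ - ξ) u* + ξ u)) = wt X Z (ξ - θ) ξ` (`dot_mul_right`; `K` is even), so the
hypothesis `hsup` (for `α = ξ - θ`, `β = ξ`) is what is needed. `l2 N (e (dot θ ·) f₁) = l2 N f₁`.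
-/

open Finset Complex

namespace H29I

/-- Interchange of the sums. -/
theorem E2b_swap (B X Z : ℕ) (c : G → ℂ) (p : G → G → G → ℂ) (F : G → G → G → G → ℂ) :
    ∑ x ∈ box B, c x * ∑ w₁ ∈ W X, ∑ w₂ ∈ W X, ∑ z ∈ box (2 * Z), p w₁ w₂ z * F w₁ w₂ z x =
      ∑ j ∈ W X ×ˢ W X ×ˢ box (2 * Z), p j.1 j.2.1 j.2.2 *
        ∑ x ∈ box B, c x * F j.1 j.2.1 j.2.2 x := by
  simp only [Finset.sum_product, Finset.mul_sum]
  rw [Finset.sum_comm]
  refine Finset.sum_congr rfl fun w₁ _ => ?_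
  rw [Finset.sum_comm]
  refine Finset.sum_congr rfl fun w₂ _ => ?_
  rw [Finset.sum_comm]
  refine Finset.sum_congr rfl fun z _ => Finset.sum_congr rfl fun x _ => ?_
  ring

theorem E2b_l2 (N : ℕ) (θ : ℂ) (f : G → ℂ) : l2 N (fun b => e (dot θ (b : ℂ)) * f b) = l2 N f := by
  unfold l2
  congr 1
  refine Finset.sum_congr rfl fun x _ => ?_
  rw [norm_mul, norm_e, one_mul]

/-- The exponential sum is the multiplier. -/
theorem E2b_wt (X Z : ℕ) (θ ξ : ℂ) :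
    ∑ j ∈ W X ×ˢ W X ×ˢ box (2 * Z), ((psi Z j.2.2 : ℂ) *
      e (-dot θ ((j.2.2 * (j.1 * star j.2.1) : G) : ℂ))) *
      e (-dot ξ ((j.2.2 * (star j.1 * j.2.1) - j.2.2 * (j.1 * star j.2.1) : G) : ℂ)) =
      wt X Z (ξ - θ) ξ := by
  unfold wt K
  simp only [Finset.sum_product]
  refine Finset.sum_congr rfl fun w₁ _ => Finset.sum_congr rfl fun w₂ _ =>
    Finset.sum_congr rfl fun z _ => ?_
  rw [mul_assoc, ← e_add]
  congr 2
  rw [star_mul_eq]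
  generalize w₁ * star w₂ = u
  rw [GaussianInt.toComplex_sub, GaussianInt.toComplex_mul, GaussianInt.toComplex_mul, coe_star,
    dot_sub_right, dot_mul_right, dot_mul_right, dot_mul_right, Complex.conj_conj, sub_mul,
    dot_sub_left, dot_sub_left]
  ring

theorem char_E2 {X Z N B Q R : ℕ} {k : ℂ → ℝ} {v μ M : ℝ} (hX : 1 ≤ X) (hZ : 1 ≤ Z)
    (hk : LK k R v μ) (hB : N + 8 * X * Z ≤ B)
    (hsup : ∀ α β, ‖wt X Z α β‖ * ‖1 - mult k R Q β‖ ≤ M) {f₁ f₂ : G → ℂ} (hf₁ : Supp f₁ N)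
    (hf₂ : Supp f₂ N) (θ : ℂ) :
    ‖∑ x ∈ box B, e (dot θ (x : ℂ)) * ∑ w₁ ∈ W X, ∑ w₂ ∈ W X, ∑ z ∈ box (2 * Z), (psi Z z : ℂ) *
      (f₁ (x + z * (w₁ * star w₂)) *
        (starRingEnd ℂ) (f₂ (x + z * (star w₁ * w₂)) - S k N Q f₂ (x + z * (star w₁ * w₂))))‖ ≤
      M * l2 N f₁ * l2 N f₂ := by
  set g : G → ℂ := fun x => f₂ x - S k N Q f₂ x with hg
  have h1 : ∑ x ∈ box B, e (dot θ (x : ℂ)) * ∑ w₁ ∈ W X, ∑ w₂ ∈ W X, ∑ z ∈ box (2 * Z),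
      (psi Z z : ℂ) * (f₁ (x + z * (w₁ * star w₂)) *
        (starRingEnd ℂ) (f₂ (x + z * (star w₁ * w₂)) - S k N Q f₂ (x + z * (star w₁ * w₂)))) =
      ∑ j ∈ W X ×ˢ W X ×ˢ box (2 * Z), ((psi Z j.2.2 : ℂ) *
        e (-dot θ ((j.2.2 * (j.1 * star j.2.1) : G) : ℂ))) *
        ∑ b ∈ box N, (e (dot θ (b : ℂ)) * f₁ b) *
          (starRingEnd ℂ) (g (b + (j.2.2 * (star j.1 * j.2.1) - j.2.2 * (j.1 * star j.2.1)))) := by
    rw [E2b_swap B X Z (fun x => e (dot θ (x : ℂ))) (fun _ _ z => (psi Z z : ℂ))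
      (fun w₁ w₂ z x => f₁ (x + z * (w₁ * star w₂)) * (starRingEnd ℂ)
        (f₂ (x + z * (star w₁ * w₂)) - S k N Q f₂ (x + z * (star w₁ * w₂))))]
    refine Finset.sum_congr rfl fun j hj => ?_
    obtain ⟨w₁, w₂, z⟩ := j
    simp only [Finset.mem_product] at hj
    obtain ⟨hw₁, hw₂, hz⟩ := hj
    simp only
    rw [mul_assoc]
    congr 1
    have hd : z * (w₁ * star w₂) ∈ box (8 * X * Z) := E2a_mul_mem hz (mul_star_mem_box hw₁ hw₂)
    have h2 := sum_box_shift (E := ℂ) hB (H := fun y => e (dot θ ((y - z * (w₁ * star w₂) : G) : ℂ)) *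
      (f₁ y * (starRingEnd ℂ) (g (y + (z * (star w₁ * w₂) - z * (w₁ * star w₂)))))) (by
        intro x hx
        rw [hf₁ x hx, zero_mul, mul_zero]) hd
    rw [Finset.mul_sum]
    refine Eq.trans ?_ (h2.trans ?_)
    · refine Finset.sum_congr rfl fun x _ => ?_
      rw [add_sub_cancel_right]
      congr 3
      rw [show x + z * (w₁ * star w₂) + (z * (star w₁ * w₂) - z * (w₁ * star w₂)) =
        x + z * (star w₁ * w₂) by abel]
    · refine Finset.sum_congr rfl fun x _ => ?_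
      rw [GaussianInt.toComplex_sub, dot_sub_right, sub_eq_neg_add, e_add]
      ring
  rw [h1]
  refine (two_fun_conj (W X ×ˢ W X ×ˢ box (2 * Z)) _ _ (B₁ := N) (B₂ := N + R) (B₂' := N)
    (D := 8 * X * Z + 8 * X * Z) (g₀ := f₂) (μ := fun ξ => 1 - mult k R Q ξ) (κ := M)
    ?_ (supp_sub_S hk.supp hf₂) (FT_sub_S hk.supp hf₂) ?_).trans (le_of_eq ?_)
  · intro j hj
    simp only [Finset.mem_product] at hj
    obtain ⟨hw₁, hw₂, hz⟩ := hj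
    exact E2a_sub_mem (E2a_mul_mem hz (star_mul_mem_box hw₁ hw₂))
      (E2a_mul_mem hz (mul_star_mem_box hw₁ hw₂))
  · intro ξ
    rw [E2b_wt]
    exact hsup _ _
  · rw [E2b_l2]

end H29I
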