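import Pool.Agent.Lib.H29I.E3b
import Pool.Agent.Lib.H29I.A6
import Pool.Agent.Lib.H29I.D8

/-!
# Chunk E3: the second function may be replaced by its structured part, if the third one is structured

With the base point `c = x + z u*` (`f₀` is supported in `box N`, `N + 8 X Z ≤ B`, so one may sum over
`c ∈ box B`),
`T X Z B f₀ g₁ h = ∑_{c ∈ box B} conj (h c) ∑_{w₁, w₂} ∑_z ψ z f₀ (c - z u*) g₁ (c - z u* + z u)`,
`h = S k₀ N Q₀ f₂ = ∑_γ e (dot γ ·) F k₀ N f₂ γ`. For every `γ` apply `lip_sum` with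
`g = conj (F k₀ N f₂ γ)` and `lam c = e (-dot γ c) ∑_{w₁, w₂} ∑_z ψ z f₀ (c - z u*) g₁ (...)`,
`κ = M l2 f₀ l2 f₁` by `char_E3` (frequency `θ - γ`), `V = 15000 X² Z² l2 f₀ l2 f₁` by `triv_bound`
(apply it to `conj f₁`-type functions, `‖conj a‖ = ‖a‖`) and `l2_sub_S_le`.
-/

open Finset Complex

namespace H29I

theorem E3_mul_mem {X Z : ℕ} {z u : G} (hz : z ∈ box (2 * Z)) (hu : u ∈ box (2 * X)) :
    -(z * u) ∈ box (8 * X * Z) := by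
  rw [mem_box] at hz hu ⊢
  rw [Zsqrtd.re_neg, Zsqrtd.im_neg, abs_neg, abs_neg, Zsqrtd.re_mul, Zsqrtd.im_mul]
  have h1 := mul_le_mul hz.1 hu.1 (abs_nonneg _) (by positivity)
  have h2 := mul_le_mul hz.1 hu.2 (abs_nonneg _) (by positivity)
  have h3 := mul_le_mul hz.2 hu.1 (abs_nonneg _) (by positivity)
  have h4 := mul_le_mul hz.2 hu.2 (abs_nonneg _) (by positivity)
  rw [← abs_mul] at h1 h2 h3 h4
  push_cast at h1 h2 h3 h4 ⊢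
  constructor
  · have h5 : z.re * u.re + -1 * z.im * u.im = z.re * u.re - z.im * u.im := by ring
    rw [h5]
    refine (abs_sub _ _).trans ?_
    nlinarith
  · refine (abs_add_le _ _).trans ?_
    nlinarith

theorem E3_T_eq {X Z N B : ℕ} (hB : N + 8 * X * Z ≤ B) {f₀ : G → ℂ} (hf₀ : Supp f₀ N)
    (g h : G → ℂ) : T X Z B f₀ g h = ∑ c ∈ box B, (starRingEnd ℂ) (h c) *
    ∑ w₁ ∈ W X, ∑ w₂ ∈ W X, ∑ z ∈ box (2 * Z), (psi Z z : ℂ) *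
      (f₀ (c - z * (star w₁ * w₂)) * g (c - z * (star w₁ * w₂) + z * (w₁ * star w₂))) := by
  unfold T
  simp only [Finset.mul_sum]
  symm
  rw [Finset.sum_comm]
  refine Finset.sum_congr rfl fun w₁ hw₁ => ?_
  rw [Finset.sum_comm]
  refine Finset.sum_congr rfl fun w₂ hw₂ => ?_
  rw [Finset.sum_comm]
  refine Finset.sum_congr rfl fun z hz => ?_
  set H : G → ℂ := fun y => (psi Z z : ℂ) * (f₀ y * g (y + z * (w₁ * star w₂)) *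
    (starRingEnd ℂ) (h (y + z * (star w₁ * w₂)))) with hH
  have hH0 : ∀ x, x ∉ box N → H x = 0 := by
    intro x hx
    rw [hH]
    simp only
    rw [hf₀ x hx]
    ring
  have h1 := sum_box_shift hB hH0 (E3_mul_mem hz (star_mul_mem_box hw₁ hw₂))
  have h2 : ∑ x ∈ box B, H x = ∑ x ∈ box N, H x := sum_box_eq ((Nat.le_add_right _ _).trans hB) hH0
  rw [h2, ← h1]
  refine Finset.sum_congr rfl fun c _ => ?_
  rw [hH]
  simp only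
  have e1 : c + -(z * (star w₁ * w₂)) = c - z * (star w₁ * w₂) := by ring
  have e2 : c - z * (star w₁ * w₂) + z * (star w₁ * w₂) = c := by ring
  rw [e1, e2]
  ring

theorem E3_dot_sub (θ γ x : ℂ) : dot (θ - γ) x = dot θ x + -dot γ x := by
  unfold dot
  rw [Complex.sub_re, Complex.sub_im]
  ring

theorem form_E3 {X Z N B Q R Q₀ R₀ s : ℕ} {k k₀ : ℂ → ℝ} {v μ v₀ μ₀ M L : ℝ} (hX : 1 ≤ X)
    (hZ : 1 ≤ Z) (hs : 1 ≤ s) (hk : LK k R v μ) (hv : (Q : ℝ) ^ 5 * v ≤ 1)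
    (hk₀ : LK k₀ R₀ v₀ μ₀) (hB : N + 8 * X * Z ≤ B)
    (hsup : ∀ α β, ‖wt X Z α β‖ * ‖1 - mult k R Q α‖ ≤ M) {f₀ f₁ f₂ : G → ℂ}
    (hf₂ : ∀ x, ‖f₂ x‖ ≤ 1) (hf₀ : Supp f₀ N) (hf₁ : Supp f₁ N) (hL0 : 0 ≤ L)
    (hL : ∀ (γ : ℂ) (x y : G), ‖F k₀ N f₂ γ (x : ℂ) - F k₀ N f₂ γ (y : ℂ)‖ ≤
      L * (|((x.re : ℝ) - y.re)| + |((x.im : ℝ) - y.im)|)) :
    ‖T X Z B f₀ (fun x => f₁ x - S k N Q f₁ x) (S k₀ N Q₀ f₂)‖ ≤
      (Q₀ : ℝ) ^ 3 * ((2 * (B : ℝ) / s + 3) ^ 2 * M + 2 * s * L * (15000 * (X : ℝ) ^ 2 *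
        (Z : ℝ) ^ 2)) * l2 N f₀ * l2 N f₁ := by
  have hM : 0 ≤ M := (mul_nonneg (norm_nonneg _) (norm_nonneg _)).trans (hsup 0 0)
  have hl1 := l2_nonneg N f₀
  have hl2 := l2_nonneg N f₁
  set g₁ : G → ℂ := fun x => f₁ x - S k N Q f₁ x with hg₁
  have hsg : Supp g₁ (N + R) := supp_sub_S hk.supp hf₁
  have hlg : l2 (N + R) g₁ ≤ 3 * l2 N f₁ := l2_sub_S_le hk hv hf₁
  set A : G → ℂ := fun c => ∑ w₁ ∈ W X, ∑ w₂ ∈ W X, ∑ z ∈ box (2 * Z), (psi Z z : ℂ) *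
      (f₀ (c - z * (star w₁ * w₂)) * g₁ (c - z * (star w₁ * w₂) + z * (w₁ * star w₂))) with hA
  have hT : T X Z B f₀ g₁ (S k₀ N Q₀ f₂) = ∑ γ ∈ Rat Q₀, ∑ x ∈ box B,
      (starRingEnd ℂ) (F k₀ N f₂ γ (x : ℂ)) * (e (-dot γ (x : ℂ)) * A x) := by
    rw [E3_T_eq hB hf₀, Finset.sum_comm]
    refine Finset.sum_congr rfl fun x _ => ?_
    unfold S
    rw [map_sum, Finset.sum_mul]
    refine Finset.sum_congr rfl fun γ _ => ?_
    rw [map_mul, ← e_neg]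
    ring
  have hV : ∀ γ : ℂ, ∑ x ∈ box B, ‖e (-dot γ (x : ℂ)) * A x‖ ≤
      15000 * (X : ℝ) ^ 2 * (Z : ℝ) ^ 2 * l2 N f₀ * l2 N f₁ := by
    intro γ
    have hsc : Supp (fun x => (starRingEnd ℂ) (g₁ x)) (N + R) := by
      intro x hx
      simp only
      rw [hsg x hx, map_zero]
    have hlc : l2 (N + R) (fun x => (starRingEnd ℂ) (g₁ x)) = l2 (N + R) g₁ := by
      unfold l2
      congr 1
      refine Finset.sum_congr rfl fun x _ => ?_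
      rw [RCLike.norm_conj]
    have h1 := triv_bound hX hZ hf₀ hsc (box B) (fun w₁ w₂ z => -(z * (star w₁ * w₂)))
      (fun w₁ w₂ z => -(z * (star w₁ * w₂)) + z * (w₁ * star w₂))
    have h2 : ∑ x ∈ box B, ‖e (-dot γ (x : ℂ)) * A x‖ = ∑ x ∈ box B, ‖∑ w₁ ∈ W X, ∑ w₂ ∈ W X,
        ∑ z ∈ box (2 * Z), (psi Z z : ℂ) * (f₀ (x + -(z * (star w₁ * w₂))) *
          (starRingEnd ℂ) ((starRingEnd ℂ) (g₁ (x + (-(z * (star w₁ * w₂)) +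
            z * (w₁ * star w₂))))))‖ := by
      refine Finset.sum_congr rfl fun x _ => ?_
      rw [norm_mul, norm_e, one_mul, hA]
      simp only
      congr 1
      refine Finset.sum_congr rfl fun w₁ _ => Finset.sum_congr rfl fun w₂ _ =>
        Finset.sum_congr rfl fun z _ => ?_
      rw [Complex.conj_conj, ← sub_eq_add_neg, ← add_assoc, ← sub_eq_add_neg]
    rw [h2]
    refine h1.trans ?_
    rw [hlc]
    calc 5000 * (X : ℝ) ^ 2 * (Z : ℝ) ^ 2 * l2 N f₀ * l2 (N + R) g₁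
        ≤ 5000 * (X : ℝ) ^ 2 * (Z : ℝ) ^ 2 * l2 N f₀ * (3 * l2 N f₁) := by gcongr
      _ = 15000 * (X : ℝ) ^ 2 * (Z : ℝ) ^ 2 * l2 N f₀ * l2 N f₁ := by ring
  have hκ : ∀ γ θ : ℂ, ‖∑ x ∈ box B, e (dot θ (x : ℂ)) * (e (-dot γ (x : ℂ)) * A x)‖ ≤
      M * l2 N f₀ * l2 N f₁ := by
    intro γ θ
    have h1 := char_E3 hX hZ hk hB hsup hf₀ hf₁ (θ - γ)
    have h2 : ∑ x ∈ box B, e (dot θ (x : ℂ)) * (e (-dot γ (x : ℂ)) * A x) =
        ∑ x ∈ box B, e (dot (θ - γ) (x : ℂ)) * A x := by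
      refine Finset.sum_congr rfl fun x _ => ?_
      rw [E3_dot_sub, e_add]
      ring
    rw [h2]
    exact h1
  rw [hT]
  refine (norm_sum_le _ _).trans ?_
  calc ∑ γ ∈ Rat Q₀, ‖∑ x ∈ box B, (starRingEnd ℂ) (F k₀ N f₂ γ (x : ℂ)) *
        (e (-dot γ (x : ℂ)) * A x)‖
      ≤ ∑ γ ∈ Rat Q₀, ((2 * (B : ℝ) / s + 3) ^ 2 * (M * l2 N f₀ * l2 N f₁) +
          2 * s * L * (15000 * (X : ℝ) ^ 2 * (Z : ℝ) ^ 2 * l2 N f₀ * l2 N f₁)) := by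
        refine Finset.sum_le_sum fun γ _ => ?_
        refine lip_sum (g := fun x : G => (starRingEnd ℂ) (F k₀ N f₂ γ (x : ℂ))) hs hL0
          (fun x => ?_) (fun x y => ?_) (hV γ) (hκ γ)
        · rw [RCLike.norm_conj]
          exact norm_F_le hk₀ hf₂ γ x
        · rw [← map_sub, RCLike.norm_conj]
          exact hL γ x y
    _ = ((Rat Q₀).card : ℝ) * (((2 * (B : ℝ) / s + 3) ^ 2 * M + 2 * s * L * (15000 * (X : ℝ) ^ 2 *
        (Z : ℝ) ^ 2)) * l2 N f₀ * l2 N f₁) := by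
        rw [Finset.sum_const, nsmul_eq_mul]
        ring
    _ ≤ (Q₀ : ℝ) ^ 3 * (((2 * (B : ℝ) / s + 3) ^ 2 * M + 2 * s * L * (15000 * (X : ℝ) ^ 2 *
        (Z : ℝ) ^ 2)) * l2 N f₀ * l2 N f₁) := by
        apply mul_le_mul_of_nonneg_right (card_Rat_le Q₀) (by positivity)
    _ = _ := by ring

end H29I
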