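import Pool.Agent.Lib.H29I.A5
import Pool.Agent.Lib.H29I.E0
import Pool.Agent.Lib.H29I.E2a
import Pool.Agent.Lib.H29I.D7

/-!
# Chunk E3b: the form with a character in place of `f₂`

Here the base point is `c = x + z u*`, `u = w₁ w₂*`, `x = c - z u*`, `x + z u = c + z (u - u*)`;
`g₁ = f₁ - S f₁`. In `∑_{w₁, w₂} ∑_z ψ z ∑_{c ∈ box B} e (dot θ c) f₀ (c - z u*) g₁ (c + z (u - u*))`
put `c = x + z u*`; `f₀` is supported in `box N` and `N + 8 X Z ≤ B`, so the inner sum is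
`e (dot θ (z u*)) ∑_{x ∈ box N} e (dot θ x) f₀ x g₁ (x + z u)`. Now `two_fun` with
`J = W × W × box (2 Z)`, `c_j = ψ z e (dot θ (z u*))`, `d_j = z u`: for every `ξ`
`∑_j c_j e (dot ξ d_j) = ∑_{w₁, w₂} ∑_z ψ z e (dot θ (z u*) + dot ξ (z u))
 = ∑_{w₁, w₂} K Z (θ u + ξ u*) = wt X Z ξ (-θ)`, so `hsup` (for `α = ξ`, `β = -θ`) is what is needed.
-/

open Finset Complex

namespace H29I

/-- Interchange of the sums. -/
theorem E3b_swap (B X Z : ℕ) (c : G → ℂ) (p : G → G → G → ℂ) (F : G → G → G → G → ℂ) :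
    ∑ x ∈ box B, c x * ∑ w₁ ∈ W X, ∑ w₂ ∈ W X, ∑ z ∈ box (2 * Z), p w₁ w₂ z * F w₁ w₂ z x =
      ∑ j ∈ W X ×ˢ W X ×ˢ box (2 * Z), p j.1 j.2.1 j.2.2 *
        ∑ x ∈ box B, c x * F j.1 j.2.1 j.2.2 x := by
  simp only [Finset.sum_product, Finset.mul_sum]
  rw [Finset.sum_comm]
  refine Finset.sum_congr rfl fun w₁ _ => ?_
  rw [Finset.sum_comm]
  refine Finset.sum_congr rfl fun w₂ _ => ?_
  rw [Finset.sum_comm]
  refine Finset.sum_congr rfl fun z _ => Finset.sum_congr rfl fun x _ => ?_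
  ring

theorem E3b_l2 (N : ℕ) (θ : ℂ) (f : G → ℂ) : l2 N (fun b => e (dot θ (b : ℂ)) * f b) = l2 N f := by
  unfold l2
  congr 1
  refine Finset.sum_congr rfl fun x _ => ?_
  rw [norm_mul, norm_e, one_mul]

/-- The exponential sum is the multiplier. -/
theorem E3b_wt (X Z : ℕ) (θ ξ : ℂ) :
    ∑ j ∈ W X ×ˢ W X ×ˢ box (2 * Z), ((psi Z j.2.2 : ℂ) *
      e (dot θ ((j.2.2 * (star j.1 * j.2.1) : G) : ℂ))) *
      e (dot ξ ((j.2.2 * (j.1 * star j.2.1) : G) : ℂ)) = wt X Z ξ (-θ) := by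
  unfold wt K
  simp only [Finset.sum_product]
  refine Finset.sum_congr rfl fun w₁ _ => Finset.sum_congr rfl fun w₂ _ =>
    Finset.sum_congr rfl fun z _ => ?_
  rw [mul_assoc, ← e_add]
  congr 2
  rw [star_mul_eq]
  generalize w₁ * star w₂ = u
  rw [GaussianInt.toComplex_mul, GaussianInt.toComplex_mul, coe_star,
    dot_mul_right, dot_mul_right, Complex.conj_conj, neg_mul, dot_sub_left, dot_neg_left]
  ring

theorem char_E3 {X Z N B Q R : ℕ} {k : ℂ → ℝ} {v μ M : ℝ} (hX : 1 ≤ X) (hZ : 1 ≤ Z)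
    (hk : LK k R v μ) (hB : N + 8 * X * Z ≤ B)
    (hsup : ∀ α β, ‖wt X Z α β‖ * ‖1 - mult k R Q α‖ ≤ M) {f₀ f₁ : G → ℂ} (hf₀ : Supp f₀ N)
    (hf₁ : Supp f₁ N) (θ : ℂ) :
    ‖∑ c ∈ box B, e (dot θ (c : ℂ)) * ∑ w₁ ∈ W X, ∑ w₂ ∈ W X, ∑ z ∈ box (2 * Z), (psi Z z : ℂ) *
      (f₀ (c - z * (star w₁ * w₂)) *
        (f₁ (c - z * (star w₁ * w₂) + z * (w₁ * star w₂)) -
          S k N Q f₁ (c - z * (star w₁ * w₂) + z * (w₁ * star w₂))))‖ ≤
      M * l2 N f₀ * l2 N f₁ := by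
  set g : G → ℂ := fun x => f₁ x - S k N Q f₁ x with hg
  have h1 : ∑ c ∈ box B, e (dot θ (c : ℂ)) * ∑ w₁ ∈ W X, ∑ w₂ ∈ W X, ∑ z ∈ box (2 * Z),
      (psi Z z : ℂ) * (f₀ (c - z * (star w₁ * w₂)) *
        (f₁ (c - z * (star w₁ * w₂) + z * (w₁ * star w₂)) -
          S k N Q f₁ (c - z * (star w₁ * w₂) + z * (w₁ * star w₂)))) =
      ∑ j ∈ W X ×ˢ W X ×ˢ box (2 * Z), ((psi Z j.2.2 : ℂ) *
        e (dot θ ((j.2.2 * (star j.1 * j.2.1) : G) : ℂ))) *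
        ∑ b ∈ box N, (e (dot θ (b : ℂ)) * f₀ b) * g (b + j.2.2 * (j.1 * star j.2.1)) := by
    rw [E3b_swap B X Z (fun x => e (dot θ (x : ℂ))) (fun _ _ z => (psi Z z : ℂ))
      (fun w₁ w₂ z c => f₀ (c - z * (star w₁ * w₂)) *
        (f₁ (c - z * (star w₁ * w₂) + z * (w₁ * star w₂)) -
          S k N Q f₁ (c - z * (star w₁ * w₂) + z * (w₁ * star w₂))))]
    refine Finset.sum_congr rfl fun j hj => ?_
    obtain ⟨w₁, w₂, z⟩ := j
    simp only [Finset.mem_product] at hj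
    obtain ⟨hw₁, hw₂, hz⟩ := hj
    simp only
    rw [mul_assoc]
    congr 1
    have hd : -(z * (star w₁ * w₂)) ∈ box (8 * X * Z) := by
      have h := E2a_mul_mem hz (star_mul_mem_box hw₁ hw₂)
      rw [mem_box] at h ⊢
      rw [Zsqrtd.re_neg, Zsqrtd.im_neg, abs_neg, abs_neg]
      exact h
    have h2 := sum_box_shift (E := ℂ) hB (H := fun y => e (dot θ ((y + z * (star w₁ * w₂) : G) : ℂ)) *
      (f₀ y * g (y + z * (w₁ * star w₂)))) (by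
        intro x hx
        rw [hf₀ x hx, zero_mul, mul_zero]) hd
    rw [Finset.mul_sum]
    refine Eq.trans ?_ (h2.trans ?_)
    · refine Finset.sum_congr rfl fun x _ => ?_
      rw [neg_add_cancel_right, ← sub_eq_add_neg]
    · refine Finset.sum_congr rfl fun x _ => ?_
      rw [GaussianInt.toComplex_add, dot_add_right, e_add]
      ring
  rw [h1]
  refine (two_fun (W X ×ˢ W X ×ˢ box (2 * Z)) _ _ (B₁ := N) (B₂ := N + R) (B₂' := N)
    (D := 8 * X * Z) (g₀ := f₁) (μ := fun ξ => 1 - mult k R Q ξ) (κ := M)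
    ?_ (supp_sub_S hk.supp hf₁) (FT_sub_S hk.supp hf₁) ?_).trans (le_of_eq ?_)
  · intro j hj
    simp only [Finset.mem_product] at hj
    obtain ⟨hw₁, hw₂, hz⟩ := hj
    exact E2a_mul_mem hz (mul_star_mem_box hw₁ hw₂)
  · intro ξ
    rw [E3b_wt]
    exact hsup _ _
  · rw [E3b_l2]

end H29I
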