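import Pool.Agent.Lib.H29I.E4e

/-!
# Chunk E4: the form for two structured functions

`T_expand`, `term_bound` and the definition of `MainI`; there are at most `200 X²` pairs
`(w₁, w₂)` (`card_W_sq_le`) and at most `Q³ · Q'³ ≤ Q⁶` pairs `(α, β)` (`card_Rat_le`):
`200 X² Q⁶ · 1200 Q² X Z² / l = 240000 Q⁸ X³ Z² / l`.
-/

open Finset Complex MeasureTheory

namespace H29I

theorem E4_MainI (X Q Q' : ℕ) (Φ₁ Φ₂ : ℂ → ℂ → ℂ) (x : ℂ) :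
    MainI X Q Q' Φ₁ Φ₂ x = ∑ w₁ ∈ W X, ∑ w₂ ∈ W X, ∑ α ∈ Rat Q, ∑ β ∈ Rat Q',
      e (dot (α - β) x) *
        (ind (α * (starRingEnd ℂ) ((w₁ * star w₂ : G) : ℂ) - β * ((w₁ * star w₂ : G) : ℂ)) *
        (((nrm w₁ : ℂ) * (nrm w₂ : ℂ))⁻¹ *
          ∫ ζ : ℂ, Φ₁ α (x + ζ * rot w₁) * (starRingEnd ℂ) (Φ₂ β (x + ζ * rot w₂)))) := by
  unfold MainI
  refine Finset.sum_congr rfl fun w₁ _ => Finset.sum_congr rfl fun w₂ _ => ?_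
  rw [Finset.mul_sum]
  refine Finset.sum_congr rfl fun α _ => ?_
  rw [Finset.mul_sum]
  refine Finset.sum_congr rfl fun β _ => ?_
  ring

theorem form_E4 {X Z N B Q Q' l : ℕ} {r : ℝ} (hX : 1 ≤ X) (hZ : 1 ≤ Z) (hl : 1 ≤ l)
    (hr : (l : ℝ) ≤ r) (hQ' : 1 ≤ Q') (hQ : Q' ≤ Q) (hlN : 10 * l ≤ N) (hNZ : 4 * N ≤ X * Z)
    (hB : N ≤ B) {f₀ f : G → ℂ} (hf₀ : Supp f₀ N) (hf : ∀ x, ‖f x‖ ≤ 1) :
    ‖T X Z B f₀ (S (tent l) N Q f) (S (sm l r) N Q' f) -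
      ∑ x ∈ box N, f₀ x * MainI X Q Q' (F (tent l) N f) (F (sm l r) N f) (x : ℂ)‖ ≤
      300000 * (Q : ℝ) ^ 8 * (X : ℝ) ^ 3 * (Z : ℝ) ^ 2 / l * ∑ x ∈ box N, ‖f₀ x‖ := by
  rw [T_expand hB hf₀, ← Finset.sum_sub_distrib, Finset.mul_sum]
  refine (norm_sum_le _ _).trans (Finset.sum_le_sum fun x hx => ?_)
  rw [← mul_sub, norm_mul, mul_comm]
  apply mul_le_mul_of_nonneg_right _ (norm_nonneg _)
  rw [E4_MainI X Q Q']
  set C : ℝ := 1200 * (Q : ℝ) ^ 2 * X * (Z : ℝ) ^ 2 / l with hC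
  have hC0 : 0 ≤ C := by positivity
  have hQ1 : (1 : ℝ) ≤ Q := by exact_mod_cast hQ'.trans hQ
  have hQQ : (Q' : ℝ) ≤ Q := by exact_mod_cast hQ
  have hX1 : (1 : ℝ) ≤ X := by exact_mod_cast hX
  simp_rw [← Finset.sum_sub_distrib, ← mul_sub]
  calc ‖∑ w₁ ∈ W X, ∑ w₂ ∈ W X, ∑ α ∈ Rat Q, ∑ β ∈ Rat Q', _‖
      ≤ ∑ w₁ ∈ W X, ∑ w₂ ∈ W X, ∑ α ∈ Rat Q, ∑ β ∈ Rat Q', C := by
        refine norm_sum_le_of_le _ fun w₁ h₁ => norm_sum_le_of_le _ fun w₂ h₂ =>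
          norm_sum_le_of_le _ fun α hα => norm_sum_le_of_le _ fun β hβ => ?_
        rw [norm_mul, norm_e, one_mul]
        exact term_bound hX hZ hl hr hQ' hQ hlN hNZ hf hx h₁ h₂ hα hβ
    _ = ((W X).card : ℝ) ^ 2 * (((Rat Q).card : ℝ) * ((Rat Q').card : ℝ)) * C := by
        simp only [Finset.sum_const, nsmul_eq_mul]
        ring
    _ ≤ (200 * (X : ℝ) ^ 2) * ((Q : ℝ) ^ 3 * (Q : ℝ) ^ 3) * C := by
        apply mul_le_mul_of_nonneg_right _ hC0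
        apply mul_le_mul (card_W_sq_le hX) _ (by positivity) (by positivity)
        apply mul_le_mul (card_Rat_le Q) _ (by positivity) (by positivity)
        refine (card_Rat_le Q').trans ?_
        exact pow_le_pow_left₀ (Nat.cast_nonneg _) hQQ 3
    _ = 240000 * ((Q : ℝ) ^ 8 * (X : ℝ) ^ 3 * (Z : ℝ) ^ 2 / l) := by
        rw [hC]; ring
    _ ≤ 300000 * ((Q : ℝ) ^ 8 * (X : ℝ) ^ 3 * (Z : ℝ) ^ 2 / l) := by
        apply mul_le_mul_of_nonneg_right (by norm_num) (by positivity)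
    _ = _ := by ring

end H29I
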