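import Pool.Agent.Lib.H29I.A3

/-!
# Chunk E4a: non-resonant sums

Apply `sbp_re` (or `sbp_im`) to `H = psi Z * h`, supported in `box (2 Z)`:
`‖H (z + 1) - H z‖ ≤ |ψ (z + 1) - ψ z| + ψ z ‖h (z + 1) - h z‖`, and
`∑_z |ψ (z + 1) - ψ z| ≤ 2 · (4 Z + 1) ≤ 10 Z` (`ψ z = φ (re z) φ (im z)`, the variation of `φ` is
`2`), `∑_z ψ z ≤ 25 Z²` (`sum_psi_le`).
-/

open Finset Complex

namespace H29I

theorem E4a_var_re {Z : ℕ} (hZ : 1 ≤ Z) :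
    ∑ t ∈ box (2 * Z + 1), |psi Z (t + 1) - psi Z t| ≤ 10 * Z := by
  have h3 : ∀ t ∈ box (2 * Z + 1), |psi Z (t + 1) - psi Z t| =
      |phi Z (t.re + 1) - phi Z t.re| * phi Z t.im := by
    intro t _
    unfold psi
    have h4 : (t + 1 : G).re = t.re + 1 := by simp
    have h5 : (t + 1 : G).im = t.im := by simp
    rw [h4, h5, ← sub_mul, abs_mul, abs_of_nonneg (phi_nonneg Z t.im)]
  rw [Finset.sum_congr rfl h3,
    A3_sum_box (2 * Z + 1) (fun a b => |phi Z (a + 1) - phi Z a| * phi Z b),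
    ← Finset.sum_mul_sum]
  have := mul_le_mul (A3_sum_diff hZ) (A3_sum_phi hZ)
    (Finset.sum_nonneg (fun n _ => phi_nonneg Z n)) (by norm_num)
  linarith

theorem E4a_var_im {Z : ℕ} (hZ : 1 ≤ Z) :
    ∑ t ∈ box (2 * Z + 1), |psi Z (t + gi) - psi Z t| ≤ 10 * Z := by
  have h3 : ∀ t ∈ box (2 * Z + 1), |psi Z (t + gi) - psi Z t| =
      phi Z t.re * |phi Z (t.im + 1) - phi Z t.im| := by
    intro t _
    unfold psi
    have h4 : (t + gi : G).re = t.re := by simp [gi]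
    have h5 : (t + gi : G).im = t.im + 1 := by simp [gi]
    rw [h4, h5, ← mul_sub, abs_mul, abs_of_nonneg (phi_nonneg Z t.re)]
  rw [Finset.sum_congr rfl h3,
    A3_sum_box (2 * Z + 1) (fun a b => phi Z a * |phi Z (b + 1) - phi Z b|),
    ← Finset.sum_mul_sum]
  have := mul_le_mul (A3_sum_phi hZ) (A3_sum_diff hZ)
    (Finset.sum_nonneg (fun n _ => abs_nonneg _)) (by positivity)
  linarith

theorem E4a_step {Z : ℕ} {h : G → ℂ} {L : ℝ} (h1 : ∀ z, ‖h z‖ ≤ 1) {d : G}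
    (hd : ∀ z, ‖h (z + d) - h z‖ ≤ L) (t : G) :
    ‖(psi Z (t + d) : ℂ) * h (t + d) - (psi Z t : ℂ) * h t‖ ≤
      |psi Z (t + d) - psi Z t| + psi Z t * L := by
  have e1 : (psi Z (t + d) : ℂ) * h (t + d) - (psi Z t : ℂ) * h t =
      ((psi Z (t + d) - psi Z t : ℝ) : ℂ) * h (t + d) + (psi Z t : ℂ) * (h (t + d) - h t) := by
    push_cast
    ring
  rw [e1]
  refine (norm_add_le _ _).trans ?_
  rw [norm_mul, norm_mul, Complex.norm_real, Complex.norm_real, Real.norm_eq_abs, Real.norm_eq_abs,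
    abs_of_nonneg (psi_nonneg Z t)]
  apply add_le_add
  · calc |psi Z (t + d) - psi Z t| * ‖h (t + d)‖ ≤ |psi Z (t + d) - psi Z t| * 1 :=
        mul_le_mul_of_nonneg_left (h1 _) (abs_nonneg _)
      _ = _ := mul_one _
  · exact mul_le_mul_of_nonneg_left (hd t) (psi_nonneg Z t)

theorem E4a_supp {Z : ℕ} (hZ : 1 ≤ Z) (h : G → ℂ) : Supp (fun z => (psi Z z : ℂ) * h z) (2 * Z) := by
  intro z hz
  show (psi Z z : ℂ) * h z = 0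
  rw [psi_eq_zero hZ hz, Complex.ofReal_zero, zero_mul]

theorem E4a_total {Z : ℕ} (hZ : 1 ≤ Z) {h : G → ℂ} {L : ℝ} (hL : 0 ≤ L)
    (h1 : ∀ z, ‖h z‖ ≤ 1) {d : G}
    (hd : ∀ z, ‖h (z + d) - h z‖ ≤ L)
    (hv : ∑ t ∈ box (2 * Z + 1), |psi Z (t + d) - psi Z t| ≤ 10 * Z) :
    ∑ t ∈ box (2 * Z + 1), ‖(psi Z (t + d) : ℂ) * h (t + d) - (psi Z t : ℂ) * h t‖ ≤
      10 * Z + 25 * (Z : ℝ) ^ 2 * L := by
  calc ∑ t ∈ box (2 * Z + 1), ‖(psi Z (t + d) : ℂ) * h (t + d) - (psi Z t : ℂ) * h t‖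
      ≤ ∑ t ∈ box (2 * Z + 1), (|psi Z (t + d) - psi Z t| + psi Z t * L) :=
        Finset.sum_le_sum (fun t _ => E4a_step h1 hd t)
    _ = ∑ t ∈ box (2 * Z + 1), |psi Z (t + d) - psi Z t| + (∑ t ∈ box (2 * Z), psi Z t) * L := by
        rw [Finset.sum_add_distrib, ← Finset.sum_mul,
          sum_box_eq (Nat.le_succ (2 * Z)) (fun x hx => psi_eq_zero hZ hx)]
    _ ≤ 10 * Z + 25 * (Z : ℝ) ^ 2 * L :=
        add_le_add hv (mul_le_mul_of_nonneg_right (sum_psi_le hZ) hL)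

theorem sum_nonres {Z : ℕ} (hZ : 1 ≤ Z) {h : G → ℂ} {L δ : ℝ} (hδ : 0 < δ) (hL : 0 ≤ L)
    (h1 : ∀ z, ‖h z‖ ≤ 1) (hre : ∀ z, ‖h (z + 1) - h z‖ ≤ L) (him : ∀ z, ‖h (z + gi) - h z‖ ≤ L)
    {ξ : ℂ} (hξ : δ ≤ max (dz ξ.re) (dz ξ.im)) :
    ‖∑ z ∈ box (2 * Z), (psi Z z : ℂ) * h z * e (dot ξ (z : ℂ))‖ ≤
      (10 * (Z : ℝ) + 25 * (Z : ℝ) ^ 2 * L) / (4 * δ) := by
  rw [le_div_iff₀ (by linarith)]
  have key : ∀ d : ℝ, δ ≤ d → 4 * d * ‖∑ z ∈ box (2 * Z), (psi Z z : ℂ) * h z * e (dot ξ (z : ℂ))‖ ≤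
      10 * Z + 25 * (Z : ℝ) ^ 2 * L →
      ‖∑ z ∈ box (2 * Z), (psi Z z : ℂ) * h z * e (dot ξ (z : ℂ))‖ * (4 * δ) ≤
        10 * Z + 25 * (Z : ℝ) ^ 2 * L := by
    intro d hd h2
    have h3 := mul_le_mul_of_nonneg_right hd (norm_nonneg
      (∑ z ∈ box (2 * Z), (psi Z z : ℂ) * h z * e (dot ξ (z : ℂ))))
    linarith
  rcases le_max_iff.1 hξ with hd | hd
  · exact key _ hd ((sbp_re (E4a_supp hZ h) ξ).trans (E4a_total hZ hL h1 hre (E4a_var_re hZ)))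
  · exact key _ hd ((sbp_im (E4a_supp hZ h) ξ).trans (E4a_total hZ hL h1 him (E4a_var_im hZ)))

end H29I
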