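import Pool.Agent.Lib.H29I.A3

/-!
# Chunk E4b: resonant sums are Riemann sums

Since `h` vanishes outside `{‖z‖ < Z}` and `ψ = 1` on `box Z`, `∑_z ψ z h z = ∑_{z ∈ box (Z + 1)} h z`.
The plane is the disjoint union of the squares `z + [0, 1)²`, `z` a lattice point; those with
`z ∉ box (Z + 1)` do not meet the support of `h`. For the others
`‖h z - ∫_{z + [0, 1)²} h‖ ≤ √2 L`; there are `(2 Z + 3)² ≤ 25 Z²` of them. (`h` is continuous with
compact support, hence integrable.)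
-/

open Finset Complex MeasureTheory

namespace H29I

/-- The half-open unit square with lower left corner `g`. -/
def E4b_sq (g : G) : Set ℂ := Set.Ico (g.re : ℝ) (g.re + 1) ×ℂ Set.Ico (g.im : ℝ) (g.im + 1)

theorem E4b_mem {g : G} {z : ℂ} : z ∈ E4b_sq g ↔ ⌊z.re⌋ = g.re ∧ ⌊z.im⌋ = g.im := by
  unfold E4b_sq
  rw [Complex.mem_reProdIm, Set.mem_Ico, Set.mem_Ico, Int.floor_eq_iff, Int.floor_eq_iff]

theorem E4b_meas (g : G) : MeasurableSet (E4b_sq g) :=
  (measurableSet_Ico.preimage Complex.measurable_re).inter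
    (measurableSet_Ico.preimage Complex.measurable_im)

theorem E4b_vol (g : G) : volume (E4b_sq g) = 1 := by
  have h1 : E4b_sq g = Complex.measurableEquivRealProd ⁻¹'
      (Set.Ico (g.re : ℝ) (g.re + 1) ×ˢ Set.Ico (g.im : ℝ) (g.im + 1)) := by
    ext z
    simp [E4b_sq, Complex.mem_reProdIm, Complex.measurableEquivRealProd_apply]
  rw [h1, (Complex.volume_preserving_equiv_real_prod).measure_preimage
    (measurableSet_Ico.prod measurableSet_Ico).nullMeasurableSet, Measure.volume_eq_prod,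
    Measure.prod_prod, Real.volume_Ico, Real.volume_Ico]
  simp

theorem E4b_disj : Pairwise (Function.onFun Disjoint E4b_sq) := by
  intro g g' hne
  rw [Function.onFun, Set.disjoint_left]
  intro z h1 h2
  rw [E4b_mem] at h1 h2
  exact hne (Zsqrtd.ext_iff.mpr ⟨h1.1.symm.trans h2.1, h1.2.symm.trans h2.2⟩)

theorem E4b_one {h : ℂ → ℂ} {L : ℝ} (hL0 : 0 ≤ L)
    (hL : ∀ z z', ‖h z - h z'‖ ≤ L * ‖z - z'‖) (hi : Integrable h) (g : G) :
    ‖h (g : ℂ) - ∫ z in E4b_sq g, h z‖ ≤ L * Real.sqrt 2 := by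
  have hvol : (volume : Measure ℂ).real (E4b_sq g) = 1 := by
    rw [Measure.real, E4b_vol]
    rfl
  have hfin : (volume : Measure ℂ) (E4b_sq g) < ⊤ := by
    rw [E4b_vol]
    exact ENNReal.one_lt_top
  have h1 : h (g : ℂ) = ∫ z in E4b_sq g, h (g : ℂ) := by
    rw [setIntegral_const, hvol, one_smul]
  have h2 : h (g : ℂ) - ∫ z in E4b_sq g, h z = ∫ z in E4b_sq g, (h (g : ℂ) - h z) := by
    have hc : Integrable (fun _ : ℂ => h (g : ℂ)) (volume.restrict (E4b_sq g)) :=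
      integrableOn_const (μ := (volume : Measure ℂ)) (C := h (g : ℂ)) hfin.ne
    rw [integral_sub hc hi.integrableOn, ← h1]
  rw [h2]
  have h3 := norm_setIntegral_le_of_norm_le_const (μ := (volume : Measure ℂ)) (s := E4b_sq g)
    (f := fun z => h (g : ℂ) - h z) (C := L * Real.sqrt 2) hfin ?_
  · rwa [hvol, mul_one] at h3
  · intro z hz
    refine (hL _ _).trans (mul_le_mul_of_nonneg_left ?_ hL0)
    refine (Complex.norm_le_sqrt_two_mul_max _).trans ?_
    have h4 : max |((g : ℂ) - z).re| |((g : ℂ) - z).im| ≤ 1 := by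
      unfold E4b_sq at hz
      rw [Complex.mem_reProdIm, Set.mem_Ico, Set.mem_Ico] at hz
      rw [Complex.sub_re, Complex.sub_im, ← GaussianInt.intCast_re, ← GaussianInt.intCast_im]
      refine max_le ?_ ?_
      · rw [abs_le]
        constructor <;> linarith [hz.1.1, hz.1.2]
      · rw [abs_le]
        constructor <;> linarith [hz.2.1, hz.2.2]
    calc Real.sqrt 2 * max |((g : ℂ) - z).re| |((g : ℂ) - z).im| ≤ Real.sqrt 2 * 1 :=
          mul_le_mul_of_nonneg_left h4 (Real.sqrt_nonneg _)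
      _ = Real.sqrt 2 := mul_one _

theorem E4b_far {Z : ℕ} {z : ℂ} (h : (Z : ℝ) ≤ |z.re| ∨ (Z : ℝ) ≤ |z.im|) : (Z : ℝ) ≤ ‖z‖ := by
  rcases h with h | h
  · exact h.trans (Complex.abs_re_le_norm z)
  · exact h.trans (Complex.abs_im_le_norm z)

theorem sum_res {Z : ℕ} (hZ : 1 ≤ Z) {h : ℂ → ℂ} {L : ℝ} (hL0 : 0 ≤ L)
    (hL : ∀ z z', ‖h z - h z'‖ ≤ L * ‖z - z'‖) (h0 : ∀ z : ℂ, (Z : ℝ) ≤ ‖z‖ → h z = 0) :
    ‖∑ z ∈ box (2 * Z), (psi Z z : ℂ) * h (z : ℂ) - ∫ z : ℂ, h z‖ ≤ 36 * (Z : ℝ) ^ 2 * L := by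
  classical
  have hcont : Continuous h := by
    have : LipschitzWith ⟨L, hL0⟩ h := LipschitzWith.of_dist_le_mul fun z z' => by
      rw [dist_eq_norm, dist_eq_norm]
      exact hL z z'
    exact this.continuous
  have hcs : HasCompactSupport h := by
    refine HasCompactSupport.intro (isCompact_closedBall (0 : ℂ) (Z : ℝ)) fun z hz => ?_
    refine h0 z ?_
    rw [Metric.mem_closedBall, dist_zero_right, not_le] at hz
    exact hz.le
  have hi : Integrable h := hcont.integrable_of_hasCompactSupport hcs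
  have hbox : ∀ z : G, z ∉ box Z → h (z : ℂ) = 0 := by
    intro z hz
    refine h0 _ (E4b_far ?_)
    rw [mem_box, not_and_or, not_le, not_le] at hz
    rw [← GaussianInt.intCast_re, ← GaussianInt.intCast_im, ← Int.cast_abs, ← Int.cast_abs]
    rcases hz with hz | hz
    · left
      exact_mod_cast hz.le
    · right
      exact_mod_cast hz.le
  have hsum : ∑ z ∈ box (2 * Z), (psi Z z : ℂ) * h (z : ℂ) = ∑ z ∈ box (Z + 1), h (z : ℂ) := by
    rw [sum_box_eq (show Z ≤ 2 * Z by omega) (H := fun z : G => (psi Z z : ℂ) * h (z : ℂ))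
      (fun x hx => by rw [hbox x hx, mul_zero]),
      sum_box_eq (show Z ≤ Z + 1 by omega) (H := fun z : G => h (z : ℂ)) hbox]
    refine Finset.sum_congr rfl fun z hz => ?_
    rw [psi_eq_one hz, Complex.ofReal_one, one_mul]
  have hint : ∫ z : ℂ, h z = ∑ g ∈ box (Z + 1), ∫ z in E4b_sq g, h z := by
    rw [← integral_biUnion_finset (box (Z + 1)) (fun g _ => E4b_meas g)
      (fun g _ g' _ hne => E4b_disj hne) (fun g _ => hi.integrableOn)]
    refine (setIntegral_eq_integral_of_forall_compl_eq_zero fun z hz => ?_).symm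
    refine h0 z (E4b_far ?_)
    by_contra hcon
    rw [not_or, not_le, not_le, abs_lt, abs_lt] at hcon
    apply hz
    rw [Set.mem_iUnion₂]
    refine ⟨⟨⌊z.re⌋, ⌊z.im⌋⟩, ?_, ?_⟩
    · rw [mem_box]
      have h1 := Int.floor_le z.re
      have h2 := Int.lt_floor_add_one z.re
      have h3 := Int.floor_le z.im
      have h4 := Int.lt_floor_add_one z.im
      obtain ⟨⟨h5, h6⟩, h7, h8⟩ := hcon
      have a1 : (-((Z : ℤ) + 1) : ℝ) ≤ (⌊z.re⌋ : ℝ) := by push_cast; linarith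
      have a2 : (⌊z.re⌋ : ℝ) ≤ ((Z : ℤ) + 1 : ℝ) := by push_cast; linarith
      have a3 : (-((Z : ℤ) + 1) : ℝ) ≤ (⌊z.im⌋ : ℝ) := by push_cast; linarith
      have a4 : (⌊z.im⌋ : ℝ) ≤ ((Z : ℤ) + 1 : ℝ) := by push_cast; linarith
      have b1 : -((Z : ℤ) + 1) ≤ ⌊z.re⌋ := by exact_mod_cast a1
      have b2 : ⌊z.re⌋ ≤ (Z : ℤ) + 1 := by exact_mod_cast a2
      have b3 : -((Z : ℤ) + 1) ≤ ⌊z.im⌋ := by exact_mod_cast a3
      have b4 : ⌊z.im⌋ ≤ (Z : ℤ) + 1 := by exact_mod_cast a4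
      push_cast
      exact ⟨abs_le.mpr ⟨b1, b2⟩, abs_le.mpr ⟨b3, b4⟩⟩
    · rw [E4b_mem]
      exact ⟨rfl, rfl⟩
  rw [hsum, hint, ← Finset.sum_sub_distrib]
  refine (norm_sum_le _ _).trans ((Finset.sum_le_sum fun g _ => E4b_one hL0 hL hi g).trans ?_)
  rw [Finset.sum_const, nsmul_eq_mul, card_box]
  have hZ' : (1 : ℝ) ≤ Z := by exact_mod_cast hZ
  have hs : Real.sqrt 2 ≤ 1.44 := by
    rw [show (1.44 : ℝ) = Real.sqrt (1.44 ^ 2) by rw [Real.sqrt_sq (by norm_num)]]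
    exact Real.sqrt_le_sqrt (by norm_num)
  have h5 : (((2 * (Z + 1) + 1) ^ 2 : ℕ) : ℝ) ≤ 25 * (Z : ℝ) ^ 2 := by
    push_cast
    nlinarith
  calc (((2 * (Z + 1) + 1) ^ 2 : ℕ) : ℝ) * (L * Real.sqrt 2)
      ≤ (25 * (Z : ℝ) ^ 2) * (L * 1.44) := by
        gcongr
    _ = 36 * (Z : ℝ) ^ 2 * L := by ring

end H29I
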