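import Pool.Agent.Lib.H29I.C1

/-!
# Chunk E4c: change of variables

Multiplication by a complex number `a ≠ 0` has (real) determinant `‖a‖²`, so
`∫ g (z a) dz = ‖a‖⁻² ∫ g`. Take `a = w₁* w₂*` (complex conjugates):
`a (w₁ / w₁*) = w₁ w₂*`, `a (w₂ / w₂*) = w₁* w₂`, `‖a‖² = nrm w₁ nrm w₂`.
-/

open Finset Complex MeasureTheory

namespace H29I

theorem E4c_ne {w : G} (hw : w ≠ 0) : (w : ℂ) ≠ 0 := by
  rw [Ne, GaussianInt.toComplex_eq_zero]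
  exact hw

theorem norm_rot {w : G} (hw : w ≠ 0) : ‖rot w‖ = 1 := by
  unfold rot
  rw [norm_div, RCLike.norm_conj]
  exact div_self (norm_ne_zero_iff.mpr (E4c_ne hw))

theorem E4c_norm_sq (w : G) : ‖(w : ℂ)‖ ^ 2 = (nrm w : ℝ) := by
  rw [← Complex.normSq_eq_norm_sq, Complex.normSq_apply, ← GaussianInt.intCast_re,
    ← GaussianInt.intCast_im]
  have h := nrm_eq w
  have h2 : ((nrm w : ℤ) : ℝ) = ((w.re ^ 2 + w.im ^ 2 : ℤ) : ℝ) := by rw [h]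
  push_cast at h2
  rw [h2]
  ring

theorem integral_comp_mul {a : ℂ} (ha : a ≠ 0) (g : ℂ → ℂ) :
    ∫ z : ℂ, g (z * a) = ((‖a‖ ^ 2 : ℝ) : ℂ)⁻¹ * ∫ z : ℂ, g z := by
  have hdet : LinearMap.det (LinearMap.mul ℝ ℂ a) = ‖a‖ ^ 2 := by
    have h1 := Algebra.norm_apply ℝ a
    rw [Algebra.norm_complex_apply] at h1
    rw [← Complex.normSq_eq_norm_sq, h1]
    rfl
  have hpos : 0 < ‖a‖ ^ 2 := by positivity
  have hne : LinearMap.det (LinearMap.mul ℝ ℂ a) ≠ 0 := by rw [hdet]; exact hpos.ne'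
  have hmap := MeasureTheory.Measure.map_linearMap_addHaar_eq_smul_addHaar
    (volume : Measure ℂ) hne
  have hemb := (Homeomorph.mulRight₀ a ha).measurableEmbedding
  have h2 := hemb.integral_map (μ := (volume : Measure ℂ)) g
  have hfun : (⇑(Homeomorph.mulRight₀ a ha) : ℂ → ℂ) = ⇑(LinearMap.mul ℝ ℂ a) := by
    funext z
    simp [mul_comm]
  rw [hfun, hmap, hdet, integral_smul_measure] at h2
  have h3 : (fun z : ℂ => g ((LinearMap.mul ℝ ℂ a) z)) = fun z : ℂ => g (z * a) := by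
    funext z
    simp [mul_comm]
  rw [h3] at h2
  rw [← h2, abs_of_nonneg (inv_nonneg.mpr hpos.le), ENNReal.toReal_ofReal (inv_nonneg.mpr hpos.le)]
  rw [Complex.real_smul, Complex.ofReal_inv]

theorem integral_change {w₁ w₂ : G} (h₁ : w₁ ≠ 0) (h₂ : w₂ ≠ 0) (φ₁ φ₂ : ℂ → ℂ) (x : ℂ) :
    ∫ z : ℂ, φ₁ (x + z * ((w₁ * star w₂ : G) : ℂ)) *
        (starRingEnd ℂ) (φ₂ (x + z * ((star w₁ * w₂ : G) : ℂ))) =
      ((nrm w₁ : ℂ) * (nrm w₂ : ℂ))⁻¹ *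
        ∫ ζ : ℂ, φ₁ (x + ζ * rot w₁) * (starRingEnd ℂ) (φ₂ (x + ζ * rot w₂)) := by
  have hw₁ := E4c_ne h₁
  have hw₂ := E4c_ne h₂
  have hc₁ : (starRingEnd ℂ) (w₁ : ℂ) ≠ 0 := (map_ne_zero _).mpr hw₁
  have hc₂ : (starRingEnd ℂ) (w₂ : ℂ) ≠ 0 := (map_ne_zero _).mpr hw₂
  set a : ℂ := (starRingEnd ℂ) (w₁ : ℂ) * (starRingEnd ℂ) (w₂ : ℂ) with ha
  have ha0 : a ≠ 0 := mul_ne_zero hc₁ hc₂
  have hstar : ∀ w : G, ((star w : G) : ℂ) = (starRingEnd ℂ) (w : ℂ) := by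
    intro w
    exact GaussianInt.toComplex_star w
  have h1 := integral_comp_mul ha0
    (fun ζ => φ₁ (x + ζ * rot w₁) * (starRingEnd ℂ) (φ₂ (x + ζ * rot w₂)))
  have h2 : (‖a‖ ^ 2 : ℝ) = (nrm w₁ : ℝ) * (nrm w₂ : ℝ) := by
    rw [ha, norm_mul, RCLike.norm_conj, RCLike.norm_conj, mul_pow, E4c_norm_sq, E4c_norm_sq]
  rw [h2] at h1
  push_cast at h1
  rw [← h1]
  congr 1
  funext z
  have e1 : z * a * rot w₁ = z * ((w₁ * star w₂ : G) : ℂ) := by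
    rw [GaussianInt.toComplex_mul, hstar, ha]
    unfold rot
    field_simp
  have e2 : z * a * rot w₂ = z * ((star w₁ * w₂ : G) : ℂ) := by
    rw [GaussianInt.toComplex_mul, hstar, ha]
    unfold rot
    field_simp
  rw [e1, e2]

end H29I
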