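import Pool.Agent.Lib.H29I.A4
import Pool.Agent.Lib.H29I.C4

/-!
# Chunk E4d: expansion of the form for two structured functions

With `u = w₁ w₂*`: `S k₁ N Q f (x + z u) = ∑_α e (dot α x) e (dot (α u*) z) F k₁ N f α (x + z u)` and
`conj (S k₂ N Q' f (x + z u*)) = ∑_β e (-dot β x) e (-dot (β u) z) conj (F k₂ N f β (x + z u*))`
(`dot_mul_right`).
-/

open Finset Complex

namespace H29I

/-- The inner sum over `z`. -/
noncomputable def Jz (Z : ℕ) (φ₁ φ₂ : ℂ → ℂ) (x ξ : ℂ) (u : G) : ℂ :=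
  ∑ z ∈ box (2 * Z), (psi Z z : ℂ) * (φ₁ (x + (z : ℂ) * (u : ℂ)) *
    (starRingEnd ℂ) (φ₂ (x + (z : ℂ) * ((star u : G) : ℂ)))) * e (dot ξ (z : ℂ))

theorem E4d_point {Q Q' N : ℕ} {k₁ k₂ : ℂ → ℝ} {f : G → ℂ} (x z u : G) :
    S k₁ N Q f (x + z * u) * (starRingEnd ℂ) (S k₂ N Q' f (x + z * star u)) =
      ∑ α ∈ Rat Q, ∑ β ∈ Rat Q', e (dot (α - β) (x : ℂ)) *
        (F k₁ N f α ((x : ℂ) + (z : ℂ) * (u : ℂ)) *
          (starRingEnd ℂ) (F k₂ N f β ((x : ℂ) + (z : ℂ) * ((star u : G) : ℂ))) *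
          e (dot (α * (starRingEnd ℂ) (u : ℂ) - β * (u : ℂ)) (z : ℂ))) := by
  unfold S
  rw [map_sum, Finset.sum_mul_sum]
  refine Finset.sum_congr rfl fun α _ => Finset.sum_congr rfl fun β _ => ?_
  have h1 : ((x + z * u : G) : ℂ) = (x : ℂ) + (z : ℂ) * (u : ℂ) := by
    rw [GaussianInt.toComplex_add, GaussianInt.toComplex_mul]
  have h2 : ((x + z * star u : G) : ℂ) = (x : ℂ) + (z : ℂ) * ((star u : G) : ℂ) := by
    rw [GaussianInt.toComplex_add, GaussianInt.toComplex_mul]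
  have h3 : ((star u : G) : ℂ) = (starRingEnd ℂ) (u : ℂ) := GaussianInt.toComplex_star u
  have h4 : e (dot α ((x + z * u : G) : ℂ)) =
      e (dot α (x : ℂ)) * e (dot (α * (starRingEnd ℂ) (u : ℂ)) (z : ℂ)) := by
    rw [h1, dot_add_right, e_add, dot_mul_right]
  have h5 : (starRingEnd ℂ) (e (dot β ((x + z * star u : G) : ℂ))) =
      e (-dot β (x : ℂ)) * e (-dot (β * (u : ℂ)) (z : ℂ)) := by
    rw [← e_neg, h2, dot_add_right, neg_add, e_add, dot_mul_right, h3, Complex.conj_conj]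
  have h6 : e (dot (α - β) (x : ℂ)) = e (dot α (x : ℂ)) * e (-dot β (x : ℂ)) := by
    rw [dot_sub_left, sub_eq_add_neg, e_add]
  have h7 : e (dot (α * (starRingEnd ℂ) (u : ℂ) - β * (u : ℂ)) (z : ℂ)) =
      e (dot (α * (starRingEnd ℂ) (u : ℂ)) (z : ℂ)) * e (-dot (β * (u : ℂ)) (z : ℂ)) := by
    rw [dot_sub_left, sub_eq_add_neg, e_add]
  rw [map_mul, h4, h5, h6, h7, h1, h2]
  ring

theorem E4d_inner {Z Q Q' N : ℕ} {k₁ k₂ : ℂ → ℝ} {f : G → ℂ} (x u : G) :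
    ∑ z ∈ box (2 * Z), (psi Z z : ℂ) *
      (S k₁ N Q f (x + z * u) * (starRingEnd ℂ) (S k₂ N Q' f (x + z * star u))) =
      ∑ α ∈ Rat Q, ∑ β ∈ Rat Q', e (dot (α - β) (x : ℂ)) *
        Jz Z (F k₁ N f α) (F k₂ N f β) (x : ℂ) (α * (starRingEnd ℂ) (u : ℂ) - β * (u : ℂ)) u := by
  have h1 : ∀ z ∈ box (2 * Z), (psi Z z : ℂ) *
      (S k₁ N Q f (x + z * u) * (starRingEnd ℂ) (S k₂ N Q' f (x + z * star u))) =
      ∑ α ∈ Rat Q, ∑ β ∈ Rat Q', e (dot (α - β) (x : ℂ)) * ((psi Z z : ℂ) *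
        (F k₁ N f α ((x : ℂ) + (z : ℂ) * (u : ℂ)) *
          (starRingEnd ℂ) (F k₂ N f β ((x : ℂ) + (z : ℂ) * ((star u : G) : ℂ)))) *
          e (dot (α * (starRingEnd ℂ) (u : ℂ) - β * (u : ℂ)) (z : ℂ))) := by
    intro z _
    rw [E4d_point, Finset.mul_sum]
    refine Finset.sum_congr rfl fun α _ => ?_
    rw [Finset.mul_sum]
    refine Finset.sum_congr rfl fun β _ => ?_
    ring
  rw [Finset.sum_congr rfl h1, Finset.sum_comm]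
  refine Finset.sum_congr rfl fun α _ => ?_
  rw [Finset.sum_comm]
  refine Finset.sum_congr rfl fun β _ => ?_
  rw [← Finset.mul_sum]
  rfl

theorem T_expand {X Z N B Q Q' : ℕ} {k₁ k₂ : ℂ → ℝ} (hB : N ≤ B) {f₀ f : G → ℂ}
    (hf₀ : Supp f₀ N) :
    T X Z B f₀ (S k₁ N Q f) (S k₂ N Q' f) = ∑ x ∈ box N, f₀ x * ∑ w₁ ∈ W X, ∑ w₂ ∈ W X,
      ∑ α ∈ Rat Q, ∑ β ∈ Rat Q', e (dot (α - β) (x : ℂ)) *
        Jz Z (F k₁ N f α) (F k₂ N f β) (x : ℂ)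
          (α * (starRingEnd ℂ) ((w₁ * star w₂ : G) : ℂ) - β * ((w₁ * star w₂ : G) : ℂ))
          (w₁ * star w₂) := by
  have h1 : ∀ w₁ w₂ z : G, ∑ x ∈ box B, f₀ x * S k₁ N Q f (x + z * (w₁ * star w₂)) *
      (starRingEnd ℂ) (S k₂ N Q' f (x + z * (star w₁ * w₂))) =
      ∑ x ∈ box N, f₀ x * (S k₁ N Q f (x + z * (w₁ * star w₂)) *
      (starRingEnd ℂ) (S k₂ N Q' f (x + z * star (w₁ * star w₂)))) := by
    intro w₁ w₂ z
    rw [sum_box_eq hB (fun x hx => by rw [hf₀ x hx, zero_mul, zero_mul])]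
    refine Finset.sum_congr rfl fun x _ => ?_
    rw [star_mul_eq, mul_assoc]
  unfold T
  simp only [h1]
  have h2 : ∀ w₁ w₂ : G, ∑ z ∈ box (2 * Z), (psi Z z : ℂ) * ∑ x ∈ box N,
      f₀ x * (S k₁ N Q f (x + z * (w₁ * star w₂)) *
      (starRingEnd ℂ) (S k₂ N Q' f (x + z * star (w₁ * star w₂)))) =
      ∑ x ∈ box N, f₀ x * ∑ α ∈ Rat Q, ∑ β ∈ Rat Q', e (dot (α - β) (x : ℂ)) *
        Jz Z (F k₁ N f α) (F k₂ N f β) (x : ℂ)
          (α * (starRingEnd ℂ) ((w₁ * star w₂ : G) : ℂ) - β * ((w₁ * star w₂ : G) : ℂ))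
          (w₁ * star w₂) := by
    intro w₁ w₂
    simp only [Finset.mul_sum]
    rw [Finset.sum_comm]
    refine Finset.sum_congr rfl fun x _ => ?_
    have h3 := E4d_inner (Z := Z) (Q := Q) (Q' := Q') (N := N) (k₁ := k₁) (k₂ := k₂) (f := f) x
      (w₁ * star w₂)
    simp only [← Finset.mul_sum]
    rw [← h3, Finset.mul_sum]
    refine Finset.sum_congr rfl fun z _ => ?_
    ring
  simp only [h2]
  have h4 : ∀ w₁ : G, ∑ w₂ ∈ W X, ∑ x ∈ box N, f₀ x * ∑ α ∈ Rat Q, ∑ β ∈ Rat Q',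
      e (dot (α - β) (x : ℂ)) *
        Jz Z (F k₁ N f α) (F k₂ N f β) (x : ℂ)
          (α * (starRingEnd ℂ) ((w₁ * star w₂ : G) : ℂ) - β * ((w₁ * star w₂ : G) : ℂ))
          (w₁ * star w₂) = ∑ x ∈ box N, f₀ x * ∑ w₂ ∈ W X, ∑ α ∈ Rat Q, ∑ β ∈ Rat Q',
      e (dot (α - β) (x : ℂ)) *
        Jz Z (F k₁ N f α) (F k₂ N f β) (x : ℂ)
          (α * (starRingEnd ℂ) ((w₁ * star w₂ : G) : ℂ) - β * ((w₁ * star w₂ : G) : ℂ))
          (w₁ * star w₂) := by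
    intro w₁
    rw [Finset.sum_comm]
    exact Finset.sum_congr rfl fun x _ => (Finset.mul_sum _ _ _).symm
  simp only [h4]
  rw [Finset.sum_comm]
  exact Finset.sum_congr rfl fun x _ => (Finset.mul_sum _ _ _).symm

end H29I
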