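import Pool.Agent.Lib.H29I.E4a
import Pool.Agent.Lib.H29I.E4b
import Pool.Agent.Lib.H29I.E4c
import Pool.Agent.Lib.H29I.E4d
import Pool.Agent.Lib.H29I.C6
import Pool.Agent.Lib.H29I.D10

/-!
# Chunk E4e: one term of the expansion

Put `u = w₁ w₂*`, `φ₁ = F (tent l) N f α`, `φ₂ = F (sm l r) N f β`, and
`h z = φ₁ (x + z u) conj (φ₂ (x + z u*))`. By `norm_Ftent_le`, `lip_Ftent`, `norm_Fsm_le`, `lip_Fsm`
and `‖u‖ ≤ 2 X`, `l ≤ r`, we have `‖h‖ ≤ 1` and `h` has the Lipschitz constant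
`L = (8 / l + 8 / r) 2 X ≤ 32 X / l`.

If `ξ = α u* - β u` is not a Gaussian integer: `ind ξ = 0`, and `sum_nonres` with `δ = 1 / (Q Q')`
(`nonres`) gives the bound `Q Q' (10 Z + 800 X Z² / l) / 4 ≤ 203 Q² X Z² / l` (`l ≤ X Z`).

If `ξ` is a Gaussian integer: `ind ξ = 1` and `e (dot ξ z) = 1`. If `h z ≠ 0` then (`Ftent_eq_zero`)
`‖x + z u‖ < √2 (N + l)`, `‖x‖ ≤ √2 N`, so `‖z‖ ‖u‖ < √2 (2 N + l) ≤ 3 N` and `‖z‖ < 3 N / X < Z`.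
`sum_res` bounds the difference of the sum and `∫ h` by `36 Z² · 32 X / l`, and `integral_change`
rewrites the integral.
-/

open Finset Complex MeasureTheory

namespace H29I

/-- The product of the two coefficients as a function of the plane. -/
noncomputable def E4e_h (φ₁ φ₂ : ℂ → ℂ) (x : ℂ) (u : G) (z : ℂ) : ℂ :=
  φ₁ (x + z * (u : ℂ)) * (starRingEnd ℂ) (φ₂ (x + z * ((star u : G) : ℂ)))

theorem E4e_norm_star (u : G) : ‖((star u : G) : ℂ)‖ = ‖(u : ℂ)‖ := by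
  rw [coe_star, Complex.norm_conj]

theorem E4e_h_le {φ₁ φ₂ : ℂ → ℂ} (h1 : ∀ y, ‖φ₁ y‖ ≤ 1) (h2 : ∀ y, ‖φ₂ y‖ ≤ 1) (x : ℂ) (u : G)
    (z : ℂ) : ‖E4e_h φ₁ φ₂ x u z‖ ≤ 1 := by
  unfold E4e_h
  rw [norm_mul, Complex.norm_conj]
  exact mul_le_one₀ (h1 _) (norm_nonneg _) (h2 _)

theorem E4e_h_lip {φ₁ φ₂ : ℂ → ℂ} (h1 : ∀ y, ‖φ₁ y‖ ≤ 1) (h2 : ∀ y, ‖φ₂ y‖ ≤ 1) {a b : ℝ}
    (l1 : ∀ y y', ‖φ₁ y - φ₁ y'‖ ≤ a * ‖y - y'‖) (l2 : ∀ y y', ‖φ₂ y - φ₂ y'‖ ≤ b * ‖y - y'‖)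
    (x : ℂ) (u : G) (z z' : ℂ) :
    ‖E4e_h φ₁ φ₂ x u z - E4e_h φ₁ φ₂ x u z'‖ ≤ (a + b) * ‖(u : ℂ)‖ * ‖z - z'‖ := by
  unfold E4e_h
  set A := φ₁ (x + z * (u : ℂ))
  set A' := φ₁ (x + z' * (u : ℂ))
  set B := φ₂ (x + z * ((star u : G) : ℂ))
  set B' := φ₂ (x + z' * ((star u : G) : ℂ))
  have e1 : A * (starRingEnd ℂ) B - A' * (starRingEnd ℂ) B' =
      (A - A') * (starRingEnd ℂ) B + A' * (starRingEnd ℂ) (B - B') := by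
    rw [map_sub]
    ring
  rw [e1]
  refine (norm_add_le _ _).trans ?_
  rw [norm_mul, norm_mul, Complex.norm_conj, Complex.norm_conj]
  have hA : ‖A - A'‖ ≤ a * (‖z - z'‖ * ‖(u : ℂ)‖) := by
    refine (l1 _ _).trans (le_of_eq ?_)
    congr 1
    rw [← norm_mul]
    congr 1
    ring
  have hB : ‖B - B'‖ ≤ b * (‖z - z'‖ * ‖(u : ℂ)‖) := by
    refine (l2 _ _).trans (le_of_eq ?_)
    congr 1
    rw [← E4e_norm_star u, ← norm_mul]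
    congr 1
    ring
  have h3 : ‖A - A'‖ * ‖B‖ ≤ ‖A - A'‖ * 1 := mul_le_mul_of_nonneg_left (h2 _) (norm_nonneg _)
  have h4 : ‖A'‖ * ‖B - B'‖ ≤ 1 * ‖B - B'‖ := mul_le_mul_of_nonneg_right (h1 _) (norm_nonneg _)
  calc ‖A - A'‖ * ‖B‖ + ‖A'‖ * ‖B - B'‖ ≤ a * (‖z - z'‖ * ‖(u : ℂ)‖) + b * (‖z - z'‖ * ‖(u : ℂ)‖) := by
        linarith
    _ = _ := by ring

theorem E4e_Jz (Z : ℕ) (φ₁ φ₂ : ℂ → ℂ) (x ξ : ℂ) (u : G) :
    Jz Z φ₁ φ₂ x ξ u =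
      ∑ z ∈ box (2 * Z), (psi Z z : ℂ) * E4e_h φ₁ φ₂ x u (z : ℂ) * e (dot ξ (z : ℂ)) := rfl

/-- Support of the product. -/
theorem E4e_zero {N l Z X : ℕ} (hl : 1 ≤ l) (hlN : 10 * l ≤ N) (hNZ : 4 * N ≤ X * Z) {f : G → ℂ}
    {x : G} (hx : x ∈ box N) {u : G} (hu : (X : ℝ) < ‖(u : ℂ)‖) (α : ℂ) (φ₂ : ℂ → ℂ) (z : ℂ)
    (hz : (Z : ℝ) ≤ ‖z‖) : E4e_h (F (tent l) N f α) φ₂ (x : ℂ) u z = 0 := by
  unfold E4e_h
  rw [Ftent_eq_zero hl f α, zero_mul]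
  by_contra hcon
  rw [not_or, not_le, not_le] at hcon
  obtain ⟨hc1, hc2⟩ := hcon
  rw [mem_box] at hx
  have hx1 : |(x.re : ℝ)| ≤ N := by
    rw [← Int.cast_abs]; exact_mod_cast hx.1
  have hx2 : |(x.im : ℝ)| ≤ N := by
    rw [← Int.cast_abs]; exact_mod_cast hx.2
  have hlN' : 10 * (l : ℝ) ≤ N := by exact_mod_cast hlN
  have hNZ' : 4 * (N : ℝ) ≤ X * Z := by exact_mod_cast hNZ
  have hl' : (1 : ℝ) ≤ l := by exact_mod_cast hl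
  have hre : |(z * (u : ℂ)).re| < 2.1 * N := by
    have h1 : (z * (u : ℂ)).re = ((x : ℂ) + z * (u : ℂ)).re - x.re := by
      rw [Complex.add_re, coe_re]; ring
    rw [h1]
    have := abs_sub (((x : ℂ) + z * (u : ℂ)).re) (x.re : ℝ)
    linarith
  have him : |(z * (u : ℂ)).im| < 2.1 * N := by
    have h1 : (z * (u : ℂ)).im = ((x : ℂ) + z * (u : ℂ)).im - x.im := by
      rw [Complex.add_im, coe_im]; ring
    rw [h1]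
    have := abs_sub (((x : ℂ) + z * (u : ℂ)).im) (x.im : ℝ)
    linarith
  have hn : ‖z * (u : ℂ)‖ ^ 2 < (4 * N : ℝ) ^ 2 := by
    rw [← Complex.normSq_eq_norm_sq, Complex.normSq_apply]
    have h1 : (z * (u : ℂ)).re * (z * (u : ℂ)).re = |(z * (u : ℂ)).re| ^ 2 := by
      rw [sq_abs]; ring
    have h2 : (z * (u : ℂ)).im * (z * (u : ℂ)).im = |(z * (u : ℂ)).im| ^ 2 := by
      rw [sq_abs]; ring
    rw [h1, h2]
    have h3 := pow_lt_pow_left₀ hre (abs_nonneg _) two_ne_zero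
    have h4 := pow_lt_pow_left₀ him (abs_nonneg _) two_ne_zero
    nlinarith
  have hn2 : ‖z * (u : ℂ)‖ < 4 * N := lt_of_pow_lt_pow_left₀ 2 (by positivity) hn
  have hn3 : (X : ℝ) * Z ≤ ‖z * (u : ℂ)‖ := by
    rw [norm_mul, mul_comm (X : ℝ)]
    exact mul_le_mul hz hu.le (Nat.cast_nonneg _) (norm_nonneg _)
  linarith

theorem term_bound {X Z N Q Q' l : ℕ} {r : ℝ} (hX : 1 ≤ X) (hZ : 1 ≤ Z) (hl : 1 ≤ l)
    (hr : (l : ℝ) ≤ r) (hQ' : 1 ≤ Q') (hQ : Q' ≤ Q) (hlN : 10 * l ≤ N) (hNZ : 4 * N ≤ X * Z)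
    {f : G → ℂ} (hf : ∀ x, ‖f x‖ ≤ 1) {x : G} (hx : x ∈ box N) {w₁ w₂ : G} (h₁ : w₁ ∈ W X)
    (h₂ : w₂ ∈ W X) {α β : ℂ} (hα : α ∈ Rat Q) (hβ : β ∈ Rat Q') :
    ‖Jz Z (F (tent l) N f α) (F (sm l r) N f β) (x : ℂ)
        (α * (starRingEnd ℂ) ((w₁ * star w₂ : G) : ℂ) - β * ((w₁ * star w₂ : G) : ℂ))
        (w₁ * star w₂) -
      ind (α * (starRingEnd ℂ) ((w₁ * star w₂ : G) : ℂ) - β * ((w₁ * star w₂ : G) : ℂ)) *
        (((nrm w₁ : ℂ) * (nrm w₂ : ℂ))⁻¹ *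
          ∫ ζ : ℂ, F (tent l) N f α ((x : ℂ) + ζ * rot w₁) *
            (starRingEnd ℂ) (F (sm l r) N f β ((x : ℂ) + ζ * rot w₂)))‖ ≤
      1200 * (Q : ℝ) ^ 2 * X * (Z : ℝ) ^ 2 / l := by
  set u : G := w₁ * star w₂ with hu
  set ξ : ℂ := α * (starRingEnd ℂ) (u : ℂ) - β * (u : ℂ) with hξ
  set φ₁ := F (tent l) N f α with hφ₁
  set φ₂ := F (sm l r) N f β with hφ₂
  have hl' : (1 : ℝ) ≤ l := by exact_mod_cast hl
  have hl0 : (0 : ℝ) < l := by linarith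
  have hr0 : 0 < r := lt_of_lt_of_le hl0 hr
  have hX' : (1 : ℝ) ≤ X := by exact_mod_cast hX
  have hZ' : (1 : ℝ) ≤ Z := by exact_mod_cast hZ
  have hQ1' : (1 : ℝ) ≤ Q' := by exact_mod_cast hQ'
  have hQQ' : (Q' : ℝ) ≤ Q := by exact_mod_cast hQ
  have hQ1 : (1 : ℝ) ≤ Q := hQ1'.trans hQQ'
  have hlN' : 10 * (l : ℝ) ≤ N := by exact_mod_cast hlN
  have hNZ' : 4 * (N : ℝ) ≤ X * Z := by exact_mod_cast hNZ
  have hlXZ : (l : ℝ) ≤ X * Z := by linarith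
  have n1 : ∀ y, ‖φ₁ y‖ ≤ 1 := fun y => norm_Ftent_le hl hf α y
  have n2 : ∀ y, ‖φ₂ y‖ ≤ 1 := fun y => norm_Fsm_le hl hr0 hf β y
  have l1 : ∀ y y', ‖φ₁ y - φ₁ y'‖ ≤ 8 / l * ‖y - y'‖ := fun y y' => lip_Ftent hl hf α y y'
  have l2 : ∀ y y', ‖φ₂ y - φ₂ y'‖ ≤ 8 / l * ‖y - y'‖ := fun y y' =>
    (lip_Fsm hl hr0 hf β y y').trans (mul_le_mul_of_nonneg_right
      (div_le_div_of_nonneg_left (by norm_num) hl0 hr) (norm_nonneg _))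
  have hun : ‖(u : ℂ)‖ ≤ 2 * X := norm_mul_star_le h₁ h₂
  have hul : (X : ℝ) < ‖(u : ℂ)‖ := lt_norm_mul_star h₁ h₂
  set L : ℝ := 32 * X / l with hL
  have hL0 : 0 ≤ L := by positivity
  have hlip : ∀ z z', ‖E4e_h φ₁ φ₂ (x : ℂ) u z - E4e_h φ₁ φ₂ (x : ℂ) u z'‖ ≤ L * ‖z - z'‖ := by
    intro z z'
    refine (E4e_h_lip n1 n2 l1 l2 (x : ℂ) u z z').trans ?_
    apply mul_le_mul_of_nonneg_right _ (norm_nonneg _)
    calc (8 / (l : ℝ) + 8 / l) * ‖(u : ℂ)‖ ≤ (8 / (l : ℝ) + 8 / l) * (2 * X) :=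
          mul_le_mul_of_nonneg_left hun (by positivity)
      _ = L := by rw [hL]; ring
  rw [E4e_Jz]
  by_cases hG : IsG ξ
  · rw [ind_of_isG hG, one_mul]
    have e1 : ∑ z ∈ box (2 * Z), (psi Z z : ℂ) * E4e_h φ₁ φ₂ (x : ℂ) u (z : ℂ) * e (dot ξ (z : ℂ)) =
        ∑ z ∈ box (2 * Z), (psi Z z : ℂ) * E4e_h φ₁ φ₂ (x : ℂ) u (z : ℂ) := by
      refine Finset.sum_congr rfl fun z _ => ?_
      rw [e_dot_eq_one hG, mul_one]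
    have e2 : (((nrm w₁ : ℂ) * (nrm w₂ : ℂ))⁻¹ *
          ∫ ζ : ℂ, φ₁ ((x : ℂ) + ζ * rot w₁) *
            (starRingEnd ℂ) (φ₂ ((x : ℂ) + ζ * rot w₂))) = ∫ z : ℂ, E4e_h φ₁ φ₂ (x : ℂ) u z := by
      rw [← integral_change (ne_zero_of_mem_W h₁) (ne_zero_of_mem_W h₂) φ₁ φ₂ (x : ℂ)]
      unfold E4e_h
      rw [star_mul_eq w₁ w₂]
    rw [e1, e2]
    refine (sum_res hZ hL0 hlip (fun z hz => E4e_zero hl hlN hNZ hx hul α φ₂ z hz)).trans ?_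
    rw [hL]
    have h5 : 36 * (Z : ℝ) ^ 2 * (32 * X / l) = 1152 * (X * (Z : ℝ) ^ 2 / l) := by ring
    have h6 : 1200 * (Q : ℝ) ^ 2 * X * (Z : ℝ) ^ 2 / l =
        (1200 * (Q : ℝ) ^ 2) * (X * (Z : ℝ) ^ 2 / l) := by ring
    rw [h5, h6]
    apply mul_le_mul_of_nonneg_right _ (by positivity)
    nlinarith
  · rw [ind_of_not_isG hG, zero_mul, sub_zero]
    have h5 := sum_nonres (Z := Z) hZ (h := fun z : G => E4e_h φ₁ φ₂ (x : ℂ) u (z : ℂ)) (L := L)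
      (δ := 1 / ((Q : ℝ) * Q')) (by positivity) hL0
      (fun z => E4e_h_le n1 n2 _ _ _)
      (fun z => by
        refine (hlip _ _).trans (le_of_eq ?_)
        rw [GaussianInt.toComplex_add, add_sub_cancel_left, GaussianInt.toComplex_one, norm_one,
          mul_one])
      (fun z => by
        refine (hlip _ _).trans (le_of_eq ?_)
        rw [GaussianInt.toComplex_add, add_sub_cancel_left]
        have hgi : ((gi : G) : ℂ) = Complex.I := by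
          apply Complex.ext
          · rw [coe_re]; simp [gi]
          · rw [coe_im]; simp [gi]
        rw [hgi, Complex.norm_I, mul_one])
      (ξ := ξ) (nonres hα hβ u hG)
    refine h5.trans ?_
    have h6 : (10 * (Z : ℝ) + 25 * (Z : ℝ) ^ 2 * L) / (4 * (1 / ((Q : ℝ) * Q'))) =
        (Q : ℝ) * Q' * ((10 * (Z : ℝ) + 25 * (Z : ℝ) ^ 2 * L) / 4) := by
      field_simp
    rw [h6]
    have h7 : 10 * (Z : ℝ) ≤ 10 * (X * (Z : ℝ) ^ 2 / l) := by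
      apply mul_le_mul_of_nonneg_left _ (by norm_num)
      rw [le_div_iff₀ hl0]
      nlinarith
    have h8 : 25 * (Z : ℝ) ^ 2 * L = 800 * (X * (Z : ℝ) ^ 2 / l) := by
      rw [hL]; ring
    have h9 : 1200 * (Q : ℝ) ^ 2 * X * (Z : ℝ) ^ 2 / l =
        (Q : ℝ) * Q * (1200 * (X * (Z : ℝ) ^ 2 / l)) := by ring
    rw [h8, h9]
    have h10 : 0 ≤ X * (Z : ℝ) ^ 2 / l := by positivity
    apply mul_le_mul (mul_le_mul_of_nonneg_left hQQ' (by linarith)) _ (by positivity) (by positivity)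
    linarith

end H29I
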