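import Pool.Agent.Lib.H29I.C6
import Pool.Agent.Lib.H29I.E4c
import Pool.Agent.Lib.H29I.D10

/-!
# Chunk F1: the main term is a sum of quadratic forms

Insert `ind_split` into the definition of `MainI` and interchange the sums. For a given `η ∈ Rat Q'`
the sum over `α ∈ Rat Q` may be restricted to `α ∈ Rat Q'` (`mem_Rat_of_res`, `Rat_mono`);
`e (dot (α - β) x) = e (dot α x) conj (e (dot β x))`; `ind` and `(nrm w)⁻¹` are real;
`F (sm l r) N f β (x + ζ rot w) = avg r (avg r (ζ ↦ F (tent l) N f β (x + ζ rot w))) ζ` by `F_sm` and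
`avg_rot` (twice). So `conj (avg r (avg r (PhiE X Q' Φ x η)) ζ)` is
`∑_{w₂} (nrm w₂)⁻¹ ∑_β ind (...) conj (e (dot β x)) conj (F (sm l r) N f β (x + ζ rot w₂))`
(`avg_sum`, `avg_const_mul`). The integral of the finite sum is the sum of the integrals (continuous
functions with compact support).
-/

open Finset Complex MeasureTheory

namespace H29I

theorem F1_cont {X Q : ℕ} {Φ : ℂ → ℂ → ℂ} (hΦ : ∀ α, Continuous (Φ α)) (x η : ℂ) :
    Continuous (PhiE X Q Φ x η) := by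
  unfold PhiE
  refine continuous_finsetSum _ fun w _ => continuous_const.mul ?_
  refine continuous_finsetSum _ fun α _ => continuous_const.mul ?_
  exact (hΦ α).comp (by fun_prop)

theorem continuous_PhiE (X N Q l : ℕ) (f : G → ℂ) (x η : ℂ) :
    Continuous (PhiE X Q (F (tent l) N f) x η) :=
  F1_cont (fun α => continuous_Ftent l N f α) x η

theorem F1_avg {X Q : ℕ} {r : ℝ} {Φ : ℂ → ℂ → ℂ} (hΦ : ∀ α, Continuous (Φ α)) (x η : ℂ) :
    avg r (PhiE X Q Φ x η) = PhiE X Q (fun α => avg r (Φ α)) x η := by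
  have h1 : PhiE X Q Φ x η = fun ζ => ∑ w ∈ W X, (nrm w : ℂ)⁻¹ * ∑ α ∈ Rat Q,
      (ind (α * (starRingEnd ℂ) (w : ℂ) - η * (w : ℂ)) * e (dot α x)) * Φ α (x + ζ * rot w) := rfl
  have hc : ∀ w : G, ∀ α : ℂ, Continuous fun ζ : ℂ => Φ α (x + ζ * rot w) := fun w α =>
    (hΦ α).comp (by fun_prop)
  have hcs : ∀ w ∈ W X, ∀ α ∈ Rat Q, Continuous fun ζ : ℂ =>
      (ind (α * (starRingEnd ℂ) (w : ℂ) - η * (w : ℂ)) * e (dot α x)) * Φ α (x + ζ * rot w) :=
    fun w _ α _ => continuous_const.mul (hc w α)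
  have hcw : ∀ w ∈ W X, Continuous fun ζ : ℂ => (nrm w : ℂ)⁻¹ * ∑ α ∈ Rat Q,
      (ind (α * (starRingEnd ℂ) (w : ℂ) - η * (w : ℂ)) * e (dot α x)) * Φ α (x + ζ * rot w) :=
    fun w hw => continuous_const.mul (continuous_finsetSum _ fun α hα => hcs w hw α hα)
  rw [h1, avg_sum (W X) hcw]
  funext ζ
  unfold PhiE
  refine Finset.sum_congr rfl fun w hw => ?_
  rw [avg_const_mul]
  dsimp only
  rw [avg_sum (Rat Q) (hcs w hw)]
  dsimp only
  refine congrArg _ (Finset.sum_congr rfl fun α _ => ?_)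
  rw [avg_const_mul]
  dsimp only
  rw [avg_rot (norm_rot (ne_zero_of_mem_W hw)) x (Φ α) ζ]

/-- Twice averaged `PhiE`. -/
theorem avg_avg_PhiE {X N Q l : ℕ} {r : ℝ} (hr : 0 < r) (f : G → ℂ) (x η : ℂ) :
    avg r (avg r (PhiE X Q (F (tent l) N f) x η)) = PhiE X Q (F (sm l r) N f) x η := by
  rw [F1_avg (fun α => continuous_Ftent l N f α) x η,
    F1_avg (fun α => continuous_avg hr (continuous_Ftent l N f α)) x η]
  have : (fun α => avg r (avg r (F (tent l) N f α))) = F (sm l r) N f := by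
    funext α
    rw [F_sm hr f α]
  rw [this]

theorem F1_conj_ind (z : ℂ) : (starRingEnd ℂ) (ind z) = ind z := by
  by_cases h : IsG z
  · rw [ind_of_isG h, map_one]
  · rw [ind_of_not_isG h, map_zero]

theorem F1_prod (X Q : ℕ) (Φ₁ Φ₂ : ℂ → ℂ → ℂ) (x η ζ : ℂ) :
    PhiE X Q Φ₁ x η ζ * (starRingEnd ℂ) (PhiE X Q Φ₂ x η ζ) =
      ∑ w₁ ∈ W X, ∑ w₂ ∈ W X, ∑ α ∈ Rat Q, ∑ β ∈ Rat Q,
        (((nrm w₁ : ℂ) * (nrm w₂ : ℂ))⁻¹ *
          (ind (α * (starRingEnd ℂ) (w₁ : ℂ) - η * (w₁ : ℂ)) *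
            ind (β * (starRingEnd ℂ) (w₂ : ℂ) - η * (w₂ : ℂ))) * e (dot (α - β) x)) *
        (Φ₁ α (x + ζ * rot w₁) * (starRingEnd ℂ) (Φ₂ β (x + ζ * rot w₂))) := by
  unfold PhiE
  rw [map_sum, Finset.sum_mul_sum]
  refine Finset.sum_congr rfl fun w₁ _ => Finset.sum_congr rfl fun w₂ _ => ?_
  rw [map_mul, map_sum, map_inv₀, Complex.conj_natCast]
  rw [show ∀ a b c d : ℂ, a * b * (c * d) = (a * c) * (b * d) from fun a b c d => by ring]
  rw [Finset.sum_mul_sum, Finset.mul_sum]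
  refine Finset.sum_congr rfl fun α _ => ?_
  rw [Finset.mul_sum]
  refine Finset.sum_congr rfl fun β _ => ?_
  rw [map_mul, map_mul, F1_conj_ind, dot_sub_left, sub_eq_add_neg (dot α x), e_add, e_neg,
    mul_inv]
  ring

theorem F1_supp {N l : ℕ} (hl : 1 ≤ l) (f : G → ℂ) (α x ω : ℂ) (hω : ‖ω‖ = 1) :
    HasCompactSupport fun ζ : ℂ => F (tent l) N f α (x + ζ * ω) := by
  refine HasCompactSupport.intro (isCompact_closedBall (0 : ℂ) (‖x‖ + 2 * ((N : ℝ) + l))) ?_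
  intro ζ hζ
  rw [mem_closedBall_zero_iff, not_le] at hζ
  refine Ftent_eq_zero hl f α ?_
  by_contra hcon
  push Not at hcon
  have h1 : ‖x + ζ * ω‖ ≤ |(x + ζ * ω).re| + |(x + ζ * ω).im| := Complex.norm_le_abs_re_add_abs_im _
  have h2 : ‖ζ‖ ≤ ‖x + ζ * ω‖ + ‖x‖ := by
    have h3 : ‖ζ * ω‖ = ‖ζ‖ := by rw [norm_mul, hω, mul_one]
    have h4 : ζ * ω = (x + ζ * ω) - x := by ring
    rw [← h3]
    calc ‖ζ * ω‖ = ‖(x + ζ * ω) - x‖ := by rw [← h4]
      _ ≤ _ := norm_sub_le _ _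
  linarith [hcon.1, hcon.2]

theorem MainI_eq {X N Q Q' l : ℕ} {r : ℝ} (hr : 0 < r) (hl : 1 ≤ l) (hQX : Q ≤ X)
    (hQ' : Q' ≤ Q) (f : G → ℂ) (x : ℂ) :
    MainI X Q Q' (F (tent l) N f) (F (sm l r) N f) x =
      ∑ η ∈ Rat Q', ∫ ζ : ℂ, PhiE X Q' (F (tent l) N f) x η ζ *
        (starRingEnd ℂ) (avg r (avg r (PhiE X Q' (F (tent l) N f) x η)) ζ) := by
  set Φ₁ := F (tent l) N f with hΦ₁
  set Φ₂ := F (sm l r) N f with hΦ₂
  have hΦc : ∀ β, Continuous (Φ₂ β) := fun β => by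
    rw [hΦ₂, F_sm hr f β]
    exact continuous_avg hr (continuous_avg hr (continuous_Ftent l N f β))
  have hint : ∀ w₁ ∈ W X, ∀ (w₂ : G) (α β : ℂ), Integrable fun ζ : ℂ =>
      Φ₁ α (x + ζ * rot w₁) * (starRingEnd ℂ) (Φ₂ β (x + ζ * rot w₂)) := by
    intro w₁ h₁ w₂ α β
    have hc : Continuous fun ζ : ℂ =>
      Φ₁ α (x + ζ * rot w₁) * (starRingEnd ℂ) (Φ₂ β (x + ζ * rot w₂)) := by
      refine Continuous.mul ((continuous_Ftent l N f α).comp (by fun_prop)) ?_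
      exact Complex.continuous_conj.comp ((hΦc β).comp (by fun_prop))
    refine hc.integrable_of_hasCompactSupport ?_
    exact (F1_supp hl f α x (rot w₁) (norm_rot (ne_zero_of_mem_W h₁))).mul_right
  have hR : ∀ η, (∫ ζ : ℂ, PhiE X Q' Φ₁ x η ζ *
        (starRingEnd ℂ) (avg r (avg r (PhiE X Q' Φ₁ x η)) ζ)) =
      ∑ w₁ ∈ W X, ∑ w₂ ∈ W X, ∑ α ∈ Rat Q', ∑ β ∈ Rat Q',
        (((nrm w₁ : ℂ) * (nrm w₂ : ℂ))⁻¹ *
          (ind (α * (starRingEnd ℂ) (w₁ : ℂ) - η * (w₁ : ℂ)) *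
            ind (β * (starRingEnd ℂ) (w₂ : ℂ) - η * (w₂ : ℂ))) * e (dot (α - β) x)) *
        ∫ ζ : ℂ, (Φ₁ α (x + ζ * rot w₁) * (starRingEnd ℂ) (Φ₂ β (x + ζ * rot w₂))) := by
    intro η
    rw [avg_avg_PhiE hr f x η]
    simp only [← hΦ₂, F1_prod]
    rw [integral_finsetSum _ (fun w₁ h₁ => integrable_finsetSum _ fun w₂ _ =>
      integrable_finsetSum _ fun α _ => integrable_finsetSum _ fun β _ =>
      (hint w₁ h₁ w₂ α β).const_mul _)]
    refine Finset.sum_congr rfl fun w₁ h₁ => ?_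
    rw [integral_finsetSum _ (fun w₂ _ =>
      integrable_finsetSum _ fun α _ => integrable_finsetSum _ fun β _ =>
      (hint w₁ h₁ w₂ α β).const_mul _)]
    refine Finset.sum_congr rfl fun w₂ _ => ?_
    rw [integral_finsetSum _ (fun α _ => integrable_finsetSum _ fun β _ =>
      (hint w₁ h₁ w₂ α β).const_mul _)]
    refine Finset.sum_congr rfl fun α _ => ?_
    rw [integral_finsetSum _ (fun β _ => (hint w₁ h₁ w₂ α β).const_mul _)]
    refine Finset.sum_congr rfl fun β _ => ?_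
    rw [integral_const_mul]
  rw [Finset.sum_congr rfl fun η _ => hR η]
  unfold MainI
  conv_rhs => rw [Finset.sum_comm]
  refine Finset.sum_congr rfl fun w₁ h₁ => ?_
  conv_rhs => rw [Finset.sum_comm]
  refine Finset.sum_congr rfl fun w₂ h₂ => ?_
  conv_rhs => rw [Finset.sum_comm]
  rw [Finset.mul_sum]
  rw [← Finset.sum_subset (Rat_mono hQ')]
  · refine Finset.sum_congr rfl fun α hα => ?_
    conv_rhs => rw [Finset.sum_comm]
    rw [Finset.mul_sum]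
    refine Finset.sum_congr rfl fun β hβ => ?_
    rw [ind_split (hQ'.trans hQX) hQX h₁ h₂ (Rat_mono hQ' hα) hβ, Finset.sum_mul, Finset.sum_mul,
      Finset.mul_sum]
    refine Finset.sum_congr rfl fun η _ => ?_
    ring
  · intro α hα hα'
    rw [Finset.sum_eq_zero, mul_zero]
    intro β hβ
    rw [ind_split (hQ'.trans hQX) hQX h₁ h₂ hα hβ, Finset.sum_eq_zero, zero_mul, zero_mul]
    intro η hη
    rw [ind_of_not_isG, zero_mul]
    intro h
    exact hα' (mem_Rat_of_res (hQ'.trans hQX) hQX h₁ hα hη h)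

end H29I
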