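import Pool.Agent.Lib.H29I.D0c

/-!
# Chunk F2: positivity of the quadratic form

By `integral_mul_avg` (with `h = avg r Φ`) `∫ Φ conj (avg (avg Φ)) = ∫ ‖avg Φ‖²`. The function
`avg Φ` is supported in the disc of radius `ρ + r` (`avg_eq_zero`), of area `π (ρ + r)²`, so by
Cauchy-Schwarz `‖∫ avg Φ‖² ≤ π (ρ + r)² ∫ ‖avg Φ‖²`, and `∫ avg Φ = ∫ Φ` (`integral_avg`).
-/

open Finset Complex MeasureTheory

namespace H29I

theorem F2_compact {ρ : ℝ} {Φ : ℂ → ℂ} (hs : ∀ ζ, ρ ≤ ‖ζ‖ → Φ ζ = 0) : HasCompactSupport Φ := by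
  refine HasCompactSupport.of_support_subset_isCompact (isCompact_closedBall (0 : ℂ) ρ) ?_
  intro ζ hζ
  rw [mem_closedBall_zero_iff]
  by_contra h
  exact hζ (hs ζ (not_le.1 h).le)

/-- Cauchy-Schwarz on a ball. -/
theorem F2_cs {s : ℝ} (hs : 0 < s) {A : ℂ → ℂ} (hc : Continuous A) (hA : ∀ ζ, s ≤ ‖ζ‖ → A ζ = 0) :
    ‖∫ ζ : ℂ, A ζ‖ ^ 2 ≤ (Real.pi * s ^ 2) * ∫ ζ : ℂ, ‖A ζ‖ ^ 2 := by
  have hcs := F2_compact hA
  have e1 : ∫ ζ : ℂ, ‖A ζ‖ ^ 2 = ∫ ζ in Metric.ball (0 : ℂ) s, ‖A ζ‖ ^ 2 := by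
    symm
    apply setIntegral_eq_integral_of_forall_compl_eq_zero
    intro ζ hζ
    rw [mem_ball_zero_iff, not_lt] at hζ
    rw [hA ζ hζ]; simp
  have e2 : ∫ ζ : ℂ, A ζ = ∫ ζ in Metric.ball (0 : ℂ) s, A ζ := by
    symm
    apply setIntegral_eq_integral_of_forall_compl_eq_zero
    intro ζ hζ
    rw [mem_ball_zero_iff, not_lt] at hζ
    exact hA ζ hζ
  have i1 : IntegrableOn (fun ζ => ‖A ζ‖) (Metric.ball (0 : ℂ) s) := 
    (hc.integrable_of_hasCompactSupport hcs).norm.integrableOn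
  have i2 : IntegrableOn (fun ζ => ‖A ζ‖ ^ 2) (Metric.ball (0 : ℂ) s) := by
    have h : Continuous (fun ζ => ‖A ζ‖ ^ 2) := hc.norm.pow 2
    exact (h.continuousOn.integrableOn_compact (isCompact_closedBall (0 : ℂ) s)).mono_set
      Metric.ball_subset_closedBall
  have hV : volume.real (Metric.ball (0 : ℂ) s) = Real.pi * s ^ 2 := D0_vol hs 0
  have hVpos : 0 < Real.pi * s ^ 2 := D0_pos hs
  set V : ℝ := Real.pi * s ^ 2 with hVdef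
  set I1 : ℝ := ∫ ζ in Metric.ball (0 : ℂ) s, ‖A ζ‖ with hI1
  set I2 : ℝ := ∫ ζ in Metric.ball (0 : ℂ) s, ‖A ζ‖ ^ 2 with hI2
  have h1 : ‖∫ ζ : ℂ, A ζ‖ ≤ I1 := by
    rw [e2]; exact norm_integral_le_integral_norm _
  have h2 : 0 ≤ I2 - 2 * (I1 / V) * I1 + (I1 / V) ^ 2 * V := by
    have e3 : ∫ ζ in Metric.ball (0 : ℂ) s, (‖A ζ‖ - I1 / V) ^ 2 =
        I2 - 2 * (I1 / V) * I1 + (I1 / V) ^ 2 * V := by
      have e4 : ∀ ζ : ℂ, (‖A ζ‖ - I1 / V) ^ 2 =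
          (‖A ζ‖ ^ 2 - 2 * (I1 / V) * ‖A ζ‖) + (I1 / V) ^ 2 := fun ζ => by ring
      simp_rw [e4]
      have i3 : IntegrableOn (fun ζ => 2 * (I1 / V) * ‖A ζ‖) (Metric.ball (0 : ℂ) s) :=
        i1.const_mul _
      have i4 : IntegrableOn (fun ζ => ‖A ζ‖ ^ 2 - 2 * (I1 / V) * ‖A ζ‖) (Metric.ball (0 : ℂ) s) :=
        i2.sub i3
      have i5 : IntegrableOn (fun _ : ℂ => (I1 / V) ^ 2) (Metric.ball (0 : ℂ) s) :=
        integrableOn_const measure_ball_lt_top.ne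
      rw [integral_add i4 i5, integral_sub i2 i3, integral_const_mul, setIntegral_const, hV,
        smul_eq_mul, mul_comm V]
    rw [← e3]
    exact integral_nonneg fun ζ => sq_nonneg _
  have h3 : I1 ^ 2 ≤ V * I2 := by
    have : I2 - 2 * (I1 / V) * I1 + (I1 / V) ^ 2 * V = (V * I2 - I1 ^ 2) / V := by
      field_simp
      ring
    rw [this] at h2
    have := (div_nonneg_iff.1 h2)
    rcases this with h | h
    · linarith [h.1]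
    · linarith [h.2]
  rw [e1]
  calc ‖∫ ζ : ℂ, A ζ‖ ^ 2 ≤ I1 ^ 2 := by
        exact pow_le_pow_left₀ (norm_nonneg _) h1 2
    _ ≤ V * I2 := h3

theorem quad_ge {r ρ : ℝ} (hr : 0 < r) (hρ : 0 ≤ ρ) {Φ : ℂ → ℂ} (hc : Continuous Φ)
    (hs : ∀ ζ, ρ ≤ ‖ζ‖ → Φ ζ = 0) :
    ‖∫ ζ : ℂ, Φ ζ‖ ^ 2 / (Real.pi * (ρ + r) ^ 2) ≤
      (∫ ζ : ℂ, Φ ζ * (starRingEnd ℂ) (avg r (avg r Φ) ζ)).re := by
  have hcs := F2_compact hs
  have hA : Continuous (avg r Φ) := continuous_avg hr hc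
  have hAz : ∀ ζ, ρ + r ≤ ‖ζ‖ → avg r Φ ζ = 0 := fun ζ hζ => avg_eq_zero hs hζ
  have hAcs := F2_compact hAz
  rw [integral_mul_avg hr hc hcs hA hAcs]
  have e1 : (∫ ζ : ℂ, avg r Φ ζ * (starRingEnd ℂ) (avg r Φ ζ)) =
      ((∫ ζ : ℂ, ‖avg r Φ ζ‖ ^ 2 : ℝ) : ℂ) := by
    rw [← integral_complex_ofReal]
    congr 1
    funext ζ
    rw [Complex.mul_conj, Complex.normSq_eq_norm_sq]
  rw [e1, Complex.ofReal_re, div_le_iff₀ (D0_pos (by linarith)), ← integral_avg hr hc hcs, mul_comm]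
  exact F2_cs (by linarith) hA hAz

end H29I
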