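import Pool.Agent.Lib.H29I.F1
import Pool.Agent.Lib.H29I.F2

/-!
# Chunk F3: lower bound for the main term

`PhiE_eq_zero`: if `Φ ζ ≠ 0` then for some `w, α`: `‖x + ζ rot w‖ < √2 (N + l)` (`Ftent_eq_zero`),
`‖x‖ ≤ √2 N`, so `‖ζ‖ < √2 (2 N + l) ≤ 3 N`.

`integral_PhiE_zero`: for `η = 0` only `α = 0` counts (`eq_zero_of_res`), and `integral_Ftent`.

`MainI_ge`: `MainI_eq`, `quad_ge` with `ρ = 3 N` for every `η ∈ Rat Q'`; all the terms are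
nonnegative, and the term `η = 0` is at least
`|∑ (nrm w)⁻¹|² ‖∑ f‖² / (π (4 N)²)`, `∑_w (nrm w)⁻¹ ≥ |W| / (2 X)`, `16 π ≤ 51`.
-/

open Finset Complex MeasureTheory

namespace H29I

theorem F3_norm_le {z : ℂ} {a : ℝ} (ha : 0 ≤ a) (h1 : |z.re| ≤ a) (h2 : |z.im| ≤ a) :
    ‖z‖ ≤ 1.4143 * a := by
  have h3 : ‖z‖ ^ 2 = z.re ^ 2 + z.im ^ 2 := by
    rw [Complex.sq_norm, Complex.normSq_apply]; ring
  have h4 : z.re ^ 2 ≤ a ^ 2 := by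
    rw [← sq_abs]
    exact pow_le_pow_left₀ (abs_nonneg _) h1 2
  have h5 : z.im ^ 2 ≤ a ^ 2 := by
    rw [← sq_abs]
    exact pow_le_pow_left₀ (abs_nonneg _) h2 2
  have h6 : ‖z‖ ^ 2 ≤ (1.4143 * a) ^ 2 := by
    rw [h3]
    nlinarith [sq_nonneg a]
  exact le_of_sq_le_sq h6 (by positivity)

theorem PhiE_eq_zero {X N Q l : ℕ} (hl : 1 ≤ l) (hlN : 10 * l ≤ N) (f : G → ℂ) {x : G}
    (hx : x ∈ box N) (η : ℂ) {ζ : ℂ} (hζ : 3 * (N : ℝ) ≤ ‖ζ‖) :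
    PhiE X Q (F (tent l) N f) (x : ℂ) η ζ = 0 := by
  unfold PhiE
  refine Finset.sum_eq_zero fun w hw => ?_
  rw [Finset.sum_eq_zero, mul_zero]
  intro α _
  rw [Ftent_eq_zero hl f α, mul_zero]
  by_contra hcon
  push Not at hcon
  have hN : (10 : ℝ) ≤ N := by
    have : 10 ≤ N := by omega
    exact_mod_cast this
  have hlN' : 10 * (l : ℝ) ≤ N := by exact_mod_cast hlN
  have hω := norm_rot (ne_zero_of_mem_W hw)
  have h1 : ‖(x : ℂ) + ζ * rot w‖ ≤ 1.4143 * ((N : ℝ) + l) :=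
    F3_norm_le (by positivity) hcon.1.le hcon.2.le
  rw [mem_box] at hx
  have h2 : ‖(x : ℂ)‖ ≤ 1.4143 * (N : ℝ) := by
    refine F3_norm_le (by positivity) ?_ ?_
    · rw [coe_re, ← Int.cast_abs]
      exact_mod_cast hx.1
    · rw [coe_im, ← Int.cast_abs]
      exact_mod_cast hx.2
  have h3 : ‖ζ‖ ≤ ‖(x : ℂ) + ζ * rot w‖ + ‖(x : ℂ)‖ := by
    have h3 : ‖ζ * rot w‖ = ‖ζ‖ := by rw [norm_mul, hω, mul_one]
    have h4 : ζ * rot w = ((x : ℂ) + ζ * rot w) - x := by ring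
    rw [← h3]
    calc ‖ζ * rot w‖ = ‖((x : ℂ) + ζ * rot w) - x‖ := by rw [← h4]
      _ ≤ _ := norm_sub_le _ _
  linarith

theorem F3_PhiE_zero {X N Q l : ℕ} (hQ1 : 1 ≤ Q) (hQX : Q ≤ X) (f : G → ℂ)
    (x ζ : ℂ) : PhiE X Q (F (tent l) N f) x 0 ζ =
      ∑ w ∈ W X, (nrm w : ℂ)⁻¹ * F (tent l) N f 0 (x + ζ * rot w) := by
  unfold PhiE
  refine Finset.sum_congr rfl fun w hw => ?_
  rw [Finset.sum_eq_single_of_mem 0 (zero_mem_Rat hQ1)]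
  · have h1 : (0 : ℂ) * (starRingEnd ℂ) (w : ℂ) - 0 * (w : ℂ) = 0 := by ring
    rw [h1, ind_of_isG isG_zero, dot_zero_left, e_zero]
    ring
  · intro α hα h0
    rw [ind_of_not_isG, zero_mul, zero_mul]
    intro h
    exact h0 (eq_zero_of_res hQX hw hα h)

theorem integral_PhiE_zero {X N Q l : ℕ} (hl : 1 ≤ l) (hQ1 : 1 ≤ Q) (hQX : Q ≤ X) (f : G → ℂ)
    (x : ℂ) : ∫ ζ : ℂ, PhiE X Q (F (tent l) N f) x 0 ζ =
      (∑ w ∈ W X, (nrm w : ℂ)⁻¹) * ∑ c ∈ box N, f c := by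
  simp only [F3_PhiE_zero hQ1 hQX]
  rw [integral_finsetSum, Finset.sum_mul]
  · refine Finset.sum_congr rfl fun w hw => ?_
    rw [integral_const_mul, integral_Ftent hl f x (rot w) (norm_rot (ne_zero_of_mem_W hw))]
  · intro w hw
    refine Integrable.const_mul ?_ _
    have hc : Continuous fun ζ : ℂ => F (tent l) N f 0 (x + ζ * rot w) :=
      (continuous_Ftent l N f 0).comp (by fun_prop)
    exact hc.integrable_of_hasCompactSupport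
      (F1_supp hl f 0 x (rot w) (norm_rot (ne_zero_of_mem_W hw)))

theorem F3_sum_inv {X : ℕ} (hX : 1 ≤ X) :
    ((W X).card : ℝ) / (2 * X) ≤ ‖∑ w ∈ W X, (nrm w : ℂ)⁻¹‖ := by
  have h1 : ∑ w ∈ W X, (nrm w : ℂ)⁻¹ = ((∑ w ∈ W X, (nrm w : ℝ)⁻¹ : ℝ) : ℂ) := by
    push_cast
    rfl
  have hX' : (0 : ℝ) < X := by exact_mod_cast hX
  rw [h1, Complex.norm_real, Real.norm_eq_abs]
  refine le_trans ?_ (le_abs_self _)
  rw [div_eq_mul_inv, ← nsmul_eq_mul, ← Finset.sum_const]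
  refine Finset.sum_le_sum fun w hw => ?_
  rw [mem_W] at hw
  have h2 : (0 : ℝ) < nrm w := by exact_mod_cast hw.1.pos
  have h3 : (nrm w : ℝ) ≤ 2 * X := by exact_mod_cast hw.2.2
  exact inv_anti₀ h2 h3

theorem MainI_ge {X N Q Q' l : ℕ} {r : ℝ} (hX : 1 ≤ X) (hN : 1 ≤ N) (hr : 0 < r) (hrN : r ≤ N)
    (hl : 1 ≤ l) (hlN : 10 * l ≤ N) (hQX : Q ≤ X) (hQ'1 : 1 ≤ Q') (hQ' : Q' ≤ Q) (f : G → ℂ)
    {x : G} (hx : x ∈ box N) :
    (((W X).card : ℝ) / (2 * X)) ^ 2 * ‖∑ c ∈ box N, f c‖ ^ 2 / (51 * (N : ℝ) ^ 2) ≤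
      (MainI X Q Q' (F (tent l) N f) (F (sm l r) N f) (x : ℂ)).re := by
  rw [MainI_eq hr hl hQX hQ' f (x : ℂ), Complex.re_sum]
  have hN' : (0 : ℝ) < N := by exact_mod_cast hN
  have hq : ∀ η, ‖∫ ζ : ℂ, PhiE X Q' (F (tent l) N f) (x : ℂ) η ζ‖ ^ 2 /
      (Real.pi * (3 * (N : ℝ) + r) ^ 2) ≤
      (∫ ζ : ℂ, PhiE X Q' (F (tent l) N f) (x : ℂ) η ζ *
        (starRingEnd ℂ) (avg r (avg r (PhiE X Q' (F (tent l) N f) (x : ℂ) η)) ζ)).re := by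
    intro η
    exact quad_ge hr (by positivity) (continuous_PhiE X N Q' l f (x : ℂ) η)
      (fun ζ hζ => PhiE_eq_zero hl hlN f hx η hζ)
  have hnn : ∀ η ∈ Rat Q', 0 ≤ (∫ ζ : ℂ, PhiE X Q' (F (tent l) N f) (x : ℂ) η ζ *
        (starRingEnd ℂ) (avg r (avg r (PhiE X Q' (F (tent l) N f) (x : ℂ) η)) ζ)).re := by
    intro η _
    refine le_trans ?_ (hq η)
    have := Real.pi_pos
    positivity
  refine le_trans ?_ (Finset.single_le_sum hnn (zero_mem_Rat hQ'1))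
  refine le_trans ?_ (hq 0)
  rw [integral_PhiE_zero hl hQ'1 (hQ'.trans hQX) f (x : ℂ), norm_mul, mul_pow]
  have hpi := Real.pi_pos
  have hpi2 := Real.pi_lt_d2
  have hA : (((W X).card : ℝ) / (2 * X)) ^ 2 ≤ ‖∑ w ∈ W X, (nrm w : ℂ)⁻¹‖ ^ 2 :=
    pow_le_pow_left₀ (by positivity) (F3_sum_inv hX) 2
  have hB : Real.pi * (3 * (N : ℝ) + r) ^ 2 ≤ 51 * (N : ℝ) ^ 2 := by
    have h1 : (3 * (N : ℝ) + r) ^ 2 ≤ (4 * (N : ℝ)) ^ 2 :=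
      pow_le_pow_left₀ (by positivity) (by linarith) 2
    calc Real.pi * (3 * (N : ℝ) + r) ^ 2 ≤ 3.15 * (4 * (N : ℝ)) ^ 2 :=
          mul_le_mul hpi2.le h1 (by positivity) (by norm_num)
      _ ≤ 51 * (N : ℝ) ^ 2 := by nlinarith [sq_nonneg (N : ℝ)]
  have hC : 0 < Real.pi * (3 * (N : ℝ) + r) ^ 2 := by positivity
  refine div_le_div₀ (by positivity) (mul_le_mul_of_nonneg_right hA (by positivity)) hC hB

end H29I
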