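import Pool.Agent.Lib.H29I.A3
import Pool.Agent.Lib.H29I.B2a
import Pool.Agent.Lib.H29I.C4

/-!
# Chunk G1: the form for a set without isosceles triangles

All the terms of `T X Z B 1_A 1_A 1_A` are nonnegative. Terms with `z = 0`: at most
`|W|² |A| ≤ 200 X² |A|`. Terms with `re u = 0` or `im u = 0`, `u = w₁ w₂*`: at most `4 |W|` pairs
(`card_im_zero`, `card_re_zero`), `∑_z ψ z ≤ 25 Z²`, together `100 |W| Z² |A| ≤ 1500 X Z² |A|`. All the
other terms vanish: for `z ≠ 0` and `re u ≠ 0`, `im u ≠ 0` the points `b = x + z u` and `c = x + z u*`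
satisfy `nrm (b - x) = nrm (c - x)` and `det (b - x) (c - x) = -2 (nrm z) (re u) (im u) ≠ 0`.
-/

open Finset Complex

namespace H29I

/-- No three non-collinear points `x, b, c` of `A` with `|x - b| = |x - c|`. -/
def TriFree (A : Finset G) : Prop :=
  ∀ x ∈ A, ∀ b ∈ A, ∀ c ∈ A, det (b - x) (c - x) ≠ 0 → nrm (b - x) ≠ nrm (c - x)

open Classical in
/-- The indicator function of `A`. -/
noncomputable def ia (A : Finset G) (x : G) : ℂ := if x ∈ A then 1 else 0

theorem norm_ia_le (A : Finset G) (x : G) : ‖ia A x‖ ≤ 1 := by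
  unfold ia
  split_ifs <;> simp

theorem supp_ia {A : Finset G} {N : ℕ} (hA : A ⊆ box N) : Supp (ia A) N := by
  intro x hx
  unfold ia
  rw [if_neg]
  exact fun h => hx (hA h)

theorem sum_ia {A : Finset G} {N : ℕ} (hA : A ⊆ box N) : ∑ x ∈ box N, ia A x = A.card := by
  classical
  unfold ia
  rw [Finset.sum_ite_mem, Finset.inter_eq_right.mpr hA, Finset.sum_const, nsmul_eq_mul, mul_one]

theorem G1_norm_ia (A : Finset G) (x : G) [Decidable (x ∈ A)] :
    ‖ia A x‖ = if x ∈ A then 1 else 0 := by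
  unfold ia
  split_ifs <;> simp

theorem sum_norm_ia {A : Finset G} {N : ℕ} (hA : A ⊆ box N) :
    ∑ x ∈ box N, ‖ia A x‖ = A.card := by
  classical
  simp only [G1_norm_ia]
  rw [Finset.sum_ite_mem, Finset.inter_eq_right.mpr hA, Finset.sum_const, nsmul_eq_mul, mul_one]

theorem l2_ia_sq {A : Finset G} {N : ℕ} (hA : A ⊆ box N) : l2 N (ia A) ^ 2 = A.card := by
  classical
  rw [l2, Real.sq_sqrt (Finset.sum_nonneg fun _ _ => sq_nonneg _), ← sum_norm_ia hA]
  refine Finset.sum_congr rfl fun x _ => ?_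
  rw [G1_norm_ia]
  split_ifs <;> simp

theorem G1_sum_le (A : Finset G) (B : ℕ) : ∑ x ∈ box B, ‖ia A x‖ ≤ A.card := by
  classical
  simp only [G1_norm_ia]
  rw [Finset.sum_ite_mem, Finset.sum_const, nsmul_eq_mul, mul_one]
  exact_mod_cast Finset.card_le_card Finset.inter_subset_right

/-- The inner sum is at most `|A|`. -/
theorem G1_inner_le (A : Finset G) (B : ℕ) (v v' : G) :
    ‖∑ x ∈ box B, ia A x * ia A (x + v) * (starRingEnd ℂ) (ia A (x + v'))‖ ≤ A.card := by
  refine (norm_sum_le _ _).trans ((Finset.sum_le_sum fun x _ => ?_).trans (G1_sum_le A B))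
  rw [norm_mul, norm_mul, RCLike.norm_conj]
  have h1 := norm_ia_le A (x + v)
  have h2 := norm_ia_le A (x + v')
  have h0 := norm_nonneg (ia A x)
  have h3 := norm_nonneg (ia A (x + v))
  have h4 := norm_nonneg (ia A (x + v'))
  calc ‖ia A x‖ * ‖ia A (x + v)‖ * ‖ia A (x + v')‖ ≤ ‖ia A x‖ * 1 * 1 := by gcongr
    _ = ‖ia A x‖ := by ring

theorem G1_det (z u : G) : det (z * u) (z * star u) = -2 * (z.re ^ 2 + z.im ^ 2) * u.re * u.im := by
  simp only [det, Zsqrtd.re_mul, Zsqrtd.im_mul, Zsqrtd.re_star, Zsqrtd.im_star]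
  ring

/-- The inner sum vanishes in the non-degenerate case. -/
theorem G1_inner_zero {A : Finset G} (hA : TriFree A) (B : ℕ) {z u : G} (hz : z ≠ 0)
    (h1 : u.re ≠ 0) (h2 : u.im ≠ 0) :
    ∑ x ∈ box B, ia A x * ia A (x + z * u) * (starRingEnd ℂ) (ia A (x + z * star u)) = 0 := by
  classical
  refine Finset.sum_eq_zero fun x _ => ?_
  by_cases hx : x ∈ A
  · by_cases hb : x + z * u ∈ A
    · by_cases hc : x + z * star u ∈ A
      · exfalso
        refine hA x hx _ hb _ hc ?_ ?_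
        · rw [add_sub_cancel_left, add_sub_cancel_left, G1_det]
          have hz' : z.re ^ 2 + z.im ^ 2 ≠ 0 := by
            intro h0
            apply hz
            rw [Zsqrtd.ext_iff]
            constructor
            · exact pow_eq_zero_iff (two_ne_zero) |>.mp (by nlinarith [sq_nonneg z.re, sq_nonneg z.im])
            · exact pow_eq_zero_iff (two_ne_zero) |>.mp (by nlinarith [sq_nonneg z.re, sq_nonneg z.im])
          exact mul_ne_zero (mul_ne_zero (mul_ne_zero (by norm_num) hz') h1) h2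
        · rw [add_sub_cancel_left, add_sub_cancel_left, nrm_mul, nrm_mul, nrm_star]
      · have : ia A (x + z * star u) = 0 := by
          unfold ia
          rw [if_neg hc]
        rw [this, map_zero, mul_zero]
    · have : ia A (x + z * u) = 0 := by
        unfold ia
        rw [if_neg hb]
      rw [this, mul_zero, zero_mul]
  · have : ia A x = 0 := by
      unfold ia
      rw [if_neg hx]
    rw [this, zero_mul, zero_mul]

theorem T_upper {X Z B : ℕ} (hX : 1 ≤ X) (hZ : 1 ≤ Z) {A : Finset G} (hA : TriFree A) :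
    ‖T X Z B (ia A) (ia A) (ia A)‖ ≤
      (200 * (X : ℝ) ^ 2 + 1500 * X * (Z : ℝ) ^ 2) * A.card := by
  classical
  have hpair : ∀ w₁ w₂ : G, ‖∑ z ∈ box (2 * Z), (psi Z z : ℂ) *
      ∑ x ∈ box B, ia A x * ia A (x + z * (w₁ * star w₂)) *
        (starRingEnd ℂ) (ia A (x + z * (star w₁ * w₂)))‖ ≤
      A.card * (1 + 25 * (Z : ℝ) ^ 2 * ((if (w₁ * star w₂).im = 0 then 1 else 0) +
        (if (w₁ * star w₂).re = 0 then 1 else 0))) := by
    intro w₁ w₂
    rw [star_mul_eq]
    set u := w₁ * star w₂ with hu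
    have hcard : (0 : ℝ) ≤ A.card := Nat.cast_nonneg _
    by_cases hd : u.im = 0 ∨ u.re = 0
    · have h1 : (1 : ℝ) ≤ (if u.im = 0 then 1 else 0) + (if u.re = 0 then 1 else 0) := by
        rcases hd with h | h
        · rw [if_pos h]
          split_ifs <;> norm_num
        · rw [if_pos h]
          split_ifs <;> norm_num
      have h2 : ‖∑ z ∈ box (2 * Z), (psi Z z : ℂ) *
          ∑ x ∈ box B, ia A x * ia A (x + z * u) *
            (starRingEnd ℂ) (ia A (x + z * star u))‖ ≤ (∑ z ∈ box (2 * Z), psi Z z) * A.card := by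
        refine (norm_sum_le _ _).trans ?_
        rw [Finset.sum_mul]
        refine Finset.sum_le_sum fun z _ => ?_
        rw [norm_mul, Complex.norm_real, Real.norm_eq_abs, abs_of_nonneg (psi_nonneg Z z)]
        exact mul_le_mul_of_nonneg_left (G1_inner_le A B _ _) (psi_nonneg Z z)
      refine h2.trans ?_
      have h3 := sum_psi_le hZ
      have h4 : (∑ z ∈ box (2 * Z), psi Z z) * A.card ≤ 25 * (Z : ℝ) ^ 2 * A.card :=
        mul_le_mul_of_nonneg_right h3 hcard
      have h5 : 25 * (Z : ℝ) ^ 2 * 1 ≤ 25 * (Z : ℝ) ^ 2 *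
          ((if u.im = 0 then 1 else 0) + (if u.re = 0 then 1 else 0)) :=
        mul_le_mul_of_nonneg_left h1 (by positivity)
      nlinarith
    · push Not at hd
      rw [if_neg hd.1, if_neg hd.2, add_zero, mul_zero, add_zero, mul_one]
      rw [Finset.sum_eq_single 0]
      · rw [norm_mul, Complex.norm_real, Real.norm_eq_abs, abs_of_nonneg (psi_nonneg Z 0)]
        have h1 := G1_inner_le A B (0 * u) (0 * star u)
        have h2 := psi_le_one Z 0
        have h3 := psi_nonneg Z 0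
        calc psi Z 0 * ‖∑ x ∈ box B, ia A x * ia A (x + 0 * u) *
            (starRingEnd ℂ) (ia A (x + 0 * star u))‖ ≤ 1 * A.card :=
              mul_le_mul h2 h1 (norm_nonneg _) zero_le_one
          _ = A.card := one_mul _
      · intro z _ hz
        rw [G1_inner_zero hA B hz hd.2 hd.1, mul_zero]
      · intro h
        exfalso
        apply h
        rw [mem_box]
        simp
  unfold T
  have h1 : ‖∑ w₁ ∈ W X, ∑ w₂ ∈ W X, ∑ z ∈ box (2 * Z), (psi Z z : ℂ) *
      ∑ x ∈ box B, ia A x * ia A (x + z * (w₁ * star w₂)) *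
        (starRingEnd ℂ) (ia A (x + z * (star w₁ * w₂)))‖ ≤
      ∑ w₁ ∈ W X, ∑ w₂ ∈ W X, (A.card : ℝ) * (1 + 25 * (Z : ℝ) ^ 2 *
        ((if (w₁ * star w₂).im = 0 then 1 else 0) +
        (if (w₁ * star w₂).re = 0 then 1 else 0))) := by
    refine (norm_sum_le _ _).trans (Finset.sum_le_sum fun w₁ _ => ?_)
    refine (norm_sum_le _ _).trans (Finset.sum_le_sum fun w₂ _ => ?_)
    exact hpair w₁ w₂
  refine h1.trans ?_
  have hi : ∑ w₁ ∈ W X, ∑ w₂ ∈ W X, (if (w₁ * star w₂).im = 0 then (1 : ℝ) else 0) ≤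
      2 * (W X).card := by
    rw [← Finset.sum_product', Finset.sum_boole]
    exact_mod_cast card_im_zero X
  have hr : ∑ w₁ ∈ W X, ∑ w₂ ∈ W X, (if (w₁ * star w₂).re = 0 then (1 : ℝ) else 0) ≤
      2 * (W X).card := by
    rw [← Finset.sum_product', Finset.sum_boole]
    exact_mod_cast card_re_zero X
  have h2 : ∑ w₁ ∈ W X, ∑ w₂ ∈ W X, (A.card : ℝ) * (1 + 25 * (Z : ℝ) ^ 2 *
        ((if (w₁ * star w₂).im = 0 then 1 else 0) +
        (if (w₁ * star w₂).re = 0 then 1 else 0))) =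
      A.card * (((W X).card : ℝ) ^ 2 + 25 * (Z : ℝ) ^ 2 *
        (∑ w₁ ∈ W X, ∑ w₂ ∈ W X, (if (w₁ * star w₂).im = 0 then (1 : ℝ) else 0) +
         ∑ w₁ ∈ W X, ∑ w₂ ∈ W X, (if (w₁ * star w₂).re = 0 then (1 : ℝ) else 0))) := by
    simp only [← Finset.mul_sum, Finset.sum_add_distrib, Finset.sum_const, nsmul_eq_mul]
    ring
  rw [h2]
  have h3 := card_W_sq_le hX
  have h4 := card_W_le hX
  have hcard : (0 : ℝ) ≤ A.card := Nat.cast_nonneg _
  rw [mul_comm]
  refine mul_le_mul_of_nonneg_right ?_ hcard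
  have h5 : 25 * (Z : ℝ) ^ 2 *
        (∑ w₁ ∈ W X, ∑ w₂ ∈ W X, (if (w₁ * star w₂).im = 0 then (1 : ℝ) else 0) +
         ∑ w₁ ∈ W X, ∑ w₂ ∈ W X, (if (w₁ * star w₂).re = 0 then (1 : ℝ) else 0)) ≤
      25 * (Z : ℝ) ^ 2 * (60 * X) := by
    refine mul_le_mul_of_nonneg_left ?_ (by positivity)
    linarith
  calc ((W X).card : ℝ) ^ 2 + 25 * (Z : ℝ) ^ 2 *
        (∑ w₁ ∈ W X, ∑ w₂ ∈ W X, (if (w₁ * star w₂).im = 0 then (1 : ℝ) else 0) +
         ∑ w₁ ∈ W X, ∑ w₂ ∈ W X, (if (w₁ * star w₂).re = 0 then (1 : ℝ) else 0))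
      ≤ 200 * (X : ℝ) ^ 2 + 25 * (Z : ℝ) ^ 2 * (60 * X) := add_le_add h3 h5
    _ = 200 * (X : ℝ) ^ 2 + 1500 * X * (Z : ℝ) ^ 2 := by ring

end H29I
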