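import Pool.Agent.Lib.H29I.Defs

/-!
# Chunk G2: the form is trilinear

Write `f = (f - s') + s'` in the third place; in the first term `f = (f - s₀) + s₀` in the first
place, in the second term `f = (f - s'') + s''` in the second place.
-/

open Finset Complex

namespace H29I

theorem T_chain (X Z B : ℕ) (f s₀ s₁ s₂ : G → ℂ) :
    T X Z B f f f = T X Z B (fun x => f x - s₀ x) f (fun x => f x - s₂ x) +
      T X Z B s₀ f (fun x => f x - s₂ x) + T X Z B f (fun x => f x - s₁ x) s₂ +
      T X Z B f s₁ s₂ := by
  simp only [T, ← Finset.sum_add_distrib, ← mul_add]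
  refine Finset.sum_congr rfl fun w₁ _ => Finset.sum_congr rfl fun w₂ _ =>
    Finset.sum_congr rfl fun z _ => ?_
  congr 1
  refine Finset.sum_congr rfl fun x _ => ?_
  rw [map_sub]
  ring

end H29I
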