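import Pool.Agent.Lib.H29I.Par
import Pool.Agent.Lib.H29I.E1
import Pool.Agent.Lib.H29I.E2
import Pool.Agent.Lib.H29I.E3
import Pool.Agent.Lib.H29I.E4
import Pool.Agent.Lib.H29I.F3
import Pool.Agent.Lib.H29I.G1
import Pool.Agent.Lib.H29I.G2
import Pool.Agent.Lib.H29I.D2

/-!
# Chunk G3: the theorem for one choice of the parameters

Suppose `|A| D > N²`. Put `f = ia A`, `R' = ⌈l + 2 r⌉`, `s₀ = S (tent l₀) N Q₀ f`,
`s₁ = S (tent l) N Q f`, `s₂ = S (sm l r) N Q' f`. `T_chain` and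
* `form_E1` (kernel `tent l₀`, `lk_tent`; `f₂ = f - s₂`, `l2 (N + R') f₂ ≤ 3 l2 N f` by `l2_sub_S_le`):
  `‖T (f - s₀) f (f - s₂)‖ ≤ 60000 √κ₀ Z² X² |A|`;
* `form_E2` (`k = sm l r`, `lk_sm`, `M = 16000 κ' Z² X²` by `sup_wt`; `k₀ = tent l₀`, `L = 2 / l₀` by
  `lip_F`);
* `form_E3` (`k = tent l`, `M = 16000 κ Z² X²`; `k₀ = sm l r`, `L = 8 / r` by `lip_Fsm_lattice`);
* `form_E4`, and `MainI_ge`: `Re ∑_{x ∈ box N} f x MainI x ≥ |A| · (|W| / (2 X))² |A|² / (51 N²)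
  ≥ |A| · (1 / (4 D²)) (N⁴ / D²) / (51 N²) = |A| N² / (204 D⁴)`;
* `T_upper`.
Divide by `|A| > 0` and compare with `fin`.
-/

open Finset Complex

namespace H29I

/-- Lower bound for the real part of the main term. -/
theorem G3_main_ge {N : ℕ} {A : Finset G} (hA : A ⊆ box N) {c : ℝ} {I : G → ℂ}
    (hI : ∀ x ∈ box N, c ≤ (I x).re) :
    (A.card : ℝ) * c ≤ (∑ x ∈ box N, ia A x * I x).re := by
  classical
  have h1 : ∑ x ∈ box N, ia A x * I x = ∑ x ∈ A, I x := by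
    rw [← Finset.sum_subset hA (f := fun x => ia A x * I x)]
    · apply Finset.sum_congr rfl
      intro x hx
      simp [ia, hx]
    · intro x _ hx
      simp [ia, hx]
  rw [h1, Complex.re_sum]
  calc (A.card : ℝ) * c = ∑ x ∈ A, c := by rw [Finset.sum_const, nsmul_eq_mul]
    _ ≤ _ := Finset.sum_le_sum fun x hx => hI x (hA hx)

theorem main_of_par {D X Z N B l₀ s Q₀ s' Q' Q l : ℕ} {r κ₀ κ' κ : ℝ}
    (h : Par D X Z N B l₀ s Q₀ s' Q' Q l r κ₀ κ' κ) (hW : (X : ℝ) / D ≤ (W X).card)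
    {A : Finset G} (hA : A ⊆ box N) (hfree : TriFree A) :
    (A.card : ℝ) * D ≤ (N : ℝ) ^ 2 := by
  by_contra hcon
  rw [not_le] at hcon
  set f := ia A with hf
  have hf1 : ∀ x, ‖f x‖ ≤ 1 := norm_ia_le A
  have hfN : Supp f N := supp_ia hA
  have hl2 : l2 N f * l2 N f = A.card := by rw [← sq]; exact l2_ia_sq hA
  have hl20 : 0 ≤ l2 N f := l2_nonneg _ _
  have hl1 : (1 : ℝ) ≤ l := by exact_mod_cast h.hl
  have hr : 0 < r := by linarith [h.hlr]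
  have hR' : (l : ℝ) + 2 * r ≤ (⌈(l : ℝ) + 2 * r⌉₊ : ℕ) := Nat.le_ceil _
  set R' := ⌈(l : ℝ) + 2 * r⌉₊ with hR'def
  have k0 := lk_tent h.hl₀
  have k1 := lk_tent h.hl
  have k2 := lk_sm h.hl hr hR'
  have hv' : (Q' : ℝ) ^ 5 * (2 / l) ≤ 1 := h.e2d.trans h.hκ'1
  have hv : (Q : ℝ) ^ 5 * (2 / l) ≤ 1 := h.e3d.trans h.hκ1
  have hD : (1 : ℝ) ≤ D := by exact_mod_cast h.hD
  have hN : (1 : ℝ) ≤ N := by exact_mod_cast h.hN
  have hX : (1 : ℝ) ≤ X := by exact_mod_cast h.hX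
  have hZ : (1 : ℝ) ≤ Z := by exact_mod_cast h.hZ
  have hl₀1 : (1 : ℝ) ≤ l₀ := by exact_mod_cast h.hl₀
  have hcard : 0 < (A.card : ℝ) := by
    have h1 : 0 < (A.card : ℝ) * D := lt_of_le_of_lt (by positivity) hcon
    by_contra hneg
    have h2 : (A.card : ℝ) = 0 := le_antisymm (not_lt.1 hneg) (Nat.cast_nonneg _)
    rw [h2, zero_mul] at h1
    exact lt_irrefl _ h1
  -- the four parts
  have b1 := form_E1 (X := X) (Z := Z) (N := N) (B := B) (B₂ := N + R') (Q := Q₀) (R := l₀)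
    h.hX h.hZ h.hκ₀ h.hκ₀1 k0 h.e1a h.e1b h.e1c h.e1d h.e1e h.e1f h.hB₀ hfN hf1
    (f₂ := fun x => f x - S (sm l r) N Q' f x) (supp_sub_S k2.supp hfN)
  have b1' := l2_sub_S_le k2 hv' hfN
  have b2 := form_E2 (X := X) (Z := Z) (N := N) (B := B) (Q := Q') (R := R') (Q₀ := Q₀)
    (R₀ := l₀) (s := s) (M := 16000 * κ' * (Z : ℝ) ^ 2 * (X : ℝ) ^ 2) (L := 2 / l₀)
    h.hX h.hZ h.hs k2 hv' k0 h.hB
    (fun α β => (sup_wt h.hX h.hZ h.hκ' h.hκ'1 k2 h.e2a h.e2b h.e2c h.e2d h.e2e h.e2f α β).2)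
    (f₀ := f) (f₁ := f) (f₂ := f) hf1 hfN hfN (by positivity)
    (fun γ x y => lip_F k0 hf1 γ x y)
  have b3 := form_E3 (X := X) (Z := Z) (N := N) (B := B) (Q := Q) (R := l) (Q₀ := Q')
    (R₀ := R') (s := s') (M := 16000 * κ * (Z : ℝ) ^ 2 * (X : ℝ) ^ 2) (L := 8 / r)
    h.hX h.hZ h.hs' k1 hv k2 h.hB
    (fun α β => (sup_wt h.hX h.hZ h.hκ h.hκ1 k1 h.e3a h.e3b h.e3c h.e3d h.e3e h.e3f α β).1)
    (f₀ := f) (f₁ := f) (f₂ := f) hf1 hfN hfN (by positivity)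
    (fun γ x y => lip_Fsm_lattice h.hl hr hf1 γ x y)
  have b4 := form_E4 (X := X) (Z := Z) (N := N) (B := B) (Q := Q) (Q' := Q') (l := l) (r := r)
    h.hX h.hZ h.hl h.hlr h.hQ'1 h.hQ'Q h.hlN h.hNZ.le (le_trans (Nat.le_add_right _ _) h.hB)
    hfN hf1
  have b5 := T_upper (X := X) (Z := Z) (B := B) h.hX h.hZ hfree
  rw [← hf] at b5
  have hsum : ∑ x ∈ box N, ‖f x‖ = A.card := sum_norm_ia hA
  rw [hsum] at b4
  have hchain := T_chain X Z B f (S (tent l₀) N Q₀ f) (S (tent l) N Q f) (S (sm l r) N Q' f)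
  set t1 := T X Z B (fun x => f x - S (tent l₀) N Q₀ f x) f (fun x => f x - S (sm l r) N Q' f x)
  set t2 := T X Z B (S (tent l₀) N Q₀ f) f (fun x => f x - S (sm l r) N Q' f x)
  set t3 := T X Z B f (fun x => f x - S (tent l) N Q f x) (S (sm l r) N Q' f)
  set t4 := T X Z B f (S (tent l) N Q f) (S (sm l r) N Q' f)
  set m := ∑ x ∈ box N, f x * MainI X Q Q' (F (tent l) N f) (F (sm l r) N f) (x : ℂ) with hm
  -- the main term
  set c := (((W X).card : ℝ) / (2 * X)) ^ 2 * ‖∑ c ∈ box N, f c‖ ^ 2 / (51 * (N : ℝ) ^ 2) with hc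
  have hmain : (A.card : ℝ) * c ≤ m.re :=
    G3_main_ge hA fun x hx => MainI_ge h.hX h.hN hr h.hrN h.hl h.hlN h.hQX h.hQ'1 h.hQ'Q f hx
  have hcge : (N : ℝ) ^ 2 / (204 * (D : ℝ) ^ 4) ≤ c := by
    have h1 : ‖∑ c ∈ box N, f c‖ = A.card := by
      rw [hf, sum_ia hA]; simp
    rw [hc, h1]
    have h2 : 1 / (2 * (D : ℝ)) ≤ ((W X).card : ℝ) / (2 * X) := by
      rw [div_le_div_iff₀ (by positivity) (by positivity)]
      have := (div_le_iff₀ (by linarith : (0 : ℝ) < D)).1 hW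
      nlinarith
    have h3 : (N : ℝ) ^ 2 / D ≤ A.card := by
      rw [div_le_iff₀ (by linarith)]; exact hcon.le
    have h4 : (1 / (2 * (D : ℝ))) ^ 2 ≤ (((W X).card : ℝ) / (2 * X)) ^ 2 :=
      pow_le_pow_left₀ (by positivity) h2 2
    have h5 : ((N : ℝ) ^ 2 / D) ^ 2 ≤ (A.card : ℝ) ^ 2 := pow_le_pow_left₀ (by positivity) h3 2
    calc (N : ℝ) ^ 2 / (204 * (D : ℝ) ^ 4)
        = (1 / (2 * (D : ℝ))) ^ 2 * ((N : ℝ) ^ 2 / D) ^ 2 / (51 * (N : ℝ) ^ 2) := by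
          field_simp; ring
      _ ≤ _ := by
          apply div_le_div_of_nonneg_right _ (by positivity)
          exact mul_le_mul h4 h5 (by positivity) (by positivity)
  -- the bounds, divided by `|A|`
  have c1 : ‖t1‖ ≤ A.card * (60000 * Real.sqrt κ₀ * (Z : ℝ) ^ 2 * (X : ℝ) ^ 2) := by
    calc ‖t1‖ ≤ 5000 * Real.sqrt κ₀ * (Z : ℝ) ^ 2 * (2 * (X : ℝ)) ^ 2 * l2 N f *
        l2 (N + R') (fun x => f x - S (sm l r) N Q' f x) := b1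
      _ ≤ 5000 * Real.sqrt κ₀ * (Z : ℝ) ^ 2 * (2 * (X : ℝ)) ^ 2 * l2 N f * (3 * l2 N f) :=
          mul_le_mul_of_nonneg_left b1' (by positivity)
      _ = (l2 N f * l2 N f) * (60000 * Real.sqrt κ₀ * (Z : ℝ) ^ 2 * (X : ℝ) ^ 2) := by ring
      _ = _ := by rw [hl2]
  have c2 : ‖t2‖ ≤ A.card * ((Q₀ : ℝ) ^ 3 * ((2 * (B : ℝ) / s + 3) ^ 2 *
      (16000 * κ' * (Z : ℝ) ^ 2 * (X : ℝ) ^ 2) +
        2 * s * (2 / l₀) * (15000 * (X : ℝ) ^ 2 * (Z : ℝ) ^ 2))) := by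
    refine b2.trans (le_of_eq ?_)
    rw [mul_assoc, hl2]; ring
  have c3 : ‖t3‖ ≤ A.card * ((Q' : ℝ) ^ 3 * ((2 * (B : ℝ) / s' + 3) ^ 2 *
      (16000 * κ * (Z : ℝ) ^ 2 * (X : ℝ) ^ 2) +
        2 * s' * (8 / r) * (15000 * (X : ℝ) ^ 2 * (Z : ℝ) ^ 2))) := by
    refine b3.trans (le_of_eq ?_)
    rw [mul_assoc, hl2]; ring
  have c4 : m.re ≤ A.card * (60000 * Real.sqrt κ₀ * (Z : ℝ) ^ 2 * (X : ℝ) ^ 2 +
      (Q₀ : ℝ) ^ 3 * ((2 * (B : ℝ) / s + 3) ^ 2 * (16000 * κ' * (Z : ℝ) ^ 2 * (X : ℝ) ^ 2) +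
        2 * s * (2 / l₀) * (15000 * (X : ℝ) ^ 2 * (Z : ℝ) ^ 2)) +
      (Q' : ℝ) ^ 3 * ((2 * (B : ℝ) / s' + 3) ^ 2 * (16000 * κ * (Z : ℝ) ^ 2 * (X : ℝ) ^ 2) +
        2 * s' * (8 / r) * (15000 * (X : ℝ) ^ 2 * (Z : ℝ) ^ 2)) +
      300000 * (Q : ℝ) ^ 8 * (X : ℝ) ^ 3 * (Z : ℝ) ^ 2 / l +
      (200 * (X : ℝ) ^ 2 + 1500 * X * (Z : ℝ) ^ 2)) := by
    have e1 : m = T X Z B f f f - t1 - t2 - t3 - (t4 - m) := by rw [hchain]; ring
    have e2 : ‖m‖ ≤ ‖T X Z B f f f‖ + ‖t1‖ + ‖t2‖ + ‖t3‖ + ‖t4 - m‖ := by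
      calc ‖m‖ = ‖T X Z B f f f - t1 - t2 - t3 - (t4 - m)‖ := by rw [← e1]
        _ ≤ _ := by
          refine (norm_sub_le _ _).trans (add_le_add_left ?_ _)
          refine (norm_sub_le _ _).trans (add_le_add_left ?_ _)
          refine (norm_sub_le _ _).trans (add_le_add_left ?_ _)
          exact norm_sub_le _ _
    have e3 : m.re ≤ ‖m‖ := Complex.re_le_norm m
    refine (e3.trans e2).trans ?_
    have := add_le_add (add_le_add (add_le_add (add_le_add b5 c1) c2) c3) b4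
    refine this.trans (le_of_eq ?_)
    ring
  have c5 := (mul_le_mul_of_nonneg_left hcge hcard.le).trans (hmain.trans c4)
  have c6 := le_of_mul_le_mul_left c5 hcard
  exact absurd h.fin (not_lt.2 c6)

end H29I
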