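import Pool.Agent.Lib.H29I.Par

/-!
# Chunk G4: the parameters

All the conditions are of the form `c D^a ≤ D^b` with a constant `c` and `a < b`, so they hold as soon
as `D ≥ c` (`fin`: bound every summand by `C D^(800000 - 5)`, say; the right hand side is
`D^799996 / 204`; `2 B / s + 3 ≤ 83 D^100`, `2 B / s' + 3 ≤ 83 D^4710`,
`√κ₀ = D^(-6)`).

The exponents (`E` = exponent of `D`): `X : 60000`, `Z : 340000` (times `4`), `N : 400000`,
`B : 400000` (times `40`), `l₀ : 399950`, `s : 399900`, `Q₀ : 13`, `s' : 395290`, `Q' : 521`,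
`Q : 22001`, `l : 267990`, `r : 396870`, `κ₀ : -12`, `κ' : -260`, `κ : -11000`.

Exponents of the two sides: e1a `0 | 60000 - 24`; e1b `60000 | 340000 - 12`; e1c `12 | 13`;
e1d `65 - 399950 | -12`; e1e `399950 | 400000 - 48`; e1f `26 | 400000 - 36`; e2a `0 | 60000 - 1300`;
e2b `60000 | 340000 - 520`; e2c `520 | 521`; e2d `2605 - 267990 | -260`; e2e `396870 | 400000 - 3120`;
e2f `1042 | 400000 - 2860`; e3a `0 | 60000 - 55000`; e3b `60000 | 340000 - 22000`; e3c
`22000 | 22001`; e3d `110005 - 267990 | -11000`; e3e `267990 | 400000 - 132000`; e3f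
`44002 | 400000 - 121000`. In `fin`, divided by `D^800000`: `-6`; `39 + 200 - 260 = -21`;
`39 + 399900 - 399950 = -11`; `1563 + 9420 - 11000 = -17`; `1563 + 395290 - 396870 = -17`;
`8 · 22001 + 60000 - 267990 = -31982`; `120000 - 800000`; `60000 + 680000 - 800000`; against `-4`.
-/

namespace H29I

theorem G4_le {d c : ℝ} {a b : ℕ} (hd : 10 ^ 40 ≤ d) (hc : c ≤ 10 ^ 40) (hab : a + 1 ≤ b) :
    c * d ^ a ≤ d ^ b := by
  have hd1 : 1 ≤ d := le_trans (by norm_num) hd
  calc c * d ^ a ≤ d * d ^ a := mul_le_mul_of_nonneg_right (hc.trans hd) (by positivity)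
    _ = d ^ (a + 1) := by rw [pow_succ]; ring
    _ ≤ d ^ b := pow_le_pow_right₀ hd1 hab

theorem G4_inv {d : ℝ} (hd : 0 < d) {a k b c : ℕ} (h : a * k + c = b) :
    ((d ^ a)⁻¹) ^ k * d ^ b = d ^ c := by
  rw [← h, pow_add, inv_pow, ← pow_mul, ← mul_assoc, inv_mul_cancel₀ (by positivity), one_mul]

theorem G4_div {d : ℝ} (hd : 0 < d) {a b c : ℕ} (h : a + c = b) : d ^ b / d ^ a = d ^ c := by
  rw [← h, pow_add, mul_div_cancel_left₀ _ (by positivity)]

theorem G4_fin {d : ℝ} (hd : 10 ^ 40 ≤ d) :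
    60000 * Real.sqrt ((d ^ 12)⁻¹) * (4 * d ^ 340000) ^ 2 * (d ^ 60000) ^ 2 +
      (d ^ 13) ^ 3 * ((2 * (40 * d ^ 400000) / d ^ 399900 + 3) ^ 2 *
        (16000 * (d ^ 260)⁻¹ * (4 * d ^ 340000) ^ 2 * (d ^ 60000) ^ 2) +
        2 * d ^ 399900 * (2 / d ^ 399950) * (15000 * (d ^ 60000) ^ 2 * (4 * d ^ 340000) ^ 2)) +
      (d ^ 521) ^ 3 * ((2 * (40 * d ^ 400000) / d ^ 395290 + 3) ^ 2 *
        (16000 * (d ^ 11000)⁻¹ * (4 * d ^ 340000) ^ 2 * (d ^ 60000) ^ 2) +
        2 * d ^ 395290 * (8 / d ^ 396870) * (15000 * (d ^ 60000) ^ 2 * (4 * d ^ 340000) ^ 2)) +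
      300000 * (d ^ 22001) ^ 8 * (d ^ 60000) ^ 3 * (4 * d ^ 340000) ^ 2 / d ^ 267990 +
      (200 * (d ^ 60000) ^ 2 + 1500 * d ^ 60000 * (4 * d ^ 340000) ^ 2) <
    (d ^ 400000) ^ 2 / (204 * d ^ 4) := by
  have hd0 : 0 < d := lt_of_lt_of_le (by norm_num) hd
  have hd1 : 1 ≤ d := le_trans (by norm_num) hd
  have hA : (4 * d ^ 340000) ^ 2 * (d ^ 60000) ^ 2 = 16 * d ^ 800000 := by
    rw [mul_pow, ← pow_mul, ← pow_mul, mul_assoc, ← pow_add]; norm_num
  -- term 1
  have t1 : 60000 * Real.sqrt ((d ^ 12)⁻¹) * (4 * d ^ 340000) ^ 2 * (d ^ 60000) ^ 2 ≤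
      d ^ 799995 := by
    have h1 : Real.sqrt ((d ^ 12)⁻¹) = ((d ^ 6)⁻¹) ^ 1 := by
      rw [Real.sqrt_inv, pow_one]
      congr 1
      rw [show d ^ 12 = (d ^ 6) ^ 2 by rw [← pow_mul]]
      exact Real.sqrt_sq (by positivity)
    have h2 := G4_inv hd0 (a := 6) (k := 1) (b := 800000) (c := 799994) (by norm_num)
    calc 60000 * Real.sqrt ((d ^ 12)⁻¹) * (4 * d ^ 340000) ^ 2 * (d ^ 60000) ^ 2
        = 60000 * Real.sqrt ((d ^ 12)⁻¹) * ((4 * d ^ 340000) ^ 2 * (d ^ 60000) ^ 2) := by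
          rw [mul_assoc]
      _ = 960000 * (((d ^ 6)⁻¹) ^ 1 * d ^ 800000) := by rw [hA, h1]; ring
      _ = 960000 * d ^ 799994 := by rw [h2]
      _ ≤ _ := G4_le hd (by norm_num) (by norm_num)
  -- term 2
  have t2 : (d ^ 13) ^ 3 * ((2 * (40 * d ^ 400000) / d ^ 399900 + 3) ^ 2 *
        (16000 * (d ^ 260)⁻¹ * (4 * d ^ 340000) ^ 2 * (d ^ 60000) ^ 2)) ≤ d ^ 799995 := by
    have h1 : 2 * (40 * d ^ 400000) / d ^ 399900 = 80 * d ^ 100 := by
      rw [← G4_div hd0 (a := 399900) (b := 400000) (c := 100) (by norm_num)]; ring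
    have h2 : (2 * (40 * d ^ 400000) / d ^ 399900 + 3) ^ 2 ≤ 6889 * d ^ 200 := by
      have h3 : 1 ≤ d ^ 100 := one_le_pow₀ hd1
      calc (2 * (40 * d ^ 400000) / d ^ 399900 + 3) ^ 2 = (80 * d ^ 100 + 3) ^ 2 := by rw [h1]
        _ ≤ (83 * d ^ 100) ^ 2 := pow_le_pow_left₀ (by positivity) (by linarith) 2
        _ = 6889 * d ^ 200 := by rw [mul_pow, ← pow_mul]; norm_num
    have h4 : 16000 * (d ^ 260)⁻¹ * (4 * d ^ 340000) ^ 2 * (d ^ 60000) ^ 2 =
        256000 * d ^ 799740 := by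
      rw [mul_assoc, hA, ← G4_inv hd0 (a := 260) (k := 1) (b := 800000) (c := 799740)
        (by norm_num), pow_one]
      ring
    rw [h4]
    calc (d ^ 13) ^ 3 * ((2 * (40 * d ^ 400000) / d ^ 399900 + 3) ^ 2 * (256000 * d ^ 799740))
        ≤ (d ^ 13) ^ 3 * ((6889 * d ^ 200) * (256000 * d ^ 799740)) := by gcongr
      _ = 1763584000 * d ^ 799979 := by
        rw [← pow_mul, show (799979 : ℕ) = 13 * 3 + (200 + 799740) by norm_num, pow_add, pow_add]
        ring
      _ ≤ _ := G4_le hd (by norm_num) (by norm_num)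
  have t2' : (d ^ 13) ^ 3 * (2 * d ^ 399900 * (2 / d ^ 399950) *
      (15000 * (d ^ 60000) ^ 2 * (4 * d ^ 340000) ^ 2)) ≤ d ^ 799995 := by
    have h1 : d ^ 399900 * (2 / d ^ 399950) = 2 * (d ^ 50)⁻¹ := by
      rw [show (399950 : ℕ) = 399900 + 50 by norm_num, pow_add]
      field_simp
    have h2 : (d ^ 13) ^ 3 * (2 * d ^ 399900 * (2 / d ^ 399950) *
        (15000 * (d ^ 60000) ^ 2 * (4 * d ^ 340000) ^ 2)) =
        60000 * (d ^ 13) ^ 3 * (((d ^ 50)⁻¹) *
          ((4 * d ^ 340000) ^ 2 * (d ^ 60000) ^ 2)) := by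
      rw [mul_assoc 2 (d ^ 399900), h1]; ring
    rw [h2, hA]
    calc 60000 * (d ^ 13) ^ 3 * ((d ^ 50)⁻¹ * (16 * d ^ 800000))
        = 960000 * (d ^ 39 * ((((d ^ 50)⁻¹) ^ 1) * d ^ 800000)) := by
          rw [← pow_mul]; norm_num; ring
      _ = 960000 * d ^ 799989 := by
          rw [G4_inv hd0 (a := 50) (k := 1) (b := 800000) (c := 799950) (by norm_num), ← pow_add]
      _ ≤ _ := G4_le hd (by norm_num) (by norm_num)
  -- term 3
  have t3 : (d ^ 521) ^ 3 * ((2 * (40 * d ^ 400000) / d ^ 395290 + 3) ^ 2 *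
        (16000 * (d ^ 11000)⁻¹ * (4 * d ^ 340000) ^ 2 * (d ^ 60000) ^ 2)) ≤ d ^ 799995 := by
    have h1 : 2 * (40 * d ^ 400000) / d ^ 395290 = 80 * d ^ 4710 := by
      rw [← G4_div hd0 (a := 395290) (b := 400000) (c := 4710) (by norm_num)]; ring
    have h2 : (2 * (40 * d ^ 400000) / d ^ 395290 + 3) ^ 2 ≤ 6889 * d ^ 9420 := by
      have h3 : 1 ≤ d ^ 4710 := one_le_pow₀ hd1
      calc (2 * (40 * d ^ 400000) / d ^ 395290 + 3) ^ 2 = (80 * d ^ 4710 + 3) ^ 2 := by rw [h1]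
        _ ≤ (83 * d ^ 4710) ^ 2 := pow_le_pow_left₀ (by positivity) (by linarith) 2
        _ = 6889 * d ^ 9420 := by rw [mul_pow, ← pow_mul]; norm_num
    have h4 : 16000 * (d ^ 11000)⁻¹ * (4 * d ^ 340000) ^ 2 * (d ^ 60000) ^ 2 =
        256000 * d ^ 789000 := by
      rw [mul_assoc, hA, ← G4_inv hd0 (a := 11000) (k := 1) (b := 800000) (c := 789000)
        (by norm_num), pow_one]
      ring
    rw [h4]
    calc (d ^ 521) ^ 3 * ((2 * (40 * d ^ 400000) / d ^ 395290 + 3) ^ 2 * (256000 * d ^ 789000))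
        ≤ (d ^ 521) ^ 3 * ((6889 * d ^ 9420) * (256000 * d ^ 789000)) := by gcongr
      _ = 1763584000 * d ^ 799983 := by
        rw [← pow_mul, show (799983 : ℕ) = 521 * 3 + (9420 + 789000) by norm_num, pow_add, pow_add]
        ring
      _ ≤ _ := G4_le hd (by norm_num) (by norm_num)
  have t3' : (d ^ 521) ^ 3 * (2 * d ^ 395290 * (8 / d ^ 396870) *
      (15000 * (d ^ 60000) ^ 2 * (4 * d ^ 340000) ^ 2)) ≤ d ^ 799995 := by
    have h1 : d ^ 395290 * (8 / d ^ 396870) = 8 * (d ^ 1580)⁻¹ := by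
      rw [show (396870 : ℕ) = 395290 + 1580 by norm_num, pow_add]
      field_simp
    have h2 : (d ^ 521) ^ 3 * (2 * d ^ 395290 * (8 / d ^ 396870) *
        (15000 * (d ^ 60000) ^ 2 * (4 * d ^ 340000) ^ 2)) =
        240000 * (d ^ 521) ^ 3 * (((d ^ 1580)⁻¹) *
          ((4 * d ^ 340000) ^ 2 * (d ^ 60000) ^ 2)) := by
      rw [mul_assoc 2 (d ^ 395290), h1]; ring
    rw [h2, hA]
    calc 240000 * (d ^ 521) ^ 3 * ((d ^ 1580)⁻¹ * (16 * d ^ 800000))
        = 3840000 * (d ^ 1563 * ((((d ^ 1580)⁻¹) ^ 1) * d ^ 800000)) := by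
          rw [← pow_mul]; norm_num; ring
      _ = 3840000 * d ^ 799983 := by
          rw [G4_inv hd0 (a := 1580) (k := 1) (b := 800000) (c := 798420) (by norm_num), ← pow_add]
      _ ≤ _ := G4_le hd (by norm_num) (by norm_num)
  -- term 4
  have t4 : 300000 * (d ^ 22001) ^ 8 * (d ^ 60000) ^ 3 * (4 * d ^ 340000) ^ 2 / d ^ 267990 ≤
      d ^ 799995 := by
    calc 300000 * (d ^ 22001) ^ 8 * (d ^ 60000) ^ 3 * (4 * d ^ 340000) ^ 2 / d ^ 267990
        = 4800000 * (d ^ 1036008 / d ^ 267990) := by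
          rw [show (1036008 : ℕ) = 22001 * 8 + (60000 * 3 + 340000 * 2) by norm_num, pow_add,
            pow_add, pow_mul, pow_mul, pow_mul]
          ring
      _ = 4800000 * d ^ 768018 := by
          rw [G4_div hd0 (a := 267990) (b := 1036008) (c := 768018) (by norm_num)]
      _ ≤ _ := G4_le hd (by norm_num) (by norm_num)
  -- term 5
  have t5 : 200 * (d ^ 60000) ^ 2 ≤ d ^ 799995 := by
    rw [← pow_mul]; exact G4_le hd (by norm_num) (by norm_num)
  have t6 : 1500 * d ^ 60000 * (4 * d ^ 340000) ^ 2 ≤ d ^ 799995 := by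
    calc 1500 * d ^ 60000 * (4 * d ^ 340000) ^ 2 = 24000 * d ^ 740000 := by
          rw [mul_pow, ← pow_mul, show (740000 : ℕ) = 60000 + 340000 * 2 by norm_num, pow_add]
          ring
      _ ≤ _ := G4_le hd (by norm_num) (by norm_num)
  have hR : (d ^ 400000) ^ 2 / (204 * d ^ 4) = (d / 204) * d ^ 799995 := by
    rw [← pow_mul, show (400000 * 2 : ℕ) = 4 + (1 + 799995) by norm_num, pow_add, pow_add]
    field_simp
  rw [hR]
  have hpos : 0 < d ^ 799995 := by positivity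
  have hbig : 8 < d / 204 := by
    rw [lt_div_iff₀ (by norm_num)]
    exact lt_of_lt_of_le (by norm_num) hd
  have hlast := mul_lt_mul_of_pos_right hbig hpos
  rw [mul_add ((d ^ 13) ^ 3), mul_add ((d ^ 521) ^ 3)]
  linarith

theorem par_exists : ∃ D₀ : ℕ, ∀ D : ℕ, D₀ ≤ D →
    Par D (D ^ 60000) (4 * D ^ 340000) (D ^ 400000) (40 * D ^ 400000) (D ^ 399950) (D ^ 399900)
      (D ^ 13) (D ^ 395290) (D ^ 521) (D ^ 22001) (D ^ 267990) ((D : ℝ) ^ 396870)
      (((D : ℝ) ^ 12)⁻¹) (((D : ℝ) ^ 260)⁻¹) (((D : ℝ) ^ 11000)⁻¹) := by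
  refine ⟨10 ^ 40, fun D hD => ?_⟩
  have hd : (10 : ℝ) ^ 40 ≤ (D : ℝ) := by exact_mod_cast hD
  have hD1 : 1 ≤ D := le_trans (by norm_num) hD
  have hd0 : (0 : ℝ) < D := lt_of_lt_of_le (by norm_num) hd
  have hd1 : (1 : ℝ) ≤ D := le_trans (by norm_num) hd
  have hpow : ∀ n : ℕ, 1 ≤ D ^ n := fun n => Nat.one_le_pow _ _ hD1
  have hle : ∀ {a b : ℕ} (c : ℕ), c ≤ 10 ^ 40 → a + 1 ≤ b → c * D ^ a ≤ D ^ b := by
    intro a b c hc hab
    calc c * D ^ a ≤ D * D ^ a := Nat.mul_le_mul_right _ (hc.trans hD)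
      _ = D ^ (a + 1) := by rw [pow_succ]; ring
      _ ≤ D ^ b := Nat.pow_le_pow_right hD1 hab
  exact
  { hD := hD1
    hX := hpow _
    hZ := le_trans (by norm_num) (Nat.mul_le_mul_left 4 (hpow _))
    hN := hpow _
    hNZ := by
      rw [show (400000 : ℕ) = 60000 + 340000 by norm_num, pow_add]; ring
    hB := by
      rw [show 8 * D ^ 60000 * (4 * D ^ 340000) = 32 * D ^ 400000 by
        rw [show (400000 : ℕ) = 60000 + 340000 by norm_num, pow_add]; ring]
      omega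
    hB₀ := by
      have := hle (a := 399950) (b := 400000) 1 (by norm_num) (by norm_num)
      omega
    hl₀ := hpow _
    hl := hpow _
    hs := hpow _
    hs' := hpow _
    hlr := by
      push_cast
      exact pow_le_pow_right₀ hd1 (by norm_num)
    hrN := by
      push_cast
      exact pow_le_pow_right₀ hd1 (by norm_num)
    hlN := hle 10 (by norm_num) (by norm_num)
    hQ'1 := hpow _
    hQ'Q := Nat.pow_le_pow_right hD1 (by norm_num)
    hQX := Nat.pow_le_pow_right hD1 (by norm_num)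
    hκ₀ := by positivity
    hκ₀1 := inv_le_one_of_one_le₀ (one_le_pow₀ hd1)
    hκ' := by positivity
    hκ'1 := inv_le_one_of_one_le₀ (one_le_pow₀ hd1)
    hκ := by positivity
    hκ1 := inv_le_one_of_one_le₀ (one_le_pow₀ hd1)
    e1a := by
      push_cast
      have h1 := G4_inv hd0 (a := 12) (k := 2) (b := 60000) (c := 59976) (by norm_num)
      have h2 := G4_le hd (c := 40000) (a := 0) (b := 59976) (by norm_num) (by norm_num)
      rw [pow_zero, mul_one] at h2
      rw [mul_left_comm, h1]; linarith [pow_pos hd0 59976]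
    e1b := by
      push_cast
      have h1 := G4_inv hd0 (a := 12) (k := 1) (b := 340000) (c := 339988) (by norm_num)
      have h2 := G4_le hd (c := 1600) (a := 60000) (b := 339988) (by norm_num) (by norm_num)
      rw [pow_one] at h1
      rw [mul_left_comm _ (4 : ℝ), h1]; linarith [pow_pos hd0 339988]
    e1c := by
      push_cast
      rw [div_inv_eq_mul]
      exact G4_le hd (by norm_num) (by norm_num)
    e1d := by
      push_cast
      have h1 : ((D : ℝ) ^ 13) ^ 5 * (2 / (D : ℝ) ^ 399950) = 2 * ((D : ℝ) ^ 399885)⁻¹ := by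
        rw [← pow_mul, show (399950 : ℕ) = 13 * 5 + 399885 by norm_num, pow_add]
        field_simp
      rw [h1, ← div_eq_mul_inv, div_le_iff₀ (by positivity)]
      have h2 := G4_inv hd0 (a := 12) (k := 1) (b := 399885) (c := 399873) (by norm_num)
      rw [pow_one] at h2
      rw [h2]
      have h3 := G4_le hd (c := 2) (a := 0) (b := 399873) (by norm_num) (by norm_num)
      rwa [pow_zero, mul_one] at h3
    e1e := by
      push_cast
      have h1 := G4_inv hd0 (a := 12) (k := 4) (b := 400000) (c := 399952) (by norm_num)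
      have h2 := G4_le hd (c := 2 * 10 ^ 9) (a := 399950) (b := 399952) (by norm_num) (by norm_num)
      have h3 : ((D : ℝ) ^ 12)⁻¹ ^ 4 * (4 * (D : ℝ) ^ 340000) * (2 * (D : ℝ) ^ 60000) =
          8 * (((D : ℝ) ^ 12)⁻¹ ^ 4 * (D : ℝ) ^ 400000) := by
        rw [show (400000 : ℕ) = 340000 + 60000 by norm_num, pow_add]; ring
      rw [h3, h1]; linarith [pow_pos hd0 399952]
    e1f := by
      push_cast
      have h1 := G4_inv hd0 (a := 12) (k := 3) (b := 400000) (c := 399964) (by norm_num)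
      have h2 := G4_le hd (c := 6 * 10 ^ 6) (a := 26) (b := 399964) (by norm_num) (by norm_num)
      have h3 : ((D : ℝ) ^ 12)⁻¹ ^ 3 * (4 * (D : ℝ) ^ 340000) * (2 * (D : ℝ) ^ 60000) =
          8 * (((D : ℝ) ^ 12)⁻¹ ^ 3 * (D : ℝ) ^ 400000) := by
        rw [show (400000 : ℕ) = 340000 + 60000 by norm_num, pow_add]; ring
      have h4 : ((D : ℝ) ^ 13) ^ 2 = (D : ℝ) ^ 26 := by rw [← pow_mul]
      rw [h3, h1, h4]; linarith [pow_pos hd0 399964]
    e2a := by
      push_cast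
      have h1 := G4_inv hd0 (a := 260) (k := 5) (b := 60000) (c := 58700) (by norm_num)
      have h2 := G4_le hd (c := 10 ^ 16) (a := 0) (b := 58700) (by norm_num) (by norm_num)
      rw [pow_zero, mul_one] at h2
      rw [mul_left_comm, h1]; linarith [pow_pos hd0 58700]
    e2b := by
      push_cast
      have h1 := G4_inv hd0 (a := 260) (k := 2) (b := 340000) (c := 339480) (by norm_num)
      have h2 := G4_le hd (c := 2 * 10 ^ 7) (a := 60000) (b := 339480) (by norm_num) (by norm_num)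
      rw [mul_left_comm _ (4 : ℝ), h1]; linarith [pow_pos hd0 339480]
    e2c := by
      push_cast
      rw [inv_pow, div_inv_eq_mul, ← pow_mul]
      exact G4_le hd (by norm_num) (by norm_num)
    e2d := by
      push_cast
      have h1 : ((D : ℝ) ^ 521) ^ 5 * (2 / (D : ℝ) ^ 267990) = 2 * ((D : ℝ) ^ 265385)⁻¹ := by
        rw [← pow_mul, show (267990 : ℕ) = 521 * 5 + 265385 by norm_num, pow_add]
        field_simp
      rw [h1, ← div_eq_mul_inv, div_le_iff₀ (by positivity)]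
      have h2 := G4_inv hd0 (a := 260) (k := 1) (b := 265385) (c := 265125) (by norm_num)
      rw [pow_one] at h2
      rw [h2]
      have h3 := G4_le hd (c := 2) (a := 0) (b := 265125) (by norm_num) (by norm_num)
      rwa [pow_zero, mul_one] at h3
    e2e := by
      push_cast
      have h1 := G4_inv hd0 (a := 260) (k := 12) (b := 400000) (c := 396880) (by norm_num)
      have h2 := G4_le hd (c := 10 ^ 40) (a := 396870) (b := 396880) le_rfl (by norm_num)
      have h2' : (D : ℝ) ^ 267990 ≤ (D : ℝ) ^ 396870 := pow_le_pow_right₀ hd1 (by norm_num)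
      have h3 : ((D : ℝ) ^ 260)⁻¹ ^ 12 * (4 * (D : ℝ) ^ 340000) * (2 * (D : ℝ) ^ 60000) =
          8 * (((D : ℝ) ^ 260)⁻¹ ^ 12 * (D : ℝ) ^ 400000) := by
        rw [show (400000 : ℕ) = 340000 + 60000 by norm_num, pow_add]; ring
      rw [h3, h1]
      have hp := pow_pos hd0 396870
      have hp' := pow_pos hd0 396880
      calc (2 * (D : ℝ) ^ 267990 + 4 * (D : ℝ) ^ 396870) * 10 ^ 37
          ≤ (6 * (D : ℝ) ^ 396870) * 10 ^ 37 := by
            apply mul_le_mul_of_nonneg_right _ (by positivity); linarith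
        _ ≤ 10 ^ 40 * (D : ℝ) ^ 396870 := by linarith
        _ ≤ _ := by linarith
    e2f := by
      push_cast
      have h1 := G4_inv hd0 (a := 260) (k := 11) (b := 400000) (c := 397140) (by norm_num)
      have h2 := G4_le hd (c := 2 * 10 ^ 35) (a := 1042) (b := 397140) (by norm_num) (by norm_num)
      have h3 : ((D : ℝ) ^ 260)⁻¹ ^ 11 * (4 * (D : ℝ) ^ 340000) * (2 * (D : ℝ) ^ 60000) =
          8 * (((D : ℝ) ^ 260)⁻¹ ^ 11 * (D : ℝ) ^ 400000) := by
        rw [show (400000 : ℕ) = 340000 + 60000 by norm_num, pow_add]; ring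
      have h4 : ((D : ℝ) ^ 521) ^ 2 = (D : ℝ) ^ 1042 := by rw [← pow_mul]
      rw [h3, h1, h4]; linarith [pow_pos hd0 397140]
    e3a := by
      push_cast
      have h1 := G4_inv hd0 (a := 11000) (k := 5) (b := 60000) (c := 5000) (by norm_num)
      have h2 := G4_le hd (c := 10 ^ 16) (a := 0) (b := 5000) (by norm_num) (by norm_num)
      rw [pow_zero, mul_one] at h2
      rw [mul_left_comm, h1]; linarith [pow_pos hd0 5000]
    e3b := by
      push_cast
      have h1 := G4_inv hd0 (a := 11000) (k := 2) (b := 340000) (c := 318000) (by norm_num)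
      have h2 := G4_le hd (c := 2 * 10 ^ 7) (a := 60000) (b := 318000) (by norm_num) (by norm_num)
      rw [mul_left_comm _ (4 : ℝ), h1]; linarith [pow_pos hd0 318000]
    e3c := by
      push_cast
      rw [inv_pow, div_inv_eq_mul, ← pow_mul]
      exact G4_le hd (by norm_num) (by norm_num)
    e3d := by
      push_cast
      have h1 : ((D : ℝ) ^ 22001) ^ 5 * (2 / (D : ℝ) ^ 267990) = 2 * ((D : ℝ) ^ 157985)⁻¹ := by
        rw [← pow_mul, show (267990 : ℕ) = 22001 * 5 + 157985 by norm_num, pow_add]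
        field_simp
      rw [h1, ← div_eq_mul_inv, div_le_iff₀ (by positivity)]
      have h2 := G4_inv hd0 (a := 11000) (k := 1) (b := 157985) (c := 146985) (by norm_num)
      rw [pow_one] at h2
      rw [h2]
      have h3 := G4_le hd (c := 2) (a := 0) (b := 146985) (by norm_num) (by norm_num)
      rwa [pow_zero, mul_one] at h3
    e3e := by
      push_cast
      have h1 := G4_inv hd0 (a := 11000) (k := 12) (b := 400000) (c := 268000) (by norm_num)
      have h2 := G4_le hd (c := 10 ^ 40) (a := 267990) (b := 268000) le_rfl (by norm_num)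
      have h3 : ((D : ℝ) ^ 11000)⁻¹ ^ 12 * (4 * (D : ℝ) ^ 340000) * (2 * (D : ℝ) ^ 60000) =
          8 * (((D : ℝ) ^ 11000)⁻¹ ^ 12 * (D : ℝ) ^ 400000) := by
        rw [show (400000 : ℕ) = 340000 + 60000 by norm_num, pow_add]; ring
      rw [h3, h1]
      have hp := pow_pos hd0 267990
      have hp' := pow_pos hd0 268000
      linarith
    e3f := by
      push_cast
      have h1 := G4_inv hd0 (a := 11000) (k := 11) (b := 400000) (c := 279000) (by norm_num)
      have h2 := G4_le hd (c := 2 * 10 ^ 35) (a := 44002) (b := 279000) (by norm_num) (by norm_num)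
      have h3 : ((D : ℝ) ^ 11000)⁻¹ ^ 11 * (4 * (D : ℝ) ^ 340000) * (2 * (D : ℝ) ^ 60000) =
          8 * (((D : ℝ) ^ 11000)⁻¹ ^ 11 * (D : ℝ) ^ 400000) := by
        rw [show (400000 : ℕ) = 340000 + 60000 by norm_num, pow_add]; ring
      have h4 : ((D : ℝ) ^ 22001) ^ 2 = (D : ℝ) ^ 44002 := by rw [← pow_mul]
      rw [h3, h1, h4]; linarith [pow_pos hd0 279000]
    fin := by
      push_cast
      exact G4_fin hd }

end H29I
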