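import Pool.Agent.Lib.H29I.C3
import Pool.Agent.Lib.H29I.G3
import Pool.Agent.Lib.H29I.G4

/-!
# Chunk G5: conclusion

`main_D`: `par_exists`, `main_of_par`, and `|W X| ≥ X / (8 log X) = X / (480000 log D) ≥ X / D` for
`X = D^60000` and large `D`.

`main_N`: let `D^400000 ≤ N < (D + 1)^400000 =: N'`. For `D ≥ 10⁶`,
`N' ≤ (1 + 1 / D)^400000 N ≤ exp (0.4) N ≤ 2 N`. By `main_D`, `|A| (D + 1) ≤ N'² ≤ 4 N²` and
`D + 1 ≥ N^(1 / 400000)`, so `|A| ≤ 4 N^(2 - 1 / 400000) ≤ N^(2 - 10⁻⁶)` for large `N`.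
-/

open Finset Complex

namespace H29I

theorem G5_card {D : ℕ} (hD : 10 ^ 12 ≤ D)
    (h : ((D ^ 60000 : ℕ) : ℝ) / (8 * Real.log ((D ^ 60000 : ℕ) : ℝ)) ≤
      ((W (D ^ 60000)).card : ℝ)) :
    ((D ^ 60000 : ℕ) : ℝ) / D ≤ ((W (D ^ 60000)).card : ℝ) := by
  refine le_trans ?_ h
  have hd : (10 : ℝ) ^ 12 ≤ (D : ℝ) := by exact_mod_cast hD
  have hd0 : (0 : ℝ) < D := lt_of_lt_of_le (by norm_num) hd
  have h1 : Real.log ((D ^ 60000 : ℕ) : ℝ) = 60000 * Real.log D := by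
    rw [Nat.cast_pow, Real.log_pow]; norm_num
  rw [h1]
  have hlog0 : 0 < Real.log D := Real.log_pos (lt_of_lt_of_le (by norm_num) hd)
  apply div_le_div_of_nonneg_left (by positivity) (by positivity)
  have hs : (10 : ℝ) ^ 6 ≤ Real.sqrt D := by
    rw [show (10 : ℝ) ^ 6 = Real.sqrt ((10 ^ 6) ^ 2) by
      rw [Real.sqrt_sq (by norm_num)]]
    exact Real.sqrt_le_sqrt (by norm_num; linarith)
  have hs2 : Real.sqrt D * Real.sqrt D = D := Real.mul_self_sqrt hd0.le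
  have hs0 : 0 < Real.sqrt D := Real.sqrt_pos.2 hd0
  have h2 : Real.log D = 2 * Real.log (Real.sqrt D) := by
    rw [Real.log_sqrt hd0.le]; ring
  have h3 : Real.log (Real.sqrt D) ≤ Real.sqrt D := by
    have := Real.log_le_sub_one_of_pos hs0
    linarith
  calc 8 * (60000 * Real.log D) = 960000 * Real.log (Real.sqrt D) := by rw [h2]; ring
    _ ≤ 960000 * Real.sqrt D := by linarith
    _ ≤ Real.sqrt D * Real.sqrt D := by
        apply mul_le_mul_of_nonneg_right _ hs0.le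
        linarith
    _ = D := hs2

theorem main_D : ∃ D₀ : ℕ, ∀ D : ℕ, D₀ ≤ D → ∀ A : Finset G, A ⊆ box (D ^ 400000) → TriFree A →
    (A.card : ℝ) * D ≤ ((D : ℝ) ^ 400000) ^ 2 := by
  obtain ⟨D₁, h₁⟩ := par_exists
  obtain ⟨X₀, hX₀⟩ := exists_card_W_ge
  refine ⟨max D₁ (max X₀ (10 ^ 12)), fun D hD A hA hfree => ?_⟩
  have hD1 : D₁ ≤ D := le_trans (le_max_left _ _) hD
  have hD2 : X₀ ≤ D := le_trans (le_trans (le_max_left _ _) (le_max_right _ _)) hD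
  have hD3 : 10 ^ 12 ≤ D := le_trans (le_trans (le_max_right _ _) (le_max_right _ _)) hD
  have hX : X₀ ≤ D ^ 60000 :=
    hD2.trans (Nat.le_self_pow (by norm_num) D)
  have hcard := G5_card hD3 (hX₀ _ hX)
  have := main_of_par (h₁ D hD1) hcard hA hfree
  rw [Nat.cast_pow] at this
  exact this

theorem G5_le {D N : ℕ} {t : ℝ} (ht0 : 0 < t) (htD : t < (D : ℝ) + 1)
    (htN : t ^ 400000 = (N : ℝ)) : N ≤ (D + 1) ^ 400000 := by
  have hND : (N : ℝ) ≤ ((D : ℝ) + 1) ^ 400000 := by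
    rw [← htN]; exact pow_le_pow_left₀ ht0.le htD.le _
  have : (N : ℝ) ≤ (((D + 1) ^ 400000 : ℕ) : ℝ) := by
    rw [Nat.cast_pow, Nat.cast_add, Nat.cast_one]; exact hND
  exact Nat.cast_le.1 this

theorem G5_two {d N : ℝ} (hNpos : 0 < N) (hd6 : (10 : ℝ) ^ 6 ≤ d) (hDN : d ^ 400000 ≤ N) :
    (d + 1) ^ 400000 ≤ 2 * N := by
  have hd0 : 0 < d := lt_of_lt_of_le (by norm_num) hd6
  have h1 : d + 1 ≤ d * Real.exp (1 / d) := by
    have h2 := Real.add_one_le_exp (1 / d)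
    calc d + 1 = d * (1 / d + 1) := by
          rw [mul_add, mul_one_div_cancel hd0.ne']; ring
      _ ≤ _ := mul_le_mul_of_nonneg_left h2 hd0.le
  calc (d + 1) ^ 400000 ≤ (d * Real.exp (1 / d)) ^ 400000 :=
        pow_le_pow_left₀ (by positivity) h1 _
    _ = d ^ 400000 * Real.exp (400000 * (1 / d)) := by
        rw [mul_pow, ← Real.exp_nat_mul, Nat.cast_ofNat]
    _ ≤ N * 2 := by
        apply mul_le_mul hDN _ (Real.exp_pos _).le hNpos.le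
        have h3 : 400000 * (1 / d) ≤ Real.log 2 := by
          have h4 : 400000 * (1 / d) ≤ 0.4 := by
            rw [mul_one_div, div_le_iff₀ hd0]; linarith
          have := Real.log_two_gt_d9
          linarith
        calc Real.exp (400000 * (1 / d)) ≤ Real.exp (Real.log 2) := Real.exp_le_exp.2 h3
          _ = 2 := Real.exp_log (by norm_num)
    _ = 2 * N := by ring

theorem G5_end {a N t : ℝ} (hNpos : 0 < N) (ht6 : (10 : ℝ) ^ 6 ≤ t)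
    (htdef : t = N ^ ((1 : ℝ) / 400000)) (h4 : a * t ≤ 4 * N ^ 2) :
    a ≤ N ^ ((2 : ℝ) - 1 / 10 ^ 6) := by
  have ht0 : 0 < t := lt_of_lt_of_le (by norm_num) ht6
  have h5 : (4 : ℝ) ≤ N ^ ((3 : ℝ) / 2 / 10 ^ 6) := by
    have h6 : N ^ ((3 : ℝ) / 2 / 10 ^ 6) = t ^ ((3 : ℝ) / 5) := by
      rw [htdef, ← Real.rpow_mul hNpos.le]; norm_num
    rw [h6]
    calc (4 : ℝ) ≤ ((10 : ℝ) ^ 6) ^ ((1 : ℝ) / 2) := by
          rw [← Real.sqrt_eq_rpow]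
          exact Real.le_sqrt_of_sq_le (by norm_num)
      _ ≤ t ^ ((1 : ℝ) / 2) := Real.rpow_le_rpow (by norm_num) ht6 (by norm_num)
      _ ≤ t ^ ((3 : ℝ) / 5) :=
          Real.rpow_le_rpow_of_exponent_le (le_trans (by norm_num) ht6) (by norm_num)
  have h8 : N ^ ((2 : ℝ) - 1 / 10 ^ 6) * t = N ^ 2 * N ^ ((3 : ℝ) / 2 / 10 ^ 6) := by
    rw [htdef, ← Real.rpow_add hNpos, ← Real.rpow_two, ← Real.rpow_add hNpos]
    norm_num
  have h9 : a * t ≤ N ^ ((2 : ℝ) - 1 / 10 ^ 6) * t := by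
    rw [h8]
    refine h4.trans ?_
    rw [mul_comm]
    exact mul_le_mul_of_nonneg_left h5 (by positivity)
  exact le_of_mul_le_mul_right h9 ht0

theorem G5_card_le {D₀ : ℕ}
    (hD₀ : ∀ D : ℕ, D₀ ≤ D → ∀ A : Finset G, A ⊆ box (D ^ 400000) → TriFree A →
      (A.card : ℝ) * D ≤ ((D : ℝ) ^ 400000) ^ 2) {N D : ℕ} (hDD₀ : D₀ ≤ D + 1) {A : Finset G}
    (hA : A ⊆ box N) (hfree : TriFree A) (hND' : N ≤ (D + 1) ^ 400000) :
    (A.card : ℝ) * (D + 1) ≤ (((D : ℝ) + 1) ^ 400000) ^ 2 := by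
  have hmain := hD₀ (D + 1) hDD₀ A (hA.trans (box_mono hND')) hfree
  rw [Nat.cast_add, Nat.cast_one] at hmain
  exact hmain

theorem G5_pow {N t : ℝ} (hNpos : 0 < N) (htdef : t = N ^ ((1 : ℝ) / 400000)) :
    t ^ 400000 = N := by
  rw [htdef, ← Real.rpow_natCast, ← Real.rpow_mul hNpos.le]
  norm_num

theorem main_N : ∃ N₀ : ℕ, ∀ N : ℕ, N₀ ≤ N → ∀ A : Finset G, A ⊆ box N → TriFree A →
    (A.card : ℝ) ≤ (N : ℝ) ^ ((2 : ℝ) - 1 / 10 ^ 6) := by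
  obtain ⟨D₀, hD₀⟩ := main_D
  have htend : Filter.Tendsto (fun N : ℕ => (N : ℝ) ^ ((1 : ℝ) / 400000)) Filter.atTop
      Filter.atTop :=
    (tendsto_rpow_atTop (by norm_num)).comp tendsto_natCast_atTop_atTop
  obtain ⟨N₁, hN₁⟩ := Filter.eventually_atTop.1
    (htend.eventually_ge_atTop ((D₀ : ℝ) + 10 ^ 6 + 1))
  refine ⟨N₁ + 1, fun N hN A hA hfree => ?_⟩
  have hN1 : 1 ≤ N := le_trans (Nat.le_add_left _ _) hN
  have hNpos : (0 : ℝ) < N := Nat.cast_pos.2 hN1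
  have ht := hN₁ N (le_trans (Nat.le_add_right _ _) hN)
  obtain ⟨t, htdef⟩ : ∃ t : ℝ, t = (N : ℝ) ^ ((1 : ℝ) / 400000) := ⟨_, rfl⟩
  rw [← htdef] at ht
  have hD00 : (0 : ℝ) ≤ D₀ := Nat.cast_nonneg _
  have ht0 : 0 < t := by linarith
  obtain ⟨D, hDt, htD⟩ : ∃ D : ℕ, (D : ℝ) ≤ t ∧ t < (D : ℝ) + 1 :=
    ⟨⌊t⌋₊, Nat.floor_le ht0.le, Nat.lt_floor_add_one t⟩
  have hd6 : (10 : ℝ) ^ 6 ≤ (D : ℝ) := by linarith
  have hDD₀ : D₀ ≤ D + 1 := by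
    have : (D₀ : ℝ) ≤ ((D + 1 : ℕ) : ℝ) := by
      rw [Nat.cast_add, Nat.cast_one]; linarith
    exact Nat.cast_le.1 this
  have htN := G5_pow hNpos htdef
  have hDN : (D : ℝ) ^ 400000 ≤ N := by
    rw [← htN]; exact pow_le_pow_left₀ (Nat.cast_nonneg _) hDt _
  have hmain := G5_card_le hD₀ hDD₀ hA hfree (G5_le ht0 htD htN)
  have h2N := G5_two hNpos hd6 hDN
  have h4 : (A.card : ℝ) * t ≤ 4 * (N : ℝ) ^ 2 := by
    have h5 : (A.card : ℝ) * t ≤ A.card * ((D : ℝ) + 1) :=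
      mul_le_mul_of_nonneg_left htD.le (Nat.cast_nonneg _)
    have h6 : (((D : ℝ) + 1) ^ 400000) ^ 2 ≤ (2 * N) ^ 2 :=
      pow_le_pow_left₀ (pow_nonneg (add_nonneg (Nat.cast_nonneg _) zero_le_one) _) h2N 2
    have h7 : (2 * (N : ℝ)) ^ 2 = 4 * (N : ℝ) ^ 2 := by ring
    rw [h7] at h6
    exact h5.trans (hmain.trans h6)
  exact G5_end hNpos (hd6.trans hDt) htdef h4

end H29I
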