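import Mathlib

/-!
# The conditions on the parameters
-/

namespace H29I

/-- The conditions on the parameters. -/
structure Par (D X Z N B l₀ s Q₀ s' Q' Q l : ℕ) (r κ₀ κ' κ : ℝ) : Prop where
  hD : 1 ≤ D
  hX : 1 ≤ X
  hZ : 1 ≤ Z
  hN : 1 ≤ N
  hNZ : 4 * N = X * Z
  hB : N + 8 * X * Z ≤ B
  hB₀ : N + l₀ ≤ B
  hl₀ : 1 ≤ l₀
  hl : 1 ≤ l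
  hs : 1 ≤ s
  hs' : 1 ≤ s'
  hlr : (l : ℝ) ≤ r
  hrN : r ≤ N
  hlN : 10 * l ≤ N
  hQ'1 : 1 ≤ Q'
  hQ'Q : Q' ≤ Q
  hQX : Q ≤ X
  hκ₀ : 0 < κ₀
  hκ₀1 : κ₀ ≤ 1
  hκ' : 0 < κ'
  hκ'1 : κ' ≤ 1
  hκ : 0 < κ
  hκ1 : κ ≤ 1
  e1a : 40000 ≤ κ₀ ^ 2 * (2 * X)
  e1b : 800 * (2 * (X : ℝ)) ≤ κ₀ * Z
  e1c : 400 / κ₀ ≤ Q₀
  e1d : (Q₀ : ℝ) ^ 5 * (2 / l₀) ≤ κ₀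
  e1e : (2 * l₀) * 10 ^ 9 ≤ κ₀ ^ 4 * Z * (2 * X)
  e1f : 2 * (Q₀ : ℝ) ^ 2 * (3 * 10 ^ 6) ≤ κ₀ ^ 3 * Z * (2 * X)
  e2a : 10 ^ 16 ≤ κ' ^ 5 * (2 * X)
  e2b : 10 ^ 7 * (2 * (X : ℝ)) ≤ κ' ^ 2 * Z
  e2c : 10 ^ 7 / κ' ^ 2 ≤ Q'
  e2d : (Q' : ℝ) ^ 5 * (2 / l) ≤ κ'
  e2e : (2 * l + 4 * r) * 10 ^ 37 ≤ κ' ^ 12 * Z * (2 * X)
  e2f : 2 * (Q' : ℝ) ^ 2 * 10 ^ 35 ≤ κ' ^ 11 * Z * (2 * X)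
  e3a : 10 ^ 16 ≤ κ ^ 5 * (2 * X)
  e3b : 10 ^ 7 * (2 * (X : ℝ)) ≤ κ ^ 2 * Z
  e3c : 10 ^ 7 / κ ^ 2 ≤ Q
  e3d : (Q : ℝ) ^ 5 * (2 / l) ≤ κ
  e3e : (2 * l) * 10 ^ 37 ≤ κ ^ 12 * Z * (2 * X)
  e3f : 2 * (Q : ℝ) ^ 2 * 10 ^ 35 ≤ κ ^ 11 * Z * (2 * X)
  fin : 60000 * Real.sqrt κ₀ * (Z : ℝ) ^ 2 * (X : ℝ) ^ 2 +
      (Q₀ : ℝ) ^ 3 * ((2 * (B : ℝ) / s + 3) ^ 2 * (16000 * κ' * (Z : ℝ) ^ 2 * (X : ℝ) ^ 2) +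
        2 * s * (2 / l₀) * (15000 * (X : ℝ) ^ 2 * (Z : ℝ) ^ 2)) +
      (Q' : ℝ) ^ 3 * ((2 * (B : ℝ) / s' + 3) ^ 2 * (16000 * κ * (Z : ℝ) ^ 2 * (X : ℝ) ^ 2) +
        2 * s' * (8 / r) * (15000 * (X : ℝ) ^ 2 * (Z : ℝ) ^ 2)) +
      300000 * (Q : ℝ) ^ 8 * (X : ℝ) ^ 3 * (Z : ℝ) ^ 2 / l +
      (200 * (X : ℝ) ^ 2 + 1500 * X * (Z : ℝ) ^ 2) < (N : ℝ) ^ 2 / (204 * (D : ℝ) ^ 4)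

end H29I
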